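import Mathlib

/-! Bundle of small proof modules (one section per former module). -/

section

/-!
Basic definitions for the shift-independent small-ball bound for the smallest singular value.
-/

open MeasureTheory Matrix
open scoped ENNReal NNReal

namespace Pool.Agent.SMin

/-- `T♭ = tr Θ - tr Θ² / tr Θ`. -/
noncomputable def tflat {ι : Type} [Fintype ι] (Θ : Matrix ι ι ℝ) : ℝ :=
  Θ.trace - (Θ * Θ).trace / Θ.trace

/-- `Θ₂ = Θ - Θ² / tr Θ`. -/
noncomputable def mflat {ι : Type} [Fintype ι] (Θ : Matrix ι ι ℝ) : Matrix ι ι ℝ :=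
  Θ - (Θ.trace)⁻¹ • (Θ * Θ)

/-- The standing hypotheses on the law of an entry. -/
structure Law (μ : Measure ℝ) (K : ℝ≥0) : Prop where
  prob : IsProbabilityMeasure μ
  dens : μ ≤ (K : ℝ≥0∞) • volume
  int2 : Integrable (fun x : ℝ => x ^ 2) μ
  mean : ∫ x, x ∂μ = 0
  var : ∫ x, x ^ 2 ∂μ = 1

/-- Squared length of column `i` of `N`. -/
noncomputable def colsq {ι : Type} [Fintype ι] (N : Matrix ι ι ℝ) (i : ι) : ℝ := ∑ j, N j i ^ 2

/-- Inner product of columns `k`, `l` of `N`. -/
noncomputable def coldot {ι : Type} [Fintype ι] (N : Matrix ι ι ℝ) (k l : ι) : ℝ :=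
  ∑ j, N j k * N j l

/-- Squared Hilbert-Schmidt norm of `N`. -/
noncomputable def hs {ι : Type} [Fintype ι] (N : Matrix ι ι ℝ) : ℝ := ∑ i, colsq N i

/-- `∑_l |N_i ∧ N_l|²`. -/
noncomputable def wnum {ι : Type} [Fintype ι] (N : Matrix ι ι ℝ) (i : ι) : ℝ :=
  ∑ l, (colsq N i * colsq N l - coldot N i l ^ 2)

/-- `∑_{k<l} |N_k ∧ N_l|²`. -/
noncomputable def wtot {ι : Type} [Fintype ι] (N : Matrix ι ι ℝ) : ℝ :=
  (∑ k, wnum N k) / 2

/-- The second-level weight `φ_i`. -/
noncomputable def phi {ι : Type} [Fintype ι] (N : Matrix ι ι ℝ) (i : ι) : ℝ :=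
  wnum N i / wtot N

end Pool.Agent.SMin

end

section

/-!
Resampling of coordinates of a product measure.
-/

open MeasureTheory Matrix
open scoped ENNReal NNReal

namespace Pool.Agent.SMin

theorem measurable_piecewise_pair {ι : Type} [Fintype ι] [DecidableEq ι] (s : Finset ι) :
    Measurable (fun p : (ι → ℝ) × (ι → ℝ) => s.piecewise p.2 p.1) := by
  refine measurable_pi_lambda _ fun i => ?_
  by_cases hi : i ∈ s
  · simp only [Finset.piecewise, hi, if_true]
    exact (measurable_pi_apply i).comp measurable_snd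
  · simp only [Finset.piecewise, hi, if_false]
    exact (measurable_pi_apply i).comp measurable_fst

theorem measurePreserving_piecewise {ι : Type} [Fintype ι] [DecidableEq ι] (μ : Measure ℝ)
    [IsProbabilityMeasure μ] (s : Finset ι) :
    MeasurePreserving (fun p : (ι → ℝ) × (ι → ℝ) => s.piecewise p.2 p.1)
      ((Measure.pi fun _ : ι => μ).prod (Measure.pi fun _ : ι => μ))
      (Measure.pi fun _ : ι => μ) := by
  refine ⟨measurable_piecewise_pair s, ?_⟩
  symm
  refine Measure.pi_eq fun t ht => ?_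
  rw [Measure.map_apply (measurable_piecewise_pair s) (MeasurableSet.univ_pi ht)]
  have hpre : (fun p : (ι → ℝ) × (ι → ℝ) => s.piecewise p.2 p.1) ⁻¹' (Set.univ.pi t) =
      (Set.univ.pi fun i => if i ∈ s then Set.univ else t i) ×ˢ
        (Set.univ.pi fun i => if i ∈ s then t i else Set.univ) := by
    ext p
    simp only [Set.mem_preimage, Set.mem_pi, Set.mem_univ, true_implies, Set.mem_prod]
    constructor
    · intro h
      refine ⟨fun i => ?_, fun i => ?_⟩
      · by_cases hi : i ∈ s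
        · simp [hi]
        · have := h i
          simp only [Finset.piecewise, hi, if_false] at this
          simpa [hi] using this
      · by_cases hi : i ∈ s
        · have := h i
          simp only [Finset.piecewise, hi, if_true] at this
          simpa [hi] using this
        · simp [hi]
    · rintro ⟨h1, h2⟩ i
      by_cases hi : i ∈ s
      · have := h2 i
        simp only [hi, if_true] at this
        simpa [Finset.piecewise, hi] using this
      · have := h1 i
        simp only [hi, if_false] at this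
        simpa [Finset.piecewise, hi] using this
  rw [hpre, Measure.prod_prod, Measure.pi_pi, Measure.pi_pi, ← Finset.prod_mul_distrib]
  refine Finset.prod_congr rfl fun i _ => ?_
  by_cases hi : i ∈ s <;> simp [hi]

theorem lintegral_pi_resample {ι : Type} [Fintype ι] [DecidableEq ι] (μ : Measure ℝ)
    [IsProbabilityMeasure μ] (s : Finset ι) (F : (ι → ℝ) → ℝ≥0∞) (hF : Measurable F) :
    ∫⁻ ω, F ω ∂(Measure.pi fun _ : ι => μ) =
      ∫⁻ ω, ∫⁻ ω', F (s.piecewise ω' ω) ∂(Measure.pi fun _ : ι => μ)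
        ∂(Measure.pi fun _ : ι => μ) := by
  rw [← (measurePreserving_piecewise μ s).lintegral_comp hF, lintegral_prod]
  exact (hF.comp (measurable_piecewise_pair s)).aemeasurable

/-- The mirrored form: the inner integral is over the coordinates outside `s`. -/
theorem lintegral_pi_resample' {ι : Type} [Fintype ι] [DecidableEq ι] (μ : Measure ℝ)
    [IsProbabilityMeasure μ] (s : Finset ι) (F : (ι → ℝ) → ℝ≥0∞) (hF : Measurable F) :
    ∫⁻ ω, F ω ∂(Measure.pi fun _ : ι => μ) =
      ∫⁻ ω', ∫⁻ ω, F (s.piecewise ω' ω) ∂(Measure.pi fun _ : ι => μ)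
        ∂(Measure.pi fun _ : ι => μ) := by
  rw [lintegral_pi_resample μ s F hF, lintegral_lintegral_swap]
  exact (hF.comp (measurable_piecewise_pair s)).aemeasurable

theorem map_comp_injective {ι κ : Type} [Fintype ι] [Fintype κ] (μ : Measure ℝ)
    [IsProbabilityMeasure μ] (e : κ → ι) (he : Function.Injective e) :
    (Measure.pi fun _ : ι => μ).map (fun ω => ω ∘ e) = Measure.pi fun _ : κ => μ := by
  classical
  have hm : Measurable (fun ω : ι → ℝ => ω ∘ e) :=
    measurable_pi_lambda _ fun k => measurable_pi_apply (e k)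
  symm
  refine Measure.pi_eq fun t ht => ?_
  rw [Measure.map_apply hm (MeasurableSet.univ_pi ht)]
  have hpre : (fun ω : ι → ℝ => ω ∘ e) ⁻¹' (Set.univ.pi t) =
      Set.univ.pi fun i => ⋂ k : κ, {x : ℝ | e k = i → x ∈ t k} := by
    ext ω
    simp only [Set.mem_preimage, Set.mem_pi, Set.mem_univ, true_implies, Set.mem_iInter,
      Function.comp_apply]
    constructor
    · intro h i k hk
      rw [← hk]
      exact h k
    · intro h k
      exact h (e k) k rfl
  rw [hpre, Measure.pi_pi]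
  have h1 : ∀ k : κ, μ (⋂ k' : κ, {x : ℝ | e k' = e k → x ∈ t k'}) = μ (t k) := by
    intro k
    congr 1
    ext x
    simp only [Set.mem_iInter]
    constructor
    · intro h
      exact h k rfl
    · intro h k' hk'
      rw [he hk']
      exact h
  have h2 : ∀ i : ι, i ∉ Finset.univ.image e →
      μ (⋂ k : κ, {x : ℝ | e k = i → x ∈ t k}) = 1 := by
    intro i hi
    have : (⋂ k : κ, {x : ℝ | e k = i → x ∈ t k}) = Set.univ := by
      ext x
      simp only [Set.mem_iInter, Set.mem_univ, iff_true]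
      intro k hk
      exact absurd (Finset.mem_image.2 ⟨k, Finset.mem_univ k, hk⟩) hi
    rw [this, measure_univ]
  rw [← Finset.prod_subset (Finset.subset_univ (Finset.univ.image e))
    (fun i _ hi => h2 i hi), Finset.prod_image (fun a _ b _ hab => he hab)]
  exact Finset.prod_congr rfl fun k _ => h1 k

theorem lintegral_comp_injective {ι κ : Type} [Fintype ι] [Fintype κ] (μ : Measure ℝ)
    [IsProbabilityMeasure μ] (e : κ → ι) (he : Function.Injective e)
    (F : (κ → ℝ) → ℝ≥0∞) (hF : Measurable F) :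
    ∫⁻ ω, F (ω ∘ e) ∂(Measure.pi fun _ : ι => μ) = ∫⁻ a, F a ∂(Measure.pi fun _ : κ => μ) := by
  have hm : Measurable (fun ω : ι → ℝ => ω ∘ e) :=
    measurable_pi_lambda _ fun k => measurable_pi_apply (e k)
  rw [← map_comp_injective μ e he, lintegral_map hF hm]

/-- One coordinate integrated separately. -/
theorem lintegral_pi_update {ι : Type} [Fintype ι] [DecidableEq ι] (μ : Measure ℝ)
    [IsProbabilityMeasure μ] (j : ι) (F : (ι → ℝ) → ℝ≥0∞) (hF : Measurable F) :
    ∫⁻ ω, F ω ∂(Measure.pi fun _ : ι => μ) =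
      ∫⁻ ω, ∫⁻ y, F (Function.update ω j y) ∂μ ∂(Measure.pi fun _ : ι => μ) := by
  rw [lintegral_pi_resample μ {j} F hF]
  refine lintegral_congr fun ω => ?_
  have h1 : ∀ ω' : ι → ℝ, F ((({j} : Finset ι)).piecewise ω' ω) =
      (fun y => F (Function.update ω j y)) (ω' j) := by
    intro ω'
    rw [Finset.piecewise_singleton]
  have hm : Measurable (fun y => F (Function.update ω j y)) :=
    hF.comp (measurable_update ω)
  simp_rw [h1]
  rw [← lintegral_map (f := fun y => F (Function.update ω j y)) hm (measurable_pi_apply j)]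
  rw [(measurePreserving_eval (fun _ : ι => μ) j).map_eq]

end Pool.Agent.SMin

end

section

/-!
Density bounds for low-dimensional projections of a product measure.
-/

open MeasureTheory Matrix
open scoped ENNReal NNReal

namespace Pool.Agent.SMin

/-- The density bound in dimension `d` with constant `C`. -/
def DB (μ : Measure ℝ) (d : ℕ) (C : ℝ≥0) : Prop :=
  ∀ (ι : Type) [Fintype ι] [DecidableEq ι] (W : Matrix (Fin d) ι ℝ), W * Wᵀ = 1 →
    (Measure.pi (fun _ : ι => μ)).map (fun a => W *ᵥ a) ≤ (C : ℝ≥0∞) • volume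

theorem measurable_mulVec {ι κ : Type} [Fintype ι] [Fintype κ] (W : Matrix κ ι ℝ) :
    Measurable (fun a : ι → ℝ => W *ᵥ a) := by
  have : Continuous (fun a : ι → ℝ => W *ᵥ a) := by fun_prop
  exact this.measurable

theorem lintegral_comp_le_of_map_le {α β : Type*} [MeasurableSpace α] [MeasurableSpace β]
    {P : Measure α} {ν : Measure β} {T : α → β} (hT : Measurable T) (h : P.map T ≤ ν)
    (F : β → ℝ≥0∞) (hF : Measurable F) : ∫⁻ a, F (T a) ∂P ≤ ∫⁻ b, F b ∂ν := by
  rw [← lintegral_map hF hT]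
  exact lintegral_mono' h le_rfl

theorem map_le_of_lintegral {α β : Type*} [MeasurableSpace α] [MeasurableSpace β]
    {P : Measure α} {ν : Measure β} {T : α → β} (hT : Measurable T)
    (h : ∀ F : β → ℝ≥0∞, Measurable F → ∫⁻ a, F (T a) ∂P ≤ ∫⁻ b, F b ∂ν) : P.map T ≤ ν := by
  refine Measure.le_iff.2 fun s hs => ?_
  have := h (s.indicator 1) (measurable_one.indicator hs)
  rw [← lintegral_map (measurable_one.indicator hs) hT] at this
  simpa [lintegral_indicator_one hs] using this

theorem exists_rotation {d : ℕ} (p : Fin (d + 1) → ℝ) (hp : 0 < ∑ r, p r ^ 2) :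
    ∃ O : Matrix (Fin (d + 1)) (Fin (d + 1)) ℝ, O * Oᵀ = 1 ∧
      (O *ᵥ p) 0 = Real.sqrt (∑ r, p r ^ 2) ∧ ∀ r : Fin d, (O *ᵥ p) r.succ = 0 := by
  set c := ∑ r, p r ^ 2 with hc
  set q : EuclideanSpace ℝ (Fin (d + 1)) := (Real.sqrt c)⁻¹ • (WithLp.toLp 2 p) with hq
  have hsc : 0 < Real.sqrt c := Real.sqrt_pos.2 hp
  have hnp : ‖(WithLp.toLp 2 p : EuclideanSpace ℝ (Fin (d + 1)))‖ = Real.sqrt c := by
    rw [EuclideanSpace.norm_eq]
    simp [hc]
  have hqn : ‖q‖ = 1 := by
    rw [hq, norm_smul, hnp, norm_inv, Real.norm_of_nonneg hsc.le, inv_mul_cancel₀ hsc.ne']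
  let w : Fin (d + 1) → EuclideanSpace ℝ (Fin (d + 1)) := fun _ => q
  have hw : Orthonormal ℝ (({0} : Set (Fin (d + 1))).domRestrict w) := by
    rw [orthonormal_iff_ite]
    rintro ⟨i, hi⟩ ⟨j, hj⟩
    simp only [Set.mem_singleton_iff] at hi hj
    subst hi
    subst hj
    simp [w, Set.domRestrict, hqn]
  obtain ⟨b, hb⟩ := hw.exists_orthonormalBasis_extension_of_card_eq (by simp)
  have hb0 : b 0 = q := hb 0 (by simp)
  refine ⟨Matrix.of fun r s => b r s, ?_, ?_, ?_⟩
  · ext r s
    rw [Matrix.mul_apply]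
    have := b.orthonormal
    rw [orthonormal_iff_ite] at this
    have h2 := this r s
    rw [PiLp.inner_apply] at h2
    rw [Matrix.one_apply]
    rw [← h2]
    refine Finset.sum_congr rfl fun k _ => ?_
    simp [mul_comm]
  · have h1 : ((Matrix.of fun r s => b r s) *ᵥ p) 0 =
        @inner ℝ _ _ (b 0) (WithLp.toLp 2 p : EuclideanSpace ℝ (Fin (d + 1))) := by
      rw [PiLp.inner_apply]
      simp [Matrix.mulVec, dotProduct, mul_comm]
    rw [h1, hb0, hq, inner_smul_left, real_inner_self_eq_norm_sq, hnp]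
    simp only [conj_trivial]
    field_simp
  · intro r
    have h1 : ((Matrix.of fun r s => b r s) *ᵥ p) r.succ =
        @inner ℝ _ _ (b r.succ) (WithLp.toLp 2 p : EuclideanSpace ℝ (Fin (d + 1))) := by
      rw [PiLp.inner_apply]
      simp [Matrix.mulVec, dotProduct, mul_comm]
    have h2 : (WithLp.toLp 2 p : EuclideanSpace ℝ (Fin (d + 1))) = Real.sqrt c • b 0 := by
      rw [hb0, hq, smul_smul, mul_inv_cancel₀ hsc.ne', one_smul]
    rw [h1, h2, inner_smul_right, b.orthonormal.2 (Fin.succ_ne_zero r), mul_zero]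

theorem map_orthogonal_volume {d : ℕ} (O : Matrix (Fin d) (Fin d) ℝ) (hO : O * Oᵀ = 1) :
    (volume : Measure (Fin d → ℝ)).map (fun x => O *ᵥ x) = volume := by
  have hdet : O.det ^ 2 = 1 := by
    have := congrArg Matrix.det hO
    rw [Matrix.det_mul, Matrix.det_transpose, Matrix.det_one] at this
    rw [sq]
    exact this
  have hne : O.det ≠ 0 := by
    intro h
    rw [h] at hdet
    norm_num at hdet
  have habs : |O.det| = 1 := by
    have := sq_abs O.det
    rw [hdet] at this
    nlinarith [abs_nonneg O.det]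
  have := Real.map_matrix_volume_pi_eq_smul_volume_pi hne
  rw [show (fun x => O *ᵥ x) = ⇑(Matrix.toLin' O) from rfl, this, abs_inv, habs]
  simp

/-- Affine change of variables on the line. -/
theorem lintegral_affine (s r : ℝ) (hs : 0 < s) (F : ℝ → ℝ≥0∞) (hF : Measurable F) :
    ∫⁻ y, F (s * y + r) = ENNReal.ofReal s⁻¹ * ∫⁻ x, F x := by
  have h1 : ∫⁻ y, F (s * y + r) = ∫⁻ z, F (z + r) ∂((volume : Measure ℝ).map (s * ·)) := by
    rw [lintegral_map (f := fun z => F (z + r)) (hF.comp (measurable_add_const r)) (measurable_const_mul s)]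
  rw [h1, Real.map_volume_mul_left hs.ne', lintegral_smul_measure,
    lintegral_add_right_eq_self (fun x => F x) r, abs_of_pos (inv_pos.2 hs), smul_eq_mul]

/-- The conditioning step. -/
theorem DB_step (μ : Measure ℝ) [IsProbabilityMeasure μ] (K : ℝ≥0)
    (hμ : μ ≤ (K : ℝ≥0∞) • volume) (d : ℕ) (C : ℝ≥0) (hC : DB μ d C)
    (ι : Type) [Fintype ι] [DecidableEq ι] (W : Matrix (Fin (d + 1)) ι ℝ) (hW : W * Wᵀ = 1)
    (j : ι) (hj : 1 / 2 < ∑ r, W r j ^ 2) :
    (Measure.pi (fun _ : ι => μ)).map (fun a => W *ᵥ a) ≤ ((2 * K * C : ℝ≥0) : ℝ≥0∞) • volume := by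
  obtain ⟨O, hO, hO0, hOr⟩ := exists_rotation (fun r => W r j) (by linarith)
  have hO' : Oᵀ * O = 1 := mul_eq_one_comm.1 hO
  set c := ∑ r, W r j ^ 2 with hc
  set s := Real.sqrt c with hs
  have hs_pos : 0 < s := Real.sqrt_pos.2 (by linarith)
  have hs2 : 1 / 2 ≤ s := by
    rw [hs]
    refine Real.le_sqrt_of_sq_le ?_
    linarith
  set V : Matrix (Fin (d + 1)) ι ℝ := O * W with hV
  have hVV : V * Vᵀ = 1 := by
    rw [hV, Matrix.transpose_mul, Matrix.mul_assoc, ← Matrix.mul_assoc W, hW, Matrix.one_mul, hO]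
  have hVj0 : V 0 j = s := by
    have : V 0 j = (O *ᵥ fun r => W r j) 0 := by
      simp [hV, Matrix.mul_apply, Matrix.mulVec, dotProduct]
    rw [this, hO0]
  have hVjr : ∀ r : Fin d, V r.succ j = 0 := by
    intro r
    have : V r.succ j = (O *ᵥ fun r => W r j) r.succ := by
      simp [hV, Matrix.mul_apply, Matrix.mulVec, dotProduct]
    rw [this, hOr]
  -- the lower rows
  set V' : Matrix (Fin d) ι ℝ := V.submatrix Fin.succ id with hV'
  have hV'V' : V' * V'ᵀ = 1 := by
    ext r r'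
    have := congrFun (congrFun hVV r.succ) r'.succ
    rw [Matrix.mul_apply, Matrix.one_apply] at this
    rw [Matrix.mul_apply, Matrix.one_apply]
    simp only [hV', Matrix.submatrix_apply, Matrix.transpose_apply, id] at this ⊢
    rw [this]
    simp [Fin.succ_inj]
  have hmain : (Measure.pi (fun _ : ι => μ)).map (fun a => V *ᵥ a) ≤
      ((2 * K * C : ℝ≥0) : ℝ≥0∞) • volume := by
    refine map_le_of_lintegral (measurable_mulVec V) fun F hF => ?_
    rw [lintegral_pi_update μ j (fun a => F (V *ᵥ a)) (hF.comp (measurable_mulVec V))]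
    have hcons : ∀ (a : ι → ℝ) (y : ℝ), V *ᵥ (Function.update a j y) =
        Fin.cons (s * y + (V 0 ⬝ᵥ Function.update a j 0)) (V' *ᵥ a) := by
      intro a y
      have hupd : Function.update a j y = Function.update a j 0 + y • Pi.single j 1 := by
        ext l
        by_cases hl : l = j
        · subst hl; simp
        · simp [hl]
      funext r
      refine Fin.cases ?_ (fun r => ?_) r
      · rw [Fin.cons_zero]
        change V 0 ⬝ᵥ Function.update a j y = _
        rw [hupd, dotProduct_add, dotProduct_smul, dotProduct_single_one, hVj0, smul_eq_mul]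
        ring
      · rw [Fin.cons_succ]
        change V r.succ ⬝ᵥ Function.update a j y = V r.succ ⬝ᵥ a
        unfold dotProduct
        refine Finset.sum_congr rfl fun l _ => ?_
        by_cases hl : l = j
        · subst hl; simp [hVjr]
        · simp [Function.update_of_ne hl]
    have hmcons : Measurable (fun p : ℝ × (Fin d → ℝ) =>
        (Fin.cons p.1 p.2 : Fin (d + 1) → ℝ)) := by
      refine measurable_pi_lambda _ fun r => ?_
      refine Fin.cases ?_ (fun r => ?_) r
      · simpa using measurable_fst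
      · simp only [Fin.cons_succ]
        exact (measurable_pi_apply r).comp measurable_snd
    have hin : ∀ a : ι → ℝ, ∫⁻ y, F (V *ᵥ (Function.update a j y)) ∂μ ≤
        2 * K * ∫⁻ x, F (Fin.cons x (V' *ᵥ a)) := by
      intro a
      have hFm : Measurable (fun x : ℝ => F (Fin.cons x (V' *ᵥ a))) :=
        hF.comp (hmcons.comp (measurable_id.prodMk measurable_const))
      calc ∫⁻ y, F (V *ᵥ (Function.update a j y)) ∂μ
          = ∫⁻ y, F (Fin.cons (s * y + (V 0 ⬝ᵥ Function.update a j 0)) (V' *ᵥ a)) ∂μ := by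
            refine lintegral_congr fun y => ?_
            rw [hcons a y]
        _ ≤ ∫⁻ y, F (Fin.cons (s * y + (V 0 ⬝ᵥ Function.update a j 0)) (V' *ᵥ a))
              ∂((K : ℝ≥0∞) • volume) := lintegral_mono' hμ le_rfl
        _ = K * (ENNReal.ofReal s⁻¹ * ∫⁻ x, F (Fin.cons x (V' *ᵥ a))) := by
            rw [lintegral_smul_measure, lintegral_affine s _ hs_pos
              (fun x => F (Fin.cons x (V' *ᵥ a))) hFm, smul_eq_mul]
        _ ≤ K * (2 * ∫⁻ x, F (Fin.cons x (V' *ᵥ a))) := by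
            gcongr
            rw [show (2 : ℝ≥0∞) = ENNReal.ofReal 2 by simp]
            refine ENNReal.ofReal_le_ofReal ?_
            rw [inv_le_comm₀ hs_pos (by norm_num)]
            linarith
        _ = 2 * K * ∫⁻ x, F (Fin.cons x (V' *ᵥ a)) := by ring
    calc ∫⁻ a, ∫⁻ y, F (V *ᵥ (Function.update a j y)) ∂μ ∂(Measure.pi fun _ : ι => μ)
        ≤ ∫⁻ a, (2 * K * ∫⁻ x, F (Fin.cons x (V' *ᵥ a))) ∂(Measure.pi fun _ : ι => μ) :=
          lintegral_mono hin
      _ = 2 * K * ∫⁻ a, (∫⁻ x, F (Fin.cons x (V' *ᵥ a))) ∂(Measure.pi fun _ : ι => μ) := by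
          rw [lintegral_const_mul]
          refine Measurable.lintegral_prod_right' (f := fun p : (ι → ℝ) × ℝ =>
            F (Fin.cons p.2 (V' *ᵥ p.1))) ?_
          exact hF.comp (hmcons.comp (measurable_snd.prodMk
            ((measurable_mulVec V').comp measurable_fst)))
      _ = 2 * K * ∫⁻ x, ∫⁻ a, F (Fin.cons x (V' *ᵥ a)) ∂(Measure.pi fun _ : ι => μ) := by
          rw [lintegral_lintegral_swap]
          refine Measurable.aemeasurable ?_
          exact hF.comp (hmcons.comp (measurable_snd.prodMk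
            ((measurable_mulVec V').comp measurable_fst)))
      _ ≤ 2 * K * ∫⁻ x, C * ∫⁻ y, F (Fin.cons x y) := by
          gcongr with x
          have := lintegral_comp_le_of_map_le (measurable_mulVec V') (hC ι V' hV'V')
            (fun y => F (Fin.cons x y)) (hF.comp (hmcons.comp (measurable_const.prodMk
              measurable_id)))
          rwa [lintegral_smul_measure, smul_eq_mul] at this
      _ = 2 * K * C * ∫⁻ x, ∫⁻ y, F (Fin.cons x y) := by
          rw [lintegral_const_mul]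
          · ring
          · refine Measurable.lintegral_prod_right' (f := fun p : ℝ × (Fin d → ℝ) =>
              F (Fin.cons p.1 p.2)) (hF.comp hmcons)
      _ = 2 * K * C * ∫⁻ b, F b := by
          congr 1
          have h1 := (volume_preserving_piFinSuccAbove (fun _ : Fin (d + 1) => ℝ) 0).symm
          rw [← h1.lintegral_comp hF, Measure.volume_eq_prod, lintegral_prod]
          · refine lintegral_congr fun x => lintegral_congr fun y => ?_
            congr 1
            simp [MeasurableEquiv.piFinSuccAbove, Fin.consEquiv]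
          · exact (hF.comp h1.measurable).aemeasurable
      _ = ∫⁻ b, F b ∂(((2 * K * C : ℝ≥0) : ℝ≥0∞) • volume) := by
          rw [lintegral_smul_measure, smul_eq_mul]
          push_cast
          rfl
  -- rotate back
  have hWV : W = Oᵀ * V := by
    rw [hV, ← Matrix.mul_assoc, hO', Matrix.one_mul]
  have hcomp : (fun a : ι → ℝ => W *ᵥ a) = (fun x => Oᵀ *ᵥ x) ∘ (fun a => V *ᵥ a) := by
    funext a
    simp only [Function.comp_apply]
    rw [Matrix.mulVec_mulVec, ← hWV]
  rw [hcomp, ← Measure.map_map (measurable_mulVec _) (measurable_mulVec _)]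
  refine (Measure.map_mono hmain (measurable_mulVec _)).trans ?_
  rw [Measure.map_smul, map_orthogonal_volume _ (by rw [Matrix.transpose_transpose]; exact hO')]

end Pool.Agent.SMin

end

section

/-!
Positive semidefinite quadratic forms and their expectations under a product measure.
-/

open MeasureTheory Matrix ProbabilityTheory
open scoped ENNReal NNReal

namespace Pool.Agent.SMin

section PSD

variable {ι : Type} [Fintype ι]

theorem psd_nonneg {Θ : Matrix ι ι ℝ} (hΘ : Θ.PosSemidef) (x : ι → ℝ) :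
    0 ≤ x ⬝ᵥ (Θ *ᵥ x) := by
  simpa using hΘ.dotProduct_mulVec_nonneg x

theorem psd_of_nonneg {Θ : Matrix ι ι ℝ} (h1 : Θᵀ = Θ) (h2 : ∀ x : ι → ℝ, 0 ≤ x ⬝ᵥ (Θ *ᵥ x)) :
    Θ.PosSemidef := by
  refine Matrix.PosSemidef.of_dotProduct_mulVec_nonneg ?_ fun x => by simpa using h2 x
  rw [Matrix.IsHermitian, Matrix.conjTranspose_eq_transpose_of_trivial]
  exact h1

omit [Fintype ι] in
theorem psd_transpose {Θ : Matrix ι ι ℝ} (hΘ : Θ.PosSemidef) : Θᵀ = Θ := by
  have := hΘ.isHermitian
  rwa [Matrix.IsHermitian, Matrix.conjTranspose_eq_transpose_of_trivial] at this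

theorem dot_symm {Θ : Matrix ι ι ℝ} (hΘ : Θᵀ = Θ) (x y : ι → ℝ) :
    x ⬝ᵥ (Θ *ᵥ y) = y ⬝ᵥ (Θ *ᵥ x) := by
  rw [Matrix.dotProduct_mulVec, ← Matrix.mulVec_transpose, hΘ, dotProduct_comm]

theorem dot_self_nonneg (x : ι → ℝ) : 0 ≤ x ⬝ᵥ x := by
  unfold dotProduct
  exact Finset.sum_nonneg fun i _ => mul_self_nonneg _

/-- Cauchy-Schwarz for positive semidefinite forms. -/
theorem psd_cauchy {Θ : Matrix ι ι ℝ} (hΘ : Θ.PosSemidef) (x y : ι → ℝ) :
    (x ⬝ᵥ (Θ *ᵥ y)) ^ 2 ≤ (x ⬝ᵥ (Θ *ᵥ x)) * (y ⬝ᵥ (Θ *ᵥ y)) := by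
  have hs := psd_transpose hΘ
  have key : ∀ t : ℝ, 0 ≤ (y ⬝ᵥ (Θ *ᵥ y)) * (t * t) + (2 * (x ⬝ᵥ (Θ *ᵥ y))) * t +
      (x ⬝ᵥ (Θ *ᵥ x)) := by
    intro t
    have := psd_nonneg hΘ (x + t • y)
    have hexp : (x + t • y) ⬝ᵥ (Θ *ᵥ (x + t • y)) = (y ⬝ᵥ (Θ *ᵥ y)) * (t * t) +
        (2 * (x ⬝ᵥ (Θ *ᵥ y))) * t + (x ⬝ᵥ (Θ *ᵥ x)) := by
      simp only [Matrix.mulVec_add, Matrix.mulVec_smul, add_dotProduct, dotProduct_add,
        smul_dotProduct, dotProduct_smul, smul_eq_mul]
      rw [dot_symm hs y x]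
      ring
    rwa [hexp] at this
  have := discrim_le_zero key
  rw [discrim] at this
  nlinarith

/-- `|Θ x|² ≤ tr Θ · x·Θx`. -/
theorem psd_sq_le {Θ : Matrix ι ι ℝ} (hΘ : Θ.PosSemidef) (x : ι → ℝ) :
    (Θ *ᵥ x) ⬝ᵥ (Θ *ᵥ x) ≤ Θ.trace * (x ⬝ᵥ (Θ *ᵥ x)) := by
  classical
  have h1 : ∀ i, (Θ *ᵥ x) i * (Θ *ᵥ x) i ≤ Θ i i * (x ⬝ᵥ (Θ *ᵥ x)) := by
    intro i
    have := psd_cauchy hΘ (Pi.single i 1) x
    rw [single_one_dotProduct, single_one_dotProduct] at this
    have h2 : (Θ *ᵥ (Pi.single i 1 : ι → ℝ)) i = Θ i i := by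
      simp
    rw [h2] at this
    nlinarith
  unfold dotProduct at *
  rw [Matrix.trace, Finset.sum_mul]
  exact Finset.sum_le_sum fun i _ => h1 i

theorem dot_mul_self {Θ : Matrix ι ι ℝ} (hΘ : Θᵀ = Θ) (x : ι → ℝ) :
    x ⬝ᵥ ((Θ * Θ) *ᵥ x) = (Θ *ᵥ x) ⬝ᵥ (Θ *ᵥ x) := by
  rw [← Matrix.mulVec_mulVec, Matrix.dotProduct_mulVec, ← Matrix.mulVec_transpose, hΘ]

theorem trace_sq_nonneg {Θ : Matrix ι ι ℝ} (hΘ : Θᵀ = Θ) : 0 ≤ (Θ * Θ).trace := by
  rw [Matrix.trace]
  refine Finset.sum_nonneg fun i _ => ?_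
  rw [Matrix.diag_apply, Matrix.mul_apply]
  refine Finset.sum_nonneg fun j _ => ?_
  have : Θ j i = Θ i j := by
    conv_lhs => rw [← hΘ]
    rfl
  rw [this]
  exact mul_self_nonneg _

theorem trace_nonneg' {Θ : Matrix ι ι ℝ} (hΘ : Θ.PosSemidef) : 0 ≤ Θ.trace := hΘ.trace_nonneg

theorem tflat_le_trace {Θ : Matrix ι ι ℝ} (hΘ : Θ.PosSemidef) : tflat Θ ≤ Θ.trace := by
  unfold tflat
  have := div_nonneg (trace_sq_nonneg (psd_transpose hΘ)) (trace_nonneg' hΘ)
  linarith

theorem dot_mflat {Θ : Matrix ι ι ℝ} (hΘ : Θᵀ = Θ) (x : ι → ℝ) :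
    x ⬝ᵥ (mflat Θ *ᵥ x) = x ⬝ᵥ (Θ *ᵥ x) - (Θ.trace)⁻¹ * ((Θ *ᵥ x) ⬝ᵥ (Θ *ᵥ x)) := by
  unfold mflat
  rw [Matrix.sub_mulVec, dotProduct_sub, Matrix.smul_mulVec, dotProduct_smul, dot_mul_self hΘ,
    smul_eq_mul]

theorem trace_mflat (Θ : Matrix ι ι ℝ) : (mflat Θ).trace = tflat Θ := by
  unfold mflat tflat
  rw [Matrix.trace_sub, Matrix.trace_smul, smul_eq_mul]
  ring

theorem mflat_transpose {Θ : Matrix ι ι ℝ} (hΘ : Θᵀ = Θ) : (mflat Θ)ᵀ = mflat Θ := by
  unfold mflat
  rw [Matrix.transpose_sub, Matrix.transpose_smul, Matrix.transpose_mul, hΘ]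

theorem mflat_psd {Θ : Matrix ι ι ℝ} (hΘ : Θ.PosSemidef) : (mflat Θ).PosSemidef := by
  refine psd_of_nonneg (mflat_transpose (psd_transpose hΘ)) fun x => ?_
  rw [dot_mflat (psd_transpose hΘ)]
  rcases (trace_nonneg' hΘ).eq_or_lt with h | h
  · rw [← h]
    simpa using psd_nonneg hΘ x
  · have := psd_sq_le hΘ x
    have h2 : (Θ.trace)⁻¹ * ((Θ *ᵥ x) ⬝ᵥ (Θ *ᵥ x)) ≤ x ⬝ᵥ (Θ *ᵥ x) := by
      rw [inv_mul_le_iff₀ h]
      exact this
    linarith

theorem tflat_nonneg {Θ : Matrix ι ι ℝ} (hΘ : Θ.PosSemidef) : 0 ≤ tflat Θ := by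
  rw [← trace_mflat]
  exact trace_nonneg' (mflat_psd hΘ)

theorem dot_mflat_le {Θ : Matrix ι ι ℝ} (hΘ : Θ.PosSemidef) (x : ι → ℝ) :
    x ⬝ᵥ (mflat Θ *ᵥ x) ≤ x ⬝ᵥ (Θ *ᵥ x) := by
  rw [dot_mflat (psd_transpose hΘ)]
  have := mul_nonneg (inv_nonneg.2 (trace_nonneg' hΘ)) (dot_self_nonneg (Θ *ᵥ x))
  linarith

/-- Parallelogram type inequality. -/
theorem psd_add_le {Θ : Matrix ι ι ℝ} (hΘ : Θ.PosSemidef) (x y : ι → ℝ) :
    (x + y) ⬝ᵥ (Θ *ᵥ (x + y)) ≤ 2 * (x ⬝ᵥ (Θ *ᵥ x)) + 2 * (y ⬝ᵥ (Θ *ᵥ y)) := by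
  have h1 := psd_nonneg hΘ (x - y)
  have hs := psd_transpose hΘ
  simp only [Matrix.mulVec_add, Matrix.mulVec_sub, add_dotProduct, dotProduct_add,
    sub_dotProduct, dotProduct_sub] at h1 ⊢
  rw [dot_symm hs y x] at *
  linarith

end PSD

section Moments

variable {μ : Measure ℝ} {K : ℝ≥0} (h : Law μ K) {ι : Type} [Fintype ι]

include h

theorem int_id : Integrable (fun x : ℝ => x) μ := by
  have := h.prob
  have h2 : Integrable (fun x : ℝ => 1 + x ^ 2) μ := (integrable_const 1).add h.int2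
  refine h2.mono' (by fun_prop) (Filter.Eventually.of_forall fun x => ?_)
  rw [Real.norm_eq_abs]
  nlinarith [sq_abs x, sq_nonneg (|x| - 1)]

theorem int_eval (i : ι) : Integrable (fun a : ι → ℝ => a i) (Measure.pi fun _ : ι => μ) := by
  have := h.prob
  exact integrable_comp_eval (μ := fun _ : ι => μ) (i := i) (f := fun x : ℝ => x) (int_id h)

theorem int_eval_sq (i : ι) :
    Integrable (fun a : ι → ℝ => a i ^ 2) (Measure.pi fun _ : ι => μ) := by
  have := h.prob
  exact integrable_comp_eval (μ := fun _ : ι => μ) (i := i) (f := fun x : ℝ => x ^ 2) h.int2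

theorem integral_eval_zero (i : ι) : ∫ a : ι → ℝ, a i ∂(Measure.pi fun _ : ι => μ) = 0 := by
  have := h.prob
  have h1 := integral_comp_eval (μ := fun _ : ι => μ) (i := i) (f := fun x : ℝ => x)
    (by fun_prop)
  rw [h1, h.mean]

theorem integral_eval_sq (i : ι) : ∫ a : ι → ℝ, a i ^ 2 ∂(Measure.pi fun _ : ι => μ) = 1 := by
  have := h.prob
  have h1 := integral_comp_eval (μ := fun _ : ι => μ) (i := i) (f := fun x : ℝ => x ^ 2)
    (by fun_prop)
  rw [h1, h.var]

theorem int_eval_mul (i j : ι) :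
    Integrable (fun a : ι → ℝ => a i * a j) (Measure.pi fun _ : ι => μ) := by
  have := h.prob
  refine ((int_eval_sq h i).add (int_eval_sq h j)).mono' ?_
    (Filter.Eventually.of_forall fun a => ?_)
  · exact ((measurable_pi_apply i).mul (measurable_pi_apply j)).aestronglyMeasurable
  · rw [Real.norm_eq_abs, Pi.add_apply, abs_le]
    constructor <;> nlinarith [sq_nonneg (a i + a j), sq_nonneg (a i - a j)]

theorem integral_eval_mul [DecidableEq ι] (i j : ι) :
    ∫ a : ι → ℝ, a i * a j ∂(Measure.pi fun _ : ι => μ) = if i = j then 1 else 0 := by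
  have := h.prob
  by_cases hij : i = j
  · subst hij
    simp only [if_true]
    rw [← integral_eval_sq h i]
    refine integral_congr_ae (Filter.Eventually.of_forall fun a => ?_)
    simp only
    ring
  · rw [if_neg hij]
    have hind := (iIndepFun_pi (μ := fun _ : ι => μ) (X := fun _ : ι => (id : ℝ → ℝ))
      (fun _ => aemeasurable_id)).indepFun hij
    have := hind.integral_fun_mul_eq_mul_integral
      (by exact (measurable_pi_apply i).aestronglyMeasurable)
      (by exact (measurable_pi_apply j).aestronglyMeasurable)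
    simp only [id] at this
    rw [this, integral_eval_zero h i, zero_mul]

theorem int_quad (Θ : Matrix ι ι ℝ) (m : ι → ℝ) :
    Integrable (fun a : ι → ℝ => (m + a) ⬝ᵥ (Θ *ᵥ (m + a))) (Measure.pi fun _ : ι => μ) := by
  have := h.prob
  have hexp : (fun a : ι → ℝ => (m + a) ⬝ᵥ (Θ *ᵥ (m + a))) =
      fun a => ∑ i, ∑ j, Θ i j * (m i * m j + m i * a j + m j * a i + a i * a j) := by
    funext a
    simp only [dotProduct, Matrix.mulVec, Finset.mul_sum, Pi.add_apply]
    refine Finset.sum_congr rfl fun i _ => Finset.sum_congr rfl fun j _ => ?_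
    ring
  rw [hexp]
  refine integrable_finsetSum _ fun i _ => integrable_finsetSum _ fun j _ => ?_
  refine Integrable.const_mul ?_ _
  exact (((integrable_const _).add ((int_eval h j).const_mul _)).add
    ((int_eval h i).const_mul _)).add (int_eval_mul h i j)

theorem integral_quad (Θ : Matrix ι ι ℝ) (m : ι → ℝ) :
    ∫ a : ι → ℝ, (m + a) ⬝ᵥ (Θ *ᵥ (m + a)) ∂(Measure.pi fun _ : ι => μ) =
      m ⬝ᵥ (Θ *ᵥ m) + Θ.trace := by
  classical
  have := h.prob
  have hexp : ∀ a : ι → ℝ, (m + a) ⬝ᵥ (Θ *ᵥ (m + a)) =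
      ∑ i, ∑ j, Θ i j * (m i * m j + m i * a j + m j * a i + a i * a j) := by
    intro a
    simp only [dotProduct, Matrix.mulVec, Finset.mul_sum, Pi.add_apply]
    refine Finset.sum_congr rfl fun i _ => Finset.sum_congr rfl fun j _ => ?_
    ring
  simp_rw [hexp]
  have hint : ∀ i j : ι, Integrable (fun a : ι → ℝ =>
      m i * m j + m i * a j + m j * a i + a i * a j) (Measure.pi fun _ : ι => μ) := by
    intro i j
    exact (((integrable_const _).add ((int_eval h j).const_mul _)).add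
      ((int_eval h i).const_mul _)).add (int_eval_mul h i j)
  rw [integral_finsetSum _ fun i _ => integrable_finsetSum _ fun j _ => (hint i j).const_mul _]
  have h1 : ∀ i : ι, ∫ a : ι → ℝ, ∑ j, Θ i j * (m i * m j + m i * a j + m j * a i + a i * a j)
      ∂(Measure.pi fun _ : ι => μ) = ∑ j, Θ i j * (m i * m j + if i = j then 1 else 0) := by
    intro i
    rw [integral_finsetSum _ fun j _ => (hint i j).const_mul _]
    refine Finset.sum_congr rfl fun j _ => ?_
    rw [integral_const_mul]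
    congr 1
    rw [integral_add _ (int_eval_mul h i j), integral_add _ ((int_eval h i).const_mul _),
      integral_add (integrable_const _) ((int_eval h j).const_mul _),
      integral_const_mul (m i) (fun a : ι → ℝ => a j),
      integral_const_mul (m j) (fun a : ι → ℝ => a i),
      integral_eval_zero h, integral_eval_zero h, integral_eval_mul h]
    · simp
    · exact (integrable_const _).add ((int_eval h j).const_mul _)
    · exact ((integrable_const _).add ((int_eval h j).const_mul _)).add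
        ((int_eval h i).const_mul _)
  simp_rw [h1, mul_add, Finset.sum_add_distrib]
  congr 1
  · simp only [dotProduct, Matrix.mulVec, Finset.mul_sum]
    refine Finset.sum_congr rfl fun i _ => Finset.sum_congr rfl fun j _ => ?_
    ring
  · simp [Matrix.trace]

theorem lintegral_quad {Θ : Matrix ι ι ℝ} (hΘ : Θ.PosSemidef) (m : ι → ℝ) :
    ∫⁻ a : ι → ℝ, ENNReal.ofReal ((m + a) ⬝ᵥ (Θ *ᵥ (m + a))) ∂(Measure.pi fun _ : ι => μ) =
      ENNReal.ofReal (m ⬝ᵥ (Θ *ᵥ m) + Θ.trace) := by
  rw [← integral_quad h Θ m, ofReal_integral_eq_lintegral_ofReal (int_quad h Θ m)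
    (Filter.Eventually.of_forall fun a => psd_nonneg hΘ _)]

end Moments

end Pool.Agent.SMin

end
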