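import Mathlib
import Pool.Agent.Work.MP_b26df8_pr.Bd.B01

/-! Bundle of small proof modules (one section per former module). -/

section

/-!
The `L^p` norms of the characteristic function of a law with bounded density decay like
`p^(-1/2)`.
-/

open MeasureTheory Matrix
open scoped ENNReal NNReal

namespace Pool.Agent.SMin

open Complex in
theorem charFun_mul_conj (μ : Measure ℝ) [IsProbabilityMeasure μ] (s : ℝ) :
    ((‖charFun μ s‖ ^ 2 : ℝ) : ℂ) =
      ∫ z : ℝ × ℝ, cexp (I * s * ((z.1 - z.2 : ℝ) : ℂ)) ∂(μ.prod μ) := by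
  have h1 : ((‖charFun μ s‖ ^ 2 : ℝ) : ℂ) = charFun μ s * charFun μ (-s) := by
    rw [charFun_neg, Complex.mul_conj, Complex.normSq_eq_norm_sq]
  rw [h1, charFun_apply_real, charFun_apply_real, ← integral_prod_mul]
  apply integral_congr_ae
  refine Filter.Eventually.of_forall fun z => ?_
  simp only
  rw [← Complex.exp_add]
  congr 1
  push_cast
  ring

theorem normSq_charFun (μ : Measure ℝ) [IsProbabilityMeasure μ] (s : ℝ) :
    ‖charFun μ s‖ ^ 2 = ∫ z : ℝ × ℝ, Real.cos (s * (z.1 - z.2)) ∂(μ.prod μ) := by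
  have h := congrArg Complex.re (charFun_mul_conj μ s)
  rw [Complex.ofReal_re] at h
  rw [h]
  have hint : Integrable (fun z : ℝ × ℝ => Complex.exp (Complex.I * s * ((z.1 - z.2 : ℝ) : ℂ)))
      (μ.prod μ) := by
    refine Integrable.mono' (integrable_const (1 : ℝ)) ?_ (Filter.Eventually.of_forall ?_)
    · apply Continuous.aestronglyMeasurable
      fun_prop
    · intro z
      rw [Complex.norm_exp]
      simp
  have h2 := (integral_re hint).symm
  simp only [RCLike.re_to_complex] at h2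
  rw [h2]
  apply integral_congr_ae
  refine Filter.Eventually.of_forall fun z => ?_
  simp only
  rw [Complex.exp_re]
  have e1 : (Complex.I * s * ((z.1 - z.2 : ℝ) : ℂ)).re = 0 := by simp
  have e2 : (Complex.I * s * ((z.1 - z.2 : ℝ) : ℂ)).im = s * (z.1 - z.2) := by simp
  rw [e1, e2, Real.exp_zero, one_mul]

theorem gauss_double (μ : Measure ℝ) (K : ℝ≥0) (h : Law μ K) (δ : ℝ) (hδ : 0 < δ) :
    haveI := h.prob
    ∫ z : ℝ × ℝ, Real.exp (-(z.1 - z.2) ^ 2 / (4 * δ)) ∂(μ.prod μ) ≤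
      K * Real.sqrt (4 * Real.pi * δ) := by
  have := h.prob
  have hint : Integrable (fun z : ℝ × ℝ => Real.exp (-(z.1 - z.2) ^ 2 / (4 * δ))) (μ.prod μ) := by
    refine Integrable.mono' (integrable_const (1 : ℝ)) ?_ (Filter.Eventually.of_forall ?_)
    · apply Continuous.aestronglyMeasurable
      fun_prop
    · intro z
      rw [Real.norm_of_nonneg (Real.exp_pos _).le, Real.exp_le_one_iff]
      apply div_nonpos_of_nonpos_of_nonneg _ (by positivity)
      nlinarith [sq_nonneg (z.1 - z.2)]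
  rw [integral_prod _ hint]
  have hinner : ∀ x : ℝ, ∫ y, Real.exp (-(x - y) ^ 2 / (4 * δ)) ∂μ ≤
      K * Real.sqrt (4 * Real.pi * δ) := by
    intro x
    have hI : Integrable (fun y : ℝ => Real.exp (-(x - y) ^ 2 / (4 * δ))) volume := by
      have h0 : Integrable (fun y : ℝ => Real.exp (-(1 / (4 * δ)) * y ^ 2)) volume :=
        integrable_exp_neg_mul_sq (by positivity)
      have h1 := h0.comp_sub_left x
      refine h1.congr (Filter.Eventually.of_forall fun y => ?_)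
      simp only
      congr 1
      ring
    have hval : ∫ y : ℝ, Real.exp (-(x - y) ^ 2 / (4 * δ)) = Real.sqrt (4 * Real.pi * δ) := by
      have h0 := integral_gaussian (1 / (4 * δ))
      have h1 : Real.pi / (1 / (4 * δ)) = 4 * Real.pi * δ := by field_simp
      rw [h1] at h0
      rw [← h0, ← integral_sub_left_eq_self (fun y => Real.exp (-(1 / (4 * δ)) * y ^ 2)) volume x]
      apply integral_congr_ae
      refine Filter.Eventually.of_forall fun y => ?_
      simp only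
      congr 1
      ring
    have h2 : ENNReal.ofReal (∫ y, Real.exp (-(x - y) ^ 2 / (4 * δ)) ∂μ) ≤
        ENNReal.ofReal (K * Real.sqrt (4 * Real.pi * δ)) := by
      have hIμ : Integrable (fun y : ℝ => Real.exp (-(x - y) ^ 2 / (4 * δ))) μ := by
        refine Integrable.mono' (integrable_const (1 : ℝ)) ?_ (Filter.Eventually.of_forall ?_)
        · apply Continuous.aestronglyMeasurable
          fun_prop
        · intro y
          rw [Real.norm_of_nonneg (Real.exp_pos _).le, Real.exp_le_one_iff]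
          apply div_nonpos_of_nonpos_of_nonneg _ (by positivity)
          nlinarith [sq_nonneg (x - y)]
      rw [ofReal_integral_eq_lintegral_ofReal hIμ
        (Filter.Eventually.of_forall fun y => (Real.exp_pos _).le)]
      calc ∫⁻ y, ENNReal.ofReal (Real.exp (-(x - y) ^ 2 / (4 * δ))) ∂μ
          ≤ ∫⁻ y, ENNReal.ofReal (Real.exp (-(x - y) ^ 2 / (4 * δ)))
              ∂((K : ℝ≥0∞) • (volume : Measure ℝ)) := lintegral_mono' h.dens le_rfl
        _ = K * ∫⁻ y, ENNReal.ofReal (Real.exp (-(x - y) ^ 2 / (4 * δ))) := by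
            rw [lintegral_smul_measure]; rfl
        _ = K * ENNReal.ofReal (Real.sqrt (4 * Real.pi * δ)) := by
            rw [← ofReal_integral_eq_lintegral_ofReal hI
              (Filter.Eventually.of_forall fun y => (Real.exp_pos _).le), hval]
        _ = ENNReal.ofReal (K * Real.sqrt (4 * Real.pi * δ)) := by
            rw [ENNReal.ofReal_mul (NNReal.coe_nonneg K), ENNReal.ofReal_coe_nnreal]
    exact (ENNReal.ofReal_le_ofReal_iff (by positivity)).mp h2
  calc ∫ x, ∫ y, Real.exp (-(x - y) ^ 2 / (4 * δ)) ∂μ ∂μ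
      ≤ ∫ _x, (K * Real.sqrt (4 * Real.pi * δ)) ∂μ := by
        apply integral_mono_of_nonneg
        · exact Filter.Eventually.of_forall fun x => integral_nonneg fun y => (Real.exp_pos _).le
        · exact integrable_const _
        · exact Filter.Eventually.of_forall hinner
    _ = _ := by simp

open Complex in
theorem gauss_weighted (μ : Measure ℝ) (K : ℝ≥0) (h : Law μ K) (δ : ℝ) (hδ : 0 < δ) :
    ∫ s : ℝ, ‖charFun μ s‖ ^ 2 * Real.exp (-δ * s ^ 2) ≤ 2 * Real.pi * K := by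
  have := h.prob
  have hδc : 0 < (δ : ℂ).re := by simpa using hδ
  have hg : Integrable (fun s : ℝ => Real.exp (-δ * s ^ 2)) volume := integrable_exp_neg_mul_sq hδ
  have hint : Integrable (Function.uncurry (fun (s : ℝ) (z : ℝ × ℝ) =>
      cexp (I * s * ((z.1 - z.2 : ℝ) : ℂ)) * cexp (-(δ : ℂ) * s ^ 2)))
      (volume.prod (μ.prod μ)) := by
    refine (hg.comp_fst (μ.prod μ)).mono ?_ (Filter.Eventually.of_forall ?_)
    · apply Continuous.aestronglyMeasurable
      unfold Function.uncurry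
      fun_prop
    · rintro ⟨s, z⟩
      simp only [Function.uncurry]
      rw [norm_mul, Complex.norm_exp, Complex.norm_exp, Real.norm_of_nonneg (Real.exp_pos _).le]
      have e1 : (I * s * ((z.1 - z.2 : ℝ) : ℂ)).re = 0 := by simp
      have e2 : (-(δ : ℂ) * (s : ℂ) ^ 2).re = -δ * s ^ 2 := by
        rw [← Complex.ofReal_pow, ← Complex.ofReal_neg, ← Complex.ofReal_mul, Complex.ofReal_re]
      rw [e1, e2, Real.exp_zero, one_mul]
  have hswap := integral_integral_swap hint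
  have hL : ∀ s : ℝ, ∫ z : ℝ × ℝ, cexp (I * s * ((z.1 - z.2 : ℝ) : ℂ)) * cexp (-(δ : ℂ) * s ^ 2)
      ∂(μ.prod μ) = ((‖charFun μ s‖ ^ 2 * Real.exp (-δ * s ^ 2) : ℝ) : ℂ) := by
    intro s
    rw [integral_mul_const, ← charFun_mul_conj]
    push_cast
    ring
  have hR : ∀ z : ℝ × ℝ, ∫ s : ℝ, cexp (I * s * ((z.1 - z.2 : ℝ) : ℂ)) * cexp (-(δ : ℂ) * s ^ 2)
      = (Real.pi / δ : ℂ) ^ (1 / 2 : ℂ) * ((Real.exp (-(z.1 - z.2) ^ 2 / (4 * δ)) : ℝ) : ℂ) := by
    intro z
    have := fourierIntegral_gaussian hδc ((z.1 - z.2 : ℝ) : ℂ)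
    rw [← show (fun s : ℝ => cexp (I * ((z.1 - z.2 : ℝ) : ℂ) * s) * cexp (-(δ : ℂ) * s ^ 2))
      = (fun s : ℝ => cexp (I * s * ((z.1 - z.2 : ℝ) : ℂ)) * cexp (-(δ : ℂ) * s ^ 2)) from by
        funext s; congr 2; ring]
    rw [this]
    push_cast
    rfl
  simp only [hL, hR] at hswap
  rw [integral_complex_ofReal, integral_const_mul, integral_complex_ofReal] at hswap
  have hc : (Real.pi / δ : ℂ) ^ (1 / 2 : ℂ) = ((Real.sqrt (Real.pi / δ) : ℝ) : ℂ) := by
    rw [Real.sqrt_eq_rpow, Complex.ofReal_cpow (by positivity)]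
    push_cast
    rfl
  rw [hc, ← Complex.ofReal_mul] at hswap
  have hreal := Complex.ofReal_injective hswap
  rw [hreal]
  have h2 := gauss_double μ K h δ hδ
  calc Real.sqrt (Real.pi / δ) * ∫ z : ℝ × ℝ, Real.exp (-(z.1 - z.2) ^ 2 / (4 * δ)) ∂(μ.prod μ)
      ≤ Real.sqrt (Real.pi / δ) * (K * Real.sqrt (4 * Real.pi * δ)) := by gcongr
    _ = K * (Real.sqrt (Real.pi / δ) * Real.sqrt (4 * Real.pi * δ)) := by ring
    _ = K * (2 * Real.pi) := by
        rw [← Real.sqrt_mul (by positivity)]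
        congr 1
        rw [show Real.pi / δ * (4 * Real.pi * δ) = (2 * Real.pi) ^ 2 by field_simp; ring]
        exact Real.sqrt_sq (by positivity)
    _ = _ := by ring

theorem charFun_sq_le (μ : Measure ℝ) (K : ℝ≥0) (h : Law μ K) :
    ∫⁻ s : ℝ, ENNReal.ofReal (‖charFun μ s‖ ^ 2) ≤ ENNReal.ofReal (2 * Real.pi * K) := by
  have := h.prob
  have hcont : Continuous (fun s : ℝ => charFun μ s) := continuous_charFun
  set F : ℕ → ℝ → ℝ≥0∞ := fun n s =>
    ENNReal.ofReal (‖charFun μ s‖ ^ 2 * Real.exp (-(1 / ((n : ℝ) + 1)) * s ^ 2)) with hF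
  have hFm : ∀ n, Measurable (F n) := by
    intro n
    apply ENNReal.measurable_ofReal.comp
    apply Continuous.measurable
    fun_prop
  have hlim : ∀ s : ℝ, Filter.Tendsto (fun n => F n s) Filter.atTop
      (nhds (ENNReal.ofReal (‖charFun μ s‖ ^ 2))) := by
    intro s
    apply ENNReal.tendsto_ofReal
    have h1 : Filter.Tendsto (fun n : ℕ => -(1 / ((n : ℝ) + 1)) * s ^ 2) Filter.atTop (nhds 0) := by
      have := (tendsto_one_div_add_atTop_nhds_zero_nat (𝕜 := ℝ)).neg.mul_const (s ^ 2)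
      simpa using this
    have h2 := (Real.continuous_exp.tendsto 0).comp h1
    have h3 := h2.const_mul (‖charFun μ s‖ ^ 2)
    simpa using h3
  calc ∫⁻ s : ℝ, ENNReal.ofReal (‖charFun μ s‖ ^ 2)
      = ∫⁻ s : ℝ, Filter.liminf (fun n => F n s) Filter.atTop := by
        apply lintegral_congr
        intro s
        exact (hlim s).liminf_eq.symm
    _ ≤ Filter.liminf (fun n => ∫⁻ s, F n s) Filter.atTop := lintegral_liminf_le hFm
    _ ≤ ENNReal.ofReal (2 * Real.pi * K) := by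
        refine Filter.liminf_le_of_le (by isBoundedDefault) ?_
        intro b hb
        obtain ⟨n, hn⟩ := hb.exists
        refine hn.trans ?_
        have hI : Integrable (fun s : ℝ =>
            ‖charFun μ s‖ ^ 2 * Real.exp (-(1 / ((n : ℝ) + 1)) * s ^ 2)) volume := by
          have hg : Integrable (fun s : ℝ => Real.exp (-(1 / ((n : ℝ) + 1)) * s ^ 2)) volume :=
            integrable_exp_neg_mul_sq (by positivity)
          refine hg.mono' ?_ (Filter.Eventually.of_forall ?_)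
          · apply Continuous.aestronglyMeasurable
            fun_prop
          · intro s
            rw [Real.norm_of_nonneg (by positivity)]
            have h1 : ‖charFun μ s‖ ≤ 1 := norm_charFun_le_one s
            have h2 : ‖charFun μ s‖ ^ 2 ≤ 1 := pow_le_one₀ (norm_nonneg _) h1
            calc _ ≤ 1 * Real.exp (-(1 / ((n : ℝ) + 1)) * s ^ 2) := by gcongr
              _ = _ := one_mul _
        simp only [hF]
        rw [← ofReal_integral_eq_lintegral_ofReal hI
          (Filter.Eventually.of_forall fun s => by positivity)]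
        exact ENNReal.ofReal_le_ofReal (gauss_weighted μ K h _ (by positivity))

theorem countable_null (μ : Measure ℝ) (K : ℝ≥0) (h : Law μ K) (S : Set ℝ) (hS : S.Countable) :
    μ S = 0 := by
  have h1 : volume S = 0 := hS.measure_zero volume
  have h2 := h.dens S
  rw [Measure.smul_apply, h1, smul_zero] at h2
  exact le_antisymm h2 zero_le

theorem ae_ne (μ : Measure ℝ) (K : ℝ≥0) (h : Law μ K) (s : ℝ) (hs : s ≠ 0) :
    have := h.prob
    ∀ᵐ z ∂(μ.prod μ), Real.cos (s * (z.1 - z.2)) ≠ 1 := by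
  have := h.prob
  have hm : MeasurableSet {z : ℝ × ℝ | Real.cos (s * (z.1 - z.2)) ≠ 1} := by
    apply MeasurableSet.compl
    apply measurableSet_eq_fun
    · apply Continuous.measurable
      fun_prop
    · exact measurable_const
  rw [Measure.ae_prod_iff_ae_ae hm]
  refine Filter.Eventually.of_forall fun x => ?_
  have hc : {y : ℝ | Real.cos (s * (x - y)) = 1}.Countable := by
    have : {y : ℝ | Real.cos (s * (x - y)) = 1} ⊆
        Set.range (fun n : ℤ => x - (n : ℝ) * (2 * Real.pi) / s) := by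
      intro y hy
      obtain ⟨n, hn⟩ := (Real.cos_eq_one_iff _).mp hy
      refine ⟨n, ?_⟩
      simp only
      rw [hn]
      field_simp
      ring
    exact (Set.countable_range _).mono this
  have h0 := countable_null μ K h _ hc
  rw [ae_iff]
  simpa using h0

theorem one_sub_normSq (μ : Measure ℝ) [IsProbabilityMeasure μ] (s : ℝ) :
    1 - ‖charFun μ s‖ ^ 2 = ∫ z : ℝ × ℝ, (1 - Real.cos (s * (z.1 - z.2))) ∂(μ.prod μ) := by
  have hint : Integrable (fun z : ℝ × ℝ => Real.cos (s * (z.1 - z.2))) (μ.prod μ) := by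
    refine Integrable.mono' (integrable_const (1 : ℝ)) ?_ (Filter.Eventually.of_forall ?_)
    · apply Continuous.aestronglyMeasurable
      fun_prop
    · intro z
      exact Real.abs_cos_le_one _
  rw [integral_sub (integrable_const _) hint, normSq_charFun]
  simp

theorem integrable_one_sub (μ : Measure ℝ) [IsProbabilityMeasure μ] (s : ℝ) :
    Integrable (fun z : ℝ × ℝ => 1 - Real.cos (s * (z.1 - z.2))) (μ.prod μ) := by
  refine Integrable.mono' (integrable_const (2 : ℝ)) ?_ (Filter.Eventually.of_forall ?_)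
  · apply Continuous.aestronglyMeasurable
    fun_prop
  · intro z
    rw [Real.norm_eq_abs, abs_le]
    constructor <;> linarith [Real.cos_le_one (s * (z.1 - z.2)), Real.neg_one_le_cos (s * (z.1 - z.2))]

theorem one_sub_pos (μ : Measure ℝ) (K : ℝ≥0) (h : Law μ K) (s : ℝ) (hs : s ≠ 0) :
    0 < 1 - ‖charFun μ s‖ ^ 2 := by
  have := h.prob
  rw [one_sub_normSq]
  rw [integral_pos_iff_support_of_nonneg_ae
    (Filter.Eventually.of_forall fun z => by
      simp only [Pi.zero_apply]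
      linarith [Real.cos_le_one (s * (z.1 - z.2))]) (integrable_one_sub μ s)]
  have h1 := ae_ne μ K h s hs
  have h2 : (μ.prod μ) (Function.support fun z : ℝ × ℝ => 1 - Real.cos (s * (z.1 - z.2))) = 1 := by
    rw [← measure_univ (μ := μ.prod μ)]
    apply measure_congr
    filter_upwards [h1] with z hz
    apply propext
    constructor
    · intro _; trivial
    · intro _
      change 1 - Real.cos (s * (z.1 - z.2)) ≠ 0
      intro h0
      exact hz (by linarith)
  rw [h2]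
  exact one_pos

theorem near_zero (μ : Measure ℝ) (K : ℝ≥0) (h : Law μ K) :
    ∃ c s₀ : ℝ, 0 < c ∧ 0 < s₀ ∧ s₀ ≤ 1 ∧ ∀ s : ℝ, |s| ≤ s₀ → c * s ^ 2 ≤ 1 - ‖charFun μ s‖ ^ 2 := by
  have := h.prob
  have h1 := ae_ne μ K h 1 one_ne_zero
  -- sets of bounded difference
  set B : ℕ → Set (ℝ × ℝ) := fun n => {z | z.1 - z.2 ≠ 0 ∧ |z.1 - z.2| ≤ n} with hB
  have hBm : ∀ n, MeasurableSet (B n) := by
    intro n
    have hd : Continuous (fun z : ℝ × ℝ => z.1 - z.2) := by fun_prop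
    exact (hd.measurable (MeasurableSet.compl (measurableSet_singleton 0))).inter
      (measurableSet_le (hd.abs.measurable) measurable_const)
  have hex : ∃ n, 0 < (μ.prod μ) (B n) := by
    by_contra hcon
    push Not at hcon
    have h0 : (μ.prod μ) (⋃ n, B n) = 0 := by
      rw [measure_iUnion_null_iff]
      intro n
      exact le_antisymm (hcon n) zero_le
    have h2 : (μ.prod μ) Set.univ = 0 := by
      have : ∀ᵐ z ∂(μ.prod μ), z ∈ ⋃ n, B n := by
        filter_upwards [h1] with z hz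
        rw [Set.mem_iUnion]
        obtain ⟨n, hn⟩ := exists_nat_ge |z.1 - z.2|
        refine ⟨n, ?_, hn⟩
        intro h0
        apply hz
        rw [h0, mul_zero, Real.cos_zero]
      have h3 : (μ.prod μ) (⋃ n, B n)ᶜ = 0 := this
      have := measure_union_le (μ := μ.prod μ) (⋃ n, B n) (⋃ n, B n)ᶜ
      rw [Set.union_compl_self, h0, h3, add_zero] at this
      exact le_antisymm this zero_le
    rw [measure_univ] at h2
    exact one_ne_zero h2
  obtain ⟨n, hn⟩ := hex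
  have hn0 : (0 : ℝ) < n := by
    rcases Nat.eq_zero_or_pos n with h0 | h0
    · exfalso
      have : B n = ∅ := by
        ext z
        simp only [hB, Set.mem_ofPred_eq, Set.mem_empty_iff_false, iff_false, h0, Nat.cast_zero]
        rintro ⟨hz1, hz2⟩
        exact hz1 (abs_eq_zero.mp (le_antisymm hz2 (abs_nonneg _)))
      rw [this, measure_empty] at hn
      exact lt_irrefl _ hn
    · exact_mod_cast h0
  have hIB : IntegrableOn (fun z : ℝ × ℝ => (z.1 - z.2) ^ 2) (B n) (μ.prod μ) := by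
    refine Integrable.mono' (g := fun _ => (n : ℝ) ^ 2) (integrable_const _) ?_ ?_
    · apply Continuous.aestronglyMeasurable
      fun_prop
    · filter_upwards [ae_restrict_mem (hBm n)] with z hz
      rw [Real.norm_of_nonneg (sq_nonneg _), ← sq_abs]
      exact pow_le_pow_left₀ (abs_nonneg _) hz.2 2
  have hpos : 0 < ∫ z in B n, (z.1 - z.2) ^ 2 ∂(μ.prod μ) := by
    rw [setIntegral_pos_iff_support_of_nonneg_ae (Filter.Eventually.of_forall fun z => sq_nonneg _) hIB]
    have : (Function.support fun z : ℝ × ℝ => (z.1 - z.2) ^ 2) ∩ B n = B n := by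
      apply Set.inter_eq_right.mpr
      intro z hz
      exact pow_ne_zero 2 hz.1
    rw [this]
    exact hn
  refine ⟨2 / Real.pi ^ 2 * ∫ z in B n, (z.1 - z.2) ^ 2 ∂(μ.prod μ), min 1 (Real.pi / n),
    by positivity, by positivity, min_le_left _ _, ?_⟩
  intro s hs
  rw [one_sub_normSq]
  calc 2 / Real.pi ^ 2 * (∫ z in B n, (z.1 - z.2) ^ 2 ∂(μ.prod μ)) * s ^ 2
      = ∫ z in B n, (2 / Real.pi ^ 2 * (s * (z.1 - z.2)) ^ 2) ∂(μ.prod μ) := by
        rw [← integral_const_mul, ← integral_mul_const]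
        apply integral_congr_ae
        refine Filter.Eventually.of_forall fun z => ?_
        simp only
        ring
    _ ≤ ∫ z in B n, (1 - Real.cos (s * (z.1 - z.2))) ∂(μ.prod μ) := by
        apply setIntegral_mono_on
        · have := hIB.const_mul (2 / Real.pi ^ 2 * s ^ 2)
          refine this.congr (Filter.Eventually.of_forall fun z => ?_)
          simp only
          ring
        · exact (integrable_one_sub μ s).integrableOn
        · exact hBm n
        · intro z hz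
          have h2 : |s * (z.1 - z.2)| ≤ Real.pi := by
            rw [abs_mul]
            calc |s| * |z.1 - z.2| ≤ (Real.pi / n) * n := by
                  apply mul_le_mul (hs.trans (min_le_right _ _)) hz.2 (abs_nonneg _) (by positivity)
              _ = Real.pi := by field_simp
          have := Real.cos_le_one_sub_mul_cos_sq h2
          linarith
    _ ≤ ∫ z, (1 - Real.cos (s * (z.1 - z.2))) ∂(μ.prod μ) := by
        apply setIntegral_le_integral (integrable_one_sub μ s)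
        exact Filter.Eventually.of_forall fun z => by
          simp only [Pi.zero_apply]
          linarith [Real.cos_le_one (s * (z.1 - z.2))]

theorem charFun_tendsto (μ : Measure ℝ) (K : ℝ≥0) (h : Law μ K) :
    Filter.Tendsto (fun s : ℝ => charFun μ s) (Filter.cocompact ℝ) (nhds 0) := by
  have := h.prob
  have hac : μ ≪ volume := by
    refine Measure.AbsolutelyContinuous.mk fun S _ hS => ?_
    have h2 := h.dens S
    rw [Measure.smul_apply, hS, smul_zero] at h2
    exact le_antisymm h2 zero_le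
  have h1 := Real.tendsto_integral_exp_smul_cocompact
    (fun x : ℝ => (((μ.rnDeriv volume x).toReal : ℝ) : ℂ))
  have h2 : ∀ s : ℝ, charFun μ s = ∫ v : ℝ, (Real.fourierChar (-(v * (-s / (2 * Real.pi))))) •
      (((μ.rnDeriv volume v).toReal : ℝ) : ℂ) := by
    intro s
    rw [charFun_apply_real, ← integral_rnDeriv_smul hac]
    apply integral_congr_ae
    refine Filter.Eventually.of_forall fun v => ?_
    simp only
    rw [Circle.smul_def, Real.fourierChar_apply, Complex.real_smul, smul_eq_mul, mul_comm]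
    congr 2
    push_cast
    have : (Real.pi : ℂ) ≠ 0 := by exact_mod_cast Real.pi_ne_zero
    field_simp
  have h3 : Filter.Tendsto (fun s : ℝ => -s / (2 * Real.pi)) (Filter.cocompact ℝ)
      (Filter.cocompact ℝ) := by
    have hne : (-1 / (2 * Real.pi)) ≠ 0 := by
      have := Real.pi_pos
      exact div_ne_zero (by norm_num) (by positivity)
    have h4 := (Homeomorph.mulLeft₀ (-1 / (2 * Real.pi)) hne).isClosedEmbedding.tendsto_cocompact
    refine h4.congr fun s => ?_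
    simp only [Homeomorph.coe_mulLeft₀]
    ring
  refine (h1.comp h3).congr fun s => ?_
  rw [h2 s]
  rfl

theorem one_sub_ge (μ : Measure ℝ) (K : ℝ≥0) (h : Law μ K) :
    ∃ c : ℝ, 0 < c ∧ ∀ s : ℝ, c * min (s ^ 2) 1 ≤ 1 - ‖charFun μ s‖ ^ 2 := by
  have := h.prob
  have hcont : Continuous (fun s : ℝ => charFun μ s) := continuous_charFun
  obtain ⟨c₁, s₀, hc₁, hs₀, hs₀1, hnear⟩ := near_zero μ K h
  have hlim := charFun_tendsto μ K h
  have hev : ∀ᶠ s in Filter.cocompact ℝ, ‖charFun μ s‖ < 1 / 2 := by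
    have := hlim.norm
    rw [norm_zero] at this
    exact this.eventually (gt_mem_nhds (by norm_num))
  rw [Filter.eventually_iff, Metric.mem_cocompact_iff_closedBall_compl_subset 0] at hev
  obtain ⟨M, hM⟩ := hev
  have hK : IsCompact ({s : ℝ | s₀ ≤ |s|} ∩ Metric.closedBall 0 M) :=
    (isCompact_closedBall (0 : ℝ) M).inter_left (isClosed_le continuous_const continuous_abs)
  obtain ⟨c₂, hc₂, hK2⟩ : ∃ c₂ : ℝ, 0 < c₂ ∧ ∀ s ∈ ({s : ℝ | s₀ ≤ |s|} ∩ Metric.closedBall 0 M),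
      c₂ ≤ 1 - ‖charFun μ s‖ ^ 2 := by
    rcases Set.eq_empty_or_nonempty ({s : ℝ | s₀ ≤ |s|} ∩ Metric.closedBall (0 : ℝ) M) with he | hne
    · exact ⟨1, one_pos, fun s hs => by rw [he] at hs; exact absurd hs (Set.notMem_empty s)⟩
    · have hg : Continuous (fun s : ℝ => 1 - ‖charFun μ s‖ ^ 2) := by fun_prop
      obtain ⟨x, hx, hmin⟩ := hK.exists_isMinOn hne hg.continuousOn
      refine ⟨1 - ‖charFun μ x‖ ^ 2, ?_, fun s hs => hmin hs⟩
      apply one_sub_pos μ K h
      intro h0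
      have := hx.1
      rw [Set.mem_ofPred_eq, h0, abs_zero] at this
      linarith
  refine ⟨min c₁ (min c₂ (3 / 4)), by positivity, fun s => ?_⟩
  have hm0 : (0 : ℝ) ≤ min (s ^ 2) 1 := le_min (sq_nonneg s) zero_le_one
  have hm1 : min (s ^ 2) 1 ≤ 1 := min_le_right _ _
  rcases le_or_gt (|s|) s₀ with h1 | h1
  · calc min c₁ (min c₂ (3 / 4)) * min (s ^ 2) 1 ≤ c₁ * s ^ 2 := by
          apply mul_le_mul (min_le_left _ _) (min_le_left _ _) hm0 hc₁.le
      _ ≤ _ := hnear s h1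
  · by_cases h2 : s ∈ Metric.closedBall (0 : ℝ) M
    · calc min c₁ (min c₂ (3 / 4)) * min (s ^ 2) 1 ≤ c₂ * 1 := by
            apply mul_le_mul ((min_le_right _ _).trans (min_le_left _ _)) hm1 hm0 hc₂.le
        _ = c₂ := mul_one _
        _ ≤ _ := hK2 s ⟨h1.le, h2⟩
    · have h3 := hM h2
      rw [Set.mem_ofPred_eq] at h3
      have h4 : ‖charFun μ s‖ ^ 2 ≤ 1 / 4 := by
        have := norm_nonneg (charFun μ s)
        nlinarith
      calc min c₁ (min c₂ (3 / 4)) * min (s ^ 2) 1 ≤ (3 / 4) * 1 := by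
            apply mul_le_mul ((min_le_right _ _).trans (min_le_right _ _)) hm1 hm0 (by norm_num)
        _ ≤ _ := by linarith

/-- The `L^p` norms of the characteristic function decay like `p^(-1/2)`. -/
theorem charFun_Lp_bound (μ : Measure ℝ) (K : ℝ≥0) (h : Law μ K) :
    ∃ C : ℝ≥0, ∀ p : ℝ, 2 ≤ p →
      ∫⁻ s : ℝ, ‖charFun μ s‖ₑ ^ p ≤ C * ENNReal.ofReal (1 / Real.sqrt p) := by
  have := h.prob
  have hcont : Continuous (fun s : ℝ => charFun μ s) := continuous_charFun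
  obtain ⟨c, hc, hle⟩ := one_sub_ge μ K h
  have hpi := Real.pi_pos
  set A : ℝ := 2 * Real.pi * K with hA
  have hA0 : 0 ≤ A := by positivity
  have hA2 := charFun_sq_le μ K h
  refine ⟨Real.toNNReal (2 * (Real.sqrt (Real.pi / c) + A / Real.sqrt c) + 2 * A), fun p hp => ?_⟩
  have hp0 : 0 < p := by linarith
  have hconv : ∀ s : ℝ, ‖charFun μ s‖ₑ ^ p = ENNReal.ofReal (‖charFun μ s‖ ^ p) := by
    intro s
    rw [← ofReal_norm, ENNReal.ofReal_rpow_of_nonneg (norm_nonneg _) hp0.le]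
  simp only [hconv]
  have hn1 : ∀ s : ℝ, ‖charFun μ s‖ ≤ 1 := fun s => norm_charFun_le_one s
  have hsp : 0 < Real.sqrt p := Real.sqrt_pos.mpr hp0
  have hsc : 0 < Real.sqrt c := Real.sqrt_pos.mpr hc
  have hgoal : ∀ x : ℝ, x ≤ (2 * (Real.sqrt (Real.pi / c) + A / Real.sqrt c) + 2 * A) / Real.sqrt p →
      ENNReal.ofReal x ≤
      ((Real.toNNReal (2 * (Real.sqrt (Real.pi / c) + A / Real.sqrt c) + 2 * A) : ℝ≥0) : ℝ≥0∞) *
        ENNReal.ofReal (1 / Real.sqrt p) := by
    intro x hx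
    calc ENNReal.ofReal x ≤ ENNReal.ofReal
          ((2 * (Real.sqrt (Real.pi / c) + A / Real.sqrt c) + 2 * A) * (1 / Real.sqrt p)) := by
          apply ENNReal.ofReal_le_ofReal
          rw [mul_one_div]
          exact hx
      _ = _ := by
          rw [ENNReal.ofReal_mul (by positivity)]
          rfl
  rcases lt_or_ge p 4 with hp4 | hp4
  · refine le_trans ?_ (hgoal A ?_)
    · refine (lintegral_mono fun s => ?_).trans hA2
      apply ENNReal.ofReal_le_ofReal
      rw [← Real.rpow_natCast]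
      apply Real.rpow_le_rpow_of_exponent_ge_of_imp (norm_nonneg _) (hn1 s) (by simpa using hp)
      intro h0 h1
      exact absurd h1 hp0.ne'
    · rw [le_div_iff₀ hsp]
      have h2 : Real.sqrt p ≤ 2 := by
        rw [show (2 : ℝ) = Real.sqrt 4 by
          rw [show (4 : ℝ) = 2 ^ 2 by norm_num]; exact (Real.sqrt_sq (by norm_num)).symm]
        exact Real.sqrt_le_sqrt hp4.le
      have h3 : 0 ≤ 2 * (Real.sqrt (Real.pi / c) + A / Real.sqrt c) := by positivity
      nlinarith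
  · set q : ℝ := (p - 2) / 2 with hq
    have hq4 : p / 4 ≤ q := by rw [hq]; linarith
    have hq0 : 0 < q := by linarith
    have hcq : 0 < c * q := by positivity
    have hpt : ∀ s : ℝ, ‖charFun μ s‖ ^ p ≤
        Real.exp (-(c * q) * s ^ 2) + Real.exp (-(c * q)) * ‖charFun μ s‖ ^ 2 := by
      intro s
      have h0 : 0 ≤ ‖charFun μ s‖ ^ 2 := by positivity
      have h1 : ‖charFun μ s‖ ^ 2 ≤ 1 := pow_le_one₀ (norm_nonneg _) (hn1 s)
      have h2 : ‖charFun μ s‖ ^ 2 ≤ Real.exp (-(c * min (s ^ 2) 1)) := by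
        have h3 := hle s
        have h4 := Real.add_one_le_exp (-(c * min (s ^ 2) 1))
        linarith
      have h3 : ‖charFun μ s‖ ^ p = ‖charFun μ s‖ ^ 2 * (‖charFun μ s‖ ^ 2) ^ q := by
        rw [← Real.rpow_natCast, ← Real.rpow_mul (norm_nonneg _), ← Real.rpow_add_of_nonneg
          (norm_nonneg _) (by norm_num) (by push_cast; positivity)]
        congr 1
        rw [hq]
        push_cast
        ring
      have h4 : (‖charFun μ s‖ ^ 2) ^ q ≤ Real.exp (-(c * q) * min (s ^ 2) 1) := by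
        calc (‖charFun μ s‖ ^ 2) ^ q ≤ (Real.exp (-(c * min (s ^ 2) 1))) ^ q :=
              Real.rpow_le_rpow h0 h2 hq0.le
          _ = _ := by
              rw [← Real.exp_mul]
              congr 1
              ring
      rw [h3]
      rcases le_total (s ^ 2) 1 with h5 | h5
      · rw [min_eq_left h5] at h4
        calc ‖charFun μ s‖ ^ 2 * (‖charFun μ s‖ ^ 2) ^ q
            ≤ 1 * Real.exp (-(c * q) * s ^ 2) := by
              apply mul_le_mul h1 h4 (Real.rpow_nonneg h0 _) zero_le_one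
          _ ≤ _ := by
              rw [one_mul]
              have : 0 ≤ Real.exp (-(c * q)) * ‖charFun μ s‖ ^ 2 := by positivity
              linarith
      · rw [min_eq_right h5, mul_one] at h4
        calc ‖charFun μ s‖ ^ 2 * (‖charFun μ s‖ ^ 2) ^ q
            ≤ ‖charFun μ s‖ ^ 2 * Real.exp (-(c * q)) := by
              apply mul_le_mul_of_nonneg_left h4 h0
          _ ≤ _ := by
              have : 0 < Real.exp (-(c * q) * s ^ 2) := Real.exp_pos _
              linarith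
    have hg : Integrable (fun s : ℝ => Real.exp (-(c * q) * s ^ 2)) volume :=
      integrable_exp_neg_mul_sq hcq
    have hI1 : ∫⁻ s : ℝ, ENNReal.ofReal (Real.exp (-(c * q) * s ^ 2)) =
        ENNReal.ofReal (Real.sqrt (Real.pi / (c * q))) := by
      rw [← ofReal_integral_eq_lintegral_ofReal hg
        (Filter.Eventually.of_forall fun s => (Real.exp_pos _).le), integral_gaussian]
    calc ∫⁻ s : ℝ, ENNReal.ofReal (‖charFun μ s‖ ^ p)
        ≤ ∫⁻ s : ℝ, (ENNReal.ofReal (Real.exp (-(c * q) * s ^ 2)) +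
          ENNReal.ofReal (Real.exp (-(c * q))) * ENNReal.ofReal (‖charFun μ s‖ ^ 2)) := by
          apply lintegral_mono
          intro s
          simp only
          rw [← ENNReal.ofReal_mul (Real.exp_pos _).le,
            ← ENNReal.ofReal_add (Real.exp_pos _).le (by positivity)]
          exact ENNReal.ofReal_le_ofReal (hpt s)
      _ = ENNReal.ofReal (Real.sqrt (Real.pi / (c * q))) + ENNReal.ofReal (Real.exp (-(c * q))) *
          ∫⁻ s : ℝ, ENNReal.ofReal (‖charFun μ s‖ ^ 2) := by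
          rw [lintegral_add_left, hI1, lintegral_const_mul]
          · apply ENNReal.measurable_ofReal.comp
            apply Continuous.measurable
            fun_prop
          · apply ENNReal.measurable_ofReal.comp
            apply Continuous.measurable
            fun_prop
      _ ≤ ENNReal.ofReal (Real.sqrt (Real.pi / (c * q))) + ENNReal.ofReal (Real.exp (-(c * q))) *
          ENNReal.ofReal A := by gcongr
      _ = ENNReal.ofReal (Real.sqrt (Real.pi / (c * q)) + Real.exp (-(c * q)) * A) := by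
          rw [← ENNReal.ofReal_mul (Real.exp_pos _).le, ← ENNReal.ofReal_add (by positivity)
            (by positivity)]
      _ ≤ _ := by
          apply hgoal
          have h1 : Real.sqrt (Real.pi / (c * q)) ≤ 2 * Real.sqrt (Real.pi / c) / Real.sqrt p := by
            have h2 : Real.pi / (c * q) ≤ (Real.pi / c) * 4 / p := by
              rw [div_mul_eq_mul_div, div_div, div_le_div_iff₀ hcq (by positivity)]
              nlinarith [mul_pos hpi hc]
            calc Real.sqrt (Real.pi / (c * q)) ≤ Real.sqrt ((Real.pi / c) * 4 / p) :=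
                  Real.sqrt_le_sqrt h2
              _ = Real.sqrt (Real.pi / c) * Real.sqrt 4 / Real.sqrt p := by
                  rw [Real.sqrt_div' _ hp0.le, Real.sqrt_mul' _ (by norm_num)]
              _ = _ := by
                  rw [show Real.sqrt 4 = 2 by
                    rw [show (4 : ℝ) = 2 ^ 2 by norm_num]; exact Real.sqrt_sq (by norm_num)]
                  ring
          have h3 : Real.exp (-(c * q)) ≤ 2 / (Real.sqrt c * Real.sqrt p) := by
            have h4 : Real.sqrt (c * q) ≤ Real.exp (c * q) := by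
              have h5 := Real.add_one_le_exp (c * q)
              have h6 : Real.sqrt (c * q) ≤ 1 + c * q := by
                rw [Real.sqrt_le_left (by positivity)]
                nlinarith
              linarith
            have h7 : Real.sqrt c * Real.sqrt p / 2 ≤ Real.sqrt (c * q) := by
              apply Real.le_sqrt_of_sq_le
              rw [div_pow, mul_pow, Real.sq_sqrt hc.le, Real.sq_sqrt hp0.le]
              nlinarith
            have h8 : Real.sqrt c * Real.sqrt p / 2 ≤ Real.exp (c * q) := h7.trans h4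
            rw [Real.exp_neg, inv_eq_one_div, div_le_div_iff₀ (Real.exp_pos _) (by positivity)]
            linarith
          have h9 : Real.exp (-(c * q)) * A ≤ 2 / (Real.sqrt c * Real.sqrt p) * A := by gcongr
          have h10 : 2 / (Real.sqrt c * Real.sqrt p) * A = 2 * (A / Real.sqrt c) / Real.sqrt p := by
            field_simp
          have h11 : 0 ≤ 2 * A / Real.sqrt p := by positivity
          have h12 : (2 * (Real.sqrt (Real.pi / c) + A / Real.sqrt c) + 2 * A) / Real.sqrt p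
            = 2 * Real.sqrt (Real.pi / c) / Real.sqrt p + 2 * (A / Real.sqrt c) / Real.sqrt p
              + 2 * A / Real.sqrt p := by ring
          rw [h12]
          linarith

end Pool.Agent.SMin

end

section

/-!
A probability measure on `ℝ^d` with integrable characteristic function has a bounded density.
-/

open MeasureTheory Matrix
open scoped ENNReal NNReal

namespace Pool.Agent.SMin

open Complex in
/-- The Gaussian regularised inversion identity, in norm form. -/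
theorem gauss_int_le (d : ℕ) (ν : Measure (Fin d → ℝ)) [IsProbabilityMeasure ν] (J : ℝ≥0)
    (hJ : (∫⁻ ζ : Fin d → ℝ, ‖∫ y, Complex.exp (Complex.I * ∑ r, (ζ r : ℂ) * (y r : ℂ)) ∂ν‖ₑ)
      ≤ J) (y₀ : Fin d → ℝ) (b : ℝ) (hb : 0 < b) :
    (Real.sqrt (Real.pi / b)) ^ d * ∫ y, Real.exp (-(∑ r, (y r - y₀ r) ^ 2) / (4 * b)) ∂ν
      ≤ J := by
  have hbc : 0 < (b : ℂ).re := by simpa using hb
  have key : ∀ y : Fin d → ℝ,
      ∫ ζ : Fin d → ℝ, cexp (-(b : ℂ) * ∑ i, (ζ i : ℂ) ^ 2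
        + ∑ i, (I * ((y i : ℂ) - (y₀ i : ℂ))) * ζ i)
      = (Real.pi / b : ℂ) ^ ((d : ℂ) / 2) *
        ((Real.exp (-(∑ r, (y r - y₀ r) ^ 2) / (4 * b)) : ℝ) : ℂ) := by
    intro y
    have h := GaussianFourier.integral_cexp_neg_mul_sum_add (ι := Fin d) hbc
      (fun i => I * ((y i : ℂ) - (y₀ i : ℂ)))
    rw [Fintype.card_fin] at h
    rw [h]
    congr 1
    push_cast
    congr 1
    have : ∀ i : Fin d, (I * ((y i : ℂ) - (y₀ i : ℂ))) ^ 2 = -((y i : ℂ) - (y₀ i : ℂ)) ^ 2 := by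
      intro i
      rw [mul_pow, I_sq]; ring
    simp only [this, Finset.sum_neg_distrib]
  have hint : Integrable (Function.uncurry (fun (y : Fin d → ℝ) (ζ : Fin d → ℝ) =>
      cexp (-(b : ℂ) * ∑ i, (ζ i : ℂ) ^ 2
        + ∑ i, (I * ((y i : ℂ) - (y₀ i : ℂ))) * ζ i))) (ν.prod volume) := by
    have h0 : Integrable (fun ζ : Fin d → ℝ =>
        cexp (-(b : ℂ) * ∑ i, (ζ i : ℂ) ^ 2 + ∑ i, (0 : ℂ) * ζ i)) volume :=
      GaussianFourier.integrable_cexp_neg_mul_sum_add hbc (fun _ => 0)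
    have h1 : Integrable (fun p : (Fin d → ℝ) × (Fin d → ℝ) =>
        cexp (-(b : ℂ) * ∑ i, (p.2 i : ℂ) ^ 2 + ∑ i, (0 : ℂ) * p.2 i)) (ν.prod volume) :=
      h0.comp_snd ν
    refine h1.mono ?_ (Filter.Eventually.of_forall ?_)
    · apply Continuous.aestronglyMeasurable
      unfold Function.uncurry
      fun_prop
    · rintro ⟨y, ζ⟩
      simp only [Function.uncurry]
      rw [Complex.norm_exp, Complex.norm_exp]
      apply Real.exp_le_exp.mpr
      apply le_of_eq
      have e1 : (∑ i, (I * ((y i : ℂ) - (y₀ i : ℂ))) * (ζ i : ℂ)).re = 0 := by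
        rw [Complex.re_sum]
        apply Finset.sum_eq_zero
        intro i _
        have : (I * ((y i : ℂ) - (y₀ i : ℂ))) * (ζ i : ℂ)
          = I * (((y i - y₀ i) * ζ i : ℝ) : ℂ) := by push_cast; ring
        rw [this]
        simp
      rw [Complex.add_re, Complex.add_re, e1]
      simp
  have hswap := integral_integral_swap hint
  simp only [key] at hswap
  rw [integral_const_mul, integral_complex_ofReal] at hswap
  have hR : ‖∫ ζ : Fin d → ℝ, ∫ y : Fin d → ℝ, cexp (-(b : ℂ) * ∑ i, (ζ i : ℂ) ^ 2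
        + ∑ i, (I * ((y i : ℂ) - (y₀ i : ℂ))) * ζ i) ∂ν‖ₑ ≤ J := by
    refine (enorm_integral_le_lintegral_enorm _).trans ?_
    refine (lintegral_mono fun ζ => ?_).trans hJ
    have e : ∀ y : Fin d → ℝ, cexp (-(b : ℂ) * ∑ i, (ζ i : ℂ) ^ 2
        + ∑ i, (I * ((y i : ℂ) - (y₀ i : ℂ))) * ζ i)
        = cexp (-(b : ℂ) * ∑ i, (ζ i : ℂ) ^ 2 - I * ∑ i, (ζ i : ℂ) * (y₀ i : ℂ)) *
          cexp (I * ∑ i, (ζ i : ℂ) * (y i : ℂ)) := by
      intro y
      rw [← Complex.exp_add]
      congr 1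
      simp only [Finset.mul_sum]
      rw [sub_add, ← Finset.sum_sub_distrib, ← sub_neg_eq_add, ← Finset.sum_neg_distrib]
      congr 1
      apply Finset.sum_congr rfl
      intro i _
      ring
    simp only [e]
    rw [integral_const_mul, enorm_mul]
    have h1 : ‖cexp (-(b : ℂ) * ∑ i, (ζ i : ℂ) ^ 2 - I * ∑ i, (ζ i : ℂ) * (y₀ i : ℂ))‖ₑ ≤ 1 := by
      rw [← ofReal_norm, Complex.norm_exp]
      rw [ENNReal.ofReal_le_one, Real.exp_le_one_iff]
      have e1 : (∑ i, (ζ i : ℂ) * (y₀ i : ℂ)) = ((∑ i, ζ i * y₀ i : ℝ) : ℂ) := by push_cast; rfl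
      have e2 : (∑ i, (ζ i : ℂ) ^ 2) = ((∑ i, ζ i ^ 2 : ℝ) : ℂ) := by push_cast; rfl
      rw [e1, e2]
      have : (-(b : ℂ) * ((∑ i, ζ i ^ 2 : ℝ) : ℂ) - I * ((∑ i, ζ i * y₀ i : ℝ) : ℂ)).re
        = -(b * ∑ i, ζ i ^ 2) := by
        rw [Complex.sub_re, Complex.I_mul_re, Complex.ofReal_im, neg_zero, sub_zero, neg_mul,
          Complex.neg_re, ← Complex.ofReal_mul, Complex.ofReal_re]
      rw [this]
      have : 0 ≤ b * ∑ i, ζ i ^ 2 := mul_nonneg hb.le (Finset.sum_nonneg fun i _ => sq_nonneg _)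
      linarith
    calc _ ≤ 1 * ‖∫ y, cexp (I * ∑ i, (ζ i : ℂ) * (y i : ℂ)) ∂ν‖ₑ := by gcongr
      _ = _ := one_mul _
  rw [← hswap] at hR
  have hnorm : ‖(Real.pi / b : ℂ) ^ ((d : ℂ) / 2)‖ = (Real.sqrt (Real.pi / b)) ^ d := by
    have h1 : (Real.pi / b : ℂ) = ((Real.pi / b : ℝ) : ℂ) := by push_cast; rfl
    rw [h1, Complex.norm_cpow_eq_rpow_re_of_pos (by positivity)]
    have h2 : ((d : ℂ) / 2).re = (1 / 2 : ℝ) * d := by
      have : ((d : ℂ) / 2) = (((1 / 2 : ℝ) * d : ℝ) : ℂ) := by push_cast; ring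
      rw [this, Complex.ofReal_re]
    rw [h2, Real.rpow_mul (by positivity), ← Real.sqrt_eq_rpow, Real.rpow_natCast]
  rw [← ofReal_norm, norm_mul, hnorm, Complex.norm_real, Real.norm_of_nonneg
    (integral_nonneg fun y => (Real.exp_pos _).le)] at hR
  rw [← ENNReal.ofReal_coe_nnreal] at hR
  exact (ENNReal.ofReal_le_ofReal_iff J.2).mp hR

theorem closedBall_le (d : ℕ) (ν : Measure (Fin d → ℝ)) [IsProbabilityMeasure ν] (J : ℝ≥0)
    (hJ : (∫⁻ ζ : Fin d → ℝ, ‖∫ y, Complex.exp (Complex.I * ∑ r, (ζ r : ℂ) * (y r : ℂ)) ∂ν‖ₑ)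
      ≤ J) (y₀ : Fin d → ℝ) (x : ℝ) (hx : 0 < x) :
    ν (Metric.closedBall y₀ x) ≤
      ENNReal.ofReal (Real.exp (d / 4) * ((2 * Real.sqrt Real.pi)⁻¹) ^ d * J) *
        volume (Metric.closedBall y₀ x) := by
  have h := gauss_int_le d ν J hJ y₀ (x ^ 2) (by positivity)
  have hInt : Integrable (fun y : Fin d → ℝ =>
      Real.exp (-(∑ r, (y r - y₀ r) ^ 2) / (4 * x ^ 2))) ν := by
    refine Integrable.mono' (integrable_const (1 : ℝ)) ?_ (Filter.Eventually.of_forall ?_)
    · apply Continuous.aestronglyMeasurable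
      fun_prop
    · intro y
      rw [Real.norm_of_nonneg (Real.exp_pos _).le, Real.exp_le_one_iff]
      apply div_nonpos_of_nonpos_of_nonneg _ (by positivity)
      have : 0 ≤ ∑ r, (y r - y₀ r) ^ 2 := Finset.sum_nonneg fun i _ => sq_nonneg _
      linarith
  have hM := mul_meas_ge_le_integral_of_nonneg (μ := ν)
    (Filter.Eventually.of_forall fun y => (Real.exp_pos _).le) hInt (Real.exp (-(d / 4)))
  have hsub : Metric.closedBall y₀ x ⊆
      {y | Real.exp (-(d / 4)) ≤ Real.exp (-(∑ r, (y r - y₀ r) ^ 2) / (4 * x ^ 2))} := by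
    intro y hy
    simp only [Set.mem_ofPred_eq]
    apply Real.exp_le_exp.mpr
    have h1 : ∀ r, (y r - y₀ r) ^ 2 ≤ x ^ 2 := by
      intro r
      have h2 : |y r - y₀ r| ≤ x := by
        have := (dist_le_pi_dist y y₀ r).trans (Metric.mem_closedBall.mp hy)
        rwa [Real.dist_eq] at this
      exact sq_le_sq' (by linarith [neg_abs_le (y r - y₀ r)]) (by linarith [le_abs_self (y r - y₀ r)])
    have h3 : ∑ r, (y r - y₀ r) ^ 2 ≤ d * x ^ 2 := by
      calc ∑ r, (y r - y₀ r) ^ 2 ≤ ∑ _r : Fin d, x ^ 2 := Finset.sum_le_sum fun r _ => h1 r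
        _ = d * x ^ 2 := by simp
    rw [le_div_iff₀ (by positivity)]
    nlinarith
  have hreal : ν.real (Metric.closedBall y₀ x) ≤ ν.real
      {y | Real.exp (-(d / 4)) ≤ Real.exp (-(∑ r, (y r - y₀ r) ^ 2) / (4 * x ^ 2))} :=
    measureReal_mono hsub
  have hfin : ν.real (Metric.closedBall y₀ x) ≤
      Real.exp (d / 4) * ((2 * Real.sqrt Real.pi)⁻¹) ^ d * J * (2 * x) ^ d := by
    have hs : Real.sqrt (Real.pi / x ^ 2) = Real.sqrt Real.pi / x := by
      rw [Real.sqrt_div' _ (by positivity), Real.sqrt_sq hx.le]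
    rw [hs] at h
    have hsp : 0 < Real.sqrt Real.pi := Real.sqrt_pos.mpr Real.pi_pos
    have h4 : Real.exp (-(d / 4)) * ν.real (Metric.closedBall y₀ x) ≤
        ∫ y, Real.exp (-(∑ r, (y r - y₀ r) ^ 2) / (4 * x ^ 2)) ∂ν :=
      (mul_le_mul_of_nonneg_left hreal (Real.exp_pos _).le).trans hM
    have h5 : (Real.sqrt Real.pi / x) ^ d * (Real.exp (-(d / 4)) * ν.real (Metric.closedBall y₀ x))
        ≤ J := (mul_le_mul_of_nonneg_left h4 (by positivity)).trans h
    have h6 : Real.exp (d / 4) * ((2 * Real.sqrt Real.pi)⁻¹) ^ d * (2 * x) ^ d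
        * ((Real.sqrt Real.pi / x) ^ d * Real.exp (-(d / 4))) = 1 := by
      have : (((2 * Real.sqrt Real.pi)⁻¹) ^ d * (2 * x) ^ d * (Real.sqrt Real.pi / x) ^ d) = 1 := by
        rw [← mul_pow, ← mul_pow]
        have : (2 * Real.sqrt Real.pi)⁻¹ * (2 * x) * (Real.sqrt Real.pi / x) = 1 := by
          field_simp
        rw [this, one_pow]
      calc _ = (((2 * Real.sqrt Real.pi)⁻¹) ^ d * (2 * x) ^ d * (Real.sqrt Real.pi / x) ^ d)
            * (Real.exp (d / 4) * Real.exp (-(d / 4))) := by ring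
        _ = 1 := by rw [this, ← Real.exp_add]; simp
    calc ν.real (Metric.closedBall y₀ x)
        = (Real.exp (d / 4) * ((2 * Real.sqrt Real.pi)⁻¹) ^ d * (2 * x) ^ d
        * ((Real.sqrt Real.pi / x) ^ d * Real.exp (-(d / 4)))) * ν.real (Metric.closedBall y₀ x) := by
          rw [h6, one_mul]
      _ = (Real.exp (d / 4) * ((2 * Real.sqrt Real.pi)⁻¹) ^ d * (2 * x) ^ d) *
          ((Real.sqrt Real.pi / x) ^ d *
            (Real.exp (-(d / 4)) * ν.real (Metric.closedBall y₀ x))) := by ring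
      _ ≤ (Real.exp (d / 4) * ((2 * Real.sqrt Real.pi)⁻¹) ^ d * (2 * x) ^ d) * J := by
          gcongr
      _ = _ := by ring
  rw [Real.volume_pi_closedBall y₀ hx.le, Fintype.card_fin,
    ← ENNReal.ofReal_mul (by positivity), ← ofReal_measureReal]
  exact ENNReal.ofReal_le_ofReal hfin

/-- A probability measure with integrable characteristic function has bounded density. -/
theorem le_smul_volume_of_charFun (d : ℕ) :
    ∃ C : ℝ≥0, ∀ (ν : Measure (Fin d → ℝ)) [IsProbabilityMeasure ν] (I : ℝ≥0),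
      (∫⁻ ζ : Fin d → ℝ, ‖∫ y, Complex.exp (Complex.I * ∑ r, (ζ r : ℂ) * (y r : ℂ)) ∂ν‖ₑ ≤ I) →
        ν ≤ ((C * I : ℝ≥0) : ℝ≥0∞) • volume := by
  refine ⟨Real.toNNReal (Real.exp (d / 4) * ((2 * Real.sqrt Real.pi)⁻¹) ^ d), ?_⟩
  intro ν _ J hJ
  have hC : ENNReal.ofReal (Real.exp (d / 4) * ((2 * Real.sqrt Real.pi)⁻¹) ^ d * J) =
      ((Real.toNNReal (Real.exp (d / 4) * ((2 * Real.sqrt Real.pi)⁻¹) ^ d) * J : ℝ≥0) : ℝ≥0∞) := by
    rw [ENNReal.ofReal_mul (by positivity), ENNReal.coe_mul, ENNReal.ofReal_coe_nnreal]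
    rfl
  rw [← hC]
  have hlf : IsLocallyFiniteMeasure ((ENNReal.ofReal
      (Real.exp (d / 4) * ((2 * Real.sqrt Real.pi)⁻¹) ^ d * J)) •
      (volume : Measure (Fin d → ℝ))) := by
    rw [hC, ← ENNReal.smul_def]
    infer_instance
  refine Measure.le_iff'.mpr fun s => ?_
  refine (Besicovitch.vitaliFamily ν).measure_le_of_frequently_le _ (ρ := ν)
    (Measure.AbsolutelyContinuous.refl ν) s ?_
  intro y₀ _
  refine (Besicovitch.tendsto_filterAt ν y₀).frequently ?_
  apply Filter.Eventually.frequently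
  filter_upwards [self_mem_nhdsWithin] with x hx
  rw [Measure.smul_apply, smul_eq_mul]
  exact closedBall_le d ν J hJ y₀ x hx

end Pool.Agent.SMin

end

section

/-!
Hoelder inequality with determinantal weights.
-/

open MeasureTheory Matrix
open scoped ENNReal NNReal

namespace Pool.Agent.SMin

namespace HolderAux

theorem entry {d : ℕ} {ι : Type} [Fintype ι] [DecidableEq ι] (W : Matrix (Fin d) ι ℝ) (D : ι → ℝ)
    (a b : Fin d) : (W * Matrix.diagonal D * Wᵀ) a b = ∑ k, W a k * D k * W b k := by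
  rw [Matrix.mul_apply]
  refine Finset.sum_congr rfl fun k _ => ?_
  rw [Matrix.mul_diagonal, Matrix.transpose_apply]

/-- Cauchy-Binet, summed over all maps. -/
theorem cb {d : ℕ} {ι : Type} [Fintype ι] [DecidableEq ι] (W : Matrix (Fin d) ι ℝ) (D : ι → ℝ) :
    (d.factorial : ℝ) * (W * Matrix.diagonal D * Wᵀ).det =
      ∑ f : Fin d → ι, (∏ r, D (f r)) * (W.submatrix id f).det ^ 2 := by
  have h1 : (W * Matrix.diagonal D * Wᵀ).det =
      ∑ f : Fin d → ι, (∏ r, (D (f r) * W r (f r))) * (W.submatrix id f).det := by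
    rw [Matrix.det_apply']
    have h2 : ∀ σ : Equiv.Perm (Fin d), ∏ i, (W * diagonal D * Wᵀ) (σ i) i =
        ∑ f : Fin d → ι, ∏ r, (W (σ r) (f r) * D (f r) * W r (f r)) := by
      intro σ
      simp only [entry]
      rw [Finset.prod_univ_sum]
      simp [Fintype.piFinset_univ]
    simp only [h2, Finset.mul_sum]
    rw [Finset.sum_comm]
    refine Finset.sum_congr rfl fun f _ => ?_
    rw [Matrix.det_apply', Finset.mul_sum]
    refine Finset.sum_congr rfl fun σ _ => ?_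
    simp only [submatrix_apply, id, Finset.prod_mul_distrib]
    ring
  have h3 : ∀ π : Equiv.Perm (Fin d), (W * Matrix.diagonal D * Wᵀ).det =
      ∑ f : Fin d → ι, (∏ r, D (f r)) * (W.submatrix id f).det *
        (((Equiv.Perm.sign π : ℤ) : ℝ) * ∏ r, W r (f (π r))) := by
    intro π
    rw [h1, ← Equiv.sum_comp (Equiv.arrowCongr π.symm (Equiv.refl ι))]
    refine Finset.sum_congr rfl fun f _ => ?_
    have h4 : (Equiv.arrowCongr π.symm (Equiv.refl ι)) f = f ∘ π := by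
      funext r
      simp [Equiv.arrowCongr]
    rw [h4]
    have h5 : W.submatrix id (f ∘ π) = (W.submatrix id f).submatrix id π := by
      ext r s
      rfl
    rw [h5, Matrix.det_permute', Finset.prod_mul_distrib]
    have h6 : ∏ r, D ((f ∘ π) r) = ∏ r, D (f r) := Equiv.prod_comp π (fun r => D (f r))
    rw [h6]
    simp only [Function.comp]
    ring
  have h7 : (d.factorial : ℝ) * (W * Matrix.diagonal D * Wᵀ).det =
      ∑ _π : Equiv.Perm (Fin d), (W * Matrix.diagonal D * Wᵀ).det := by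
    rw [Finset.sum_const, Finset.card_univ, Fintype.card_perm, Fintype.card_fin, nsmul_eq_mul]
  rw [h7, Finset.sum_congr rfl fun π _ => h3 π, Finset.sum_comm]
  refine Finset.sum_congr rfl fun f _ => ?_
  rw [← Finset.mul_sum]
  have h8 : ∑ π : Equiv.Perm (Fin d), ((Equiv.Perm.sign π : ℤ) : ℝ) * ∏ r, W r (f (π r)) =
      (W.submatrix id f).det := by
    rw [← Matrix.det_transpose, Matrix.det_apply']
    rfl
  rw [h8]
  ring

/-- The weights. -/
noncomputable def lam {d : ℕ} {ι : Type} (W : Matrix (Fin d) ι ℝ) (f : Fin d → ι) : ℝ :=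
  (W.submatrix id f).det ^ 2 / d.factorial

theorem lam_nonneg {d : ℕ} {ι : Type} (W : Matrix (Fin d) ι ℝ) (f : Fin d → ι) :
    0 ≤ lam W f := by
  unfold lam
  positivity

theorem sum_lam {d : ℕ} {ι : Type} [Fintype ι] [DecidableEq ι] (W : Matrix (Fin d) ι ℝ)
    (hW : W * Wᵀ = 1) : ∑ f, lam W f = 1 := by
  have h := cb W (fun _ => 1)
  have h1 : (Matrix.diagonal (fun _ => 1) : Matrix ι ι ℝ) = 1 := Matrix.diagonal_one
  rw [h1, Matrix.mul_one, hW, Matrix.det_one, mul_one] at h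
  simp only [Finset.prod_const_one, one_mul] at h
  unfold lam
  rw [← Finset.sum_div, ← h]
  have : (d.factorial : ℝ) ≠ 0 := by exact_mod_cast d.factorial_ne_zero
  field_simp

theorem lam_eq_zero {d : ℕ} {ι : Type} (W : Matrix (Fin d) ι ℝ) (f : Fin d → ι)
    (hf : ¬ Function.Injective f) : lam W f = 0 := by
  have hf' : ∃ a b, f a = f b ∧ a ≠ b := by
    unfold Function.Injective at hf
    push Not at hf
    exact hf
  obtain ⟨a, b, hab, hne⟩ := hf'
  have : (W.submatrix id f).det = 0 := by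
    refine Matrix.det_zero_of_column_eq hne fun k => ?_
    simp only [submatrix_apply, hab]
  unfold lam
  rw [this]
  simp

theorem prod_inj {d : ℕ} {ι : Type} [DecidableEq ι] (f : Fin d → ι)
    (hf : Function.Injective f) (j : ι) :
    ∏ r, (if f r = j then (2 : ℝ) else 1) = 1 + ∑ r, (if f r = j then (1 : ℝ) else 0) := by
  by_cases h : ∃ r0, f r0 = j
  · obtain ⟨r0, hr0⟩ := h
    have h1 : ∀ r, f r = j ↔ r = r0 := fun r =>
      ⟨fun h2 => hf (h2.trans hr0.symm), fun h2 => by rw [h2, hr0]⟩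
    simp only [h1]
    rw [Finset.prod_ite_eq', Finset.sum_ite_eq']
    simp
    norm_num
  · push Not at h
    simp [h]

theorem sum_lam_mul {d : ℕ} {ι : Type} [Fintype ι] [DecidableEq ι] (W : Matrix (Fin d) ι ℝ)
    (hW : W * Wᵀ = 1) (j : ι) :
    ∑ f : Fin d → ι, lam W f * ∑ r, (if f r = j then (1 : ℝ) else 0) = ∑ r, W r j ^ 2 := by
  have h := cb W (fun k => if k = j then 2 else 1)
  have hd : (d.factorial : ℝ) ≠ 0 := by exact_mod_cast d.factorial_ne_zero
  have h1 : W * Matrix.diagonal (fun k => if k = j then (2 : ℝ) else 1) * Wᵀ =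
      1 + replicateCol Unit (fun r => W r j) * replicateRow Unit (fun r => W r j) := by
    rw [← hW]
    ext a b
    rw [entry, Matrix.add_apply, Matrix.mul_apply, Matrix.mul_apply]
    simp only [transpose_apply, replicateCol_apply, replicateRow_apply]
    have h2 : ∀ k, W a k * (if k = j then (2 : ℝ) else 1) * W b k =
        W a k * W b k + (if k = j then W a k * W b k else 0) := by
      intro k
      split_ifs <;> ring
    simp only [h2]
    rw [Finset.sum_add_distrib, Finset.sum_ite_eq']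
    simp
  rw [h1, Matrix.det_one_add_replicateCol_mul_replicateRow] at h
  have h3 : ∀ f : Fin d → ι, (∏ r, (if f r = j then (2 : ℝ) else 1)) * (W.submatrix id f).det ^ 2 =
      d.factorial * (lam W f + lam W f * ∑ r, (if f r = j then (1 : ℝ) else 0)) := by
    intro f
    by_cases hf : Function.Injective f
    · rw [prod_inj f hf j]
      unfold lam
      field_simp
    · have h4 := lam_eq_zero W f hf
      have h5 : (W.submatrix id f).det ^ 2 = 0 := by
        unfold lam at h4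
        rcases div_eq_zero_iff.mp h4 with h6 | h6
        · exact h6
        · exact absurd h6 hd
      rw [h4, h5]
      ring
  simp only [h3] at h
  rw [← Finset.mul_sum, Finset.sum_add_distrib, sum_lam W hW] at h
  have h7 := mul_left_cancel₀ hd h
  have h8 : (fun r => W r j) ⬝ᵥ (fun r => W r j) = ∑ r, W r j ^ 2 := by
    simp only [dotProduct]
    refine Finset.sum_congr rfl fun r _ => ?_
    ring
  rw [h8] at h7
  linarith

theorem prod_rpow_sum {κ : Type*} (s : Finset κ) (x : ℝ≥0∞) (a : κ → ℝ) (ha : ∀ i ∈ s, 0 ≤ a i) :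
    ∏ i ∈ s, x ^ a i = x ^ (∑ i ∈ s, a i) := by
  classical
  induction s using Finset.induction with
  | empty => simp
  | insert i s hi ih =>
    rw [Finset.prod_insert hi, Finset.sum_insert hi, ih fun k hk => ha k (Finset.mem_insert_of_mem hk),
      ENNReal.rpow_add_of_nonneg _ _ (ha i (Finset.mem_insert_self i s))
        (Finset.sum_nonneg fun k hk => ha k (Finset.mem_insert_of_mem hk))]

theorem regroup {d : ℕ} {ι : Type} [Fintype ι] [DecidableEq ι] (W : Matrix (Fin d) ι ℝ)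
    (hW : W * Wᵀ = 1) (x : ι → ℝ≥0∞) (hx : ∀ j, ∑ r, W r j ^ 2 = 0 → x j ≤ 1) :
    ∏ j, x j ≤ ∏ f : Fin d → ι, (∏ r, x (f r) ^ (1 / ∑ s, W s (f r) ^ 2)) ^ lam W f := by
  have hc : ∀ j, 0 ≤ ∑ s, W s j ^ 2 := fun j => Finset.sum_nonneg fun s _ => sq_nonneg _
  have h1 : ∀ f : Fin d → ι, (∏ r, x (f r) ^ (1 / ∑ s, W s (f r) ^ 2)) ^ lam W f =
      ∏ r, ∏ j, x j ^ (if f r = j then lam W f / ∑ s, W s j ^ 2 else 0) := by
    intro f
    rw [← ENNReal.prod_rpow_of_nonneg (lam_nonneg W f)]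
    refine Finset.prod_congr rfl fun r _ => ?_
    rw [← ENNReal.rpow_mul]
    rw [Finset.prod_eq_single (f r)]
    · rw [if_pos rfl]
      congr 1
      ring
    · intro j _ hj
      rw [if_neg hj.symm, ENNReal.rpow_zero]
    · intro h
      exact absurd (Finset.mem_univ _) h
  have h2 : ∏ f : Fin d → ι, (∏ r, x (f r) ^ (1 / ∑ s, W s (f r) ^ 2)) ^ lam W f =
      ∏ j, x j ^ (∑ f : Fin d → ι, ∑ r, (if f r = j then lam W f / ∑ s, W s j ^ 2 else 0)) := by
    simp only [h1]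
    have h3 : ∀ f : Fin d → ι, ∏ r, ∏ j, x j ^ (if f r = j then lam W f / ∑ s, W s j ^ 2 else 0) =
        ∏ j, x j ^ (∑ r, (if f r = j then lam W f / ∑ s, W s j ^ 2 else 0)) := by
      intro f
      rw [Finset.prod_comm]
      refine Finset.prod_congr rfl fun j _ => prod_rpow_sum _ _ _ fun r _ => ?_
      split_ifs
      · exact div_nonneg (lam_nonneg W f) (hc j)
      · exact le_refl 0
    simp only [h3]
    rw [Finset.prod_comm]
    refine Finset.prod_congr rfl fun j _ => prod_rpow_sum _ _ _ fun f _ => ?_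
    refine Finset.sum_nonneg fun r _ => ?_
    split_ifs
    · exact div_nonneg (lam_nonneg W f) (hc j)
    · exact le_refl 0
  rw [h2]
  refine Finset.prod_le_prod' fun j _ => ?_
  have h4 : ∑ f : Fin d → ι, ∑ r, (if f r = j then lam W f / ∑ s, W s j ^ 2 else 0) =
      (∑ r, W r j ^ 2) / ∑ s, W s j ^ 2 := by
    rw [← sum_lam_mul W hW j, Finset.sum_div]
    refine Finset.sum_congr rfl fun f _ => ?_
    rw [Finset.mul_sum, Finset.sum_div]
    refine Finset.sum_congr rfl fun r _ => ?_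
    rw [sum_lam_mul W hW j]
    split_ifs <;> simp
  rw [h4]
  by_cases h0 : ∑ s, W s j ^ 2 = 0
  · rw [h0, div_zero, ENNReal.rpow_zero]
    exact hx j h0
  · rw [div_self h0, ENNReal.rpow_one]

theorem lintegral_pi_prod : ∀ (d : ℕ) (g : Fin d → ℝ → ℝ≥0∞), (∀ r, Measurable (g r)) →
    ∫⁻ y : Fin d → ℝ, ∏ r, g r (y r) = ∏ r, ∫⁻ s : ℝ, g r s := by
  intro d
  induction d with
  | zero =>
    intro g _
    simp [volume_pi]
  | succ n ih =>
    intro g hg
    have hmp := (volume_preserving_piFinSuccAbove (fun _ : Fin (n + 1) => ℝ) 0).symm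
    rw [← hmp.lintegral_comp_emb (MeasurableEquiv.measurableEmbedding _)]
    have h1 : ∀ p : ℝ × (Fin n → ℝ), ∏ r, g r (((MeasurableEquiv.piFinSuccAbove
        (fun _ : Fin (n + 1) => ℝ) 0).symm p) r) = g 0 p.1 * ∏ r : Fin n, g r.succ (p.2 r) := by
      intro p
      rw [Fin.prod_univ_succ]
      simp [MeasurableEquiv.piFinSuccAbove_symm_apply, Fin.insertNthEquiv]
    simp only [h1]
    have h2 := lintegral_prod_mul (μ := (volume : Measure ℝ)) (ν := (volume : Measure (Fin n → ℝ)))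
      (f := g 0) (g := fun y => ∏ r : Fin n, g r.succ (y r)) (hg 0).aemeasurable
      (Finset.measurable_prod Finset.univ fun (r : Fin n) _ =>
        (hg r.succ).comp (measurable_pi_apply r)).aemeasurable
    rw [Measure.volume_eq_prod, h2, ih _ fun r => hg r.succ, Fin.prod_univ_succ]

theorem lintegral_lin {d : ℕ} (P : Matrix (Fin d) (Fin d) ℝ) (hP : P.det ≠ 0)
    (g : Fin d → ℝ → ℝ≥0∞) (hg : ∀ r, Measurable (g r)) :
    ∫⁻ ζ : Fin d → ℝ, ∏ r, g r (∑ s, ζ s * P s r) =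
      ENNReal.ofReal (|P.det|⁻¹) * ∏ r, ∫⁻ s : ℝ, g r s := by
  have hP' : (Pᵀ).det ≠ 0 := by rwa [Matrix.det_transpose]
  have h := Real.map_matrix_volume_pi_eq_smul_volume_pi hP'
  have h1 : ∀ ζ : Fin d → ℝ, ∏ r, g r (∑ s, ζ s * P s r) =
      (fun y : Fin d → ℝ => ∏ r, g r (y r)) (Matrix.toLin' Pᵀ ζ) := by
    intro ζ
    refine Finset.prod_congr rfl fun r _ => ?_
    congr 1
    rw [Matrix.toLin'_apply]
    simp only [Matrix.mulVec, dotProduct, transpose_apply]
    exact Finset.sum_congr rfl fun s _ => mul_comm _ _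
  simp only [h1]
  have hm : Measurable (fun y : Fin d → ℝ => ∏ r, g r (y r)) :=
    Finset.measurable_prod _ fun r _ => (hg r).comp (measurable_pi_apply r)
  have hl : Measurable (Matrix.toLin' Pᵀ) :=
    (LinearMap.continuous_of_finiteDimensional (Matrix.toLin' Pᵀ)).measurable
  rw [← lintegral_map hm hl, h, lintegral_smul_measure, lintegral_pi_prod d g hg,
    Matrix.det_transpose, abs_inv]
  rfl

end HolderAux

open HolderAux in
/-- Hoelder inequality with determinantal weights. -/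
theorem lintegral_prod_le (d : ℕ) (C₀ : ℝ≥0) :
    ∃ C : ℝ≥0, ∀ (φ : ℝ → ℝ≥0∞), Measurable φ → φ 0 ≤ 1 →
      (∀ p : ℝ, 2 ≤ p → ∫⁻ s : ℝ, φ s ^ p ≤ C₀ * ENNReal.ofReal (1 / Real.sqrt p)) →
      ∀ (ι : Type) [Fintype ι] [DecidableEq ι] (W : Matrix (Fin d) ι ℝ), W * Wᵀ = 1 →
        (∀ j, ∑ r, W r j ^ 2 ≤ 1 / 2) →
        ∫⁻ ζ : Fin d → ℝ, ∏ j, φ (∑ r, ζ r * W r j) ≤ C := by
  refine ⟨C₀ ^ d * (d.factorial + d ^ d) / (2 * d.factorial), ?_⟩
  intro φ hφ hφ0 hint ι _ _ W hW hc2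
  have hd : (0 : ℝ) < d.factorial := by exact_mod_cast d.factorial_pos
  have hcn : ∀ j, 0 ≤ ∑ s, W s j ^ 2 := fun j => Finset.sum_nonneg fun s _ => sq_nonneg _
  set c : ι → ℝ := fun j => ∑ s, W s j ^ 2 with hcdef
  set g : (Fin d → ι) → (Fin d → ℝ) → ℝ≥0∞ := fun f ζ =>
    ∏ r, φ (∑ s, ζ s * W s (f r)) ^ (1 / c (f r)) with hgdef
  have hgm : ∀ f, Measurable (g f) := by
    intro f
    refine Finset.measurable_prod _ fun r _ => ?_
    refine Measurable.pow_const ?_ _
    refine hφ.comp ?_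
    exact Finset.measurable_sum _ fun s _ => (measurable_pi_apply s).mul_const _
  -- the bound for one `f`
  set z : (Fin d → ι) → ℝ := fun f =>
    |(W.submatrix id f).det|⁻¹ * ∏ r, ((C₀ : ℝ) * Real.sqrt (c (f r))) with hzdef
  have hz0 : ∀ f, 0 ≤ z f := by
    intro f
    refine mul_nonneg (inv_nonneg.mpr (abs_nonneg _)) ?_
    exact Finset.prod_nonneg fun r _ => mul_nonneg (NNReal.coe_nonneg C₀) (Real.sqrt_nonneg _)
  have hbound : ∀ f, (∫⁻ ζ, g f ζ) ^ lam W f ≤ ENNReal.ofReal (z f ^ lam W f) := by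
    intro f
    by_cases hdet : (W.submatrix id f).det = 0
    · have : lam W f = 0 := by
        unfold lam
        rw [hdet]
        simp
      rw [this]
      simp
    · rw [← ENNReal.ofReal_rpow_of_nonneg (hz0 f) (lam_nonneg W f)]
      refine ENNReal.rpow_le_rpow ?_ (lam_nonneg W f)
      have h1 := lintegral_lin (W.submatrix id f) hdet (fun r s => φ s ^ (1 / c (f r)))
        (fun r => hφ.pow_const _)
      have h2 : ∫⁻ ζ, g f ζ = ENNReal.ofReal (|(W.submatrix id f).det|⁻¹) *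
          ∏ r, ∫⁻ s : ℝ, φ s ^ (1 / c (f r)) := h1
      rw [h2, hzdef]
      simp only
      rw [ENNReal.ofReal_mul (inv_nonneg.mpr (abs_nonneg _)),
        ENNReal.ofReal_prod_of_nonneg (s := Finset.univ)
          (f := fun r => (C₀ : ℝ) * Real.sqrt (c (f r)))
          fun r _ => mul_nonneg (NNReal.coe_nonneg C₀) (Real.sqrt_nonneg _)]
      refine mul_le_mul_right ?_ _
      refine Finset.prod_le_prod' fun r _ => ?_
      have hcpos : 0 < c (f r) := by
        refine lt_of_le_of_ne (hcn _) fun h0 => hdet ?_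
        refine Matrix.det_eq_zero_of_column_eq_zero r fun s => ?_
        have h3 := (Finset.sum_eq_zero_iff_of_nonneg (fun s _ => sq_nonneg (W s (f r)))).mp h0.symm
          s (Finset.mem_univ s)
        exact pow_eq_zero_iff (two_ne_zero) |>.mp h3
      have h4 : (2 : ℝ) ≤ 1 / c (f r) := by
        rw [le_div_iff₀ hcpos]
        have := hc2 (f r)
        simp only [hcdef]
        linarith
      refine (hint _ h4).trans ?_
      rw [ENNReal.ofReal_mul (NNReal.coe_nonneg C₀), ENNReal.ofReal_coe_nnreal]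
      refine mul_le_mul_right ?_ _
      refine le_of_eq ?_
      congr 1
      rw [Real.sqrt_div zero_le_one, Real.sqrt_one, one_div_one_div]
  have hsum1 := sum_lam W hW
  calc ∫⁻ ζ : Fin d → ℝ, ∏ j, φ (∑ r, ζ r * W r j)
      ≤ ∫⁻ ζ : Fin d → ℝ, ∏ f : Fin d → ι, (g f ζ) ^ lam W f := by
        refine lintegral_mono fun ζ => ?_
        refine regroup W hW (fun j => φ (∑ r, ζ r * W r j)) fun j hj => ?_
        have h5 : ∀ s, W s j = 0 := by
          intro s
          have h3 := (Finset.sum_eq_zero_iff_of_nonneg (fun s _ => sq_nonneg (W s j))).mp hj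
            s (Finset.mem_univ s)
          exact pow_eq_zero_iff (two_ne_zero) |>.mp h3
        simp only [h5, mul_zero, Finset.sum_const_zero]
        exact hφ0
    _ ≤ ∏ f : Fin d → ι, (∫⁻ ζ, g f ζ) ^ lam W f :=
        ENNReal.lintegral_prod_norm_pow_le _ (fun f _ => (hgm f).aemeasurable) hsum1
          fun f _ => lam_nonneg W f
    _ ≤ ∏ f : Fin d → ι, ENNReal.ofReal (z f ^ lam W f) :=
        Finset.prod_le_prod' fun f _ => hbound f
    _ = ENNReal.ofReal (∏ f : Fin d → ι, z f ^ lam W f) := by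
        rw [ENNReal.ofReal_prod_of_nonneg fun f _ => Real.rpow_nonneg (hz0 f) _]
    _ ≤ ENNReal.ofReal (((C₀ ^ d * (d.factorial + d ^ d) / (2 * d.factorial) : ℝ≥0)) : ℝ) := by
        refine ENNReal.ofReal_le_ofReal ?_
        refine (Real.geom_mean_le_arith_mean_weighted Finset.univ (lam W) z
          (fun f _ => lam_nonneg W f) hsum1 fun f _ => hz0 f).trans ?_
        have h6 : ∀ f, lam W f * z f ≤ (C₀ : ℝ) ^ d / (2 * d.factorial) *
            ((W.submatrix id f).det ^ 2 + ∏ r, c (f r)) := by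
          intro f
          have h7 : lam W f * z f = (C₀ : ℝ) ^ d / d.factorial *
              (|(W.submatrix id f).det| * ∏ r, Real.sqrt (c (f r))) := by
            simp only [hzdef, lam]
            rw [Finset.prod_mul_distrib, Finset.prod_const, Finset.card_univ, Fintype.card_fin]
            by_cases h8 : (W.submatrix id f).det = 0
            · rw [h8]
              simp
            · have h9 : |(W.submatrix id f).det| ≠ 0 := abs_ne_zero.mpr h8
              rw [← sq_abs]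
              field_simp
          rw [h7]
          have h10 : |(W.submatrix id f).det| * ∏ r, Real.sqrt (c (f r)) ≤
              ((W.submatrix id f).det ^ 2 + ∏ r, c (f r)) / 2 := by
            have h11 : (∏ r, Real.sqrt (c (f r))) ^ 2 = ∏ r, c (f r) := by
              rw [← Finset.prod_pow]
              exact Finset.prod_congr rfl fun r _ => Real.sq_sqrt (hcn _)
            have h12 := sq_abs (W.submatrix id f).det
            nlinarith [sq_nonneg (|(W.submatrix id f).det| - ∏ r, Real.sqrt (c (f r)))]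
          calc (C₀ : ℝ) ^ d / d.factorial *
              (|(W.submatrix id f).det| * ∏ r, Real.sqrt (c (f r)))
              ≤ (C₀ : ℝ) ^ d / d.factorial *
                (((W.submatrix id f).det ^ 2 + ∏ r, c (f r)) / 2) :=
                mul_le_mul_of_nonneg_left h10 (by positivity)
            _ = _ := by
                field_simp
        refine (Finset.sum_le_sum fun f _ => h6 f).trans ?_
        rw [← Finset.mul_sum, Finset.sum_add_distrib]
        have h13 : ∑ f : Fin d → ι, (W.submatrix id f).det ^ 2 = d.factorial := by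
          have h14 : ∀ f : Fin d → ι, (W.submatrix id f).det ^ 2 = d.factorial * lam W f := by
            intro f
            unfold lam
            field_simp
          simp only [h14]
          rw [← Finset.mul_sum, hsum1, mul_one]
        have h15 : ∑ f : Fin d → ι, ∏ r, c (f r) = (d : ℝ) ^ d := by
          rw [← Fintype.sum_pow]
          congr 1
          have h16 : (W * Wᵀ).trace = (d : ℝ) := by
            rw [hW, Matrix.trace_one, Fintype.card_fin]
          rw [← h16]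
          simp only [hcdef, Matrix.trace, Matrix.diag, Matrix.mul_apply, transpose_apply]
          rw [Finset.sum_comm]
          exact Finset.sum_congr rfl fun s _ => Finset.sum_congr rfl fun j _ => by ring
        rw [h13, h15]
        push_cast
        refine le_of_eq ?_
        field_simp
    _ = _ := by
        rw [ENNReal.ofReal_coe_nnreal]

end Pool.Agent.SMin

end

section

/-!
Small ball for a positive semidefinite quadratic form together with an orthogonal linear form.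
-/

open MeasureTheory Matrix
open scoped ENNReal NNReal

namespace Pool.Agent.SMin

lemma gauss_one (b c : ℝ) (hb : 0 < b) :
    Integrable (fun y : ℝ => Real.exp (-(b * (c + y) ^ 2))) ∧
      ∫ y : ℝ, Real.exp (-(b * (c + y) ^ 2)) = Real.sqrt (Real.pi / b) := by
  have h1 : Integrable (fun y : ℝ => Real.exp (-b * y ^ 2)) := integrable_exp_neg_mul_sq hb
  constructor
  · have := h1.comp_add_left c
    simpa [neg_mul] using this
  · have h2 := integral_add_left_eq_self (μ := (volume : Measure ℝ))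
      (fun y : ℝ => Real.exp (-b * y ^ 2)) c
    rw [integral_gaussian] at h2
    simpa [neg_mul] using h2

lemma gauss_pi {d : ℕ} (b c : Fin d → ℝ) (hb : ∀ i, 0 < b i) :
    ∫⁻ y : Fin d → ℝ, ENNReal.ofReal (Real.exp (-∑ i, b i * (c i + y i) ^ 2)) =
      ENNReal.ofReal (∏ i, Real.sqrt (Real.pi / b i)) := by
  have e : ∀ y : Fin d → ℝ, Real.exp (-∑ i, b i * (c i + y i) ^ 2) =
      ∏ i, Real.exp (-(b i * (c i + y i) ^ 2)) := by
    intro y
    rw [← Real.exp_sum, Finset.sum_neg_distrib]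
  simp only [e]
  have hint : Integrable (fun y : Fin d → ℝ => ∏ i, Real.exp (-(b i * (c i + y i) ^ 2))) := by
    have := Integrable.fintype_prod (𝕜 := ℝ) (ι := Fin d) (E := ℝ) (μ := fun _ => volume)
      (f := fun i y => Real.exp (-(b i * (c i + y) ^ 2))) (fun i => (gauss_one _ _ (hb i)).1)
    exact this
  rw [← ofReal_integral_eq_lintegral_ofReal hint
    (Filter.Eventually.of_forall fun y => Finset.prod_nonneg fun i _ => (Real.exp_pos _).le)]
  congr 1
  have := integral_fintype_prod_volume_eq_prod (𝕜 := ℝ) (ι := Fin d) (E := fun _ => ℝ)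
    (fun i y => Real.exp (-(b i * (c i + y) ^ 2)))
  rw [this]
  exact Finset.prod_congr rfl fun i _ => (gauss_one _ _ (hb i)).2

lemma gauss_proj {d : ℕ} (μ : Measure ℝ) (Cd : ℝ≥0)
    {ι : Type} [Fintype ι] [DecidableEq ι] (W : Matrix (Fin d) ι ℝ)
    (hD : (Measure.pi (fun _ : ι => μ)).map (fun a => W *ᵥ a) ≤ (Cd : ℝ≥0∞) • volume)
    (b c : Fin d → ℝ) (hb : ∀ i, 0 < b i) :
    ∫⁻ a, ENNReal.ofReal (Real.exp (-∑ i, b i * (c i + (W *ᵥ a) i) ^ 2))
        ∂(Measure.pi (fun _ : ι => μ)) ≤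
      Cd * ENNReal.ofReal (∏ i, Real.sqrt (Real.pi / b i)) := by
  have hF : Measurable (fun y : Fin d → ℝ =>
      ENNReal.ofReal (Real.exp (-∑ i, b i * (c i + y i) ^ 2))) := by
    apply Measurable.ennreal_ofReal
    apply Continuous.measurable
    fun_prop
  have hW : Measurable (fun a : ι → ℝ => W *ᵥ a) := by
    apply Continuous.measurable
    exact Continuous.matrix_mulVec continuous_const continuous_id
  calc ∫⁻ a, ENNReal.ofReal (Real.exp (-∑ i, b i * (c i + (W *ᵥ a) i) ^ 2))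
        ∂(Measure.pi (fun _ : ι => μ))
      = ∫⁻ y, ENNReal.ofReal (Real.exp (-∑ i, b i * (c i + y i) ^ 2))
          ∂((Measure.pi (fun _ : ι => μ)).map (fun a => W *ᵥ a)) := by
        rw [lintegral_map hF hW]
    _ ≤ ∫⁻ y, ENNReal.ofReal (Real.exp (-∑ i, b i * (c i + y i) ^ 2))
          ∂((Cd : ℝ≥0∞) • volume) := lintegral_mono' hD le_rfl
    _ = Cd * ENNReal.ofReal (∏ i, Real.sqrt (Real.pi / b i)) := by
        rw [lintegral_smul_measure, gauss_pi b c hb, smul_eq_mul]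

/-- Spectral data of a positive semidefinite matrix. -/
lemma spec_data {ι : Type} [Fintype ι] [DecidableEq ι] (Θ : Matrix ι ι ℝ) (hΘ : Θ.PosSemidef) :
    ∃ (θ : ι → ℝ) (u : ι → ι → ℝ), (∀ k, 0 ≤ θ k) ∧
      (∀ k l, u k ⬝ᵥ u l = if k = l then 1 else 0) ∧
      (∀ k, Θ *ᵥ u k = θ k • u k) ∧
      (∀ y : ι → ℝ, y ⬝ᵥ (Θ *ᵥ y) = ∑ k, θ k * (y ⬝ᵥ u k) ^ 2) ∧
      Θ.trace = ∑ k, θ k ∧ (Θ * Θ).trace = ∑ k, θ k ^ 2 := by
  classical
  have hH : Θ.IsHermitian := hΘ.1
  set U : Matrix ι ι ℝ := (hH.eigenvectorUnitary : Matrix ι ι ℝ) with hU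
  have hUU : Uᵀ * U = 1 := by
    have := Unitary.coe_star_mul_self hH.eigenvectorUnitary
    simpa [hU, star_eq_conjTranspose] using this
  have hUU' : U * Uᵀ = 1 := by
    have := Unitary.coe_mul_star_self hH.eigenvectorUnitary
    simpa [hU, star_eq_conjTranspose] using this
  have hsp : Θ = U * diagonal hH.eigenvalues * Uᵀ := by
    have := hH.spectral_theorem
    simpa [hU, star_eq_conjTranspose, Unitary.conjStarAlgAut_apply] using this
  have h0 : ∀ k, 0 ≤ hH.eigenvalues k := hΘ.eigenvalues_nonneg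
  set θ := hH.eigenvalues with hθ
  clear_value θ U
  refine ⟨θ, fun k i => U i k, h0, ?_, ?_, ?_, ?_, ?_⟩
  · intro k l
    have := congrFun (congrFun hUU k) l
    rw [mul_apply] at this
    simp only [transpose_apply, one_apply] at this
    simpa [dotProduct] using this
  · intro k
    have h1 : Θ * U = U * diagonal θ := by
      rw [hsp, Matrix.mul_assoc, hUU, Matrix.mul_one]
    funext i
    have := congrFun (congrFun h1 i) k
    rw [mul_apply, mul_diagonal] at this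
    simp only [mulVec, dotProduct, Pi.smul_apply, smul_eq_mul]
    rw [this]; ring
  · intro y
    have h1 : Θ *ᵥ y = U *ᵥ (diagonal θ *ᵥ (Uᵀ *ᵥ y)) := by
      rw [hsp, mulVec_mulVec, mulVec_mulVec, Matrix.mul_assoc]
    rw [h1, dotProduct_mulVec, ← mulVec_transpose]
    simp only [dotProduct, mulVec_diagonal]
    refine Finset.sum_congr rfl fun k _ => ?_
    have e : (Uᵀ *ᵥ y) k = ∑ i, y i * U i k := by
      simp only [mulVec, dotProduct, transpose_apply]
      exact Finset.sum_congr rfl fun i _ => mul_comm _ _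
    rw [e]; ring
  · rw [hsp, trace_mul_comm, ← Matrix.mul_assoc, hUU, Matrix.one_mul, trace_diagonal]
  · have h1 : Θ * Θ = U * diagonal (fun k => θ k ^ 2) * Uᵀ := by
      calc Θ * Θ = U * diagonal θ * (Uᵀ * U) * diagonal θ * Uᵀ := by
            nth_rewrite 1 [hsp]; nth_rewrite 1 [hsp]
            simp only [Matrix.mul_assoc]
        _ = U * diagonal (fun k => θ k ^ 2) * Uᵀ := by
            rw [hUU, Matrix.mul_one, Matrix.mul_assoc U, diagonal_mul_diagonal]
            simp only [pow_two]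
    rw [h1, trace_mul_comm, ← Matrix.mul_assoc, hUU, Matrix.one_mul, trace_diagonal]

/-- Pointwise convexity bound. -/
lemma exp_pair_bound {ι : Type} [Fintype ι] [DecidableEq ι] (θ ξ : ι → ℝ) (h0 : ∀ k, 0 ≤ θ k)
    (t g : ℝ) (hg : 0 < g) (hT : 0 < ∑ k, θ k)
    (ht : t = ∑ k, θ k - (∑ k, θ k ^ 2) / ∑ k, θ k) (ht0 : 0 < t) :
    (∑ p ∈ (Finset.univ : Finset (ι × ι)).filter (fun p => p.1 ≠ p.2),
      θ p.1 * θ p.2 / ((∑ k, θ k) * t)) = 1 ∧
    Real.exp (-(∑ k, θ k * ξ k ^ 2) / g) ≤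
      ∑ p ∈ (Finset.univ : Finset (ι × ι)).filter (fun p => p.1 ≠ p.2),
        θ p.1 * θ p.2 / ((∑ k, θ k) * t) *
          Real.exp (-(t / (2 * g) * (ξ p.1 ^ 2 + ξ p.2 ^ 2))) := by
  set T := ∑ k, θ k with hTdef
  set s := (Finset.univ : Finset (ι × ι)).filter (fun p => p.1 ≠ p.2) with hs
  have hTt : T * t = T ^ 2 - ∑ k, θ k ^ 2 := by
    rw [ht]; field_simp
  have hTt0 : 0 < T * t := mul_pos hT ht0
  -- splitting a sum over all pairs
  have hsplit : ∀ F : ι × ι → ℝ, ∑ p ∈ s, F p = ∑ k, ∑ l, F (k, l) - ∑ k, F (k, k) := by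
    intro F
    have h1 : ∑ p ∈ s, F p + ∑ p ∈ (Finset.univ : Finset (ι × ι)).filter (fun p => ¬ p.1 ≠ p.2),
        F p = ∑ p, F p := Finset.sum_filter_add_sum_filter_not _ _ _
    have h2 : ∑ p ∈ (Finset.univ : Finset (ι × ι)).filter (fun p => ¬ p.1 ≠ p.2), F p =
        ∑ k, F (k, k) := by
      symm
      refine Finset.sum_bij (fun k _ => (k, k)) ?_ ?_ ?_ ?_
      · intro k _; simp
      · intro a _ b _ h; exact (Prod.ext_iff.1 h).1
      · intro p hp
        simp only [Finset.mem_filter, Finset.mem_univ, true_and, not_not] at hp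
        exact ⟨p.1, Finset.mem_univ _, Prod.ext rfl hp⟩
      · intro k _; rfl
    rw [Fintype.sum_prod_type] at h1
    linarith
  have hsum : ∑ p ∈ s, θ p.1 * θ p.2 = T * t := by
    rw [hsplit (fun p => θ p.1 * θ p.2), hTt]
    simp only
    congr 1
    · rw [pow_two, hTdef, Finset.sum_mul_sum]
    · exact Finset.sum_congr rfl fun k _ => by ring
  have hw1 : ∑ p ∈ s, θ p.1 * θ p.2 / (T * t) = 1 := by
    rw [← Finset.sum_div, hsum]
    exact div_self hTt0.ne'
  refine ⟨hw1, ?_⟩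
  have hw0 : ∀ p ∈ s, 0 ≤ θ p.1 * θ p.2 / (T * t) := fun p _ =>
    div_nonneg (mul_nonneg (h0 _) (h0 _)) hTt0.le
  have hJ := convexOn_exp.map_sum_le (t := s) (w := fun p => θ p.1 * θ p.2 / (T * t))
    (p := fun p => -(t / (2 * g) * (ξ p.1 ^ 2 + ξ p.2 ^ 2))) hw0 hw1 (fun _ _ => Set.mem_univ _)
  simp only [smul_eq_mul] at hJ
  refine le_trans (Real.exp_le_exp.2 ?_) hJ
  -- the exponent comparison
  have hsq : ∑ p ∈ s, θ p.1 * θ p.2 * (ξ p.1 ^ 2 + ξ p.2 ^ 2) =
      2 * (T * ∑ k, θ k * ξ k ^ 2 - ∑ k, θ k ^ 2 * ξ k ^ 2) := by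
    rw [hsplit (fun p => θ p.1 * θ p.2 * (ξ p.1 ^ 2 + ξ p.2 ^ 2))]
    simp only
    have e1 : ∑ k, ∑ l, θ k * θ l * (ξ k ^ 2 + ξ l ^ 2) = 2 * (T * ∑ k, θ k * ξ k ^ 2) := by
      have a1 : ∑ k, ∑ l, θ k * θ l * (ξ k ^ 2 + ξ l ^ 2) =
          ∑ k, ∑ l, (θ k * ξ k ^ 2) * θ l + ∑ k, ∑ l, θ k * (θ l * ξ l ^ 2) := by
        rw [← Finset.sum_add_distrib]
        refine Finset.sum_congr rfl fun k _ => ?_
        rw [← Finset.sum_add_distrib]
        exact Finset.sum_congr rfl fun l _ => by ring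
      rw [a1, ← Finset.sum_mul_sum, ← Finset.sum_mul_sum, hTdef]; ring
    have e2 : ∑ k, θ k * θ k * (ξ k ^ 2 + ξ k ^ 2) = 2 * ∑ k, θ k ^ 2 * ξ k ^ 2 := by
      rw [Finset.mul_sum]
      exact Finset.sum_congr rfl fun k _ => by ring
    rw [e1, e2]; ring
  have hnn : 0 ≤ ∑ k, θ k ^ 2 * ξ k ^ 2 := Finset.sum_nonneg fun k _ => by positivity
  have e3 : ∑ p ∈ s, θ p.1 * θ p.2 / (T * t) * -(t / (2 * g) * (ξ p.1 ^ 2 + ξ p.2 ^ 2)) =
      -(1 / (2 * g * T)) * ∑ p ∈ s, θ p.1 * θ p.2 * (ξ p.1 ^ 2 + ξ p.2 ^ 2) := by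
    rw [Finset.mul_sum]
    refine Finset.sum_congr rfl fun p _ => ?_
    field_simp
  rw [e3, hsq]
  have e4 : -(∑ k, θ k * ξ k ^ 2) / g = -(1 / (2 * g * T)) * (2 * (T * ∑ k, θ k * ξ k ^ 2)) := by
    field_simp
  rw [e4]
  have h5 : 0 ≤ 1 / (2 * g * T) := by positivity
  nlinarith [mul_nonneg h5 hnn]

theorem quad_small_ball (μ : Measure ℝ) (K : ℝ≥0) (_h : Law μ K) (C₃ : ℝ≥0)
    (hD : ∀ (ι : Type) [Fintype ι] [DecidableEq ι] (W : Matrix (Fin 3) ι ℝ), W * Wᵀ = 1 →
      (Measure.pi (fun _ : ι => μ)).map (fun a => W *ᵥ a) ≤ (C₃ : ℝ≥0∞) • volume) :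
    ∃ C : ℝ≥0, ∀ (ι : Type) [Fintype ι] [DecidableEq ι] (Θ : Matrix ι ι ℝ) (v m : ι → ℝ) (x g : ℝ),
      Θ.PosSemidef → v ⬝ᵥ v = 1 → Θ *ᵥ v = 0 → 0 < x → 0 < g →
      ENNReal.ofReal (tflat Θ) *
        ∫⁻ a, ENNReal.ofReal (Real.exp (-(((m + a) ⬝ᵥ v) ^ 2 / x ^ 2) -
          ((m + a) ⬝ᵥ (Θ *ᵥ (m + a))) / g)) ∂(Measure.pi fun _ : ι => μ)
        ≤ C * ENNReal.ofReal (x * g) := by
  refine ⟨C₃ * Real.toNNReal (2 * Real.pi * Real.sqrt Real.pi), ?_⟩
  intro ι _ _ Θ v m x g hΘ hv hΘv hx hg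
  obtain ⟨θ, u, h0, huu, hΘu, hQ, htr, htr2⟩ := spec_data Θ hΘ
  set t := tflat Θ with htdef
  have ht : t = ∑ k, θ k - (∑ k, θ k ^ 2) / ∑ k, θ k := by
    rw [htdef, tflat, htr, htr2]
  rcases le_or_gt t 0 with ht0 | ht0
  · rw [ENNReal.ofReal_of_nonpos ht0, zero_mul]; exact zero_le
  have hTpos : 0 < ∑ k, θ k := by
    rcases (Finset.sum_nonneg fun k (_ : k ∈ Finset.univ) => h0 k).eq_or_lt with h | h
    · rw [← h] at ht; simp at ht; linarith
    · exact h
  set T := ∑ k, θ k with hT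
  set s := (Finset.univ : Finset (ι × ι)).filter (fun p => p.1 ≠ p.2) with hs
  -- orthogonality of v to the eigenvectors of positive eigenvalue
  have hvu : ∀ k, θ k ≠ 0 → v ⬝ᵥ u k = 0 := by
    intro k hk
    have h1 : v ⬝ᵥ (Θ *ᵥ v) = 0 := by rw [hΘv, dotProduct_zero]
    rw [hQ v] at h1
    have h2 := (Finset.sum_eq_zero_iff_of_nonneg
      (fun k _ => mul_nonneg (h0 k) (sq_nonneg (v ⬝ᵥ u k)))).1 h1 k (Finset.mem_univ _)
    rcases mul_eq_zero.1 h2 with h3 | h3
    · exact absurd h3 hk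
    · exact pow_eq_zero_iff (two_ne_zero) |>.1 h3
  -- the pointwise bound
  have hpt : ∀ a : ι → ℝ, ENNReal.ofReal (Real.exp (-(((m + a) ⬝ᵥ v) ^ 2 / x ^ 2) -
          ((m + a) ⬝ᵥ (Θ *ᵥ (m + a))) / g)) ≤
      ∑ p ∈ s, ENNReal.ofReal (θ p.1 * θ p.2 / (T * t)) *
        ENNReal.ofReal (Real.exp (-(((m + a) ⬝ᵥ v) ^ 2 / x ^ 2 +
          (t / (2 * g) * (((m + a) ⬝ᵥ u p.1) ^ 2 + ((m + a) ⬝ᵥ u p.2) ^ 2))))) := by
    intro a
    obtain ⟨-, hb⟩ := exp_pair_bound θ (fun k => (m + a) ⬝ᵥ u k) h0 t g hg hTpos ht ht0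
    have e : Real.exp (-(((m + a) ⬝ᵥ v) ^ 2 / x ^ 2) - ((m + a) ⬝ᵥ (Θ *ᵥ (m + a))) / g) =
        Real.exp (-(((m + a) ⬝ᵥ v) ^ 2 / x ^ 2)) *
          Real.exp (-(∑ k, θ k * ((m + a) ⬝ᵥ u k) ^ 2) / g) := by
      rw [← Real.exp_add, hQ]; congr 1; ring
    rw [e]
    refine le_trans (ENNReal.ofReal_le_ofReal (mul_le_mul_of_nonneg_left hb (Real.exp_pos _).le)) ?_
    rw [Finset.mul_sum, ENNReal.ofReal_sum_of_nonneg]
    · refine Finset.sum_le_sum fun p _ => le_of_eq ?_
      rw [← ENNReal.ofReal_mul (div_nonneg (mul_nonneg (h0 _) (h0 _)) (mul_pos hTpos ht0).le)]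
      congr 1
      rw [neg_add, Real.exp_add]; ring
    · intro p _
      exact mul_nonneg (Real.exp_pos _).le (mul_nonneg (div_nonneg (mul_nonneg (h0 _) (h0 _))
        (mul_pos hTpos ht0).le) (Real.exp_pos _).le)
  -- the integral of one pair
  have hpair : ∀ p ∈ s, ENNReal.ofReal (θ p.1 * θ p.2 / (T * t)) *
      ∫⁻ a, ENNReal.ofReal (Real.exp (-(((m + a) ⬝ᵥ v) ^ 2 / x ^ 2 +
          (t / (2 * g) * (((m + a) ⬝ᵥ u p.1) ^ 2 + ((m + a) ⬝ᵥ u p.2) ^ 2)))))
          ∂(Measure.pi fun _ : ι => μ) ≤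
      ENNReal.ofReal (θ p.1 * θ p.2 / (T * t)) *
        (C₃ * ENNReal.ofReal (Real.sqrt Real.pi * x * (2 * Real.pi * g / t))) := by
    intro p hp
    by_cases hz : θ p.1 * θ p.2 = 0
    · simp [hz]
    have hz1 : θ p.1 ≠ 0 := left_ne_zero_of_mul hz
    have hz2 : θ p.2 ≠ 0 := right_ne_zero_of_mul hz
    have hne : p.1 ≠ p.2 := (Finset.mem_filter.1 hp).2
    refine mul_le_mul' le_rfl ?_
    set W : Matrix (Fin 3) ι ℝ := Matrix.of ![v, u p.1, u p.2] with hW
    have hWW : W * Wᵀ = 1 := by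
      have hv1 := hvu _ hz1
      have hv2 := hvu _ hz2
      have hv1' : u p.1 ⬝ᵥ v = 0 := by rw [dotProduct_comm]; exact hv1
      have hv2' : u p.2 ⬝ᵥ v = 0 := by rw [dotProduct_comm]; exact hv2
      have h12 : u p.1 ⬝ᵥ u p.2 = 0 := by rw [huu, if_neg hne]
      have h21 : u p.2 ⬝ᵥ u p.1 = 0 := by rw [huu, if_neg (Ne.symm hne)]
      have h11 : u p.1 ⬝ᵥ u p.1 = 1 := by rw [huu, if_pos rfl]
      have h22 : u p.2 ⬝ᵥ u p.2 = 1 := by rw [huu, if_pos rfl]
      ext i j
      have e : (W * Wᵀ) i j = W i ⬝ᵥ W j := by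
        rw [mul_apply]; rfl
      rw [e, one_apply]
      fin_cases i <;> fin_cases j
      · exact hv
      · exact hv1
      · exact hv2
      · exact hv1'
      · exact h11
      · exact h12
      · exact hv2'
      · exact h21
      · exact h22
    have hg3 := gauss_proj μ C₃ W (hD ι W hWW) ![1 / x ^ 2, t / (2 * g), t / (2 * g)]
      ![m ⬝ᵥ v, m ⬝ᵥ u p.1, m ⬝ᵥ u p.2] (by
        intro i; fin_cases i
        · show (0 : ℝ) < 1 / x ^ 2; positivity
        · show (0 : ℝ) < t / (2 * g); positivity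
        · show (0 : ℝ) < t / (2 * g); positivity)
    have e1 : ∀ a : ι → ℝ, ((m + a) ⬝ᵥ v) ^ 2 / x ^ 2 +
          (t / (2 * g) * (((m + a) ⬝ᵥ u p.1) ^ 2 + ((m + a) ⬝ᵥ u p.2) ^ 2)) =
        ∑ i, (![1 / x ^ 2, t / (2 * g), t / (2 * g)] : Fin 3 → ℝ) i *
          ((![m ⬝ᵥ v, m ⬝ᵥ u p.1, m ⬝ᵥ u p.2] : Fin 3 → ℝ) i + (W *ᵥ a) i) ^ 2 := by
      intro a
      have w0 : (W *ᵥ a) 0 = a ⬝ᵥ v := by
        rw [dotProduct_comm]; rfl
      have w1 : (W *ᵥ a) 1 = a ⬝ᵥ u p.1 := by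
        rw [dotProduct_comm]; rfl
      have w2 : (W *ᵥ a) 2 = a ⬝ᵥ u p.2 := by
        rw [dotProduct_comm]; rfl
      rw [Fin.sum_univ_three, w0, w1, w2]
      simp only [add_dotProduct]
      simp
      ring
    simp only [e1]
    refine le_trans hg3 (le_of_eq ?_)
    congr 2
    rw [Fin.prod_univ_three]
    have r1 : Real.sqrt (Real.pi / (1 / x ^ 2)) = Real.sqrt Real.pi * x := by
      rw [div_div_eq_mul_div, div_one, Real.sqrt_mul Real.pi_pos.le, Real.sqrt_sq hx.le]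
    have r2 : Real.sqrt (Real.pi / (t / (2 * g))) * Real.sqrt (Real.pi / (t / (2 * g))) =
        2 * Real.pi * g / t := by
      rw [Real.mul_self_sqrt (by positivity)]
      field_simp
    show Real.sqrt (Real.pi / (1 / x ^ 2)) * Real.sqrt (Real.pi / (t / (2 * g))) *
      Real.sqrt (Real.pi / (t / (2 * g))) = _
    rw [mul_assoc, r2, r1]
  -- assembly
  have hmeas : ∀ p ∈ s, Measurable (fun a : ι → ℝ =>
      ENNReal.ofReal (θ p.1 * θ p.2 / (T * t)) *
      ENNReal.ofReal (Real.exp (-(((m + a) ⬝ᵥ v) ^ 2 / x ^ 2 +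
          (t / (2 * g) * (((m + a) ⬝ᵥ u p.1) ^ 2 + ((m + a) ⬝ᵥ u p.2) ^ 2)))))) := by
    intro p _
    apply Measurable.const_mul
    apply Measurable.ennreal_ofReal
    apply Continuous.measurable
    simp only [dotProduct, Pi.add_apply]
    fun_prop
  have hsumw : ∑ p ∈ s, ENNReal.ofReal (θ p.1 * θ p.2 / (T * t)) = 1 := by
    rw [← ENNReal.ofReal_sum_of_nonneg fun p _ => div_nonneg (mul_nonneg (h0 _) (h0 _))
        (mul_pos hTpos ht0).le,
      (exp_pair_bound θ (fun _ => 0) h0 t g hg hTpos ht ht0).1, ENNReal.ofReal_one]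
  calc ENNReal.ofReal t *
        ∫⁻ a, ENNReal.ofReal (Real.exp (-(((m + a) ⬝ᵥ v) ^ 2 / x ^ 2) -
          ((m + a) ⬝ᵥ (Θ *ᵥ (m + a))) / g)) ∂(Measure.pi fun _ : ι => μ)
      ≤ ENNReal.ofReal t * ∫⁻ a, ∑ p ∈ s, ENNReal.ofReal (θ p.1 * θ p.2 / (T * t)) *
        ENNReal.ofReal (Real.exp (-(((m + a) ⬝ᵥ v) ^ 2 / x ^ 2 +
          (t / (2 * g) * (((m + a) ⬝ᵥ u p.1) ^ 2 + ((m + a) ⬝ᵥ u p.2) ^ 2)))))
          ∂(Measure.pi fun _ : ι => μ) := mul_le_mul' le_rfl (lintegral_mono hpt)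
    _ = ENNReal.ofReal t * ∑ p ∈ s, ENNReal.ofReal (θ p.1 * θ p.2 / (T * t)) *
        ∫⁻ a, ENNReal.ofReal (Real.exp (-(((m + a) ⬝ᵥ v) ^ 2 / x ^ 2 +
          (t / (2 * g) * (((m + a) ⬝ᵥ u p.1) ^ 2 + ((m + a) ⬝ᵥ u p.2) ^ 2)))))
          ∂(Measure.pi fun _ : ι => μ) := by
        congr 1
        rw [lintegral_finsetSum s hmeas]
        refine Finset.sum_congr rfl fun p _ => ?_
        rw [lintegral_const_mul' _ _ ENNReal.ofReal_ne_top]
    _ ≤ ENNReal.ofReal t * ∑ p ∈ s, ENNReal.ofReal (θ p.1 * θ p.2 / (T * t)) *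
        (C₃ * ENNReal.ofReal (Real.sqrt Real.pi * x * (2 * Real.pi * g / t))) :=
        mul_le_mul' le_rfl (Finset.sum_le_sum hpair)
    _ = (C₃ * Real.toNNReal (2 * Real.pi * Real.sqrt Real.pi) : ℝ≥0) *
          ENNReal.ofReal (x * g) := by
        rw [← Finset.sum_mul, hsumw, one_mul, mul_left_comm, ← ENNReal.ofReal_mul ht0.le,
          ENNReal.coe_mul, mul_assoc (C₃ : ℝ≥0∞)]
        congr 1
        rw [show ((Real.toNNReal (2 * Real.pi * Real.sqrt Real.pi) : ℝ≥0) : ℝ≥0∞) =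
          ENNReal.ofReal (2 * Real.pi * Real.sqrt Real.pi) from rfl, ← ENNReal.ofReal_mul (by positivity)]
        congr 1
        field_simp

theorem quad_small_ball2 (μ : Measure ℝ) (K : ℝ≥0) (_h : Law μ K) (C₂ : ℝ≥0)
    (hD₂ : ∀ (ι : Type) [Fintype ι] [DecidableEq ι] (W : Matrix (Fin 2) ι ℝ), W * Wᵀ = 1 →
      (Measure.pi (fun _ : ι => μ)).map (fun a => W *ᵥ a) ≤ (C₂ : ℝ≥0∞) • volume) :
    ∃ C : ℝ≥0, ∀ (ι : Type) [Fintype ι] [DecidableEq ι] (Θ : Matrix ι ι ℝ) (m : ι → ℝ) (g : ℝ),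
      Θ.PosSemidef → 0 < g →
      ENNReal.ofReal (tflat Θ) *
        ∫⁻ a, ENNReal.ofReal (Real.exp (-((m + a) ⬝ᵥ (Θ *ᵥ (m + a))) / g))
          ∂(Measure.pi fun _ : ι => μ)
        ≤ C * ENNReal.ofReal g := by
  refine ⟨C₂ * Real.toNNReal (2 * Real.pi), ?_⟩
  intro ι _ _ Θ m g hΘ hg
  obtain ⟨θ, u, h0, huu, hΘu, hQ, htr, htr2⟩ := spec_data Θ hΘ
  set t := tflat Θ with htdef
  have ht : t = ∑ k, θ k - (∑ k, θ k ^ 2) / ∑ k, θ k := by
    rw [htdef, tflat, htr, htr2]
  rcases le_or_gt t 0 with ht0 | ht0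
  · rw [ENNReal.ofReal_of_nonpos ht0, zero_mul]; exact zero_le
  have hTpos : 0 < ∑ k, θ k := by
    rcases (Finset.sum_nonneg fun k (_ : k ∈ Finset.univ) => h0 k).eq_or_lt with h | h
    · rw [← h] at ht; simp at ht; linarith
    · exact h
  set T := ∑ k, θ k with hT
  set s := (Finset.univ : Finset (ι × ι)).filter (fun p => p.1 ≠ p.2) with hs
  have hpt : ∀ a : ι → ℝ, ENNReal.ofReal (Real.exp (-((m + a) ⬝ᵥ (Θ *ᵥ (m + a))) / g)) ≤
      ∑ p ∈ s, ENNReal.ofReal (θ p.1 * θ p.2 / (T * t)) *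
        ENNReal.ofReal (Real.exp (-
          (t / (2 * g) * (((m + a) ⬝ᵥ u p.1) ^ 2 + ((m + a) ⬝ᵥ u p.2) ^ 2)))) := by
    intro a
    obtain ⟨-, hb⟩ := exp_pair_bound θ (fun k => (m + a) ⬝ᵥ u k) h0 t g hg hTpos ht ht0
    rw [hQ]
    refine le_trans (ENNReal.ofReal_le_ofReal hb) ?_
    rw [ENNReal.ofReal_sum_of_nonneg]
    · refine Finset.sum_le_sum fun p _ => le_of_eq ?_
      rw [← ENNReal.ofReal_mul (div_nonneg (mul_nonneg (h0 _) (h0 _)) (mul_pos hTpos ht0).le)]
    · intro p _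
      exact (mul_nonneg (div_nonneg (mul_nonneg (h0 _) (h0 _))
        (mul_pos hTpos ht0).le) (Real.exp_pos _).le)
  have hpair : ∀ p ∈ s, ENNReal.ofReal (θ p.1 * θ p.2 / (T * t)) *
      ∫⁻ a, ENNReal.ofReal (Real.exp (-
          (t / (2 * g) * (((m + a) ⬝ᵥ u p.1) ^ 2 + ((m + a) ⬝ᵥ u p.2) ^ 2))))
          ∂(Measure.pi fun _ : ι => μ) ≤
      ENNReal.ofReal (θ p.1 * θ p.2 / (T * t)) *
        (C₂ * ENNReal.ofReal (2 * Real.pi * g / t)) := by
    intro p hp
    have hne : p.1 ≠ p.2 := (Finset.mem_filter.1 hp).2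
    refine mul_le_mul' le_rfl ?_
    set W : Matrix (Fin 2) ι ℝ := Matrix.of ![u p.1, u p.2] with hW
    have hWW : W * Wᵀ = 1 := by
      have h12 : u p.1 ⬝ᵥ u p.2 = 0 := by rw [huu, if_neg hne]
      have h21 : u p.2 ⬝ᵥ u p.1 = 0 := by rw [huu, if_neg (Ne.symm hne)]
      have h11 : u p.1 ⬝ᵥ u p.1 = 1 := by rw [huu, if_pos rfl]
      have h22 : u p.2 ⬝ᵥ u p.2 = 1 := by rw [huu, if_pos rfl]
      ext i j
      have e : (W * Wᵀ) i j = W i ⬝ᵥ W j := by
        rw [mul_apply]; rfl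
      rw [e, one_apply]
      fin_cases i <;> fin_cases j
      · exact h11
      · exact h12
      · exact h21
      · exact h22
    have hg3 := gauss_proj μ C₂ W (hD₂ ι W hWW) ![t / (2 * g), t / (2 * g)]
      ![m ⬝ᵥ u p.1, m ⬝ᵥ u p.2] (by
        intro i; fin_cases i
        · show (0 : ℝ) < t / (2 * g); positivity
        · show (0 : ℝ) < t / (2 * g); positivity)
    have e1 : ∀ a : ι → ℝ,
          (t / (2 * g) * (((m + a) ⬝ᵥ u p.1) ^ 2 + ((m + a) ⬝ᵥ u p.2) ^ 2)) =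
        ∑ i, (![t / (2 * g), t / (2 * g)] : Fin 2 → ℝ) i *
          ((![m ⬝ᵥ u p.1, m ⬝ᵥ u p.2] : Fin 2 → ℝ) i + (W *ᵥ a) i) ^ 2 := by
      intro a
      have w1 : (W *ᵥ a) 0 = a ⬝ᵥ u p.1 := by
        rw [dotProduct_comm]; rfl
      have w2 : (W *ᵥ a) 1 = a ⬝ᵥ u p.2 := by
        rw [dotProduct_comm]; rfl
      rw [Fin.sum_univ_two, w1, w2]
      simp only [add_dotProduct]
      simp
      ring
    simp only [e1]
    refine le_trans hg3 (le_of_eq ?_)
    congr 2
    rw [Fin.prod_univ_two]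
    show Real.sqrt (Real.pi / (t / (2 * g))) *
      Real.sqrt (Real.pi / (t / (2 * g))) = _
    rw [Real.mul_self_sqrt (by positivity)]
    field_simp
  have hmeas : ∀ p ∈ s, Measurable (fun a : ι → ℝ =>
      ENNReal.ofReal (θ p.1 * θ p.2 / (T * t)) *
      ENNReal.ofReal (Real.exp (-
          (t / (2 * g) * (((m + a) ⬝ᵥ u p.1) ^ 2 + ((m + a) ⬝ᵥ u p.2) ^ 2))))) := by
    intro p _
    apply Measurable.const_mul
    apply Measurable.ennreal_ofReal
    apply Continuous.measurable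
    simp only [dotProduct, Pi.add_apply]
    fun_prop
  have hsumw : ∑ p ∈ s, ENNReal.ofReal (θ p.1 * θ p.2 / (T * t)) = 1 := by
    rw [← ENNReal.ofReal_sum_of_nonneg fun p _ => div_nonneg (mul_nonneg (h0 _) (h0 _))
        (mul_pos hTpos ht0).le,
      (exp_pair_bound θ (fun _ => 0) h0 t g hg hTpos ht ht0).1, ENNReal.ofReal_one]
  calc ENNReal.ofReal t *
        ∫⁻ a, ENNReal.ofReal (Real.exp (-((m + a) ⬝ᵥ (Θ *ᵥ (m + a))) / g))
          ∂(Measure.pi fun _ : ι => μ)
      ≤ ENNReal.ofReal t * ∫⁻ a, ∑ p ∈ s, ENNReal.ofReal (θ p.1 * θ p.2 / (T * t)) *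
        ENNReal.ofReal (Real.exp (-
          (t / (2 * g) * (((m + a) ⬝ᵥ u p.1) ^ 2 + ((m + a) ⬝ᵥ u p.2) ^ 2))))
          ∂(Measure.pi fun _ : ι => μ) := mul_le_mul' le_rfl (lintegral_mono hpt)
    _ = ENNReal.ofReal t * ∑ p ∈ s, ENNReal.ofReal (θ p.1 * θ p.2 / (T * t)) *
        ∫⁻ a, ENNReal.ofReal (Real.exp (-
          (t / (2 * g) * (((m + a) ⬝ᵥ u p.1) ^ 2 + ((m + a) ⬝ᵥ u p.2) ^ 2))))
          ∂(Measure.pi fun _ : ι => μ) := by
        congr 1
        rw [lintegral_finsetSum s hmeas]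
        refine Finset.sum_congr rfl fun p _ => ?_
        rw [lintegral_const_mul' _ _ ENNReal.ofReal_ne_top]
    _ ≤ ENNReal.ofReal t * ∑ p ∈ s, ENNReal.ofReal (θ p.1 * θ p.2 / (T * t)) *
        (C₂ * ENNReal.ofReal (2 * Real.pi * g / t)) :=
        mul_le_mul' le_rfl (Finset.sum_le_sum hpair)
    _ = (C₂ * Real.toNNReal (2 * Real.pi) : ℝ≥0) * ENNReal.ofReal g := by
        rw [← Finset.sum_mul, hsumw, one_mul, mul_left_comm, ← ENNReal.ofReal_mul ht0.le,
          ENNReal.coe_mul, mul_assoc (C₂ : ℝ≥0∞)]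
        congr 1
        rw [show ((Real.toNNReal (2 * Real.pi) : ℝ≥0) : ℝ≥0∞) =
          ENNReal.ofReal (2 * Real.pi) from rfl, ← ENNReal.ofReal_mul (by positivity)]
        congr 1
        field_simp

end Pool.Agent.SMin

end

section

/-!
One-dimensional density bounds and the splitting of the coordinates.
-/

open MeasureTheory Matrix ProbabilityTheory
open scoped ENNReal NNReal

namespace Pool.Agent.SMin

/-- One-dimensional density bound for linear forms. -/
theorem lintegral_dot_le {μ : Measure ℝ} [IsProbabilityMeasure μ] {C : ℝ≥0} (hD : DB μ 1 C)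
    {ι : Type} [Fintype ι] (u : ι → ℝ) (hu : 0 < u ⬝ᵥ u) (r : ℝ)
    (F : ℝ → ℝ≥0∞) (hF : Measurable F) :
    ∫⁻ a, F (r + u ⬝ᵥ a) ∂(Measure.pi fun _ : ι => μ) ≤
      ENNReal.ofReal (C / Real.sqrt (u ⬝ᵥ u)) * ∫⁻ x, F x := by
  classical
  set s := Real.sqrt (u ⬝ᵥ u) with hs
  have hs0 : 0 < s := Real.sqrt_pos.2 hu
  have hss : s * s = u ⬝ᵥ u := Real.mul_self_sqrt hu.le
  let W : Matrix (Fin 1) ι ℝ := Matrix.of fun _ j => s⁻¹ * u j
  have hW : W * Wᵀ = 1 := by
    ext i j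
    have hi : i = 0 := Subsingleton.elim _ _
    have hj : j = 0 := Subsingleton.elim _ _
    subst hi
    subst hj
    rw [Matrix.mul_apply, Matrix.one_apply_eq]
    have : ∀ k, W 0 k * Wᵀ k 0 = s⁻¹ * s⁻¹ * (u k * u k) := by
      intro k
      simp only [W, Matrix.transpose_apply, Matrix.of_apply]
      ring
    simp_rw [this]
    rw [← Finset.mul_sum]
    change s⁻¹ * s⁻¹ * (u ⬝ᵥ u) = 1
    rw [← hss]
    field_simp
  have h1 := hD ι W hW
  have hG : Measurable (fun y : Fin 1 → ℝ => F (r + s * y 0)) :=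
    hF.comp (measurable_const.add (measurable_const.mul (measurable_pi_apply 0)))
  have h2 := lintegral_comp_le_of_map_le (measurable_mulVec W) h1 _ hG
  have h3 : ∀ a : ι → ℝ, s * (W *ᵥ a) 0 = u ⬝ᵥ a := by
    intro a
    simp only [Matrix.mulVec, dotProduct, W, Matrix.of_apply, Finset.mul_sum]
    refine Finset.sum_congr rfl fun j _ => ?_
    field_simp
  simp_rw [h3] at h2
  refine h2.trans ?_
  rw [lintegral_smul_measure, smul_eq_mul]
  have h4 : ∫⁻ y : Fin 1 → ℝ, F (r + s * y 0) = ∫⁻ x : ℝ, F (s * x + r) := by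
    rw [← (volume_preserving_funUnique (Fin 1) ℝ).lintegral_comp
      (f := fun x : ℝ => F (s * x + r))
      (hF.comp ((measurable_const.mul measurable_id).add measurable_const))]
    refine lintegral_congr fun y => ?_
    rw [add_comm]
    rfl
  rw [h4, lintegral_affine s r hs0 F hF, ← mul_assoc]
  gcongr
  rw [div_eq_mul_inv, ENNReal.ofReal_mul C.coe_nonneg]
  simp

theorem lintegral_gauss (b : ℝ) (hb : 0 < b) :
    ∫⁻ x : ℝ, ENNReal.ofReal (Real.exp (-(b * x ^ 2))) = ENNReal.ofReal (Real.sqrt (Real.pi / b)) := by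
  have h1 : Integrable (fun x : ℝ => Real.exp (-(b * x ^ 2))) := by
    have := integrable_exp_neg_mul_sq hb
    simpa [neg_mul] using this
  rw [← ofReal_integral_eq_lintegral_ofReal h1
    (Filter.Eventually.of_forall fun x => (Real.exp_pos _).le)]
  congr 1
  have := integral_gaussian b
  simpa [neg_mul] using this

section Split

variable {ι : Type} [Fintype ι] [DecidableEq ι]

omit [Fintype ι] in
theorem exists_split_aux (f : ι → ℝ) (s : Finset ι) (hf : ∀ j, f j ≤ 1 / 4)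
    (hs : 1 / 4 ≤ ∑ j ∈ s, f j) : ∃ J ⊆ s, 1 / 4 ≤ ∑ j ∈ J, f j ∧ ∑ j ∈ J, f j ≤ 1 / 2 := by
  induction s using Finset.induction_on with
  | empty => simp at hs; norm_num at hs
  | insert a s ha ih =>
    by_cases h : 1 / 4 ≤ ∑ j ∈ s, f j
    · obtain ⟨J, hJ, h1, h2⟩ := ih h
      exact ⟨J, hJ.trans (Finset.subset_insert a s), h1, h2⟩
    · push Not at h
      refine ⟨insert a s, subset_rfl, hs, ?_⟩
      rw [Finset.sum_insert ha]
      linarith [hf a]

/-- A nonlocalised unit vector splits into two parts of comparable length. -/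
theorem exists_split (v : ι → ℝ) (hv : v ⬝ᵥ v = 1) (hloc : ∀ j, v j ^ 2 ≤ 3 / 4) :
    ∃ J : Finset ι, 1 / 4 ≤ ∑ j ∈ J, v j ^ 2 ∧ ∑ j ∈ J, v j ^ 2 ≤ 3 / 4 := by
  have hsum : ∑ j, v j ^ 2 = 1 := by
    rw [← hv]
    unfold dotProduct
    exact Finset.sum_congr rfl fun j _ => sq _
  by_cases h : ∃ j, 1 / 4 < v j ^ 2
  · obtain ⟨j, hj⟩ := h
    refine ⟨{j}, ?_, ?_⟩
    · simpa using hj.le
    · simpa using hloc j
  · push Not at h
    obtain ⟨J, -, h1, h2⟩ := exists_split_aux (fun j => v j ^ 2) Finset.univ h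
      (by rw [hsum]; norm_num)
    exact ⟨J, h1, by linarith⟩

theorem dot_piecewise (v a' a : ι → ℝ) (J : Finset ι) :
    v ⬝ᵥ (J.piecewise a' a) = (J.piecewise v 0) ⬝ᵥ a' + (J.piecewise 0 v) ⬝ᵥ a := by
  unfold dotProduct
  rw [← Finset.sum_add_distrib]
  refine Finset.sum_congr rfl fun j _ => ?_
  by_cases hj : j ∈ J <;> simp [Finset.piecewise, hj]

theorem dot_piecewise_self_left (v : ι → ℝ) (J : Finset ι) :
    (J.piecewise v 0) ⬝ᵥ (J.piecewise v 0) = ∑ j ∈ J, v j ^ 2 := by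
  unfold dotProduct
  rw [← Finset.sum_subset (Finset.subset_univ J)]
  · refine Finset.sum_congr rfl fun j hj => ?_
    simp [Finset.piecewise, hj, sq]
  · intro j _ hj
    simp [Finset.piecewise, hj]

theorem dot_piecewise_self_right (v : ι → ℝ) (J : Finset ι) :
    (J.piecewise 0 v) ⬝ᵥ (J.piecewise 0 v) = v ⬝ᵥ v - ∑ j ∈ J, v j ^ 2 := by
  have h1 : v ⬝ᵥ v = ∑ j ∈ J, v j ^ 2 + ∑ j ∈ Jᶜ, v j ^ 2 := by
    rw [Finset.sum_add_sum_compl]
    unfold dotProduct
    exact Finset.sum_congr rfl fun j _ => (sq _).symm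
  rw [h1, add_sub_cancel_left]
  unfold dotProduct
  rw [← Finset.sum_subset (Finset.subset_univ Jᶜ)]
  · refine Finset.sum_congr rfl fun j hj => ?_
    rw [Finset.mem_compl] at hj
    simp [Finset.piecewise, hj, sq]
  · intro j _ hj
    rw [Finset.mem_compl, not_not] at hj
    simp [Finset.piecewise, hj]

/-- The quadratic form restricted to a set of coordinates. -/
def mask (J : Finset ι) (Θ : Matrix ι ι ℝ) : Matrix ι ι ℝ :=
  Matrix.of fun i j => if i ∈ J ∧ j ∈ J then Θ i j else 0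

theorem dot_mask (J : Finset ι) (Θ : Matrix ι ι ℝ) (a : ι → ℝ) :
    a ⬝ᵥ (mask J Θ *ᵥ a) = (J.piecewise a 0) ⬝ᵥ (Θ *ᵥ (J.piecewise a 0)) := by
  simp only [dotProduct, Matrix.mulVec, Finset.mul_sum]
  refine Finset.sum_congr rfl fun i _ => Finset.sum_congr rfl fun j _ => ?_
  by_cases hi : i ∈ J <;> by_cases hj : j ∈ J <;> simp [mask, Finset.piecewise, hi, hj]

theorem mask_psd (J : Finset ι) {Θ : Matrix ι ι ℝ} (hΘ : Θ.PosSemidef) :
    (mask J Θ).PosSemidef := by
  refine psd_of_nonneg ?_ fun x => ?_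
  · ext i j
    have : Θ j i = Θ i j := by
      conv_lhs => rw [← psd_transpose hΘ]
      rfl
    simp [mask, this, and_comm]
  · rw [dot_mask]
    exact psd_nonneg hΘ _

theorem trace_mask_add (J : Finset ι) (Θ : Matrix ι ι ℝ) :
    (mask J Θ).trace + (mask Jᶜ Θ).trace = Θ.trace := by
  simp only [Matrix.trace, ← Finset.sum_add_distrib]
  refine Finset.sum_congr rfl fun i _ => ?_
  by_cases hi : i ∈ J <;> simp [mask, hi]

theorem piecewise_eq_add (J : Finset ι) (a' a : ι → ℝ) :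
    J.piecewise a' a = J.piecewise a' 0 + Jᶜ.piecewise a 0 := by
  ext j
  by_cases hj : j ∈ J <;> simp [Finset.piecewise, hj]

theorem dot_quad_piecewise_le (J : Finset ι) {Θ : Matrix ι ι ℝ} (hΘ : Θ.PosSemidef)
    (a' a : ι → ℝ) :
    (J.piecewise a' a) ⬝ᵥ (Θ *ᵥ (J.piecewise a' a)) ≤
      2 * (a' ⬝ᵥ (mask J Θ *ᵥ a')) + 2 * (a ⬝ᵥ (mask Jᶜ Θ *ᵥ a)) := by
  rw [dot_mask, dot_mask, piecewise_eq_add]
  exact psd_add_le hΘ _ _

omit [DecidableEq ι] in
theorem measurable_dot (v : ι → ℝ) : Measurable (fun a : ι → ℝ => v ⬝ᵥ a) := by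
  have : Continuous (fun a : ι → ℝ => v ⬝ᵥ a) := by fun_prop
  exact this.measurable

omit [DecidableEq ι] in
theorem measurable_quad (Θ : Matrix ι ι ℝ) (m : ι → ℝ) :
    Measurable (fun a : ι → ℝ => (m + a) ⬝ᵥ (Θ *ᵥ (m + a))) := by
  have : Continuous (fun a : ι → ℝ => (m + a) ⬝ᵥ (Θ *ᵥ (m + a))) := by fun_prop
  exact this.measurable

omit [DecidableEq ι] in
theorem measurable_quad' (Θ : Matrix ι ι ℝ) :
    Measurable (fun a : ι → ℝ => a ⬝ᵥ (Θ *ᵥ a)) := by
  have : Continuous (fun a : ι → ℝ => a ⬝ᵥ (Θ *ᵥ a)) := by fun_prop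
  exact this.measurable

omit [DecidableEq ι] in
theorem lintegral_quad' {μ : Measure ℝ} {K : ℝ≥0} (h : Law μ K) {Θ : Matrix ι ι ℝ}
    (hΘ : Θ.PosSemidef) :
    ∫⁻ a : ι → ℝ, ENNReal.ofReal (a ⬝ᵥ (Θ *ᵥ a)) ∂(Measure.pi fun _ : ι => μ) =
      ENNReal.ofReal Θ.trace := by
  have := lintegral_quad h hΘ (0 : ι → ℝ)
  simpa using this

/-- Splitting lemma: a quadratic weight times a function of a nonlocalised linear form. -/
theorem lintegral_quad_mul_le {μ : Measure ℝ} {K : ℝ≥0} (h : Law μ K) {C : ℝ≥0}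
    (hD : DB μ 1 C) (v : ι → ℝ) (hv : v ⬝ᵥ v = 1) (hloc : ∀ j, v j ^ 2 ≤ 3 / 4)
    {Θ : Matrix ι ι ℝ} (hΘ : Θ.PosSemidef) (r : ℝ) (H : ℝ → ℝ≥0∞) (hH : Measurable H) :
    ∫⁻ a, ENNReal.ofReal (a ⬝ᵥ (Θ *ᵥ a)) * H (r + v ⬝ᵥ a) ∂(Measure.pi fun _ : ι => μ) ≤
      ENNReal.ofReal (4 * C * Θ.trace) * ∫⁻ x, H x := by
  have := h.prob
  obtain ⟨J, hJ1, hJ2⟩ := exists_split v hv hloc
  set P := (Measure.pi fun _ : ι => μ) with hP
  set vJ : ι → ℝ := J.piecewise v 0 with hvJ
  set vc : ι → ℝ := J.piecewise 0 v with hvc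
  have hvJn : 1 / 4 ≤ vJ ⬝ᵥ vJ := by rw [hvJ, dot_piecewise_self_left]; exact hJ1
  have hvcn : 1 / 4 ≤ vc ⬝ᵥ vc := by rw [hvc, dot_piecewise_self_right, hv]; linarith
  have hsq : ∀ x : ℝ, 1 / 4 ≤ x → (C : ℝ) / Real.sqrt x ≤ 2 * C := by
    intro x hx
    have h1 : 1 / 2 ≤ Real.sqrt x := by
      refine Real.le_sqrt_of_sq_le ?_
      linarith
    rw [div_le_iff₀ (by linarith)]
    nlinarith [C.coe_nonneg]
  have hin1 : ∀ a' : ι → ℝ, ∫⁻ a, H (r + v ⬝ᵥ (J.piecewise a' a)) ∂P ≤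
      ENNReal.ofReal (2 * C) * ∫⁻ x, H x := by
    intro a'
    have h1 := lintegral_dot_le hD vc (by linarith) (r + vJ ⬝ᵥ a') H hH
    refine le_trans (le_of_eq ?_) (h1.trans ?_)
    · refine lintegral_congr fun a => ?_
      rw [dot_piecewise, add_assoc]
    · gcongr
      exact hsq _ hvcn
  have hin2 : ∀ a : ι → ℝ, ∫⁻ a', H (r + v ⬝ᵥ (J.piecewise a' a)) ∂P ≤
      ENNReal.ofReal (2 * C) * ∫⁻ x, H x := by
    intro a
    have h1 := lintegral_dot_le hD vJ (by linarith) (r + vc ⬝ᵥ a) H hH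
    refine le_trans (le_of_eq ?_) (h1.trans ?_)
    · refine lintegral_congr fun a' => ?_
      rw [dot_piecewise]
      congr 1
      ring
    · gcongr
      exact hsq _ hvJn
  have hFm : Measurable (fun a : ι → ℝ => ENNReal.ofReal (a ⬝ᵥ (Θ *ᵥ a)) * H (r + v ⬝ᵥ a)) :=
    (measurable_quad' Θ).ennreal_ofReal.mul
      (hH.comp (measurable_const.add (measurable_dot v)))
  have hHm : Measurable (fun p : (ι → ℝ) × (ι → ℝ) => H (r + v ⬝ᵥ (J.piecewise p.2 p.1))) :=
    (hH.comp (measurable_const.add (measurable_dot v))).comp (measurable_piecewise_pair J)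
  rw [lintegral_pi_resample' μ J _ hFm]
  have hb : ∀ a' a : ι → ℝ, ENNReal.ofReal ((J.piecewise a' a) ⬝ᵥ (Θ *ᵥ (J.piecewise a' a))) ≤
      2 * ENNReal.ofReal (a' ⬝ᵥ (mask J Θ *ᵥ a')) +
        2 * ENNReal.ofReal (a ⬝ᵥ (mask Jᶜ Θ *ᵥ a)) := by
    intro a' a
    refine (ENNReal.ofReal_le_ofReal (dot_quad_piecewise_le J hΘ a' a)).trans ?_
    refine ENNReal.ofReal_add_le.trans ?_
    rw [ENNReal.ofReal_mul (by norm_num), ENNReal.ofReal_mul (by norm_num)]
    simp
  set U1 : (ι → ℝ) → ℝ≥0∞ := fun a' => 2 * ENNReal.ofReal (a' ⬝ᵥ (mask J Θ *ᵥ a')) with hU1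
  set U2 : (ι → ℝ) → ℝ≥0∞ := fun a => 2 * ENNReal.ofReal (a ⬝ᵥ (mask Jᶜ Θ *ᵥ a)) with hU2
  have hU1m : Measurable U1 := measurable_const.mul (measurable_quad' _).ennreal_ofReal
  have hU2m : Measurable U2 := measurable_const.mul (measurable_quad' _).ennreal_ofReal
  have hs1 : ∀ a' : ι → ℝ, Measurable fun a : ι → ℝ => H (r + v ⬝ᵥ (J.piecewise a' a)) :=
    fun a' => hHm.comp (measurable_id.prodMk measurable_const)
  have hs2 : ∀ a : ι → ℝ, Measurable fun a' : ι → ℝ => H (r + v ⬝ᵥ (J.piecewise a' a)) :=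
    fun a => hHm.comp (measurable_const.prodMk measurable_id)
  calc ∫⁻ a', ∫⁻ a, ENNReal.ofReal ((J.piecewise a' a) ⬝ᵥ (Θ *ᵥ (J.piecewise a' a))) *
          H (r + v ⬝ᵥ (J.piecewise a' a)) ∂P ∂P
      ≤ ∫⁻ a', ∫⁻ a, (U1 a' * H (r + v ⬝ᵥ (J.piecewise a' a)) +
          U2 a * H (r + v ⬝ᵥ (J.piecewise a' a))) ∂P ∂P := by
        refine lintegral_mono fun a' => lintegral_mono fun a => ?_
        simp only
        rw [← add_mul]
        gcongr
        exact hb a' a
    _ = ∫⁻ a', ∫⁻ a, U1 a' * H (r + v ⬝ᵥ (J.piecewise a' a)) ∂P ∂P +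
          ∫⁻ a', ∫⁻ a, U2 a * H (r + v ⬝ᵥ (J.piecewise a' a)) ∂P ∂P := by
        rw [← lintegral_add_left]
        · refine lintegral_congr fun a' => ?_
          rw [lintegral_add_left]
          exact measurable_const.mul (hs1 a')
        · refine Measurable.lintegral_prod_right' (f := fun p : (ι → ℝ) × (ι → ℝ) =>
            U1 p.1 * H (r + v ⬝ᵥ (J.piecewise p.1 p.2))) ?_
          exact (hU1m.comp measurable_fst).mul
            (hHm.comp (measurable_snd.prodMk measurable_fst))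
    _ = ∫⁻ a', ∫⁻ a, U1 a' * H (r + v ⬝ᵥ (J.piecewise a' a)) ∂P ∂P +
          ∫⁻ a, ∫⁻ a', U2 a * H (r + v ⬝ᵥ (J.piecewise a' a)) ∂P ∂P := by
        congr 1
        rw [lintegral_lintegral_swap]
        refine Measurable.aemeasurable ?_
        exact (hU2m.comp measurable_snd).mul
            (hHm.comp (measurable_snd.prodMk measurable_fst))
    _ ≤ ∫⁻ a', U1 a' * (ENNReal.ofReal (2 * C) * ∫⁻ x, H x) ∂P +
          ∫⁻ a, U2 a * (ENNReal.ofReal (2 * C) * ∫⁻ x, H x) ∂P := by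
        gcongr with a' a
        · rw [lintegral_const_mul _ (hs1 a')]
          gcongr
          exact hin1 a'
        · rw [lintegral_const_mul _ (hs2 a)]
          gcongr
          exact hin2 a
    _ = (∫⁻ a', U1 a' ∂P + ∫⁻ a, U2 a ∂P) * (ENNReal.ofReal (2 * C) * ∫⁻ x, H x) := by
        rw [lintegral_mul_const _ hU1m, lintegral_mul_const _ hU2m, add_mul]
    _ = ENNReal.ofReal (4 * C * Θ.trace) * ∫⁻ x, H x := by
        rw [hU1, hU2, lintegral_const_mul _ (measurable_quad' _).ennreal_ofReal,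
          lintegral_const_mul _ (measurable_quad' _).ennreal_ofReal,
          lintegral_quad' h (mask_psd J hΘ), lintegral_quad' h (mask_psd Jᶜ hΘ), ← mul_add,
          ← ENNReal.ofReal_add (trace_nonneg' (mask_psd J hΘ)) (trace_nonneg' (mask_psd Jᶜ hΘ)),
          trace_mask_add, ← mul_assoc]
        congr 1
        rw [show (2 : ℝ≥0∞) = ENNReal.ofReal 2 by simp, ← ENNReal.ofReal_mul (by norm_num),
          ← ENNReal.ofReal_mul (mul_nonneg (by norm_num) (trace_nonneg' hΘ))]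
        congr 1
        ring

end Split

end Pool.Agent.SMin

end

section

/-!
Integrals of reciprocals through the exponential representation.
-/

open MeasureTheory Matrix ProbabilityTheory
open scoped ENNReal NNReal

namespace Pool.Agent.SMin

theorem lintegral_exp_Ioi (u : ℝ) (hu : 0 < u) :
    ∫⁻ s in Set.Ioi (0 : ℝ), ENNReal.ofReal (Real.exp (-(s * u))) = ENNReal.ofReal (1 / u) := by
  have h1 : (fun s : ℝ => Real.exp (-(s * u))) = fun s => Real.exp (-u * s) := by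
    funext s
    congr 1
    ring
  have h2 : IntegrableOn (fun s : ℝ => Real.exp (-(s * u))) (Set.Ioi 0) := by
    rw [h1]
    exact integrableOn_exp_mul_Ioi (by linarith) 0
  rw [← ofReal_integral_eq_lintegral_ofReal h2
    (Filter.Eventually.of_forall fun x => (Real.exp_pos _).le), h1,
    integral_exp_mul_Ioi (by linarith) 0]
  congr 1
  simp

theorem lintegral_sqrt_inv (c : ℝ) (hc : 0 < c) :
    ∫⁻ s in Set.Ioc (0 : ℝ) c, ENNReal.ofReal (1 / Real.sqrt s) =
      ENNReal.ofReal (2 * Real.sqrt c) := by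
  have h1 : ∀ s ∈ Set.Ioc (0 : ℝ) c, ENNReal.ofReal (1 / Real.sqrt s) =
      ENNReal.ofReal (s ^ (-(1 / 2) : ℝ)) := by
    intro s hs
    rw [Real.rpow_neg hs.1.le, ← Real.sqrt_eq_rpow, one_div]
  rw [setLIntegral_congr_fun measurableSet_Ioc h1]
  have h2 : IntegrableOn (fun s : ℝ => s ^ (-(1 / 2) : ℝ)) (Set.Ioc 0 c) := by
    rw [← intervalIntegrable_iff_integrableOn_Ioc_of_le hc.le]
    exact intervalIntegral.intervalIntegrable_rpow' (by norm_num)
  rw [← ofReal_integral_eq_lintegral_ofReal h2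
    ((ae_restrict_iff' measurableSet_Ioc).2 (Filter.Eventually.of_forall fun x hx =>
      Real.rpow_nonneg hx.1.le _)), ← intervalIntegral.integral_of_le hc.le,
    integral_rpow (Or.inl (by norm_num))]
  congr 1
  rw [Real.sqrt_eq_rpow, Real.zero_rpow (by norm_num)]
  norm_num
  ring

theorem lintegral_pow_three_half (c : ℝ) (hc : 0 < c) :
    ∫⁻ s in Set.Ioi c, ENNReal.ofReal (1 / (s * Real.sqrt s)) =
      ENNReal.ofReal (2 / Real.sqrt c) := by
  have h1 : ∀ s ∈ Set.Ioi c, ENNReal.ofReal (1 / (s * Real.sqrt s)) =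
      ENNReal.ofReal (s ^ (-(3 / 2) : ℝ)) := by
    intro s hs
    have hs0 : 0 < s := hc.trans hs
    congr 1
    rw [Real.rpow_neg hs0.le, show (3 / 2 : ℝ) = 1 + 1 / 2 by norm_num, Real.rpow_add hs0,
      Real.rpow_one, ← Real.sqrt_eq_rpow, one_div]
  rw [setLIntegral_congr_fun measurableSet_Ioi h1]
  rw [← ofReal_integral_eq_lintegral_ofReal (integrableOn_Ioi_rpow_of_lt (by norm_num) hc)
    ((ae_restrict_iff' measurableSet_Ioi).2 (Filter.Eventually.of_forall fun x hx =>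
      Real.rpow_nonneg (hc.trans hx).le _)), integral_Ioi_rpow_of_lt (by norm_num) hc]
  congr 1
  rw [show (-(3 / 2) + 1 : ℝ) = -(1 / 2) by norm_num, Real.rpow_neg hc.le, ← Real.sqrt_eq_rpow]
  field_simp

theorem lintegral_min_le (α β : ℝ) (hα : 0 < α) (hβ : 0 < β) (E : ℝ → ℝ≥0∞)
    (h1 : ∀ s, 0 < s → E s ≤ ENNReal.ofReal (α / Real.sqrt s))
    (h2 : ∀ s, 0 < s → E s ≤ ENNReal.ofReal (β / (s * Real.sqrt s))) :
    ∫⁻ s in Set.Ioi (0 : ℝ), E s ≤ ENNReal.ofReal (4 * Real.sqrt (α * β)) := by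
  set c := β / α with hc
  have hc0 : 0 < c := div_pos hβ hα
  have hsplit : Set.Ioi (0 : ℝ) = Set.Ioc 0 c ∪ Set.Ioi c := (Set.Ioc_union_Ioi_eq_Ioi hc0.le).symm
  have hA : ∫⁻ s in Set.Ioc (0 : ℝ) c, E s ≤ ENNReal.ofReal (2 * Real.sqrt (α * β)) := by
    calc ∫⁻ s in Set.Ioc (0 : ℝ) c, E s
        ≤ ∫⁻ s in Set.Ioc (0 : ℝ) c, ENNReal.ofReal α * ENNReal.ofReal (1 / Real.sqrt s) := by
          refine setLIntegral_mono' measurableSet_Ioc fun s hs => ?_
          rw [← ENNReal.ofReal_mul hα.le, mul_one_div]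
          exact h1 s hs.1
      _ = ENNReal.ofReal (α * (2 * Real.sqrt c)) := by
          rw [lintegral_const_mul' _ _ ENNReal.ofReal_ne_top, lintegral_sqrt_inv c hc0,
            ENNReal.ofReal_mul hα.le]
      _ = ENNReal.ofReal (2 * Real.sqrt (α * β)) := by
          congr 1
          have : Real.sqrt (α * β) = α * Real.sqrt c := by
            rw [show α * β = α ^ 2 * c by rw [hc]; field_simp, Real.sqrt_mul (sq_nonneg α),
              Real.sqrt_sq hα.le]
          rw [this]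
          ring
  have hB : ∫⁻ s in Set.Ioi c, E s ≤ ENNReal.ofReal (2 * Real.sqrt (α * β)) := by
    calc ∫⁻ s in Set.Ioi c, E s
        ≤ ∫⁻ s in Set.Ioi c, ENNReal.ofReal β * ENNReal.ofReal (1 / (s * Real.sqrt s)) := by
          refine setLIntegral_mono' measurableSet_Ioi fun s hs => ?_
          rw [← ENNReal.ofReal_mul hβ.le, mul_one_div]
          exact h2 s (hc0.trans hs)
      _ = ENNReal.ofReal (β * (2 / Real.sqrt c)) := by
          rw [lintegral_const_mul' _ _ ENNReal.ofReal_ne_top, lintegral_pow_three_half c hc0,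
            ENNReal.ofReal_mul hβ.le]
      _ = ENNReal.ofReal (2 * Real.sqrt (α * β)) := by
          congr 1
          have hsc : 0 < Real.sqrt c := Real.sqrt_pos.2 hc0
          have : Real.sqrt (α * β) = β / Real.sqrt c := by
            rw [show α * β = β ^ 2 / c by rw [hc]; field_simp, Real.sqrt_div (sq_nonneg β),
              Real.sqrt_sq hβ.le]
          rw [this]
          ring
  calc ∫⁻ s in Set.Ioi (0 : ℝ), E s
      ≤ (∫⁻ s in Set.Ioc (0 : ℝ) c, E s) + ∫⁻ s in Set.Ioi c, E s := by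
        rw [hsplit]
        exact lintegral_union_le _ _ _
    _ ≤ ENNReal.ofReal (2 * Real.sqrt (α * β)) + ENNReal.ofReal (2 * Real.sqrt (α * β)) :=
        add_le_add hA hB
    _ = ENNReal.ofReal (4 * Real.sqrt (α * β)) := by
        rw [← ENNReal.ofReal_add (by positivity) (by positivity)]
        congr 1
        ring

theorem lintegral_weight_le {Ω : Type*} [MeasurableSpace Ω] (P : Measure Ω) [SFinite P]
    (χ : Ω → ℝ≥0∞) (hχ : Measurable χ) (Y : Ω → ℝ) (hY : Measurable Y) (hYpos : ∀ ω, 0 < Y ω)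
    (α β : ℝ) (hα : 0 < α) (hβ : 0 < β)
    (h1 : ∀ s, 0 < s → ∫⁻ ω, χ ω * ENNReal.ofReal (Real.exp (-(s * Y ω))) ∂P ≤
      ENNReal.ofReal (α / Real.sqrt s))
    (h2 : ∀ s, 0 < s → ∫⁻ ω, χ ω * ENNReal.ofReal (Real.exp (-(s * Y ω))) ∂P ≤
      ENNReal.ofReal (β / (s * Real.sqrt s))) :
    ∫⁻ ω, χ ω * ENNReal.ofReal (1 / Y ω) ∂P ≤ ENNReal.ofReal (4 * Real.sqrt (α * β)) := by
  have hm : Measurable (fun p : Ω × ℝ => χ p.1 * ENNReal.ofReal (Real.exp (-(p.2 * Y p.1)))) :=
    (hχ.comp measurable_fst).mul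
      ((measurable_snd.mul (hY.comp measurable_fst)).neg.exp.ennreal_ofReal)
  calc ∫⁻ ω, χ ω * ENNReal.ofReal (1 / Y ω) ∂P
      = ∫⁻ ω, (∫⁻ s in Set.Ioi (0 : ℝ), χ ω * ENNReal.ofReal (Real.exp (-(s * Y ω)))) ∂P := by
        refine lintegral_congr fun ω => ?_
        rw [← lintegral_exp_Ioi (Y ω) (hYpos ω), lintegral_const_mul]
        exact (measurable_id.mul_const _).neg.exp.ennreal_ofReal
    _ = ∫⁻ s in Set.Ioi (0 : ℝ), ∫⁻ ω, χ ω * ENNReal.ofReal (Real.exp (-(s * Y ω))) ∂P := by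
        rw [lintegral_lintegral_swap]
        exact hm.aemeasurable
    _ ≤ ENNReal.ofReal (4 * Real.sqrt (α * β)) := lintegral_min_le α β hα hβ _ h1 h2

end Pool.Agent.SMin

end

section

/-!
The analytic row lemma.
-/

open MeasureTheory Matrix ProbabilityTheory
open scoped ENNReal NNReal

namespace Pool.Agent.SMin

/-- Small ball estimate for a quadratic form and an orthogonal linear form, with constant `C`. -/
def QSB (μ : Measure ℝ) (C : ℝ≥0) : Prop :=
  ∀ (ι : Type) [Fintype ι] [DecidableEq ι] (Θ : Matrix ι ι ℝ) (v m : ι → ℝ) (x g : ℝ),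
    Θ.PosSemidef → v ⬝ᵥ v = 1 → Θ *ᵥ v = 0 → 0 < x → 0 < g →
    ENNReal.ofReal (tflat Θ) *
      ∫⁻ a, ENNReal.ofReal (Real.exp (-(((m + a) ⬝ᵥ v) ^ 2 / x ^ 2) -
        ((m + a) ⬝ᵥ (Θ *ᵥ (m + a))) / g)) ∂(Measure.pi fun _ : ι => μ)
      ≤ C * ENNReal.ofReal (x * g)

/-- The weight `χ` times a function of the linear form has density at most `D`. -/
def LinDens {ι : Type} [Fintype ι] (μ : Measure ℝ) (v m : ι → ℝ) (χ : (ι → ℝ) → ℝ≥0∞) (D : ℝ) :
    Prop :=
  ∀ H : ℝ → ℝ≥0∞, Measurable H →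
    ∫⁻ a, χ a * H ((m + a) ⬝ᵥ v) ∂(Measure.pi fun _ : ι => μ) ≤ ENNReal.ofReal D * ∫⁻ x, H x

/-- The denominator. -/
noncomputable def Yden {ι : Type} [Fintype ι] (Θ : Matrix ι ι ℝ) (v m : ι → ℝ) (ε : ℝ)
    (a : ι → ℝ) : ℝ :=
  1 + (m + a) ⬝ᵥ (Θ *ᵥ (m + a)) + ((m + a) ⬝ᵥ v) ^ 2 / ε ^ 2

section Row

variable {μ : Measure ℝ} {K : ℝ≥0} {ι : Type} [Fintype ι] [DecidableEq ι]

theorem le_ofReal_div_of_mul_le {T B : ℝ} (hT : 0 < T) {I : ℝ≥0∞}
    (h : ENNReal.ofReal T * I ≤ ENNReal.ofReal B) : I ≤ ENNReal.ofReal (B / T) := by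
  rw [ENNReal.ofReal_div_of_pos hT, ENNReal.le_div_iff_mul_le
    (Or.inl (ENNReal.ofReal_pos.2 hT).ne') (Or.inl ENNReal.ofReal_ne_top), mul_comm]
  exact h

omit [DecidableEq ι] in
theorem add_dot (m a v : ι → ℝ) : (m + a) ⬝ᵥ v = m ⬝ᵥ v + v ⬝ᵥ a := by
  rw [add_dotProduct, dotProduct_comm a v]

omit [DecidableEq ι] in
theorem measurable_lin (m v : ι → ℝ) : Measurable (fun a : ι → ℝ => (m + a) ⬝ᵥ v) := by
  have : Continuous (fun a : ι → ℝ => (m + a) ⬝ᵥ v) := by fun_prop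
  exact this.measurable

omit [DecidableEq ι] in
theorem measurable_Yden (Θ : Matrix ι ι ℝ) (v m : ι → ℝ) (ε : ℝ) :
    Measurable (Yden Θ v m ε) := by
  unfold Yden
  exact (measurable_const.add (measurable_quad Θ m)).add
    (((measurable_lin m v).pow_const 2).div_const _)

omit [DecidableEq ι] in
theorem Yden_pos {Θ : Matrix ι ι ℝ} (hΘ : Θ.PosSemidef) (v m : ι → ℝ) (ε : ℝ) (a : ι → ℝ) :
    0 < Yden Θ v m ε a := by
  unfold Yden
  have := psd_nonneg hΘ (m + a)
  positivity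

omit [DecidableEq ι] in
theorem LinDens.mono {v m : ι → ℝ} {χ χ' : (ι → ℝ) → ℝ≥0∞} {D : ℝ} (h : LinDens μ v m χ D)
    (hle : ∀ a, χ' a ≤ χ a) : LinDens μ v m χ' D := by
  intro H hH
  refine le_trans (lintegral_mono fun a => ?_) (h H hH)
  gcongr
  exact hle a

omit [DecidableEq ι] in
theorem linDens_one [IsProbabilityMeasure μ] {C : ℝ≥0} (hD : DB μ 1 C) {v : ι → ℝ}
    (hv : v ⬝ᵥ v = 1) (m : ι → ℝ) : LinDens μ v m (fun _ => 1) C := by
  intro H hH
  have := lintegral_dot_le hD v (by rw [hv]; norm_num) (m ⬝ᵥ v) H hH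
  rw [hv, Real.sqrt_one, div_one] at this
  refine le_trans (le_of_eq ?_) this
  refine lintegral_congr fun a => ?_
  rw [one_mul, add_dot]

theorem linDens_quad (h : Law μ K) {C : ℝ≥0} (hD : DB μ 1 C) {v : ι → ℝ}
    (hv : v ⬝ᵥ v = 1) (hloc : ∀ j, v j ^ 2 ≤ 3 / 4) (m : ι → ℝ) {Θ : Matrix ι ι ℝ}
    (hΘ : Θ.PosSemidef) (χ : (ι → ℝ) → ℝ≥0∞) (c : ℝ) (hc : 0 < c)
    (hχ : ∀ a, χ a ≤ ENNReal.ofReal (4 / c * (a ⬝ᵥ (Θ *ᵥ a)))) :
    LinDens μ v m χ (16 * C * Θ.trace / c) := by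
  intro H hH
  have h1 := lintegral_quad_mul_le h hD v hv hloc hΘ (m ⬝ᵥ v) H hH
  have hm : Measurable (fun a : ι → ℝ =>
      ENNReal.ofReal (a ⬝ᵥ (Θ *ᵥ a)) * H (m ⬝ᵥ v + v ⬝ᵥ a)) :=
    (measurable_quad' Θ).ennreal_ofReal.mul
      (hH.comp (measurable_const.add (measurable_dot v)))
  calc ∫⁻ a, χ a * H ((m + a) ⬝ᵥ v) ∂(Measure.pi fun _ : ι => μ)
      ≤ ∫⁻ a, ENNReal.ofReal (4 / c) * (ENNReal.ofReal (a ⬝ᵥ (Θ *ᵥ a)) *
          H (m ⬝ᵥ v + v ⬝ᵥ a)) ∂(Measure.pi fun _ : ι => μ) := by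
        refine lintegral_mono fun a => ?_
        simp only
        rw [← mul_assoc, add_dot, ← ENNReal.ofReal_mul (by positivity)]
        gcongr
        exact hχ a
    _ = ENNReal.ofReal (4 / c) * ∫⁻ a, ENNReal.ofReal (a ⬝ᵥ (Θ *ᵥ a)) *
          H (m ⬝ᵥ v + v ⬝ᵥ a) ∂(Measure.pi fun _ : ι => μ) := lintegral_const_mul _ hm
    _ ≤ ENNReal.ofReal (4 / c) * (ENNReal.ofReal (4 * C * Θ.trace) * ∫⁻ x, H x) := by gcongr
    _ = ENNReal.ofReal (16 * C * Θ.trace / c) * ∫⁻ x, H x := by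
        rw [← mul_assoc, ← ENNReal.ofReal_mul (by positivity)]
        congr 2
        ring

omit [DecidableEq ι] in
/-- The bound from the linear form only. -/
theorem weight_lin {v m : ι → ℝ} {χ : (ι → ℝ) → ℝ≥0∞} {D : ℝ} (hD0 : 0 ≤ D)
    (h : LinDens μ v m χ D) {Θ : Matrix ι ι ℝ} (hΘ : Θ.PosSemidef) {ε : ℝ} (hε : 0 < ε)
    (s : ℝ) (hs : 0 < s) :
    ∫⁻ a, χ a * ENNReal.ofReal (Real.exp (-(s * Yden Θ v m ε a))) ∂(Measure.pi fun _ : ι => μ) ≤
      ENNReal.ofReal (D * Real.sqrt Real.pi * ε / Real.sqrt s) := by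
  have hb : 0 < s / ε ^ 2 := by positivity
  have h1 := h (fun x => ENNReal.ofReal (Real.exp (-(s / ε ^ 2 * x ^ 2)))) (by fun_prop)
  rw [lintegral_gauss _ hb, ← ENNReal.ofReal_mul hD0] at h1
  refine le_trans (lintegral_mono fun a => ?_) (h1.trans (le_of_eq ?_))
  · refine mul_le_mul' le_rfl (ENNReal.ofReal_le_ofReal (Real.exp_le_exp.2 ?_))
    have := psd_nonneg hΘ (m + a)
    unfold Yden
    have h2 : s / ε ^ 2 * ((m + a) ⬝ᵥ v) ^ 2 = s * (((m + a) ⬝ᵥ v) ^ 2 / ε ^ 2) := by ring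
    rw [h2]
    have h3 : 0 ≤ s * (1 + (m + a) ⬝ᵥ Θ *ᵥ (m + a)) := by positivity
    linarith
  · congr 1
    rw [show Real.pi / (s / ε ^ 2) = Real.pi * ε ^ 2 / s by field_simp, Real.sqrt_div
      (by positivity), Real.sqrt_mul Real.pi_pos.le, Real.sqrt_sq hε.le]
    ring

omit [DecidableEq ι] in
/-- The bound from the linear form when the quadratic form is at least `q`. -/
theorem weight_lin' {v m : ι → ℝ} {χ : (ι → ℝ) → ℝ≥0∞} {D : ℝ} (hD0 : 0 ≤ D)
    (h : LinDens μ v m χ D) {Θ : Matrix ι ι ℝ} {ε : ℝ} (hε : 0 < ε)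
    (q : ℝ) (hq : 0 < q) (hqχ : ∀ a, χ a ≠ 0 → q ≤ 1 + (m + a) ⬝ᵥ (Θ *ᵥ (m + a)))
    (s : ℝ) (hs : 0 < s) :
    ∫⁻ a, χ a * ENNReal.ofReal (Real.exp (-(s * Yden Θ v m ε a))) ∂(Measure.pi fun _ : ι => μ) ≤
      ENNReal.ofReal (D * Real.sqrt Real.pi * ε / q / (s * Real.sqrt s)) := by
  have hb : 0 < s / ε ^ 2 := by positivity
  have h1 := h (fun x => ENNReal.ofReal (1 / (s * q)) *
    ENNReal.ofReal (Real.exp (-(s / ε ^ 2 * x ^ 2)))) (by fun_prop)
  rw [lintegral_const_mul _ (by fun_prop), lintegral_gauss _ hb,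
    ← ENNReal.ofReal_mul (by positivity), ← ENNReal.ofReal_mul hD0] at h1
  refine le_trans (lintegral_mono fun a => ?_) (h1.trans (le_of_eq ?_))
  · by_cases hχa : χ a = 0
    · simp [hχa]
    gcongr
    rw [← ENNReal.ofReal_mul (by positivity)]
    refine ENNReal.ofReal_le_ofReal ?_
    have h2 := hqχ a hχa
    have h3 : Real.exp (-(s * Yden Θ v m ε a)) ≤
        Real.exp (-(s * q)) * Real.exp (-(s / ε ^ 2 * ((m + a) ⬝ᵥ v) ^ 2)) := by
      rw [← Real.exp_add]
      refine Real.exp_le_exp.2 ?_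
      unfold Yden
      have h4 : s / ε ^ 2 * ((m + a) ⬝ᵥ v) ^ 2 = s * (((m + a) ⬝ᵥ v) ^ 2 / ε ^ 2) := by ring
      rw [h4]
      nlinarith
    refine h3.trans ?_
    gcongr
    have hsq : 0 < s * q := by positivity
    rw [Real.exp_neg, ← one_div]
    refine one_div_le_one_div_of_le hsq ?_
    have := Real.add_one_le_exp (s * q)
    linarith
  · congr 1
    rw [show Real.pi / (s / ε ^ 2) = Real.pi * ε ^ 2 / s by field_simp, Real.sqrt_div
      (by positivity), Real.sqrt_mul Real.pi_pos.le, Real.sqrt_sq hε.le]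
    have : 0 < Real.sqrt s := Real.sqrt_pos.2 hs
    field_simp

/-- The bound from the quadratic form. -/
theorem weight_quad {C : ℝ≥0} (hQ : QSB μ C) {v m : ι → ℝ} (hv : v ⬝ᵥ v = 1)
    {χ : (ι → ℝ) → ℝ≥0∞} (hχ : ∀ a, χ a ≤ 1) {Θ : Matrix ι ι ℝ} (hΘ : Θ.PosSemidef)
    (hΘv : Θ *ᵥ v = 0) {ε : ℝ} (hε : 0 < ε) (hT : 0 < tflat Θ) (s : ℝ) (hs : 0 < s) :
    ∫⁻ a, χ a * ENNReal.ofReal (Real.exp (-(s * Yden Θ v m ε a))) ∂(Measure.pi fun _ : ι => μ) ≤
      ENNReal.ofReal (C * ε / tflat Θ / (s * Real.sqrt s)) := by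
  have hss : 0 < Real.sqrt s := Real.sqrt_pos.2 hs
  have h1 := hQ ι Θ v m (ε / Real.sqrt s) (1 / s) hΘ hv hΘv (by positivity) (by positivity)
  have h2 : ∫⁻ a, χ a * ENNReal.ofReal (Real.exp (-(s * Yden Θ v m ε a)))
        ∂(Measure.pi fun _ : ι => μ) ≤
      ∫⁻ a, ENNReal.ofReal (Real.exp (-(((m + a) ⬝ᵥ v) ^ 2 / (ε / Real.sqrt s) ^ 2) -
        ((m + a) ⬝ᵥ (Θ *ᵥ (m + a))) / (1 / s))) ∂(Measure.pi fun _ : ι => μ) := by
    refine lintegral_mono fun a => ?_
    calc χ a * ENNReal.ofReal (Real.exp (-(s * Yden Θ v m ε a)))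
        ≤ 1 * ENNReal.ofReal (Real.exp (-(s * Yden Θ v m ε a))) := by
          gcongr
          exact hχ a
      _ ≤ ENNReal.ofReal (Real.exp (-(((m + a) ⬝ᵥ v) ^ 2 / (ε / Real.sqrt s) ^ 2) -
        ((m + a) ⬝ᵥ (Θ *ᵥ (m + a))) / (1 / s))) := by
          rw [one_mul]
          refine ENNReal.ofReal_le_ofReal (Real.exp_le_exp.2 ?_)
          unfold Yden
          rw [div_pow, Real.sq_sqrt hs.le]
          have e1 : ((m + a) ⬝ᵥ v) ^ 2 / (ε ^ 2 / s) = s * (((m + a) ⬝ᵥ v) ^ 2 / ε ^ 2) := by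
            field_simp
          have e2 : ((m + a) ⬝ᵥ (Θ *ᵥ (m + a))) / (1 / s) = s * ((m + a) ⬝ᵥ (Θ *ᵥ (m + a))) := by
            field_simp
          rw [e1, e2]
          nlinarith
  refine h2.trans ?_
  have h3 : ENNReal.ofReal (C * ε / tflat Θ / (s * Real.sqrt s)) =
      ENNReal.ofReal (C * (ε / Real.sqrt s * (1 / s)) / tflat Θ) := by
    congr 1
    field_simp
  rw [h3]
  refine le_ofReal_div_of_mul_le hT (h1.trans (le_of_eq ?_))
  rw [ENNReal.ofReal_mul C.coe_nonneg, ENNReal.ofReal_coe_nnreal]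

end Row

end Pool.Agent.SMin

end
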