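import Mathlib
import Pool.Agent.Work.MP_b26df8_pr.Bd.B01
import Pool.Agent.Work.MP_b26df8_pr.Bd.B02

/-! Bundle of small proof modules (one section per former module). -/

section

/-!
Deterministic part of the assembly.
-/

open Matrix
open scoped ENNReal NNReal

namespace Pool.Agent.SMin

section Det

variable {ι : Type} [Fintype ι]

/-- Column `i` has no dominating entry. -/
def Nonloc (N : Matrix ι ι ℝ) (i : ι) : Prop := ∀ j, N j i ^ 2 ≤ 3 / 4 * colsq N i

/-- Entry `(j,i)` dominates column `i` and row `j`. -/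
def Dbl (N : Matrix ι ι ℝ) (i j : ι) : Prop :=
  3 / 4 * colsq N i < N j i ^ 2 ∧ 3 / 4 * colsq Nᵀ j < N j i ^ 2

theorem colsq_nonneg (N : Matrix ι ι ℝ) (i : ι) : 0 ≤ colsq N i :=
  Finset.sum_nonneg fun _ _ => sq_nonneg _

theorem hs_transpose (N : Matrix ι ι ℝ) : hs Nᵀ = hs N := by
  unfold hs colsq
  rw [Finset.sum_comm]
  rfl

open Classical in
theorem step0_aux (N : Matrix ι ι ℝ) :
    hs N ≤ 2 * ((∑ i, if Nonloc N i then colsq N i else 0) +
      (∑ j, if Nonloc Nᵀ j then colsq Nᵀ j else 0) +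
      ∑ i, ∑ j, if Dbl N i j then N j i ^ 2 else 0) := by
  set a : ι → ι → ℝ := fun i j => if 3 / 4 * colsq N i < N j i ^ 2 then N j i ^ 2 else 0 with ha
  have ha0 : ∀ i j, 0 ≤ a i j := by
    intro i j
    simp only [ha]
    split_ifs
    · positivity
    · exact le_rfl
  have hae : ∀ i j, a i j ≤ N j i ^ 2 := by
    intro i j
    simp only [ha]
    split_ifs
    · exact le_rfl
    · positivity
  -- first bound
  have h1 : ∀ i, 3 / 4 * colsq N i ≤ 3 / 4 * (if Nonloc N i then colsq N i else 0) + ∑ j, a i j := by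
    intro i
    by_cases hi : Nonloc N i
    · rw [if_pos hi]
      have := Finset.sum_nonneg fun j (_ : j ∈ Finset.univ) => ha0 i j
      linarith
    · rw [if_neg hi]
      unfold Nonloc at hi
      push Not at hi
      obtain ⟨j, hj⟩ := hi
      have h2 : a i j = N j i ^ 2 := by
        simp only [ha]
        rw [if_pos hj]
      have h3 := Finset.single_le_sum (f := fun j => a i j) (fun j _ => ha0 i j) (Finset.mem_univ j)
      linarith
  -- second bound
  have h2 : ∀ j, ∑ i, a i j ≤ (if Nonloc Nᵀ j then colsq Nᵀ j else 0) +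
      (∑ i, if Dbl N i j then N j i ^ 2 else 0) + 1 / 4 * colsq Nᵀ j := by
    intro j
    have hr : colsq Nᵀ j = ∑ i, N j i ^ 2 := rfl
    have hr0 := colsq_nonneg Nᵀ j
    have hd0 : ∀ i, 0 ≤ (if Dbl N i j then N j i ^ 2 else 0) := by
      intro i
      split_ifs
      · positivity
      · exact le_rfl
    by_cases hj : Nonloc Nᵀ j
    · rw [if_pos hj]
      have h3 : ∑ i, a i j ≤ ∑ i, N j i ^ 2 := Finset.sum_le_sum fun i _ => hae i j
      have h4 := Finset.sum_nonneg fun i (_ : i ∈ Finset.univ) => hd0 i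
      linarith
    · rw [if_neg hj]
      unfold Nonloc at hj
      push Not at hj
      obtain ⟨i0, hi0⟩ := hj
      rw [Matrix.transpose_apply] at hi0
      have h3 : ∑ i, a i j ≤ (∑ i, if Dbl N i j then N j i ^ 2 else 0) +
          ∑ i ∈ Finset.univ.erase i0, N j i ^ 2 := by
        rw [← Finset.add_sum_erase _ _ (Finset.mem_univ i0)]
        refine add_le_add ?_ (Finset.sum_le_sum fun i _ => hae i j)
        have h5 : a i0 j ≤ if Dbl N i0 j then N j i0 ^ 2 else 0 := by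
          by_cases hc : 3 / 4 * colsq N i0 < N j i0 ^ 2
          · have : Dbl N i0 j := ⟨hc, hi0⟩
            rw [if_pos this]
            exact hae i0 j
          · simp only [ha]
            rw [if_neg hc]
            exact hd0 i0
        refine h5.trans ?_
        exact Finset.single_le_sum (f := fun i => if Dbl N i j then N j i ^ 2 else 0)
          (fun i _ => hd0 i) (Finset.mem_univ i0)
      have h4 : ∑ i ∈ Finset.univ.erase i0, N j i ^ 2 = colsq Nᵀ j - N j i0 ^ 2 := by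
        rw [hr, ← Finset.add_sum_erase _ _ (Finset.mem_univ i0)]
        ring
      linarith
  have h3 : 3 / 4 * hs N ≤ 3 / 4 * (∑ i, if Nonloc N i then colsq N i else 0) +
      ∑ i, ∑ j, a i j := by
    unfold hs
    rw [Finset.mul_sum, Finset.mul_sum, ← Finset.sum_add_distrib]
    exact Finset.sum_le_sum fun i _ => h1 i
  have h4 : ∑ i, ∑ j, a i j ≤ (∑ j, if Nonloc Nᵀ j then colsq Nᵀ j else 0) +
      (∑ i, ∑ j, if Dbl N i j then N j i ^ 2 else 0) + 1 / 4 * hs N := by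
    rw [Finset.sum_comm (f := fun i j => a i j), Finset.sum_comm
      (f := fun i j => if Dbl N i j then N j i ^ 2 else 0), ← hs_transpose N]
    unfold hs
    rw [Finset.mul_sum, ← Finset.sum_add_distrib, ← Finset.sum_add_distrib]
    exact Finset.sum_le_sum fun j _ => h2 j
  have h5 : 0 ≤ ∑ i, (if Nonloc N i then colsq N i else 0) :=
    Finset.sum_nonneg fun i _ => by
      split_ifs
      · exact colsq_nonneg N i
      · exact le_rfl
  linarith

open Classical in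
/-- Truncated weight of a nonlocalised column. -/
noncomputable def Fr (ε : ℝ) (N : Matrix ι ι ℝ) (i : ι) : ℝ :=
  if Nonloc N i then min (colsq N i / hs N) (ε ^ 2 * colsq N i) else 0

open Classical in
/-- Truncated weight of a doubly dominating entry. -/
noncomputable def Fd (ε : ℝ) (N : Matrix ι ι ℝ) (i j : ι) : ℝ :=
  if Dbl N i j then min 1 (ε ^ 2 * N j i ^ 2) else 0

theorem hs_nonneg (N : Matrix ι ι ℝ) : 0 ≤ hs N :=
  Finset.sum_nonneg fun i _ => colsq_nonneg N i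

theorem Fr_nonneg (ε : ℝ) (N : Matrix ι ι ℝ) (i : ι) : 0 ≤ Fr ε N i := by
  unfold Fr
  split_ifs
  · have := colsq_nonneg N i
    have := hs_nonneg N
    exact le_min (by positivity) (by positivity)
  · exact le_rfl

theorem Fd_nonneg (ε : ℝ) (N : Matrix ι ι ℝ) (i j : ι) : 0 ≤ Fd ε N i j := by
  unfold Fd
  split_ifs
  · exact le_min (by positivity) (by positivity)
  · exact le_rfl

theorem sq_le_colsq (N : Matrix ι ι ℝ) (i j : ι) : N j i ^ 2 ≤ colsq N i :=
  Finset.single_le_sum (f := fun j => N j i ^ 2) (fun _ _ => sq_nonneg _) (Finset.mem_univ j)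

theorem colsq_le_hs (N : Matrix ι ι ℝ) (i : ι) : colsq N i ≤ hs N :=
  Finset.single_le_sum (f := fun i => colsq N i) (fun i _ => colsq_nonneg N i) (Finset.mem_univ i)

theorem step0 (ε : ℝ) (N : Matrix ι ι ℝ) (h : 1 ≤ ε ^ 2 * hs N) :
    1 ≤ 2 * ((∑ i, Fr ε N i) + (∑ j, Fr ε Nᵀ j) + ∑ i, ∑ j, Fd ε N i j) := by
  classical
  have hS : 0 < hs N := by
    rcases (hs_nonneg N).eq_or_lt with h0 | h0
    · rw [← h0, mul_zero] at h
      linarith
    · exact h0
  have hinv : 1 / hs N ≤ ε ^ 2 := by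
    rw [div_le_iff₀ hS]
    exact h
  have key := step0_aux N
  have h1 : ∀ i, (if Nonloc N i then colsq N i else 0) / hs N ≤ Fr ε N i := by
    intro i
    unfold Fr
    split_ifs
    · refine le_min le_rfl ?_
      rw [div_eq_mul_one_div, mul_comm]
      exact mul_le_mul_of_nonneg_right hinv (colsq_nonneg N i)
    · simp
  have h2 : ∀ j, (if Nonloc Nᵀ j then colsq Nᵀ j else 0) / hs N ≤ Fr ε Nᵀ j := by
    intro i
    unfold Fr
    rw [hs_transpose]
    split_ifs
    · refine le_min le_rfl ?_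
      rw [div_eq_mul_one_div, mul_comm]
      exact mul_le_mul_of_nonneg_right hinv (colsq_nonneg Nᵀ i)
    · simp
  have h3 : ∀ i j, (if Dbl N i j then N j i ^ 2 else 0) / hs N ≤ Fd ε N i j := by
    intro i j
    unfold Fd
    split_ifs
    · refine le_min ?_ ?_
      · rw [div_le_one hS]
        exact (sq_le_colsq N i j).trans (colsq_le_hs N i)
      · rw [div_eq_mul_one_div, mul_comm]
        exact mul_le_mul_of_nonneg_right hinv (sq_nonneg _)
    · simp
  have h4 : 1 ≤ 2 * ((∑ i, (if Nonloc N i then colsq N i else 0) / hs N) +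
      (∑ j, (if Nonloc Nᵀ j then colsq Nᵀ j else 0) / hs N) +
      ∑ i, ∑ j, (if Dbl N i j then N j i ^ 2 else 0) / hs N) := by
    simp_rw [← Finset.sum_div]
    rw [← add_div, ← add_div, mul_div_assoc', le_div_iff₀ hS, one_mul]
    exact key
  refine h4.trans ?_
  have e1 := Finset.sum_le_sum fun i (_ : i ∈ Finset.univ) => h1 i
  have e2 := Finset.sum_le_sum fun j (_ : j ∈ Finset.univ) => h2 j
  have e3 := Finset.sum_le_sum fun i (_ : i ∈ Finset.univ) =>
    Finset.sum_le_sum fun j (_ : j ∈ Finset.univ) => h3 i j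
  linarith

open Classical in
/-- At most one dominating entry in each column. -/
theorem budget (N : Matrix ι ι ℝ) (i : ι) :
    ∑ j, (if 3 / 4 * colsq N i < N j i ^ 2 then (1 : ℝ≥0∞) else 0) ≤ 1 := by
  by_cases h : ∃ j0, 3 / 4 * colsq N i < N j0 i ^ 2
  · obtain ⟨j0, hj0⟩ := h
    rw [Finset.sum_eq_single j0]
    · rw [if_pos hj0]
    · intro j _ hj
      rw [if_neg]
      intro hcon
      have h1 : N j i ^ 2 + N j0 i ^ 2 ≤ colsq N i := by
        unfold colsq
        rw [← Finset.sum_pair hj (f := fun j => N j i ^ 2)]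
        exact Finset.sum_le_sum_of_subset_of_nonneg (Finset.subset_univ _)
          fun _ _ _ => sq_nonneg _
      have := colsq_nonneg N i
      linarith
    · intro hcon
      exact absurd (Finset.mem_univ j0) hcon
  · push Not at h
    rw [Finset.sum_eq_zero]
    · simp
    · intro j _
      rw [if_neg (not_lt.2 (h j))]

theorem wnum_nonneg (N : Matrix ι ι ℝ) (i : ι) : 0 ≤ wnum N i := by
  unfold wnum colsq coldot
  refine Finset.sum_nonneg fun l _ => ?_
  have := Finset.sum_mul_sq_le_sq_mul_sq Finset.univ (fun j => N j i) (fun j => N j l)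
  linarith

theorem phi_nonneg (N : Matrix ι ι ℝ) (i : ι) : 0 ≤ phi N i := by
  unfold phi wtot
  have h1 := wnum_nonneg N i
  have h2 := Finset.sum_nonneg fun k (_ : k ∈ Finset.univ) => wnum_nonneg N k
  exact div_nonneg h1 (div_nonneg h2 (by norm_num))

theorem sum_phi_le (N : Matrix ι ι ℝ) : ∑ i, phi N i ≤ 2 := by
  unfold phi
  rw [← Finset.sum_div]
  have h : ∑ i, wnum N i = 2 * wtot N := by
    unfold wtot
    ring
  rw [h]
  by_cases h0 : wtot N = 0
  · rw [h0]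
    simp
  · rw [mul_div_assoc, div_self h0, mul_one]

theorem sum_phi_le_enn (N : Matrix ι ι ℝ) : ∑ i, ENNReal.ofReal (phi N i) ≤ 2 := by
  rw [← ENNReal.ofReal_sum_of_nonneg fun i _ => phi_nonneg N i]
  refine (ENNReal.ofReal_le_ofReal (sum_phi_le N)).trans ?_
  simp

/-- The event forces the inverse to be large. -/
theorem event_hs [DecidableEq ι] (B : Matrix ι ι ℝ) (hB : B.det ≠ 0) (x : ι → ℝ)
    (hx : ∑ i, x i ^ 2 = 1) (s : ℝ) (h : ∑ i, (B *ᵥ x) i ^ 2 ≤ s) : 1 ≤ s * hs B⁻¹ := by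
  have hu : IsUnit B.det := isUnit_iff_ne_zero.mpr hB
  have hxe : x = B⁻¹ *ᵥ (B *ᵥ x) := by
    rw [Matrix.mulVec_mulVec, Matrix.nonsing_inv_mul _ hu, Matrix.one_mulVec]
  set y := B *ᵥ x with hy
  have h1 : ∀ i, x i ^ 2 ≤ (∑ j, B⁻¹ i j ^ 2) * ∑ j, y j ^ 2 := by
    intro i
    have h2 : x i = ∑ j, B⁻¹ i j * y j := by
      conv_lhs => rw [hxe]
      rfl
    rw [h2]
    exact Finset.sum_mul_sq_le_sq_mul_sq Finset.univ (fun j => B⁻¹ i j) y
  have h2 : ∑ i, x i ^ 2 ≤ (∑ i, ∑ j, B⁻¹ i j ^ 2) * ∑ j, y j ^ 2 := by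
    rw [Finset.sum_mul]
    exact Finset.sum_le_sum fun i _ => h1 i
  have h3 : (∑ i, ∑ j, B⁻¹ i j ^ 2) = hs B⁻¹ := by
    unfold hs colsq
    rw [Finset.sum_comm]
  rw [h3, hx] at h2
  have h4 := hs_nonneg B⁻¹
  nlinarith

end Det

end Pool.Agent.SMin

end

section

/-!
A shifted iid matrix whose entries have a density is almost surely invertible.
-/

open MeasureTheory Matrix
open scoped ENNReal NNReal

namespace Pool.Agent.SMin

namespace DetAE

/-- A nonzero polynomial does not vanish almost everywhere for a product of atomless measures. -/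
theorem mv_ae (μ : Measure ℝ) [SigmaFinite μ] [NullSingletonClass μ] :
    ∀ (N : ℕ) (P : MvPolynomial (Fin N) ℝ), P ≠ 0 →
      ∀ᵐ x ∂(Measure.pi fun _ : Fin N => μ), MvPolynomial.eval x P ≠ 0 := by
  intro N
  induction N with
  | zero =>
    intro P hP
    refine Filter.Eventually.of_forall fun x => ?_
    rw [MvPolynomial.eq_C_of_isEmpty P] at hP ⊢
    rw [MvPolynomial.eval_C]
    intro h
    apply hP
    rw [h, MvPolynomial.C_0]
  | succ N ih =>
    intro P hP
    set Q := MvPolynomial.finSuccEquiv ℝ N P with hQ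
    have hQ0 : Q ≠ 0 := by
      rw [hQ]
      simpa using (MvPolynomial.finSuccEquiv ℝ N).injective.ne hP
    obtain ⟨i, hi⟩ : ∃ i, Q.coeff i ≠ 0 := by
      by_contra hcon
      push Not at hcon
      exact hQ0 (Polynomial.ext (by simpa using hcon))
    have h1 := ih (Q.coeff i) hi
    have hmp := measurePreserving_piFinSuccAbove (n := N) (α := fun _ => ℝ) (fun _ => μ) 0
    -- the statement on the product
    have h2 : ∀ᵐ z ∂(μ.prod (Measure.pi fun _ : Fin N => μ)),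
        Polynomial.eval z.1 (Polynomial.map (MvPolynomial.eval z.2) Q) ≠ 0 := by
      have hcont : Continuous fun z : ℝ × (Fin N → ℝ) =>
          Polynomial.eval z.1 (Polynomial.map (MvPolynomial.eval z.2) Q) := by
        have : (fun z : ℝ × (Fin N → ℝ) =>
          Polynomial.eval z.1 (Polynomial.map (MvPolynomial.eval z.2) Q)) =
          fun z => MvPolynomial.eval (Fin.cons z.1 z.2 : Fin (N + 1) → ℝ) P := by
          funext z
          rw [MvPolynomial.eval_eq_eval_mv_eval']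
        rw [this]
        have hc : Continuous fun z : ℝ × (Fin N → ℝ) => (Fin.cons z.1 z.2 : Fin (N + 1) → ℝ) := by
          refine continuous_pi fun j => ?_
          refine Fin.cases ?_ (fun k => ?_) j
          · simpa using continuous_fst
          · have hk : Continuous fun z : ℝ × (Fin N → ℝ) => z.2 k := by fun_prop
            simpa using hk
        exact (MvPolynomial.continuous_eval P).comp hc
      have hms : MeasurableSet {z : ℝ × (Fin N → ℝ) |
          Polynomial.eval z.1 (Polynomial.map (MvPolynomial.eval z.2) Q) ≠ 0} :=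
        (isOpen_ne_fun hcont continuous_const).measurableSet
      rw [← Measure.prod_swap, ae_map_iff measurable_swap.aemeasurable hms]
      have hms2 : MeasurableSet {x : (Fin N → ℝ) × ℝ |
          Polynomial.eval x.swap.1 (Polynomial.map (MvPolynomial.eval x.swap.2) Q) ≠ 0} :=
        measurable_swap hms
      rw [Measure.ae_prod_iff_ae_ae hms2]
      filter_upwards [h1] with s hs
      have hne : Polynomial.map (MvPolynomial.eval s) Q ≠ 0 := by
        intro h0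
        apply hs
        have := congrArg (fun R => Polynomial.coeff R i) h0
        simpa [Polynomial.coeff_map] using this
      have hfin : {y : ℝ | Polynomial.eval y (Polynomial.map (MvPolynomial.eval s) Q) = 0}.Finite := by
        have hr : {y : ℝ | Polynomial.eval y (Polynomial.map (MvPolynomial.eval s) Q) = 0} ⊆
            ↑(Polynomial.map (MvPolynomial.eval s) Q).roots.toFinset := by
          intro y hy
          have hy' : Polynomial.eval y (Polynomial.map (MvPolynomial.eval s) Q) = 0 := hy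
          simp only [Multiset.mem_toFinset, SetLike.mem_coe]
          rw [Polynomial.mem_roots hne]
          exact hy'
        exact (Finset.finite_toSet _).subset hr
      have h0 := hfin.measure_zero μ
      rw [ae_iff]
      have he : {a : ℝ | ¬Polynomial.eval (Prod.swap (s, a)).1
          (Polynomial.map (MvPolynomial.eval (Prod.swap (s, a)).2) Q) ≠ 0} =
          {y : ℝ | Polynomial.eval y (Polynomial.map (MvPolynomial.eval s) Q) = 0} := by
        ext y
        simp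
      rw [he]
      exact h0
    have h3 := hmp.quasiMeasurePreserving.ae h2
    filter_upwards [h3] with x hx
    have hx2 : x = (Fin.cons (x 0) (fun j => x (Fin.succ j)) : Fin (N + 1) → ℝ) :=
      (Fin.cons_self_tail x).symm
    rw [hx2, MvPolynomial.eval_eq_eval_mv_eval']
    exact hx

/-- The same over an arbitrary finite index type. -/
theorem mv_ae' (μ : Measure ℝ) [SigmaFinite μ] [NullSingletonClass μ] {ι : Type} [Fintype ι]
    (P : MvPolynomial ι ℝ) (hP : P ≠ 0) :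
    ∀ᵐ x ∂(Measure.pi fun _ : ι => μ), MvPolynomial.eval x P ≠ 0 := by
  classical
  set e := Fintype.equivFin ι with he
  have h1 := mv_ae μ (Fintype.card ι) (MvPolynomial.rename e P)
    (by simpa using (MvPolynomial.rename_injective e e.injective).ne hP)
  have hmp := measurePreserving_piCongrLeft (α := fun _ : Fin (Fintype.card ι) => ℝ)
    (fun _ => μ) e
  have h3 := hmp.quasiMeasurePreserving.ae h1
  filter_upwards [h3] with x hx
  rw [MvPolynomial.eval_rename] at hx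
  have hxe : (MeasurableEquiv.piCongrLeft (fun _ : Fin (Fintype.card ι) => ℝ) e) x ∘ e = x := by
    funext i
    simp [MeasurableEquiv.coe_piCongrLeft, Equiv.piCongrLeft_apply_apply]
  rw [hxe] at hx
  exact hx

end DetAE

/-- A shifted matrix with iid entries having a density is almost surely invertible. -/
theorem det_ne_zero_ae (μ : Measure ℝ) (K : ℝ≥0) (h : Law μ K) (n : ℕ)
    (M : Matrix (Fin n) (Fin n) ℝ) :
    ∀ᵐ ω ∂(Measure.pi fun _ : Fin n × Fin n => μ),
      (Matrix.of (fun i j => ω (i, j)) + M).det ≠ 0 := by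
  have := h.prob
  have hna : NullSingletonClass μ := by
    refine ⟨fun x => ?_⟩
    have h1 := h.dens {x}
    rw [Measure.smul_apply, Real.volume_singleton, smul_zero] at h1
    exact le_antisymm h1 zero_le
  let A : Matrix (Fin n) (Fin n) (MvPolynomial (Fin n × Fin n) ℝ) :=
    Matrix.of fun i j => MvPolynomial.X (i, j) + MvPolynomial.C (M i j)
  have hev : ∀ ω : Fin n × Fin n → ℝ, MvPolynomial.eval ω A.det =
      (Matrix.of (fun i j => ω (i, j)) + M).det := by
    intro ω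
    rw [RingHom.map_det]
    congr 1
    ext i j
    simp [A]
  have hA : A.det ≠ 0 := by
    intro h0
    have h1 := hev (fun ij => (1 - M : Matrix (Fin n) (Fin n) ℝ) ij.1 ij.2)
    rw [h0, map_zero] at h1
    have h2 : (Matrix.of (fun i j => (1 - M : Matrix (Fin n) (Fin n) ℝ) (i, j).1 (i, j).2) + M) =
        1 := by
      ext i j
      simp
    rw [h2, det_one] at h1
    exact zero_ne_one h1
  filter_upwards [DetAE.mv_ae' μ A.det hA] with ω hω
  rw [hev] at hω
  exact hω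

/-- The entries of the inverse are measurable functions of the entries. -/
theorem measurable_inv_entry {ι : Type} [Fintype ι] [DecidableEq ι] (M : Matrix ι ι ℝ) (i j : ι) :
    Measurable (fun ω : ι × ι → ℝ => ((Matrix.of (fun k l => ω (k, l)) + M)⁻¹) i j) := by
  have hc : Continuous fun ω : ι × ι → ℝ => (Matrix.of (fun k l => ω (k, l)) + M) := by
    refine continuous_matrix fun k l => ?_
    simp only [Matrix.add_apply, Matrix.of_apply]
    fun_prop
  have h1 : Measurable fun ω : ι × ι → ℝ => (Matrix.of (fun k l => ω (k, l)) + M).det :=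
    hc.matrix_det.measurable
  have h2 : Measurable fun ω : ι × ι → ℝ =>
      (Matrix.of (fun k l => ω (k, l)) + M).adjugate i j :=
    (hc.matrix_adjugate.matrix_elem i j).measurable
  have h3 : (fun ω : ι × ι → ℝ => ((Matrix.of (fun k l => ω (k, l)) + M)⁻¹) i j) =
      fun ω => ((Matrix.of (fun k l => ω (k, l)) + M).det)⁻¹ *
        (Matrix.of (fun k l => ω (k, l)) + M).adjugate i j := by
    funext ω
    rw [Matrix.inv_def, Matrix.smul_apply, Ring.inverse_eq_inv', smul_eq_mul]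
  rw [h3]
  exact h1.inv.mul h2

end Pool.Agent.SMin

end

section

/-!
Linear algebra: the inverse of a matrix as a function of one row and one column.
-/

open MeasureTheory Matrix
open scoped ENNReal NNReal

namespace Pool.Agent.SMin

/-- squared length of the wedge -/
noncomputable def wdg {ι : Type} [Fintype ι] (u v : ι → ℝ) : ℝ :=
  (∑ a, u a ^ 2) * (∑ a, v a ^ 2) - (∑ a, u a * v a) ^ 2

theorem wdg_lagrange {ι : Type} [Fintype ι] (u v : ι → ℝ) :
    2 * wdg u v = ∑ a, ∑ b, (u a * v b - u b * v a) ^ 2 := by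
  have h1 : ∑ a, ∑ b, (u a * v b - u b * v a) ^ 2 =
      ∑ a, ∑ b, (u a ^ 2 * v b ^ 2 + u b ^ 2 * v a ^ 2 - 2 * ((u a * v a) * (u b * v b))) := by
    refine Finset.sum_congr rfl fun a _ => Finset.sum_congr rfl fun b _ => ?_
    ring
  have h2 : ∑ a, ∑ b, u a ^ 2 * v b ^ 2 = (∑ a, u a ^ 2) * (∑ a, v a ^ 2) := by
    rw [Finset.sum_mul_sum]
  have h3 : ∑ a, ∑ b, u b ^ 2 * v a ^ 2 = (∑ a, u a ^ 2) * (∑ a, v a ^ 2) := by
    rw [Finset.sum_comm, Finset.sum_mul_sum]
  have h4 : ∑ a, ∑ b, (u a * v a) * (u b * v b) = (∑ a, u a * v a) ^ 2 := by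
    rw [sq, Finset.sum_mul_sum]
  rw [h1]
  simp only [Finset.sum_sub_distrib, Finset.sum_add_distrib, ← Finset.mul_sum] at h2 h3 h4 ⊢
  rw [wdg]
  linarith

theorem wdg_nonneg {ι : Type} [Fintype ι] (u v : ι → ℝ) : 0 ≤ wdg u v := by
  have := wdg_lagrange u v
  have h : 0 ≤ ∑ a, ∑ b, (u a * v b - u b * v a) ^ 2 :=
    Finset.sum_nonneg fun a _ => Finset.sum_nonneg fun b _ => sq_nonneg _
  linarith

theorem wdg_le {ι : Type} [Fintype ι] (u v : ι → ℝ) :
    wdg u v ≤ (∑ a, u a ^ 2) * (∑ a, v a ^ 2) := by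
  have := sq_nonneg (∑ a, u a * v a)
  rw [wdg]; linarith

theorem wdg_add_smul {ι : Type} [Fintype ι] (n g : ι → ℝ) (s : ℝ) :
    wdg n (fun a => g a + s * n a) = wdg n g := by
  have h := wdg_lagrange n (fun a => g a + s * n a)
  have h' := wdg_lagrange n g
  have : ∑ a, ∑ b, (n a * (g b + s * n b) - n b * (g a + s * n a)) ^ 2 =
      ∑ a, ∑ b, (n a * g b - n b * g a) ^ 2 :=
    Finset.sum_congr rfl fun a _ => Finset.sum_congr rfl fun b _ => by ring
  linarith

theorem wdg_pert {ι : Type} [Fintype ι] (p q n : ι → ℝ) (s t : ℝ) :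
    wdg (fun a => p a + s * n a) (fun a => q a + t * n a) ≤
      2 * wdg p q + 2 * ((∑ a, n a ^ 2) * ∑ a, (t * p a - s * q a) ^ 2) := by
  have h1 := wdg_lagrange (fun a => p a + s * n a) (fun a => q a + t * n a)
  have h2 := wdg_lagrange p q
  have h3 := wdg_lagrange n (fun a => t * p a - s * q a)
  have h4 := wdg_le n (fun a => t * p a - s * q a)
  have h5 : ∑ a, ∑ b, ((p a + s * n a) * (q b + t * n b) - (p b + s * n b) * (q a + t * n a)) ^ 2 ≤
      ∑ a, ∑ b, (2 * (p a * q b - p b * q a) ^ 2 +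
        2 * (n a * (t * p b - s * q b) - n b * (t * p a - s * q a)) ^ 2) := by
    refine Finset.sum_le_sum fun a _ => Finset.sum_le_sum fun b _ => ?_
    nlinarith [sq_nonneg ((p a * q b - p b * q a) +
      (n a * (t * p b - s * q b) - n b * (t * p a - s * q a)))]
  simp only [Finset.sum_add_distrib, ← Finset.mul_sum] at h5
  linarith

/-- sum over all pairs of `|z_l G_k - z_k G_l|²` -/
theorem sum_pair_sq {ι : Type} [Fintype ι] (G : Matrix ι ι ℝ) (z : ι → ℝ) :
    ∑ k, ∑ l, ∑ a, (z l * G a k - z k * G a l) ^ 2 =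
      2 * ((∑ l, z l ^ 2) * (∑ k, ∑ a, G a k ^ 2) - ∑ a, (∑ l, G a l * z l) ^ 2) := by
  have h1 : ∀ k l a, (z l * G a k - z k * G a l) ^ 2 =
      z l ^ 2 * G a k ^ 2 + z k ^ 2 * G a l ^ 2 - 2 * ((G a k * z k) * (G a l * z l)) := by
    intro k l a; ring
  have h2 : ∑ k, ∑ l, ∑ a, z l ^ 2 * G a k ^ 2 = (∑ l, z l ^ 2) * (∑ k, ∑ a, G a k ^ 2) := by
    rw [Finset.sum_mul_sum, Finset.sum_comm]
    refine Finset.sum_congr rfl fun a _ => Finset.sum_congr rfl fun b _ => ?_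
    rw [Finset.mul_sum]
  have h3 : ∑ k, ∑ l, ∑ a, z k ^ 2 * G a l ^ 2 = (∑ l, z l ^ 2) * (∑ k, ∑ a, G a k ^ 2) := by
    rw [Finset.sum_mul_sum]
    refine Finset.sum_congr rfl fun a _ => Finset.sum_congr rfl fun b _ => ?_
    rw [Finset.mul_sum]
  have h4 : ∑ k, ∑ l, ∑ a, (G a k * z k) * (G a l * z l) = ∑ a, (∑ l, G a l * z l) ^ 2 := by
    have : ∀ k, ∑ l, ∑ a, (G a k * z k) * (G a l * z l) =
        ∑ a, ∑ l, (G a k * z k) * (G a l * z l) := fun k => Finset.sum_comm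
    simp only [this]
    rw [Finset.sum_comm]
    refine Finset.sum_congr rfl fun a _ => ?_
    rw [sq, Finset.sum_mul_sum]
  simp only [h1, Finset.sum_sub_distrib, Finset.sum_add_distrib, ← Finset.mul_sum] at h2 h3 h4 ⊢
  rw [h2, h3, h4]
  ring


theorem wnum_eq {ι : Type} [Fintype ι] (N : Matrix ι ι ℝ) (i : ι) :
    wnum N i = ∑ l, wdg (fun a => N a i) (fun a => N a l) := rfl

theorem trace_gram {ι : Type} [Fintype ι] (G : Matrix ι ι ℝ) :
    (G * Gᵀ).trace = ∑ k, ∑ a, G a k ^ 2 := by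
  rw [Finset.sum_comm]
  simp only [Matrix.trace, Matrix.diag, Matrix.mul_apply, Matrix.transpose_apply, sq]

theorem trace_gram_sq {ι : Type} [Fintype ι] (G : Matrix ι ι ℝ) :
    ((G * Gᵀ) * (G * Gᵀ)).trace = ∑ k, ∑ l, (∑ a, G a k * G a l) ^ 2 := by
  have h : ((G * Gᵀ) * (G * Gᵀ)).trace = ((Gᵀ * G) * (Gᵀ * G)).trace := by
    rw [Matrix.mul_assoc, Matrix.trace_mul_comm, Matrix.mul_assoc, Matrix.mul_assoc,
      Matrix.mul_assoc]
  rw [h]
  simp only [Matrix.trace, Matrix.diag, Matrix.mul_apply, Matrix.transpose_apply, sq]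
  refine Finset.sum_congr rfl fun k _ => Finset.sum_congr rfl fun l _ => ?_
  congr 1
  exact Finset.sum_congr rfl fun a _ => mul_comm _ _

theorem sum_wdg_gram {ι : Type} [Fintype ι] (G : Matrix ι ι ℝ) (hτ : (G * Gᵀ).trace ≠ 0) :
    ∑ k, ∑ l, wdg (fun a => G a k) (fun a => G a l) =
      (G * Gᵀ).trace * tflat (G * Gᵀ) := by
  have h1 : (G * Gᵀ).trace * tflat (G * Gᵀ) =
      (G * Gᵀ).trace * (G * Gᵀ).trace - ((G * Gᵀ) * (G * Gᵀ)).trace := by
    rw [tflat]; field_simp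
  rw [h1, trace_gram_sq, trace_gram, Finset.sum_mul_sum]
  simp only [wdg, Finset.sum_sub_distrib]

theorem gram_quad {ι : Type} [Fintype ι] (G : Matrix ι ι ℝ) (hτ : (G * Gᵀ).trace ≠ 0)
    (a : ι → ℝ) :
    (∑ l, (Gᵀ *ᵥ a) l ^ 2) * (∑ k, ∑ b, G b k ^ 2) - ∑ b, (∑ l, G b l * (Gᵀ *ᵥ a) l) ^ 2 =
      (G * Gᵀ).trace * (a ⬝ᵥ (mflat (G * Gᵀ) *ᵥ a)) := by
  have h1 : ∑ l, (Gᵀ *ᵥ a) l ^ 2 = a ⬝ᵥ ((G * Gᵀ) *ᵥ a) := by
    rw [← Matrix.mulVec_mulVec, Matrix.dotProduct_mulVec, ← Matrix.mulVec_transpose]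
    simp only [dotProduct, sq]
  have h2 : ∑ b, (∑ l, G b l * (Gᵀ *ᵥ a) l) ^ 2 = a ⬝ᵥ (((G * Gᵀ) * (G * Gᵀ)) *ᵥ a) := by
    rw [← Matrix.mulVec_mulVec, Matrix.dotProduct_mulVec a (G * Gᵀ),
      ← Matrix.mulVec_transpose, Matrix.transpose_mul, Matrix.transpose_transpose,
      ← Matrix.mulVec_mulVec]
    simp only [dotProduct, sq, Matrix.mulVec]
  have h3 : (G * Gᵀ).trace * (a ⬝ᵥ (mflat (G * Gᵀ) *ᵥ a)) =
      (G * Gᵀ).trace * (a ⬝ᵥ ((G * Gᵀ) *ᵥ a)) - a ⬝ᵥ (((G * Gᵀ) * (G * Gᵀ)) *ᵥ a) := by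
    rw [mflat, Matrix.sub_mulVec, dotProduct_sub, Matrix.smul_mulVec, dotProduct_smul, mul_sub,
      smul_eq_mul, mul_inv_cancel_left₀ hτ]
  rw [h3, h1, h2, trace_gram]
  ring

theorem wnum_nonneg' {ι : Type} [Fintype ι] (N : Matrix ι ι ℝ) (i : ι) : 0 ≤ wnum N i :=
  Finset.sum_nonneg fun _ _ => wdg_nonneg _ _

/-- The bound for the second-level weight, abstract form. -/
theorem phi_bound {ι : Type} [Fintype ι] [DecidableEq ι] (G N : Matrix ι ι ℝ) (i j : ι)
    (a w : ι → ℝ) (y : ℝ) (hy : y ≠ 0) (hGj : ∀ l, G j l = 0) (hGi : ∀ k, G k i = 0)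
    (hτ : 0 < (G * Gᵀ).trace) (hwj : w j = 0) (hw : w ⬝ᵥ w ≤ 1 / 3)
    (hN : ∀ k l, N k l = G k l + y * ((Pi.single j 1 : ι → ℝ) k - w k) *
      ((Pi.single i 1 : ι → ℝ) l - (Gᵀ *ᵥ a) l)) :
    1 / (1 + tflat (G * Gᵀ) * (1 / y) ^ 2 +
      8 / 3 * (a ⬝ᵥ (mflat (G * Gᵀ) *ᵥ a))) ≤ phi N i := by
  set z := Gᵀ *ᵥ a with hz
  have hzi : z i = 0 := by
    simp [hz, Matrix.mulVec, dotProduct, hGi]
  have hNi : ∀ k, N k i = y * ((Pi.single j 1 : ι → ℝ) k - w k) := by
    intro k; rw [hN, hGi, hzi]; simp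
  have hNl : ∀ k l, N k l = G k l + ((Pi.single i 1 : ι → ℝ) l - z l) * N k i := by
    intro k l; rw [hN, hNi]; ring
  -- squared length of column `i`
  have hcol : ∑ k, N k i ^ 2 = y ^ 2 * (1 + w ⬝ᵥ w) := by
    have : ∀ k, N k i ^ 2 = y ^ 2 * ((Pi.single j 1 : ι → ℝ) k -
        2 * ((Pi.single j 1 : ι → ℝ) k * w k) + w k * w k) := by
      intro k
      rw [hNi]
      by_cases hk : k = j
      · subst hk; simp [hwj]
      · simp [Pi.single_apply, hk]; ring
    simp only [this, ← Finset.mul_sum, Finset.sum_add_distrib, Finset.sum_sub_distrib]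
    simp [dotProduct, Pi.single_apply, hwj]
  have hww : 0 ≤ w ⬝ᵥ w := by
    simp only [dotProduct]; exact Finset.sum_nonneg fun _ _ => mul_self_nonneg _
  have hy2 : 0 < y ^ 2 := by positivity
  -- lower bound for wnum
  have hlow : y ^ 2 * (G * Gᵀ).trace ≤ wnum N i := by
    rw [wnum_eq, trace_gram, Finset.mul_sum]
    refine Finset.sum_le_sum fun l _ => ?_
    have e1 : (fun b => N b l) = fun b => (fun b => G b l) b +
        ((Pi.single i 1 : ι → ℝ) l - z l) * (fun b => N b i) b := by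
      funext b; exact hNl b l
    rw [e1, wdg_add_smul, wdg]
    have e2 : ∑ b, N b i * G b l = -y * ∑ b, w b * G b l := by
      rw [Finset.mul_sum]
      have : ∀ b, N b i * G b l = y * ((Pi.single j 1 : ι → ℝ) b * G b l) +
          -y * (w b * G b l) := by
        intro b; rw [hNi]; ring
      simp only [this, Finset.sum_add_distrib, ← Finset.mul_sum]
      simp [Pi.single_apply, hGj]
    have e3 : (∑ b, w b * G b l) ^ 2 ≤ (w ⬝ᵥ w) * ∑ b, G b l ^ 2 := by
      have := Finset.sum_mul_sq_le_sq_mul_sq Finset.univ w (fun b => G b l)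
      simpa [dotProduct, sq] using this
    rw [hcol, e2]
    have : (-y * ∑ b, w b * G b l) ^ 2 = y ^ 2 * (∑ b, w b * G b l) ^ 2 := by ring
    rw [this]
    nlinarith
  -- upper bound for wtot
  have hup : wtot N ≤ wnum N i + (G * Gᵀ).trace * tflat (G * Gᵀ) +
      8 / 3 * y ^ 2 * ((G * Gᵀ).trace * (a ⬝ᵥ (mflat (G * Gᵀ) *ᵥ a))) := by
    have key : ∀ k l, wdg (fun b => N b k) (fun b => N b l) ≤
        (if k = i then wdg (fun b => N b i) (fun b => N b l) else 0) +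
        (if l = i then wdg (fun b => N b i) (fun b => N b k) else 0) +
        2 * wdg (fun b => G b k) (fun b => G b l) +
        2 * ((∑ b, N b i ^ 2) * ∑ b, (z l * G b k - z k * G b l) ^ 2) := by
      intro k l
      have p1 := wdg_nonneg (fun b => N b i) (fun b => N b l)
      have p2 := wdg_nonneg (fun b => N b i) (fun b => N b k)
      have p3 := wdg_nonneg (fun b => G b k) (fun b => G b l)
      have p4 : 0 ≤ (∑ b, N b i ^ 2) * ∑ b, (z l * G b k - z k * G b l) ^ 2 :=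
        mul_nonneg (Finset.sum_nonneg fun _ _ => sq_nonneg _)
          (Finset.sum_nonneg fun _ _ => sq_nonneg _)
      by_cases hk : k = i
      · subst hk
        rw [if_pos rfl]
        split_ifs <;> linarith
      · by_cases hl : l = i
        · subst hl
          rw [if_neg hk, if_pos rfl]
          have : wdg (fun b => N b k) (fun b => N b l) = wdg (fun b => N b l) (fun b => N b k) := by
            simp only [wdg]
            have : ∀ b, N b k * N b l = N b l * N b k := fun b => mul_comm _ _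
            simp only [this]; ring
          linarith
        · rw [if_neg hk, if_neg hl]
          have e1 : (fun b => N b k) = fun b => (fun b => G b k) b + (-z k) * (fun b => N b i) b := by
            funext b; simp only; rw [hNl b k]; simp [Pi.single_apply, hk]
          have e2 : (fun b => N b l) = fun b => (fun b => G b l) b + (-z l) * (fun b => N b i) b := by
            funext b; simp only; rw [hNl b l]; simp [Pi.single_apply, hl]
          have := wdg_pert (fun b => G b k) (fun b => G b l) (fun b => N b i) (-z k) (-z l)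
          rw [← e1, ← e2] at this
          have e3 : ∑ b, (-z l * G b k - -z k * G b l) ^ 2 =
              ∑ b, (z l * G b k - z k * G b l) ^ 2 :=
            Finset.sum_congr rfl fun b _ => by ring
          rw [e3] at this
          linarith
    have hs1 : ∑ k, wnum N k ≤ ∑ k, ∑ l,
        ((if k = i then wdg (fun b => N b i) (fun b => N b l) else 0) +
        (if l = i then wdg (fun b => N b i) (fun b => N b k) else 0) +
        2 * wdg (fun b => G b k) (fun b => G b l) +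
        2 * ((∑ b, N b i ^ 2) * ∑ b, (z l * G b k - z k * G b l) ^ 2)) := by
      refine Finset.sum_le_sum fun k _ => ?_
      rw [wnum_eq]
      exact Finset.sum_le_sum fun l _ => key k l
    have hs2 : ∑ k, ∑ l, (if k = i then wdg (fun b => N b i) (fun b => N b l) else 0) =
        wnum N i := by
      rw [Finset.sum_comm]
      simp [wnum_eq]
    have hs3 : ∑ k, ∑ l, (if l = i then wdg (fun b => N b i) (fun b => N b k) else 0) =
        wnum N i := by
      simp [wnum_eq]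
    have hs4 := sum_wdg_gram G hτ.ne'
    have hs5 := sum_pair_sq G z
    have hs6 := gram_quad G hτ.ne' a
    rw [← hz] at hs6
    simp only [Finset.sum_add_distrib, ← Finset.mul_sum] at hs1 hs2 hs3 hs4 hs5
    rw [hs2, hs3, hs4, hs5, hs6, hcol] at hs1
    have hM : 0 ≤ (G * Gᵀ).trace * (a ⬝ᵥ (mflat (G * Gᵀ) *ᵥ a)) := by
      have : 0 ≤ ∑ k, ∑ l, ∑ b, (z l * G b k - z k * G b l) ^ 2 :=
        Finset.sum_nonneg fun _ _ => Finset.sum_nonneg fun _ _ =>
          Finset.sum_nonneg fun _ _ => sq_nonneg _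
      rw [sum_pair_sq, hz, gram_quad G hτ.ne' a] at this
      linarith
    have : y ^ 2 * (1 + w ⬝ᵥ w) * ((G * Gᵀ).trace * (a ⬝ᵥ (mflat (G * Gᵀ) *ᵥ a))) ≤
        4 / 3 * y ^ 2 * ((G * Gᵀ).trace * (a ⬝ᵥ (mflat (G * Gᵀ) *ᵥ a))) := by
      apply mul_le_mul_of_nonneg_right _ hM
      nlinarith
    rw [wtot]
    linarith
  -- nonnegativity
  have hT : 0 ≤ tflat (G * Gᵀ) := by
    have h := sum_wdg_gram G hτ.ne'
    have h' : 0 ≤ ∑ k, ∑ l, wdg (fun a => G a k) (fun a => G a l) :=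
      Finset.sum_nonneg fun _ _ => Finset.sum_nonneg fun _ _ => wdg_nonneg _ _
    rw [h] at h'
    exact nonneg_of_mul_nonneg_right h' hτ
  have hM : 0 ≤ a ⬝ᵥ (mflat (G * Gᵀ) *ᵥ a) := by
    have : 0 ≤ ∑ k, ∑ l, ∑ b, (z l * G b k - z k * G b l) ^ 2 :=
      Finset.sum_nonneg fun _ _ => Finset.sum_nonneg fun _ _ =>
        Finset.sum_nonneg fun _ _ => sq_nonneg _
    rw [sum_pair_sq, hz, gram_quad G hτ.ne' a] at this
    have h' : 0 ≤ (G * Gᵀ).trace * (a ⬝ᵥ (mflat (G * Gᵀ) *ᵥ a)) := by linarith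
    exact nonneg_of_mul_nonneg_right h' hτ
  have hwn : 0 < wnum N i := lt_of_lt_of_le (by positivity) hlow
  have hwt : 0 < wtot N := by
    rw [wtot]
    have : wnum N i ≤ ∑ k, wnum N k :=
      Finset.single_le_sum (fun k _ => wnum_nonneg' N k) (Finset.mem_univ i)
    linarith
  rw [phi, div_le_div_iff₀ (by positivity) hwt, one_mul]
  set τ := (G * Gᵀ).trace
  set T := tflat (G * Gᵀ)
  set M := a ⬝ᵥ (mflat (G * Gᵀ) *ᵥ a)
  have h1 : τ * T ≤ wnum N i * (T * (1 / y) ^ 2) := by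
    have : τ * T = (y ^ 2 * τ) * (T * (1 / y) ^ 2) := by field_simp
    rw [this]
    exact mul_le_mul_of_nonneg_right hlow (by positivity)
  have h2 : 8 / 3 * y ^ 2 * (τ * M) ≤ wnum N i * (8 / 3 * M) := by
    have : 8 / 3 * y ^ 2 * (τ * M) = (y ^ 2 * τ) * (8 / 3 * M) := by ring
    rw [this]
    exact mul_le_mul_of_nonneg_right hlow (by positivity)
  nlinarith

theorem pair_formula {ι : Type} [Fintype ι] [DecidableEq ι] (B₀ : Matrix ι ι ℝ) (i j : ι)
    (hcard : 2 ≤ Fintype.card ι)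
    (hB : ((B₀.updateRow i (Pi.single j 1)).updateCol j (Pi.single i 1)).det ≠ 0) :
    ∃ G : Matrix ι ι ℝ, (∀ l, G j l = 0) ∧ (∀ k, G k i = 0) ∧
      ∀ B : Matrix ι ι ℝ, (∀ k l, k ≠ i → l ≠ j → B k l = B₀ k l) →
        let w := G *ᵥ (fun k => B k j)
        let z := Gᵀ *ᵥ (fun l => B i l)
        let bs := (fun l => B i l) ⬝ᵥ w
        (B i j = bs → B.det = 0) ∧
        (B i j ≠ bs → B.det ≠ 0 ∧
          (∀ k, B⁻¹ k i = ((Pi.single j 1 : ι → ℝ) k - w k) / (B i j - bs)) ∧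
          (∀ l, B⁻¹ j l = ((Pi.single i 1 : ι → ℝ) l - z l) / (B i j - bs)) ∧
          (w ⬝ᵥ w ≤ 1 / 3 →
            1 / (1 + tflat (G * Gᵀ) * (B i j - bs) ^ 2 +
              8 / 3 * ((fun l => B i l) ⬝ᵥ (mflat (G * Gᵀ) *ᵥ (fun l => B i l)))) ≤
              phi B⁻¹ i)) := by
  set Bh := (B₀.updateRow i (Pi.single j 1)).updateCol j (Pi.single i 1) with hBh
  have hu : IsUnit Bh.det := isUnit_iff_ne_zero.mpr hB
  have hR : Bh * Bh⁻¹ = 1 := Matrix.mul_nonsing_inv _ hu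
  have hL : Bh⁻¹ * Bh = 1 := Matrix.nonsing_inv_mul _ hu
  have hrow : ∀ l, Bh i l = (Pi.single j 1 : ι → ℝ) l := by
    intro l
    rw [hBh, Matrix.updateCol_apply, Matrix.updateRow_apply]
    by_cases h : l = j
    · subst h; simp
    · simp [h]
  have hcol : ∀ k, Bh k j = (Pi.single i 1 : ι → ℝ) k := by
    intro k; rw [hBh, Matrix.updateCol_apply]; simp
  have hoff : ∀ k l, k ≠ i → l ≠ j → Bh k l = B₀ k l := by
    intro k l hk hl
    rw [hBh, Matrix.updateCol_apply, Matrix.updateRow_apply, if_neg hl, if_neg hk]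
  have hNj : ∀ l, Bh⁻¹ j l = (1 : Matrix ι ι ℝ) i l := by
    intro l
    have := congrFun (congrFun hR i) l
    rw [Matrix.mul_apply] at this
    simp only [hrow] at this
    simpa [Pi.single_apply] using this
  have hNi : ∀ k, Bh⁻¹ k i = (1 : Matrix ι ι ℝ) k j := by
    intro k
    have := congrFun (congrFun hL k) j
    rw [Matrix.mul_apply] at this
    simp only [hcol] at this
    simpa [Pi.single_apply] using this
  set G : Matrix ι ι ℝ := fun k l => Bh⁻¹ k l - if k = j ∧ l = i then 1 else 0 with hG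
  have hGj : ∀ l, G j l = 0 := by
    intro l
    simp only [hG, hNj, Matrix.one_apply]
    by_cases h : l = i
    · subst h; simp
    · simp [h, Ne.symm h]
  have hGi : ∀ k, G k i = 0 := by
    intro k
    simp only [hG, hNi, Matrix.one_apply]
    by_cases h : k = j <;> simp [h]
  have hmul : ∀ B : Matrix ι ι ℝ, (∀ k l, k ≠ i → l ≠ j → B k l = B₀ k l) →
      ∀ k l, k ≠ i → (B * G) k l = (1 : Matrix ι ι ℝ) k l := by
    intro B hB' k l hk
    have h1 := congrFun (congrFun hR k) l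
    rw [← h1, Matrix.mul_apply, Matrix.mul_apply]
    refine Finset.sum_congr rfl fun m _ => ?_
    by_cases hm : m = j
    · subst hm
      rw [hGj, hcol]
      simp [Pi.single_apply, hk]
    · rw [hB' k m hk hm, hoff k m hk hm]
      simp [hG, hm]
  have hτ : 0 < (G * Gᵀ).trace := by
    rw [trace_gram]
    have h0 : 0 ≤ ∑ k, ∑ a, G a k ^ 2 :=
      Finset.sum_nonneg fun _ _ => Finset.sum_nonneg fun _ _ => sq_nonneg _
    refine lt_of_le_of_ne h0 fun h => ?_
    have hz : ∀ k a, G a k = 0 := by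
      intro k a
      have h1 := (Finset.sum_eq_zero_iff_of_nonneg
        (fun k _ => Finset.sum_nonneg fun a _ => sq_nonneg (G a k))).mp h.symm k (Finset.mem_univ k)
      have h2 := (Finset.sum_eq_zero_iff_of_nonneg
        (fun a _ => sq_nonneg (G a k))).mp h1 a (Finset.mem_univ a)
      exact pow_eq_zero_iff (two_ne_zero) |>.mp h2
    haveI : Nontrivial ι := Fintype.one_lt_card_iff_nontrivial.mp (by omega)
    obtain ⟨k, hk⟩ := exists_ne i
    have h3 := hmul B₀ (fun _ _ _ _ => rfl) k k hk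
    rw [Matrix.mul_apply] at h3
    simp [hz] at h3
  refine ⟨G, hGj, hGi, fun B hB' => ?_⟩
  intro w z bs
  have hBG : ∀ k l, (B * G) k l = if k = i then z l else (1 : Matrix ι ι ℝ) k l := by
    intro k l
    by_cases hk : k = i
    · subst hk
      rw [if_pos rfl, Matrix.mul_apply]
      simp only [z, Matrix.mulVec, dotProduct, Matrix.transpose_apply]
      exact Finset.sum_congr rfl fun m _ => mul_comm _ _
    · rw [if_neg hk]; exact hmul B hB' k l hk
  have hwj : w j = 0 := by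
    simp [w, Matrix.mulVec, dotProduct, hGj]
  have hzi : z i = 0 := by
    simp [z, Matrix.mulVec, dotProduct, hGi]
  have hBw : B *ᵥ ((Pi.single j 1 : ι → ℝ) - w) =
      fun k => if k = i then B i j - bs else 0 := by
    have h1 : B *ᵥ w = fun k => if k = i then bs else B k j := by
      funext k
      by_cases hk : k = i
      · subst hk
        rw [if_pos rfl]
        simp only [bs, Matrix.mulVec]
      · rw [if_neg hk]
        simp only [w]
        rw [Matrix.mulVec_mulVec]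
        simp only [Matrix.mulVec, dotProduct, hBG, if_neg hk, Matrix.one_apply]
        simp
    rw [Matrix.mulVec_sub, h1, Matrix.mulVec_single_one]
    funext k
    simp only [Pi.sub_apply, Matrix.col_apply]
    by_cases hk : k = i
    · subst hk; simp
    · simp [hk]
  constructor
  · intro hb
    apply Matrix.exists_mulVec_eq_zero_iff.mp
    refine ⟨(Pi.single j 1 : ι → ℝ) - w, ?_, ?_⟩
    · intro h
      have := congrFun h j
      simp [hwj] at this
    · rw [hBw]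
      funext k
      simp [hb]
  · intro hb
    have hd : B i j - bs ≠ 0 := sub_ne_zero.mpr hb
    set N : Matrix ι ι ℝ := fun k l => G k l + (1 / (B i j - bs)) *
      ((Pi.single j 1 : ι → ℝ) k - w k) * ((Pi.single i 1 : ι → ℝ) l - z l) with hN
    have hBN : B * N = 1 := by
      ext k l
      rw [Matrix.mul_apply]
      have h1 : ∑ m, B k m * N m l = (B * G) k l +
          (1 / (B i j - bs)) * (B *ᵥ ((Pi.single j 1 : ι → ℝ) - w)) k *
            ((Pi.single i 1 : ι → ℝ) l - z l) := by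
        rw [Matrix.mul_apply]
        simp only [Matrix.mulVec, dotProduct, Pi.sub_apply]
        rw [Finset.mul_sum, Finset.sum_mul, ← Finset.sum_add_distrib]
        refine Finset.sum_congr rfl fun m _ => ?_
        simp only [hN]
        ring
      rw [h1, hBG, hBw]
      by_cases hk : k = i
      · subst hk
        have e1 : (fun k_1 => if k_1 = k then B k j - bs else 0) k = B k j - bs := if_pos rfl
        rw [if_pos rfl, e1, one_div, inv_mul_cancel₀ hd, one_mul]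
        simp [Matrix.one_apply, Pi.single_apply, eq_comm]
      · simp [hk]
    have hinv : B⁻¹ = N := Matrix.inv_eq_right_inv hBN
    refine ⟨?_, ?_, ?_, ?_⟩
    · intro h0
      have := congrArg Matrix.det hBN
      rw [Matrix.det_mul, h0, zero_mul, Matrix.det_one] at this
      exact zero_ne_one this
    · intro k
      rw [hinv]
      simp only [hN, hGi, hzi]
      simp
      ring
    · intro l
      rw [hinv]
      simp only [hN, hGj, hwj]
      simp
      ring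
    · intro hw
      rw [hinv]
      have := phi_bound G N i j (fun l => B i l) w (1 / (B i j - bs))
        (one_div_ne_zero hd) hGj hGi hτ hwj hw (fun k l => rfl)
      simpa using this

theorem pair_zero {ι : Type} [Fintype ι] [DecidableEq ι] (B : Matrix ι ι ℝ) (i j : ι)
    (hB : ((B.updateRow i (Pi.single j 1)).updateCol j (Pi.single i 1)).det = 0) :
    B⁻¹ j i = 0 := by
  have h1 : (B.updateRow i (Pi.single j 1)).det = 0 := by
    have h2 : (B.updateRow i (Pi.single j 1)).adjugate j i =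
        (B.updateRow i (Pi.single j 1)).det := by
      rw [Matrix.adjugate_apply, Matrix.updateRow_idem]
    have h3 : (B.updateRow i (Pi.single j 1)).adjugate j i =
        ((B.updateRow i (Pi.single j 1)).updateCol j (Pi.single i 1)).det := by
      have h4 : (B.updateRow i (Pi.single j 1)).adjugate j i =
          ((B.updateRow i (Pi.single j 1)).adjugate)ᵀ i j := rfl
      rw [h4, Matrix.adjugate_transpose, Matrix.adjugate_apply, Matrix.updateRow_transpose,
        Matrix.det_transpose]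
    rw [← h2, h3, hB]
  rw [Matrix.inv_def, Matrix.smul_apply, Matrix.adjugate_apply, h1, smul_zero]

end Pool.Agent.SMin

end

section

/-!
Linear algebra: the inverse of a matrix as a function of one row.
-/

set_option autoImplicit false

open MeasureTheory Matrix
open scoped ENNReal NNReal

namespace Pool.Agent.SMin

namespace RowF

variable {ι : Type} [Fintype ι]

/-- The candidate for the inverse. -/
noncomputable def cand (H : Matrix ι ι ℝ) (v y : ι → ℝ) (X : ℝ) : Matrix ι ι ℝ :=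
  Matrix.of fun j l => H j l + y l / X * v j

lemma colsq_cand (H : Matrix ι ι ℝ) (v y : ι → ℝ) (X : ℝ) (hv : ∑ j, v j * v j = 1)
    (hvH : ∀ l, ∑ j, v j * H j l = 0) (k l : ι) :
    coldot (cand H v y X) k l = (∑ j, H j k * H j l) + y k * y l / X ^ 2 := by
  unfold coldot cand
  simp only [Matrix.of_apply]
  have : ∀ j, (H j k + y k / X * v j) * (H j l + y l / X * v j) =
      H j k * H j l + y l / X * (v j * H j k) + y k / X * (v j * H j l) +
        (y k / X * (y l / X)) * (v j * v j) := by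
    intro j; ring
  simp only [this, Finset.sum_add_distrib, ← Finset.mul_sum, hv, hvH]
  ring

lemma colsq_eq (N : Matrix ι ι ℝ) (k : ι) : colsq N k = coldot N k k := by
  unfold colsq coldot
  exact Finset.sum_congr rfl fun j _ => by ring

lemma trace_HH (H : Matrix ι ι ℝ) : (H * Hᵀ).trace = ∑ l, ∑ j, H j l * H j l := by
  rw [Finset.sum_comm]
  simp [Matrix.trace, Matrix.mul_apply]

lemma trace_sq (H : Matrix ι ι ℝ) :
    ((H * Hᵀ) * (H * Hᵀ)).trace = ∑ k, ∑ l, (∑ j, H j k * H j l) ^ 2 := by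
  have h1 : ((H * Hᵀ) * (H * Hᵀ)).trace = ((Hᵀ * H) * (Hᵀ * H)).trace := by
    rw [Matrix.mul_assoc, Matrix.trace_mul_comm]
    simp [Matrix.mul_assoc]
  rw [h1]
  simp only [Matrix.trace, Matrix.diag_apply, Matrix.mul_apply, Matrix.transpose_apply]
  refine Finset.sum_congr rfl fun k _ => Finset.sum_congr rfl fun l _ => ?_
  rw [sq]
  congr 1
  exact Finset.sum_congr rfl fun j _ => by ring

lemma quad_HH (H : Matrix ι ι ℝ) (R : ι → ℝ) :
    R ⬝ᵥ ((H * Hᵀ) *ᵥ R) = ∑ l, (∑ j, R j * H j l) ^ 2 := by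
  rw [← Matrix.mulVec_mulVec, Matrix.dotProduct_mulVec]
  simp only [dotProduct, Matrix.vecMul, Matrix.mulVec, Matrix.transpose_apply]
  refine Finset.sum_congr rfl fun l _ => ?_
  rw [sq]
  congr 1
  exact Finset.sum_congr rfl fun j _ => by ring

lemma mulVec_HH (H : Matrix ι ι ℝ) (R : ι → ℝ) (j : ι) :
    ((H * Hᵀ) *ᵥ R) j = ∑ l, H j l * ∑ m, R m * H m l := by
  rw [← Matrix.mulVec_mulVec]
  simp only [Matrix.mulVec, dotProduct, Matrix.transpose_apply]
  refine Finset.sum_congr rfl fun l _ => ?_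
  congr 1
  exact Finset.sum_congr rfl fun j _ => by ring

end RowF

open RowF

/-- Row formulas: the rows of `B` other than row `i` are those of `B₀`. -/
theorem row_formula {ι : Type} [Fintype ι] [DecidableEq ι] (B₀ : Matrix ι ι ℝ) (i : ι)
    (hB₀ : B₀.det ≠ 0) :
    ∃ (v : ι → ℝ) (Θ : Matrix ι ι ℝ), v ⬝ᵥ v = 1 ∧ Θ.PosSemidef ∧ Θ *ᵥ v = 0 ∧
      ∀ B : Matrix ι ι ℝ, (∀ k, k ≠ i → ∀ l, B k l = B₀ k l) →
        (B i ⬝ᵥ v = 0 → B.det = 0) ∧
        (B i ⬝ᵥ v ≠ 0 →
          B.det ≠ 0 ∧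
          (∀ j, B⁻¹ j i = v j / (B i ⬝ᵥ v)) ∧
          hs B⁻¹ = Θ.trace + (1 + B i ⬝ᵥ (Θ *ᵥ B i)) / (B i ⬝ᵥ v) ^ 2 ∧
          (2 ≤ Fintype.card ι → phi B⁻¹ i =
            1 / (1 + (B i ⬝ᵥ v) ^ 2 * tflat Θ / 2 + B i ⬝ᵥ (mflat Θ *ᵥ B i)))) := by
  classical
  set N := B₀⁻¹ with hN
  have hunit : IsUnit B₀.det := isUnit_iff_ne_zero.mpr hB₀
  have hBN : B₀ * N = 1 := Matrix.mul_nonsing_inv _ hunit
  have hBNa : ∀ k l, ∑ j, B₀ k j * N j l = if k = l then 1 else 0 := by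
    intro k l
    have := congrFun (congrFun hBN k) l
    rwa [Matrix.mul_apply, Matrix.one_apply] at this
  set s : ℝ := ∑ j, N j i ^ 2 with hs
  have hs0 : 0 < s := by
    rcases (Finset.sum_nonneg fun j (_ : j ∈ Finset.univ) => sq_nonneg (N j i)).lt_or_eq with h | h
    · exact h
    · exfalso
      have h0 : ∀ j, N j i = 0 := by
        intro j
        have := (Finset.sum_eq_zero_iff_of_nonneg
          (fun j (_ : j ∈ Finset.univ) => sq_nonneg (N j i))).mp h.symm j (Finset.mem_univ j)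
        exact pow_eq_zero_iff (two_ne_zero) |>.mp this
      have := hBNa i i
      simp [h0] at this
  set r : ℝ := Real.sqrt s with hr
  have hr0 : 0 < r := Real.sqrt_pos.mpr hs0
  have hrr : r * r = s := Real.mul_self_sqrt hs0.le
  set v : ι → ℝ := fun j => N j i / r with hv
  have hv1 : ∑ j, v j * v j = 1 := by
    have : ∀ j, v j * v j = N j i ^ 2 / s := by
      intro j
      simp only [hv]
      rw [← hrr]; field_simp
    simp only [this, ← Finset.sum_div]
    rw [← hs]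
    exact div_self hs0.ne'
  set H : Matrix ι ι ℝ := Matrix.of fun j l => N j l - v j * ∑ m, v m * N m l with hH
  have hvH : ∀ l, ∑ j, v j * H j l = 0 := by
    intro l
    have : ∀ j, v j * H j l = v j * N j l - (∑ m, v m * N m l) * (v j * v j) := by
      intro j; simp only [hH, Matrix.of_apply]; ring
    simp only [this, Finset.sum_sub_distrib, ← Finset.mul_sum, hv1]
    ring
  have hNi : ∀ j, N j i = r * v j := by
    intro j; simp only [hv]; field_simp
  have hHi : ∀ j, H j i = 0 := by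
    intro j
    simp only [hH, Matrix.of_apply]
    have : ∑ m, v m * N m i = r := by
      have : ∀ m, v m * N m i = r * (v m * v m) := by
        intro m; rw [hNi m]; ring
      simp only [this, ← Finset.mul_sum, hv1, mul_one]
    rw [this, hNi j]; ring
  have hBv : ∀ k, k ≠ i → ∑ j, B₀ k j * v j = 0 := by
    intro k hk
    have h1 := hBNa k i
    rw [if_neg hk] at h1
    have : ∀ j, B₀ k j * v j = (B₀ k j * N j i) / r := by
      intro j; simp only [hv]; ring
    simp only [this, ← Finset.sum_div, h1, zero_div]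
  have hBH : ∀ k, k ≠ i → ∀ l, ∑ j, B₀ k j * H j l = if k = l then 1 else 0 := by
    intro k hk l
    have : ∀ j, B₀ k j * H j l = B₀ k j * N j l - (∑ m, v m * N m l) * (B₀ k j * v j) := by
      intro j; simp only [hH, Matrix.of_apply]; ring
    simp only [this, Finset.sum_sub_distrib, ← Finset.mul_sum, hBv k hk, hBNa k l]
    ring
  refine ⟨v, H * Hᵀ, ?_, ?_, ?_, ?_⟩
  · simpa [dotProduct] using hv1
  · have := Matrix.posSemidef_self_mul_conjTranspose H
    simpa using this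
  · rw [← Matrix.mulVec_mulVec]
    have : Hᵀ *ᵥ v = 0 := by
      funext l
      simp only [Matrix.mulVec, dotProduct, Matrix.transpose_apply, Pi.zero_apply]
      rw [← hvH l]
      exact Finset.sum_congr rfl fun j _ => by ring
    rw [this, Matrix.mulVec_zero]
  intro B hB
  have hvne : v ≠ 0 := by
    intro h
    rw [h] at hv1
    simp at hv1
  constructor
  · intro hX
    apply Matrix.exists_mulVec_eq_zero_iff.mp
    refine ⟨v, hvne, ?_⟩
    funext k
    simp only [Matrix.mulVec, Pi.zero_apply]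
    by_cases hk : k = i
    · rw [hk]; exact hX
    · have : B k = B₀ k := funext (hB k hk)
      rw [this]
      exact hBv k hk
  intro hX
  set R : ι → ℝ := B i with hR
  set X : ℝ := R ⬝ᵥ v with hXd
  set y : ι → ℝ := fun l => (if i = l then 1 else 0) - ∑ j, R j * H j l with hy
  have hXs : ∑ j, R j * v j = X := rfl
  have hmul : B * cand H v y X = 1 := by
    ext k l
    rw [Matrix.mul_apply, Matrix.one_apply]
    simp only [cand, Matrix.of_apply]
    have : ∀ j, B k j * (H j l + y l / X * v j) = B k j * H j l + y l / X * (B k j * v j) := by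
      intro j; ring
    simp only [this, Finset.sum_add_distrib, ← Finset.mul_sum]
    by_cases hk : k = i
    · subst hk
      have h1 : ∑ j, B k j * v j = X := rfl
      rw [h1, div_mul_cancel₀ _ hX]
      simp only [hy, hR]
      ring
    · have hBk : ∀ j, B k j = B₀ k j := hB k hk
      simp only [hBk, hBv k hk, hBH k hk l]
      ring
  have hinv : B⁻¹ = cand H v y X := Matrix.inv_eq_right_inv hmul
  have hdet : B.det ≠ 0 := by
    intro h0
    have := congrArg Matrix.det hmul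
    rw [Matrix.det_mul, h0, zero_mul, Matrix.det_one] at this
    exact zero_ne_one this
  have hyi : y i = 1 := by
    simp only [hy, hHi]
    simp
  -- sum of squares of y
  set Q : ℝ := R ⬝ᵥ ((H * Hᵀ) *ᵥ R) with hQ
  have hQs : Q = ∑ l, (∑ j, R j * H j l) ^ 2 := quad_HH H R
  have hRHi : ∑ j, R j * H j i = 0 := by simp [hHi]
  have hysq : ∑ l, y l ^ 2 = 1 + Q := by
    have : ∀ l, y l ^ 2 = (if i = l then 1 else 0) + (∑ j, R j * H j l) ^ 2 := by
      intro l
      by_cases hl : i = l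
      · subst hl
        simp only [hy, hRHi]; simp
      · simp only [hy, if_neg hl]; ring
    simp only [this, Finset.sum_add_distrib, ← hQs]
    simp
  set T : ℝ := (H * Hᵀ).trace with hT
  have hTs : T = ∑ l, ∑ j, H j l * H j l := trace_HH H
  have hcs : ∀ l, colsq (cand H v y X) l = (∑ j, H j l * H j l) + y l * y l / X ^ 2 := by
    intro l
    rw [colsq_eq, colsq_cand H v y X hv1 hvH]
  have hsum : ∑ l, colsq (cand H v y X) l = T + (1 + Q) / X ^ 2 := by
    simp only [hcs, Finset.sum_add_distrib, ← Finset.sum_div, ← hTs, ← hysq]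
    congr 2
    exact Finset.sum_congr rfl fun l _ => by ring
  refine ⟨hdet, ?_, ?_, ?_⟩
  · intro j
    rw [hinv]
    simp only [cand, Matrix.of_apply, hHi, hyi]
    ring
  · rw [hinv]
    exact hsum
  · intro hcard
    rw [hinv]
    have hT0 : T ≠ 0 := by
      intro h0
      obtain ⟨k, hk⟩ : ∃ k, k ≠ i := by
        have : 1 < Fintype.card ι := hcard
        have : Nontrivial ι := Fintype.one_lt_card_iff_nontrivial.mp this
        exact exists_ne i
      have hz : ∀ l, ∀ j, H j l = 0 := by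
        rw [hTs] at h0
        have h1 := (Finset.sum_eq_zero_iff_of_nonneg (fun l (_ : l ∈ Finset.univ) =>
          Finset.sum_nonneg fun j (_ : j ∈ Finset.univ) => mul_self_nonneg (H j l))).mp h0
        intro l j
        have h2 := (Finset.sum_eq_zero_iff_of_nonneg
          (fun j (_ : j ∈ Finset.univ) => mul_self_nonneg (H j l))).mp (h1 l (Finset.mem_univ l)) j
          (Finset.mem_univ j)
        exact mul_self_eq_zero.mp h2
      have := hBH k hk k
      simp [hz] at this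
    have hwnum : wnum (cand H v y X) i = T / X ^ 2 := by
      unfold wnum
      have : ∀ l, colsq (cand H v y X) i * colsq (cand H v y X) l -
          coldot (cand H v y X) i l ^ 2 = (∑ j, H j l * H j l) / X ^ 2 := by
        intro l
        rw [hcs, hcs, colsq_cand H v y X hv1 hvH, hyi]
        simp only [hHi, zero_mul, Finset.sum_const_zero]
        ring
      simp only [this, ← Finset.sum_div, ← hTs]
    have hdotsum : ∑ k, ∑ l, coldot (cand H v y X) k l ^ 2 =
        ((H * Hᵀ) * (H * Hᵀ)).trace +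
          2 / X ^ 2 * (R ⬝ᵥ (((H * Hᵀ) * (H * Hᵀ)) *ᵥ R)) + ((1 + Q) / X ^ 2) ^ 2 := by
      have h1 : ∀ k l, coldot (cand H v y X) k l ^ 2 = (∑ j, H j k * H j l) ^ 2 +
          2 / X ^ 2 * (y k * y l * ∑ j, H j k * H j l) +
            1 / X ^ 4 * (y k ^ 2 * y l ^ 2) := by
        intro k l
        rw [colsq_cand H v y X hv1 hvH]
        field_simp
        ring
      simp only [h1, Finset.sum_add_distrib, ← Finset.mul_sum, ← trace_sq H]
      have h2 : ∑ k, ∑ l, y k * y l * ∑ j, H j k * H j l =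
          R ⬝ᵥ (((H * Hᵀ) * (H * Hᵀ)) *ᵥ R) := by
        have h3 : ∑ k, ∑ l, y k * y l * ∑ j, H j k * H j l = ∑ j, (∑ l, H j l * y l) ^ 2 := by
          have : ∀ j, (∑ l, H j l * y l) ^ 2 = ∑ k, ∑ l, y k * y l * (H j k * H j l) := by
            intro j
            rw [sq, Finset.sum_mul_sum]
            exact Finset.sum_congr rfl fun k _ => Finset.sum_congr rfl fun l _ => by ring
          simp only [this, Finset.mul_sum]
          rw [Finset.sum_comm]
          refine Eq.trans ?_ (Finset.sum_comm)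
          rw [Finset.sum_comm]
          refine Finset.sum_congr rfl fun k _ => ?_
          rw [Finset.sum_comm]
        rw [h3]
        have h4 : ∀ j, ∑ l, H j l * y l = -((H * Hᵀ) *ᵥ R) j := by
          intro j
          rw [mulVec_HH]
          simp only [hy, mul_sub, Finset.sum_sub_distrib]
          have : ∑ l, H j l * (if i = l then (1:ℝ) else 0) = 0 := by
            simp [hHi]
          rw [this]; ring
        simp only [h4]
        have hsym : (H * Hᵀ)ᵀ = H * Hᵀ := by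
          rw [Matrix.transpose_mul, Matrix.transpose_transpose]
        have h5 : R ᵥ* (H * Hᵀ) = (H * Hᵀ) *ᵥ R := by
          conv_lhs => rw [← hsym]
          rw [Matrix.vecMul_transpose]
        generalize H * Hᵀ = S at *
        rw [← Matrix.mulVec_mulVec, Matrix.dotProduct_mulVec, h5]
        simp only [dotProduct]
        exact Finset.sum_congr rfl fun j _ => by ring
      rw [h2]
      have h6 : ∑ k, y k ^ 2 * ∑ l, y l ^ 2 = (1 + Q) * (1 + Q) := by
        rw [← Finset.sum_mul, hysq]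
      have h7 : ∑ k, ∑ l, y k ^ 2 * y l ^ 2 = (1 + Q) * (1 + Q) := by
        rw [← h6]
        exact Finset.sum_congr rfl fun k _ => by rw [Finset.mul_sum]
      rw [h6]
      field_simp
    have hwtot : wtot (cand H v y X) = T / X ^ 2 *
        (1 + X ^ 2 * tflat (H * Hᵀ) / 2 + R ⬝ᵥ (mflat (H * Hᵀ) *ᵥ R)) := by
      unfold wtot wnum
      simp only [Finset.sum_sub_distrib, ← Finset.mul_sum, ← Finset.sum_mul]
      rw [hsum, hdotsum]
      unfold tflat mflat
      rw [Matrix.sub_mulVec, dotProduct_sub, Matrix.smul_mulVec, dotProduct_smul, smul_eq_mul,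
        ← hT, ← hQ]
      field_simp
      ring
    unfold phi
    rw [hwnum, hwtot]
    have hTX : T / X ^ 2 ≠ 0 := div_ne_zero hT0 (pow_ne_zero 2 hX)
    rw [div_mul_eq_div_div, div_self hTX]

end Pool.Agent.SMin

end

section

/-!
Resampling of a row, a column and an entry.
-/

open MeasureTheory Matrix
open scoped ENNReal NNReal

namespace Pool.Agent.SMin

section Res

variable {ι : Type} [Fintype ι] [DecidableEq ι]

/-- Replace row `i`. -/
def rowUpd (ω : ι × ι → ℝ) (i : ι) (a : ι → ℝ) : ι × ι → ℝ :=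
  fun k => if k.1 = i then a k.2 else ω k

/-- Replace column `j`. -/
def colUpd (ω : ι × ι → ℝ) (j : ι) (c : ι → ℝ) : ι × ι → ℝ :=
  fun k => if k.2 = j then c k.1 else ω k

omit [Fintype ι] in
theorem measurable_rowUpd (i : ι) :
    Measurable (fun x : (ι × ι → ℝ) × (ι → ℝ) => rowUpd x.1 i x.2) := by
  refine measurable_pi_lambda _ fun k => ?_
  unfold rowUpd
  by_cases hk : k.1 = i
  · simp only [hk, if_true]
    exact (measurable_pi_apply k.2).comp measurable_snd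
  · simp only [hk, if_false]
    exact (measurable_pi_apply k).comp measurable_fst

omit [Fintype ι] in
theorem measurable_colUpd (j : ι) :
    Measurable (fun x : (ι × ι → ℝ) × (ι → ℝ) => colUpd x.1 j x.2) := by
  refine measurable_pi_lambda _ fun k => ?_
  unfold colUpd
  by_cases hk : k.2 = j
  · simp only [hk, if_true]
    exact (measurable_pi_apply k.1).comp measurable_snd
  · simp only [hk, if_false]
    exact (measurable_pi_apply k).comp measurable_fst

omit [Fintype ι] in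
theorem measurable_rowUpd' (ω : ι × ι → ℝ) (i : ι) :
    Measurable (fun a : ι → ℝ => rowUpd ω i a) := by
  refine measurable_pi_lambda _ fun k => ?_
  unfold rowUpd
  by_cases hk : k.1 = i
  · simp only [hk, if_true]
    exact measurable_pi_apply k.2
  · simp only [hk, if_false]
    exact measurable_const

omit [Fintype ι] in
theorem measurable_colUpd' (ω : ι × ι → ℝ) (j : ι) :
    Measurable (fun c : ι → ℝ => colUpd ω j c) := by
  refine measurable_pi_lambda _ fun k => ?_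
  unfold colUpd
  by_cases hk : k.2 = j
  · simp only [hk, if_true]
    exact measurable_pi_apply k.1
  · simp only [hk, if_false]
    exact measurable_const

theorem lintegral_rowUpd (μ : Measure ℝ) [IsProbabilityMeasure μ] (i : ι)
    (F : (ι × ι → ℝ) → ℝ≥0∞) (hF : Measurable F) :
    ∫⁻ ω, F ω ∂(Measure.pi fun _ : ι × ι => μ) =
      ∫⁻ ω, ∫⁻ a, F (rowUpd ω i a) ∂(Measure.pi fun _ : ι => μ)
        ∂(Measure.pi fun _ : ι × ι => μ) := by
  rw [lintegral_pi_resample μ (Finset.univ.filter fun k : ι × ι => k.1 = i) F hF]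
  refine lintegral_congr fun ω => ?_
  rw [← lintegral_comp_injective μ (fun l : ι => (i, l)) (fun a b hab => (Prod.mk.inj hab).2)
    (fun a => F (rowUpd ω i a)) (hF.comp (measurable_rowUpd' ω i))]
  refine lintegral_congr fun ω' => ?_
  congr 1
  funext k
  unfold rowUpd
  by_cases hk : k.1 = i
  · simp only [Finset.piecewise, Finset.mem_filter, Finset.mem_univ, true_and, hk, if_true,
      Function.comp_apply]
    congr 1
    ext <;> simp [hk]
  · simp [Finset.piecewise, hk]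

theorem lintegral_colUpd (μ : Measure ℝ) [IsProbabilityMeasure μ] (j : ι)
    (F : (ι × ι → ℝ) → ℝ≥0∞) (hF : Measurable F) :
    ∫⁻ ω, F ω ∂(Measure.pi fun _ : ι × ι => μ) =
      ∫⁻ ω, ∫⁻ c, F (colUpd ω j c) ∂(Measure.pi fun _ : ι => μ)
        ∂(Measure.pi fun _ : ι × ι => μ) := by
  rw [lintegral_pi_resample μ (Finset.univ.filter fun k : ι × ι => k.2 = j) F hF]
  refine lintegral_congr fun ω => ?_
  rw [← lintegral_comp_injective μ (fun l : ι => (l, j)) (fun a b hab => (Prod.mk.inj hab).1)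
    (fun a => F (colUpd ω j a)) (hF.comp (measurable_colUpd' ω j))]
  refine lintegral_congr fun ω' => ?_
  congr 1
  funext k
  unfold colUpd
  by_cases hk : k.2 = j
  · simp only [Finset.piecewise, Finset.mem_filter, Finset.mem_univ, true_and, hk, if_true,
      Function.comp_apply]
    congr 1
    ext <;> simp [hk]
  · simp [Finset.piecewise, hk]

/-- Replace row `i`, column `j` and the entry `(i,j)`. -/
def crossUpd (ω : ι × ι → ℝ) (i j : ι) (c a : ι → ℝ) (ξ : ℝ) : ι × ι → ℝ :=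
  Function.update (rowUpd (colUpd ω j c) i a) (i, j) ξ

omit [Fintype ι] in
theorem measurable_crossUpd (ω : ι × ι → ℝ) (i j : ι) :
    Measurable (fun x : (ι → ℝ) × ((ι → ℝ) × ℝ) => crossUpd ω i j x.1 x.2.1 x.2.2) := by
  refine measurable_pi_lambda _ fun k => ?_
  unfold crossUpd rowUpd colUpd
  by_cases hk : k = (i, j)
  · subst hk
    simp only [Function.update_self]
    exact measurable_snd.comp measurable_snd
  · simp only [Function.update_of_ne hk]
    by_cases h1 : k.1 = i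
    · simp only [h1, if_true]
      exact (measurable_pi_apply k.2).comp (measurable_fst.comp measurable_snd)
    · simp only [h1, if_false]
      by_cases h2 : k.2 = j
      · simp only [h2, if_true]
        exact (measurable_pi_apply k.1).comp measurable_fst
      · simp only [h2, if_false]
        exact measurable_const

omit [Fintype ι] in
theorem measurable_crossUpd' (ω : ι × ι → ℝ) (i j : ι) (c : ι → ℝ) :
    Measurable (fun x : (ι → ℝ) × ℝ => crossUpd ω i j c x.1 x.2) :=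
  (measurable_crossUpd ω i j).comp (g := fun x : (ι → ℝ) × ((ι → ℝ) × ℝ) =>
    crossUpd ω i j x.1 x.2.1 x.2.2) (f := fun x : (ι → ℝ) × ℝ => (c, x)) measurable_prodMk_left

theorem lintegral_crossUpd (μ : Measure ℝ) [IsProbabilityMeasure μ] (i j : ι)
    (F : (ι × ι → ℝ) → ℝ≥0∞) (hF : Measurable F) :
    ∫⁻ ω, F ω ∂(Measure.pi fun _ : ι × ι => μ) =
      ∫⁻ ω, ∫⁻ c, ∫⁻ x, F (crossUpd ω i j c x.1 x.2) ∂((Measure.pi fun _ : ι => μ).prod μ)
        ∂(Measure.pi fun _ : ι => μ) ∂(Measure.pi fun _ : ι × ι => μ) := by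
  set F1 : (ι × ι → ℝ) → ℝ≥0∞ := fun ω => ∫⁻ ξ, F (Function.update ω (i, j) ξ) ∂μ with hF1
  have hm1 : Measurable (fun x : (ι × ι → ℝ) × ℝ => Function.update x.1 (i, j) x.2) := by
    refine measurable_pi_lambda _ fun k => ?_
    by_cases hk : k = (i, j)
    · subst hk
      simp only [Function.update_self]
      exact measurable_snd
    · simp only [Function.update_of_ne hk]
      exact (measurable_pi_apply k).comp measurable_fst
  have hF1m : Measurable F1 :=
    Measurable.lintegral_prod_right' (f := fun x : (ι × ι → ℝ) × ℝ =>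
      F (Function.update x.1 (i, j) x.2)) (hF.comp hm1)
  set F2 : (ι × ι → ℝ) → ℝ≥0∞ := fun ω =>
    ∫⁻ a, F1 (rowUpd ω i a) ∂(Measure.pi fun _ : ι => μ) with hF2
  have hF2m : Measurable F2 :=
    Measurable.lintegral_prod_right' (f := fun x : (ι × ι → ℝ) × (ι → ℝ) =>
      F1 (rowUpd x.1 i x.2)) (hF1m.comp (measurable_rowUpd i))
  have e1 : ∫⁻ ω, F ω ∂(Measure.pi fun _ : ι × ι => μ) =
      ∫⁻ ω, F1 ω ∂(Measure.pi fun _ : ι × ι => μ) := lintegral_pi_update μ (i, j) F hF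
  have e2 : ∫⁻ ω, F1 ω ∂(Measure.pi fun _ : ι × ι => μ) =
      ∫⁻ ω, F2 ω ∂(Measure.pi fun _ : ι × ι => μ) := lintegral_rowUpd μ i F1 hF1m
  have e3 : ∫⁻ ω, F2 ω ∂(Measure.pi fun _ : ι × ι => μ) =
      ∫⁻ ω, ∫⁻ c, F2 (colUpd ω j c) ∂(Measure.pi fun _ : ι => μ)
        ∂(Measure.pi fun _ : ι × ι => μ) := lintegral_colUpd μ j F2 hF2m
  rw [e1, e2, e3]
  refine lintegral_congr fun ω => lintegral_congr fun c => ?_
  have hm : Measurable (fun x : (ι → ℝ) × ℝ => F (crossUpd ω i j c x.1 x.2)) :=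
    hF.comp (measurable_crossUpd' ω i j c)
  rw [lintegral_prod _ hm.aemeasurable]
  rfl

end Res

end Pool.Agent.SMin

end

section

/-!
The density bounds in every dimension and their consequences.
-/

open MeasureTheory Matrix
open scoped ENNReal NNReal

namespace Pool.Agent.SMin

theorem DB_fourier (μ : Measure ℝ) (K : ℝ≥0) (h : Law μ K) (d : ℕ) :
    ∃ C : ℝ≥0, ∀ (ι : Type) [Fintype ι] [DecidableEq ι] (W : Matrix (Fin d) ι ℝ), W * Wᵀ = 1 →
      (∀ j, ∑ r, W r j ^ 2 ≤ 1 / 2) →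
      (Measure.pi (fun _ : ι => μ)).map (fun a => W *ᵥ a) ≤ (C : ℝ≥0∞) • volume := by
  have := h.prob
  obtain ⟨C₀, hC₀⟩ := charFun_Lp_bound μ K h
  obtain ⟨C₁, hC₁⟩ := lintegral_prod_le d C₀
  obtain ⟨C₂, hC₂⟩ := le_smul_volume_of_charFun d
  refine ⟨C₂ * C₁, fun ι _ _ W hW hcol => ?_⟩
  have hmφ : Measurable (fun s : ℝ => ‖charFun μ s‖ₑ) := measurable_charFun.enorm
  have h3 := hC₁ (fun s => ‖charFun μ s‖ₑ) hmφ (by simp) hC₀ ι W hW hcol
  have : IsProbabilityMeasure ((Measure.pi (fun _ : ι => μ)).map (fun a => W *ᵥ a)) :=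
    Measure.isProbabilityMeasure_map (measurable_mulVec W).aemeasurable
  refine hC₂ _ C₁ (le_trans (le_of_eq ?_) h3)
  refine lintegral_congr fun ζ => ?_
  have hker : ∀ a : ι → ℝ, Complex.exp (Complex.I * ∑ r, (ζ r : ℂ) * ((W *ᵥ a) r : ℂ)) =
      ∏ j, Complex.exp (((∑ r, ζ r * W r j : ℝ) : ℂ) * (a j : ℂ) * Complex.I) := by
    intro a
    rw [← Complex.exp_sum]
    congr 1
    simp only [Matrix.mulVec, dotProduct]
    push_cast
    rw [Finset.mul_sum]
    simp_rw [Finset.mul_sum, Finset.sum_mul]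
    rw [Finset.sum_comm]
    refine Finset.sum_congr rfl fun j _ => Finset.sum_congr rfl fun r _ => ?_
    ring
  have h4 : ∫ y, Complex.exp (Complex.I * ∑ r, (ζ r : ℂ) * (y r : ℂ))
      ∂((Measure.pi (fun _ : ι => μ)).map (fun a => W *ᵥ a)) =
      ∏ j, charFun μ (∑ r, ζ r * W r j) := by
    rw [integral_map (measurable_mulVec W).aemeasurable]
    · simp_rw [hker]
      rw [integral_fintype_prod_eq_prod (𝕜 := ℂ) (fun (j : ι) (x : ℝ) =>
        Complex.exp (((∑ r, ζ r * W r j : ℝ) : ℂ) * (x : ℂ) * Complex.I))]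
      refine Finset.prod_congr rfl fun j _ => ?_
      rw [charFun_apply_real]
    · refine Measurable.aestronglyMeasurable ?_
      fun_prop
  rw [h4, ← ofReal_norm, norm_prod, ENNReal.ofReal_prod_of_nonneg (fun _ _ => norm_nonneg _)]
  exact Finset.prod_congr rfl fun j _ => ofReal_norm _

theorem density_bound (μ : Measure ℝ) (K : ℝ≥0) (h : Law μ K) (d : ℕ) :
    ∃ C : ℝ≥0, DB μ d C := by
  have := h.prob
  induction d with
  | zero =>
    refine ⟨1, fun ι _ _ W _ => ?_⟩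
    have : IsProbabilityMeasure ((Measure.pi (fun _ : ι => μ)).map (fun a => W *ᵥ a)) :=
      Measure.isProbabilityMeasure_map (measurable_mulVec W).aemeasurable
    rw [Measure.le_iff]
    intro s _
    rcases Set.eq_empty_or_nonempty s with hs | hs
    · simp [hs]
    · have hsu : s = Set.univ := Subsingleton.eq_univ_of_nonempty hs
      rw [hsu]
      simp [volume_pi]
  | succ d ih =>
    obtain ⟨C, hC⟩ := ih
    obtain ⟨C', hC'⟩ := DB_fourier μ K h (d + 1)
    refine ⟨max (2 * K * C) C', fun ι _ _ W hW => ?_⟩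
    by_cases hcol : ∀ j, ∑ r, W r j ^ 2 ≤ 1 / 2
    · refine (hC' ι W hW hcol).trans ?_
      gcongr
      exact le_max_right _ _
    · push Not at hcol
      obtain ⟨j, hj⟩ := hcol
      refine (DB_step μ K h.dens d C hC ι W hW j hj).trans ?_
      gcongr
      exact le_max_left _ _

/-- Small ball estimate for a quadratic form, with constant `C`. -/
def QSB2 (μ : Measure ℝ) (C : ℝ≥0) : Prop :=
  ∀ (ι : Type) [Fintype ι] [DecidableEq ι] (Θ : Matrix ι ι ℝ) (m : ι → ℝ) (g : ℝ),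
    Θ.PosSemidef → 0 < g →
    ENNReal.ofReal (tflat Θ) *
      ∫⁻ a, ENNReal.ofReal (Real.exp (-((m + a) ⬝ᵥ (Θ *ᵥ (m + a))) / g))
        ∂(Measure.pi fun _ : ι => μ)
      ≤ C * ENNReal.ofReal g

theorem exists_QSB (μ : Measure ℝ) (K : ℝ≥0) (h : Law μ K) : ∃ C : ℝ≥0, QSB μ C := by
  obtain ⟨C₃, hC₃⟩ := density_bound μ K h 3
  exact quad_small_ball μ K h C₃ hC₃

theorem exists_QSB2 (μ : Measure ℝ) (K : ℝ≥0) (h : Law μ K) : ∃ C : ℝ≥0, QSB2 μ C := by
  obtain ⟨C₂, hC₂⟩ := density_bound μ K h 2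
  exact quad_small_ball2 μ K h C₂ hC₂

end Pool.Agent.SMin

end

section

/-!
The analytic row lemma: final estimate.
-/

open MeasureTheory Matrix ProbabilityTheory
open scoped ENNReal NNReal

namespace Pool.Agent.SMin

/-- The truncated weight of a row. -/
noncomputable def rowf {ι : Type} [Fintype ι] (Θ : Matrix ι ι ℝ) (v m : ι → ℝ) (ε : ℝ)
    (a : ι → ℝ) : ℝ :=
  min (1 / (1 + (m + a) ⬝ᵥ (Θ *ᵥ (m + a)) + Θ.trace * ((m + a) ⬝ᵥ v) ^ 2))
    (ε ^ 2 / ((m + a) ⬝ᵥ v) ^ 2)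

section Row2

variable {μ : Measure ℝ} {K : ℝ≥0} {ι : Type} [Fintype ι]

theorem rowf_le_two_div {Θ : Matrix ι ι ℝ} (hΘ : Θ.PosSemidef) (v m : ι → ℝ) {ε : ℝ}
    (hε : 0 < ε) (a : ι → ℝ) : rowf Θ v m ε a ≤ 2 * (1 / Yden Θ v m ε a) := by
  have hY := Yden_pos hΘ v m ε a
  have hq := psd_nonneg hΘ (m + a)
  have hT := trace_nonneg' hΘ
  unfold rowf
  set X := (m + a) ⬝ᵥ v with hX
  set Q := (m + a) ⬝ᵥ (Θ *ᵥ (m + a)) with hQ
  by_cases hX0 : X = 0
  · rw [hX0]
    refine (min_le_right _ _).trans ?_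
    simp only [ne_eq, OfNat.ofNat_ne_zero, not_false_eq_true, zero_pow, div_zero]
    positivity
  · have hX2 : 0 < X ^ 2 := by positivity
    have hYe : Yden Θ v m ε a = (1 + Q) + X ^ 2 / ε ^ 2 := by
      unfold Yden
      rw [← hX, ← hQ]
    rw [hYe] at hY ⊢
    have h1 : 0 < 1 + Q := by linarith
    have h2 : 0 < X ^ 2 / ε ^ 2 := by positivity
    rcases le_total (X ^ 2 / ε ^ 2) (1 + Q) with hle | hle
    · refine (min_le_left _ _).trans ?_
      rw [mul_one_div, div_le_div_iff₀ (by positivity) hY]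
      linarith [mul_nonneg hT hX2.le]
    · refine (min_le_right _ _).trans ?_
      have : ε ^ 2 / X ^ 2 = 1 / (X ^ 2 / ε ^ 2) := by field_simp
      rw [this, mul_one_div, div_le_div_iff₀ h2 hY]
      linarith

theorem rowf_le_lin {Θ : Matrix ι ι ℝ} (hΘ : Θ.PosSemidef) (v m : ι → ℝ) {ε : ℝ}
    (hε : 0 < ε) (a : ι → ℝ) (hT : 0 < Θ.trace) (hX : 0 < ((m + a) ⬝ᵥ v) ^ 2) :
    rowf Θ v m ε a ≤ ε / (Real.sqrt Θ.trace * ((m + a) ⬝ᵥ v) ^ 2) := by
  have hq := psd_nonneg hΘ (m + a)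
  unfold rowf
  set X := (m + a) ⬝ᵥ v
  set Q := (m + a) ⬝ᵥ (Θ *ᵥ (m + a))
  set T := Θ.trace
  have hs : 0 < Real.sqrt T := Real.sqrt_pos.2 hT
  have hss : Real.sqrt T * Real.sqrt T = T := Real.mul_self_sqrt hT.le
  by_contra hcon
  push Not at hcon
  obtain ⟨h1, h2⟩ := lt_min_iff.1 hcon
  rw [div_lt_div_iff₀ (by positivity) (by positivity)] at h1 h2
  -- h1 : ε * (1+Q+T X²) < √T X², h2 : ε X² < ε² √T X²
  have h3 : 1 < ε * Real.sqrt T := by
    have : ε * X ^ 2 * 1 < ε * X ^ 2 * (ε * Real.sqrt T) := by linarith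
    exact lt_of_mul_lt_mul_left this (by positivity)
  have h4 : Real.sqrt T * X ^ 2 * 1 < Real.sqrt T * X ^ 2 * (ε * Real.sqrt T) :=
    mul_lt_mul_of_pos_left h3 (by positivity)
  have h5 : Real.sqrt T * X ^ 2 * (ε * Real.sqrt T) = ε * (T * X ^ 2) := by
    calc Real.sqrt T * X ^ 2 * (ε * Real.sqrt T) = ε * ((Real.sqrt T * Real.sqrt T) * X ^ 2) := by
          ring
      _ = ε * (T * X ^ 2) := by rw [hss]
  have h6 : 0 ≤ ε * (1 + Q) := by positivity
  linarith

theorem measurable_rowf (Θ : Matrix ι ι ℝ) (v m : ι → ℝ) (ε : ℝ) :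
    Measurable (rowf Θ v m ε) := by
  unfold rowf
  exact (measurable_const.div ((measurable_const.add (measurable_quad Θ m)).add
    (measurable_const.mul ((measurable_lin m v).pow_const 2)))).min
    (measurable_const.div ((measurable_lin m v).pow_const 2))

theorem lintegral_chi_rowf_le [IsProbabilityMeasure μ] {Θ : Matrix ι ι ℝ} (hΘ : Θ.PosSemidef)
    (v m : ι → ℝ) {ε : ℝ}
    (hε : 0 < ε) (χ : (ι → ℝ) → ℝ≥0∞) (hχ : Measurable χ) (α β : ℝ) (hα : 0 < α) (hβ : 0 < β)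
    (h1 : ∀ s, 0 < s → ∫⁻ a, χ a * ENNReal.ofReal (Real.exp (-(s * Yden Θ v m ε a)))
      ∂(Measure.pi fun _ : ι => μ) ≤ ENNReal.ofReal (α / Real.sqrt s))
    (h2 : ∀ s, 0 < s → ∫⁻ a, χ a * ENNReal.ofReal (Real.exp (-(s * Yden Θ v m ε a)))
      ∂(Measure.pi fun _ : ι => μ) ≤ ENNReal.ofReal (β / (s * Real.sqrt s))) :
    ∫⁻ a, χ a * ENNReal.ofReal (rowf Θ v m ε a) ∂(Measure.pi fun _ : ι => μ) ≤
      ENNReal.ofReal (8 * Real.sqrt (α * β)) := by
  have h3 := lintegral_weight_le (Measure.pi fun _ : ι => μ) χ hχ (Yden Θ v m ε)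
    (measurable_Yden Θ v m ε) (Yden_pos hΘ v m ε) α β hα hβ h1 h2
  calc ∫⁻ a, χ a * ENNReal.ofReal (rowf Θ v m ε a) ∂(Measure.pi fun _ : ι => μ)
      ≤ ∫⁻ a, 2 * (χ a * ENNReal.ofReal (1 / Yden Θ v m ε a)) ∂(Measure.pi fun _ : ι => μ) := by
        refine lintegral_mono fun a => ?_
        simp only
        rw [mul_left_comm]
        refine mul_le_mul' le_rfl ((ENNReal.ofReal_le_ofReal
          (rowf_le_two_div hΘ v m hε a)).trans (le_of_eq ?_))
        rw [ENNReal.ofReal_mul (by norm_num)]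
        simp
    _ = 2 * ∫⁻ a, χ a * ENNReal.ofReal (1 / Yden Θ v m ε a) ∂(Measure.pi fun _ : ι => μ) := by
        rw [lintegral_const_mul]
        exact hχ.mul (measurable_const.div (measurable_Yden Θ v m ε)).ennreal_ofReal
    _ ≤ 2 * ENNReal.ofReal (4 * Real.sqrt (α * β)) := by gcongr
    _ = ENNReal.ofReal (8 * Real.sqrt (α * β)) := by
        rw [show (2 : ℝ≥0∞) = ENNReal.ofReal 2 by simp, ← ENNReal.ofReal_mul (by norm_num)]
        congr 1
        ring

theorem psd_le_trace {Θ : Matrix ι ι ℝ} (hΘ : Θ.PosSemidef) (x : ι → ℝ) :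
    x ⬝ᵥ (Θ *ᵥ x) ≤ Θ.trace * (x ⬝ᵥ x) := by
  have h1 := psd_sq_le hΘ x
  have h2 := psd_nonneg hΘ x
  have h3 : (x ⬝ᵥ (Θ *ᵥ x)) ^ 2 ≤ (x ⬝ᵥ x) * ((Θ *ᵥ x) ⬝ᵥ (Θ *ᵥ x)) := by
    unfold dotProduct
    have := Finset.sum_mul_sq_le_sq_mul_sq Finset.univ x (Θ *ᵥ x)
    simpa [sq] using this
  have h4 := dot_self_nonneg x
  rcases h2.eq_or_lt with h | h
  · rw [← h]
    exact mul_nonneg (trace_nonneg' hΘ) h4
  · have h5 : (x ⬝ᵥ (Θ *ᵥ x)) ^ 2 ≤ (x ⬝ᵥ x) * (Θ.trace * (x ⬝ᵥ (Θ *ᵥ x))) :=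
      h3.trans (mul_le_mul_of_nonneg_left h1 h4)
    refine le_of_mul_le_mul_right ?_ h
    linarith

variable [DecidableEq ι]

/-- The key quantity `κ⁻²`. -/
noncomputable def Skap (Θ : Matrix ι ι ℝ) (v m : ι → ℝ) : ℝ :=
  1 + tflat Θ + tflat Θ * (m ⬝ᵥ v) ^ 2 + m ⬝ᵥ (mflat Θ *ᵥ m)

theorem row_analytic (h : Law μ K) {C₁ C₃ : ℝ≥0} (hD : DB μ 1 C₁) (hQ : QSB μ C₃)
    {A : ℝ} (hA1 : 1 ≤ A) (hAC1 : C₁ * Real.sqrt Real.pi ≤ A) (hAC3 : (C₃ : ℝ) ≤ A)
    (hC₁ : 0 < C₁) (hC₃ : 0 < C₃)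
    {Θ : Matrix ι ι ℝ} (hΘ : Θ.PosSemidef) {v : ι → ℝ} (hv : v ⬝ᵥ v = 1)
    (hloc : ∀ j, v j ^ 2 ≤ 3 / 4) (hΘv : Θ *ᵥ v = 0) (m : ι → ℝ) {ε : ℝ} (hε : 0 < ε) :
    ∫⁻ a, ENNReal.ofReal (rowf Θ v m ε a) ∂(Measure.pi fun _ : ι => μ) ≤
      ENNReal.ofReal (120 * A * ε / Real.sqrt (Skap Θ v m)) := by
  have := h.prob
  have hA0 : 0 < A := by linarith
  have hC₁' : (0 : ℝ) < C₁ := hC₁
  have hC₃' : (0 : ℝ) < C₃ := hC₃
  have hsp : 0 < Real.sqrt Real.pi := Real.sqrt_pos.2 Real.pi_pos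
  set c1 := C₁ * Real.sqrt Real.pi with hc1
  have hc1' : 0 < c1 := by positivity
  set Tb := tflat Θ with hTb
  have hTb0 : 0 ≤ Tb := tflat_nonneg hΘ
  set a2 := m ⬝ᵥ (mflat Θ *ᵥ m) with ha2
  have ha20 : 0 ≤ a2 := psd_nonneg (mflat_psd hΘ) m
  set x0 := m ⬝ᵥ v with hx0
  set S := Skap Θ v m with hS
  have hSe : S = 1 + Tb + Tb * x0 ^ 2 + a2 := rfl
  have hS1 : 1 ≤ S := by
    rw [hSe]
    have : 0 ≤ Tb * x0 ^ 2 := by positivity
    linarith
  -- finishing step
  have hfin : ∀ Z : ℝ, 0 < Z → S ≤ 6 * Z → ∀ J : ℝ≥0∞,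
      J ≤ ENNReal.ofReal (48 * A * ε / Real.sqrt Z) →
      J ≤ ENNReal.ofReal (120 * A * ε / Real.sqrt S) := by
    intro Z hZ hSZ J hJ
    refine hJ.trans (ENNReal.ofReal_le_ofReal ?_)
    have hsZ : 0 < Real.sqrt Z := Real.sqrt_pos.2 hZ
    have hsS : 0 < Real.sqrt S := Real.sqrt_pos.2 (by linarith)
    rw [div_le_div_iff₀ hsZ hsS]
    have h1 : Real.sqrt S ≤ 5 / 2 * Real.sqrt Z := by
      rw [show (5 / 2 : ℝ) * Real.sqrt Z = Real.sqrt ((5 / 2) ^ 2 * Z) by
        rw [Real.sqrt_mul (by norm_num), Real.sqrt_sq (by norm_num)]]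
      refine Real.sqrt_le_sqrt ?_
      linarith
    have h2 : 0 ≤ 48 * A * ε := by positivity
    calc 48 * A * ε * Real.sqrt S ≤ 48 * A * ε * (5 / 2 * Real.sqrt Z) :=
          mul_le_mul_of_nonneg_left h1 h2
      _ = 120 * A * ε * Real.sqrt Z := by ring
  have hone : LinDens μ v m (fun _ => 1) C₁ := linDens_one hD hv m
  have hJ1 : ∫⁻ a, ENNReal.ofReal (rowf Θ v m ε a) ∂(Measure.pi fun _ : ι => μ) =
      ∫⁻ a, 1 * ENNReal.ofReal (rowf Θ v m ε a) ∂(Measure.pi fun _ : ι => μ) := by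
    simp
  -- square root estimates
  have hsqrt : ∀ α β B Z : ℝ, 0 ≤ B → 0 < Z → α * β ≤ B ^ 2 * ε ^ 2 / Z →
      8 * Real.sqrt (α * β) ≤ 8 * B * ε / Real.sqrt Z := by
    intro α β B Z hB hZ hle
    have : Real.sqrt (B ^ 2 * ε ^ 2 / Z) = B * ε / Real.sqrt Z := by
      rw [Real.sqrt_div (by positivity), Real.sqrt_mul (by positivity), Real.sqrt_sq hB,
        Real.sqrt_sq hε.le]
    calc 8 * Real.sqrt (α * β) ≤ 8 * Real.sqrt (B ^ 2 * ε ^ 2 / Z) := by
          gcongr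
      _ = 8 * B * ε / Real.sqrt Z := by rw [this]; ring
  by_cases hbeta : 1 + Tb + a2 ≤ Tb * x0 ^ 2
  · -- case beta
    have hTx : 0 < Tb * x0 ^ 2 := by linarith
    have hTb1 : 0 < Tb := by
      rcases hTb0.eq_or_lt with h0 | h0
      · rw [← h0] at hTx; simp at hTx
      · exact h0
    have hx1 : 1 ≤ x0 ^ 2 := by
      have : Tb * 1 ≤ Tb * x0 ^ 2 := by linarith
      exact le_of_mul_le_mul_left this hTb1
    have hx0sq : 0 < x0 ^ 2 := by linarith
    have hTT : Tb ≤ Θ.trace := tflat_le_trace hΘ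
    have hTr : 0 < Θ.trace := by linarith
    refine hfin (Tb * x0 ^ 2) hTx (by rw [hSe]; linarith) _ ?_
    -- split
    set R : Set (ι → ℝ) := {a | 4 * ((m + a) ⬝ᵥ v) ^ 2 ≤ x0 ^ 2} with hR
    have hRm : MeasurableSet R :=
      measurableSet_le (measurable_const.mul ((measurable_lin m v).pow_const 2)) measurable_const
    have hsplit : ∀ a, ENNReal.ofReal (rowf Θ v m ε a) ≤
        R.indicator 1 a * ENNReal.ofReal (rowf Θ v m ε a) +
          ENNReal.ofReal (4 * ε / (Real.sqrt Θ.trace * x0 ^ 2)) := by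
      intro a
      by_cases haR : a ∈ R
      · simp [haR]
      · have h1 : x0 ^ 2 < 4 * ((m + a) ⬝ᵥ v) ^ 2 := by
          simpa [hR] using haR
        have h2 := rowf_le_lin hΘ v m hε a hTr (by linarith)
        refine le_trans (ENNReal.ofReal_le_ofReal (h2.trans ?_)) (le_add_left le_rfl)
        have hs : 0 < Real.sqrt Θ.trace := Real.sqrt_pos.2 hTr
        rw [div_le_div_iff₀ (mul_pos hs (by linarith)) (by positivity)]
        have : ε * (Real.sqrt Θ.trace) * (x0 ^ 2) ≤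
            ε * (Real.sqrt Θ.trace) * (4 * ((m + a) ⬝ᵥ v) ^ 2) := by
          gcongr
        linarith
    have hpsd : (vecMulVec v v).PosSemidef := by
      have := Matrix.posSemidef_vecMulVec_self_star (R := ℝ) v
      simpa using this
    have hquadv : ∀ a : ι → ℝ, a ⬝ᵥ (vecMulVec v v *ᵥ a) = (v ⬝ᵥ a) ^ 2 := by
      intro a
      rw [vecMulVec_mulVec]
      simp [dotProduct_smul, dotProduct_comm a v, sq]
    have htrv : (vecMulVec v v).trace = 1 := by
      rw [trace_vecMulVec, hv]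
    have hLD : LinDens μ v m (R.indicator 1) (16 * C₁ * (vecMulVec v v).trace / x0 ^ 2) := by
      refine linDens_quad h hD hv hloc m hpsd _ _ hx0sq fun a => ?_
      by_cases haR : a ∈ R
      · have h1 : 4 * ((m + a) ⬝ᵥ v) ^ 2 ≤ x0 ^ 2 := haR
        simp only [haR, Set.indicator_of_mem, Pi.one_apply]
        rw [ENNReal.one_le_ofReal, hquadv]
        rw [add_dot, ← hx0] at h1
        rw [div_mul_eq_mul_div, le_div_iff₀ hx0sq]
        linarith [sq_nonneg (x0 + 2 * (v ⬝ᵥ a))]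
      · simp [haR]
    rw [htrv, mul_one] at hLD
    have h1 := lintegral_chi_rowf_le hΘ v m hε (R.indicator 1)
      (measurable_one.indicator hRm) (16 * C₁ / x0 ^ 2 * Real.sqrt Real.pi * ε)
      (C₃ * ε / Tb) (by positivity) (by positivity)
      (fun s hs => weight_lin (by positivity) hLD hΘ hε s hs)
      (fun s hs => weight_quad hQ hv (fun a => by
        by_cases haR : a ∈ R <;> simp [haR]) hΘ hΘv hε hTb1 s hs)
    have h2 : 8 * Real.sqrt (16 * C₁ / x0 ^ 2 * Real.sqrt Real.pi * ε * (C₃ * ε / Tb)) ≤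
        8 * (4 * A) * ε / Real.sqrt (Tb * x0 ^ 2) := by
      refine hsqrt _ _ (4 * A) _ (by positivity) hTx ?_
      rw [show 16 * (C₁ : ℝ) / x0 ^ 2 * Real.sqrt Real.pi * ε * (C₃ * ε / Tb) =
        16 * (c1 * C₃) * ε ^ 2 / (Tb * x0 ^ 2) by rw [hc1]; field_simp]
      rw [show (4 * A) ^ 2 * ε ^ 2 = 16 * (A * A) * ε ^ 2 by ring]
      gcongr
    have h3 : 4 * ε / (Real.sqrt Θ.trace * x0 ^ 2) ≤ 4 * A * ε / Real.sqrt (Tb * x0 ^ 2) := by
      have hs : 0 < Real.sqrt (Tb * x0 ^ 2) := Real.sqrt_pos.2 hTx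
      have hs2 : 0 < Real.sqrt Θ.trace := Real.sqrt_pos.2 hTr
      rw [div_le_div_iff₀ (by positivity) hs]
      have h4 : Real.sqrt (Tb * x0 ^ 2) ≤ Real.sqrt Θ.trace * x0 ^ 2 := by
        have h5 : Real.sqrt (Θ.trace * (x0 ^ 2) ^ 2) = Real.sqrt Θ.trace * x0 ^ 2 := by
          rw [Real.sqrt_mul hTr.le, Real.sqrt_sq hx0sq.le]
        rw [← h5]
        refine Real.sqrt_le_sqrt ?_
        have h6 : x0 ^ 2 ≤ (x0 ^ 2) ^ 2 := le_self_pow₀ hx1 two_ne_zero
        exact mul_le_mul hTT h6 hx0sq.le hTr.le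
      calc 4 * ε * Real.sqrt (Tb * x0 ^ 2) ≤ 4 * ε * (Real.sqrt Θ.trace * x0 ^ 2) := by gcongr
        _ ≤ 4 * A * ε * (Real.sqrt Θ.trace * x0 ^ 2) := by
            have h7 : 0 ≤ ε * (Real.sqrt Θ.trace * x0 ^ 2) := by positivity
            linarith [mul_le_mul_of_nonneg_right hA1 h7]
    calc ∫⁻ a, ENNReal.ofReal (rowf Θ v m ε a) ∂(Measure.pi fun _ : ι => μ)
        ≤ ∫⁻ a, (R.indicator 1 a * ENNReal.ofReal (rowf Θ v m ε a) +
            ENNReal.ofReal (4 * ε / (Real.sqrt Θ.trace * x0 ^ 2)))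
            ∂(Measure.pi fun _ : ι => μ) := lintegral_mono hsplit
      _ = ∫⁻ a, R.indicator 1 a * ENNReal.ofReal (rowf Θ v m ε a) ∂(Measure.pi fun _ : ι => μ) +
            ENNReal.ofReal (4 * ε / (Real.sqrt Θ.trace * x0 ^ 2)) := by
          rw [lintegral_add_right _ measurable_const]
          simp
      _ ≤ ENNReal.ofReal (8 * (4 * A) * ε / Real.sqrt (Tb * x0 ^ 2)) +
            ENNReal.ofReal (4 * A * ε / Real.sqrt (Tb * x0 ^ 2)) :=
          add_le_add (h1.trans (ENNReal.ofReal_le_ofReal h2)) (ENNReal.ofReal_le_ofReal h3)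
      _ ≤ ENNReal.ofReal (48 * A * ε / Real.sqrt (Tb * x0 ^ 2)) := by
          rw [← ENNReal.ofReal_add (by positivity) (by positivity)]
          refine ENNReal.ofReal_le_ofReal ?_
          rw [← add_div]
          gcongr
          linarith [mul_pos hA0 hε]
  · push Not at hbeta
    have hS2 : S ≤ 2 * (1 + Tb + a2) := by rw [hSe]; linarith
    by_cases hcase1 : Tb ≤ 1 ∧ a2 ≤ 1
    · -- base case
      refine hfin 1 one_pos (by linarith [hcase1.1, hcase1.2]) _ ?_
      rw [hJ1]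
      have h1 := lintegral_chi_rowf_le hΘ v m hε (fun _ => 1)
        measurable_const (C₁ * Real.sqrt Real.pi * ε)
        (C₁ * Real.sqrt Real.pi * ε / 1) (by positivity) (by positivity)
        (fun s hs => weight_lin (by positivity) hone hΘ hε s hs)
        (fun s hs => weight_lin' (by positivity) hone hε 1 one_pos
          (fun a _ => by linarith [psd_nonneg hΘ (m + a)]) s hs)
      refine h1.trans (ENNReal.ofReal_le_ofReal ?_)
      refine (hsqrt _ _ A 1 (by positivity) one_pos ?_).trans ?_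
      · rw [← hc1]
        have : c1 * c1 ≤ A * A := mul_le_mul hAC1 hAC1 hc1'.le hA0.le
        calc c1 * ε * (c1 * ε / 1) = (c1 * c1) * ε ^ 2 := by ring
          _ ≤ (A * A) * ε ^ 2 := by gcongr
          _ = A ^ 2 * ε ^ 2 / 1 := by ring
      · gcongr
        norm_num
    · by_cases hcase2 : a2 ≤ Tb
      · -- case alpha
        have hTb1 : 1 < Tb := by
          by_contra hcon
          push Not at hcon
          exact hcase1 ⟨hcon, hcase2.trans hcon⟩
        refine hfin Tb (by linarith) (by linarith) _ ?_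
        rw [hJ1]
        have hTbp : 0 < Tb := by linarith
        have h1 := lintegral_chi_rowf_le hΘ v m hε (fun _ => 1)
          measurable_const (C₁ * Real.sqrt Real.pi * ε)
          (C₃ * ε / Tb) (by positivity) (by positivity)
          (fun s hs => weight_lin (by positivity) hone hΘ hε s hs)
          (fun s hs => weight_quad hQ hv (fun _ => le_rfl) hΘ hΘv hε hTbp s hs)
        refine h1.trans (ENNReal.ofReal_le_ofReal ?_)
        refine (hsqrt _ _ A Tb (by positivity) hTbp ?_).trans ?_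
        · rw [← hc1]
          calc c1 * ε * (C₃ * ε / Tb) = (c1 * C₃) * ε ^ 2 / Tb := by ring
            _ ≤ (A * A) * ε ^ 2 / Tb := by gcongr
            _ = A ^ 2 * ε ^ 2 / Tb := by ring
        · gcongr
          norm_num
      · -- case gamma
        push Not at hcase2
        have ha21 : 1 < a2 := by
          by_contra hcon
          push Not at hcon
          exact hcase1 ⟨hcase2.le.trans hcon, hcon⟩
        have ha2p : 0 < a2 := by linarith
        refine hfin a2 ha2p (by linarith) _ ?_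
        have hTb1 : 0 < Tb := by
          rcases hTb0.eq_or_lt with h0 | h0
          · have h1 := psd_le_trace (mflat_psd hΘ) m
            rw [trace_mflat, ← hTb, ← h0, zero_mul] at h1
            linarith
          · exact h0
        set R : Set (ι → ℝ) := {a | a2 < 4 * (a ⬝ᵥ (mflat Θ *ᵥ a))} with hR
        have hRm : MeasurableSet R :=
          measurableSet_lt measurable_const (measurable_const.mul (measurable_quad' _))
        have hLD : LinDens μ v m (R.indicator 1) (16 * C₁ * (mflat Θ).trace / a2) := by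
          refine linDens_quad h hD hv hloc m (mflat_psd hΘ) _ _ ha2p fun a => ?_
          by_cases haR : a ∈ R
          · have h1 : a2 < 4 * (a ⬝ᵥ (mflat Θ *ᵥ a)) := haR
            simp only [haR, Set.indicator_of_mem, Pi.one_apply]
            rw [ENNReal.one_le_ofReal, div_mul_eq_mul_div, le_div_iff₀ ha2p]
            linarith
          · simp [haR]
        rw [trace_mflat, ← hTb] at hLD
        have h1 := lintegral_chi_rowf_le hΘ v m hε (R.indicator 1)
          (measurable_one.indicator hRm) (16 * C₁ * Tb / a2 * Real.sqrt Real.pi * ε)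
          (C₃ * ε / Tb) (by positivity) (by positivity)
          (fun s hs => weight_lin (by positivity) hLD hΘ hε s hs)
          (fun s hs => weight_quad hQ hv (fun a => by
            by_cases haR : a ∈ R <;> simp [haR]) hΘ hΘv hε hTb1 s hs)
        have h1' : 8 * Real.sqrt (16 * C₁ * Tb / a2 * Real.sqrt Real.pi * ε * (C₃ * ε / Tb)) ≤
            8 * (4 * A) * ε / Real.sqrt a2 := by
          refine hsqrt _ _ (4 * A) _ (by positivity) ha2p ?_
          rw [show 16 * (C₁ : ℝ) * Tb / a2 * Real.sqrt Real.pi * ε * (C₃ * ε / Tb) =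
            16 * (c1 * C₃) * ε ^ 2 / a2 by rw [hc1]; field_simp]
          rw [show (4 * A) ^ 2 * ε ^ 2 = 16 * (A * A) * ε ^ 2 by ring]
          gcongr
        have h2 := lintegral_chi_rowf_le hΘ v m hε (Rᶜ.indicator 1)
          (measurable_one.indicator hRm.compl) (C₁ * Real.sqrt Real.pi * ε)
          (C₁ * Real.sqrt Real.pi * ε / (a2 / 4)) (by positivity) (by positivity)
          (fun s hs => weight_lin (by positivity) (hone.mono (fun a => by
            by_cases haR : a ∈ Rᶜ <;> simp [haR])) hΘ hε s hs)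
          (fun s hs => weight_lin' (by positivity) (hone.mono (fun a => by
            by_cases haR : a ∈ Rᶜ <;> simp [haR])) hε (a2 / 4) (by positivity)
            (fun a ha => by
              have haR : a ∈ Rᶜ := by
                by_contra hcon
                simp [hcon] at ha
              have h3 : 4 * (a ⬝ᵥ (mflat Θ *ᵥ a)) ≤ a2 := by
                simpa [hR] using haR
              have h4 : m ⬝ᵥ (mflat Θ *ᵥ m) ≤ 2 * ((m + a) ⬝ᵥ (mflat Θ *ᵥ (m + a))) +
                  2 * (a ⬝ᵥ (mflat Θ *ᵥ a)) := by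
                have h5 := psd_add_le (mflat_psd hΘ) (m + a) (-a)
                have h6 : m + a + -a = m := by abel
                rw [h6] at h5
                have h7 : (-a) ⬝ᵥ (mflat Θ *ᵥ (-a)) = a ⬝ᵥ (mflat Θ *ᵥ a) := by
                  rw [Matrix.mulVec_neg, neg_dotProduct_neg]
                rw [h7] at h5
                exact h5
              have h8 := dot_mflat_le hΘ (m + a)
              linarith) s hs)
        have h2' : 8 * Real.sqrt (C₁ * Real.sqrt Real.pi * ε *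
            (C₁ * Real.sqrt Real.pi * ε / (a2 / 4))) ≤ 8 * (2 * A) * ε / Real.sqrt a2 := by
          refine hsqrt _ _ (2 * A) _ (by positivity) ha2p ?_
          rw [← hc1]
          calc c1 * ε * (c1 * ε / (a2 / 4)) = 4 * (c1 * c1) * ε ^ 2 / a2 := by field_simp
            _ ≤ 4 * (A * A) * ε ^ 2 / a2 := by gcongr
            _ = (2 * A) ^ 2 * ε ^ 2 / a2 := by ring
        calc ∫⁻ a, ENNReal.ofReal (rowf Θ v m ε a) ∂(Measure.pi fun _ : ι => μ)
            = ∫⁻ a, (R.indicator 1 a * ENNReal.ofReal (rowf Θ v m ε a) +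
                Rᶜ.indicator 1 a * ENNReal.ofReal (rowf Θ v m ε a))
                ∂(Measure.pi fun _ : ι => μ) := by
              refine lintegral_congr fun a => ?_
              by_cases haR : a ∈ R <;> simp [haR]
          _ = ∫⁻ a, R.indicator 1 a * ENNReal.ofReal (rowf Θ v m ε a)
                ∂(Measure.pi fun _ : ι => μ) +
              ∫⁻ a, Rᶜ.indicator 1 a * ENNReal.ofReal (rowf Θ v m ε a)
                ∂(Measure.pi fun _ : ι => μ) := by
              rw [lintegral_add_left]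
              exact (measurable_one.indicator hRm).mul (measurable_rowf Θ v m ε).ennreal_ofReal
          _ ≤ ENNReal.ofReal (8 * (4 * A) * ε / Real.sqrt a2) +
              ENNReal.ofReal (8 * (2 * A) * ε / Real.sqrt a2) :=
              add_le_add (h1.trans (ENNReal.ofReal_le_ofReal h1'))
                (h2.trans (ENNReal.ofReal_le_ofReal h2'))
          _ ≤ ENNReal.ofReal (48 * A * ε / Real.sqrt a2) := by
              rw [← ENNReal.ofReal_add (by positivity) (by positivity)]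
              refine ENNReal.ofReal_le_ofReal ?_
              rw [← add_div]
              gcongr
              linarith [mul_pos hA0 hε]

end Row2

end Pool.Agent.SMin

end

section

/-!
Jensen's inequality for reciprocals and the final form of the row lemma.
-/

open MeasureTheory Matrix ProbabilityTheory
open scoped ENNReal NNReal

namespace Pool.Agent.SMin

theorem jensen_inv {Ω : Type*} [MeasurableSpace Ω] (P : Measure Ω) [IsProbabilityMeasure P]
    (Y : Ω → ℝ) (hYm : Measurable Y) (hY : ∀ ω, 0 < Y ω) (y0 : ℝ) (hy0 : 0 < y0)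
    (hint : ∫⁻ ω, ENNReal.ofReal (Y ω) ∂P ≤ ENNReal.ofReal y0) :
    ENNReal.ofReal (1 / y0) ≤ ∫⁻ ω, ENNReal.ofReal (1 / Y ω) ∂P := by
  have hpt : ∀ ω, ENNReal.ofReal (1 / y0) + ENNReal.ofReal (1 / y0) ≤
      ENNReal.ofReal (1 / Y ω) + ENNReal.ofReal (1 / y0 ^ 2) * ENNReal.ofReal (Y ω) := by
    intro ω
    have hp := hY ω
    rw [← ENNReal.ofReal_add (by positivity) (by positivity),
      ← ENNReal.ofReal_mul (by positivity), ← ENNReal.ofReal_add (by positivity) (by positivity)]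
    refine ENNReal.ofReal_le_ofReal ?_
    have h1 : 1 / Y ω + 1 / y0 ^ 2 * Y ω - (1 / y0 + 1 / y0) =
        (y0 - Y ω) ^ 2 / (Y ω * y0 ^ 2) := by
      field_simp
      ring
    have h2 : 0 ≤ (y0 - Y ω) ^ 2 / (Y ω * y0 ^ 2) := by positivity
    linarith
  have h1 : ENNReal.ofReal (1 / y0) + ENNReal.ofReal (1 / y0) ≤
      ∫⁻ ω, ENNReal.ofReal (1 / Y ω) ∂P + ENNReal.ofReal (1 / y0) := by
    calc ENNReal.ofReal (1 / y0) + ENNReal.ofReal (1 / y0)
        = ∫⁻ _, (ENNReal.ofReal (1 / y0) + ENNReal.ofReal (1 / y0)) ∂P := by simp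
      _ ≤ ∫⁻ ω, (ENNReal.ofReal (1 / Y ω) +
            ENNReal.ofReal (1 / y0 ^ 2) * ENNReal.ofReal (Y ω)) ∂P := lintegral_mono hpt
      _ = ∫⁻ ω, ENNReal.ofReal (1 / Y ω) ∂P +
            ENNReal.ofReal (1 / y0 ^ 2) * ∫⁻ ω, ENNReal.ofReal (Y ω) ∂P := by
          have hm1 : Measurable (fun ω => ENNReal.ofReal (1 / Y ω)) :=
            (measurable_const.div hYm).ennreal_ofReal
          rw [lintegral_add_left hm1, lintegral_const_mul _ hYm.ennreal_ofReal]
      _ ≤ ∫⁻ ω, ENNReal.ofReal (1 / Y ω) ∂P +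
            ENNReal.ofReal (1 / y0 ^ 2) * ENNReal.ofReal y0 := by gcongr
      _ = ∫⁻ ω, ENNReal.ofReal (1 / Y ω) ∂P + ENNReal.ofReal (1 / y0) := by
          rw [← ENNReal.ofReal_mul (by positivity)]
          congr 2
          field_simp
  exact (ENNReal.add_le_add_iff_right ENNReal.ofReal_ne_top).1 h1

section Row3

variable {μ : Measure ℝ} {K : ℝ≥0} {ι : Type} [Fintype ι]

/-- `φ` as a function of the row. -/
noncomputable def rowphi (Θ : Matrix ι ι ℝ) (v m : ι → ℝ) (a : ι → ℝ) : ℝ :=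
  1 / (1 + ((m + a) ⬝ᵥ v) ^ 2 * tflat Θ / 2 + (m + a) ⬝ᵥ (mflat Θ *ᵥ (m + a)))

theorem vecMulVec_psd (v : ι → ℝ) : (vecMulVec v v).PosSemidef := by
  have := Matrix.posSemidef_vecMulVec_self_star (R := ℝ) v
  simpa using this

theorem dot_vecMulVec (v a : ι → ℝ) : a ⬝ᵥ (vecMulVec v v *ᵥ a) = (a ⬝ᵥ v) ^ 2 := by
  rw [vecMulVec_mulVec]
  simp [dotProduct_smul, dotProduct_comm a v, sq]

theorem lintegral_one_add_quad (h : Law μ K) {Θ : Matrix ι ι ℝ} (hΘ : Θ.PosSemidef)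
    (m : ι → ℝ) :
    ∫⁻ a : ι → ℝ, ENNReal.ofReal (1 + (m + a) ⬝ᵥ (Θ *ᵥ (m + a))) ∂(Measure.pi fun _ : ι => μ) =
      ENNReal.ofReal (1 + (m ⬝ᵥ (Θ *ᵥ m) + Θ.trace)) := by
  have := h.prob
  have h1 : ∀ a : ι → ℝ, ENNReal.ofReal (1 + (m + a) ⬝ᵥ (Θ *ᵥ (m + a))) =
      1 + ENNReal.ofReal ((m + a) ⬝ᵥ (Θ *ᵥ (m + a))) := by
    intro a
    rw [ENNReal.ofReal_add one_pos.le (psd_nonneg hΘ _), ENNReal.ofReal_one]
  simp_rw [h1]
  rw [lintegral_add_left measurable_const, lintegral_quad h hΘ m,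
    ENNReal.ofReal_add one_pos.le (add_nonneg (psd_nonneg hΘ _) (trace_nonneg' hΘ))]
  simp

theorem rowphi_lower (h : Law μ K) {Θ : Matrix ι ι ℝ} (hΘ : Θ.PosSemidef) {v : ι → ℝ}
    (hv : v ⬝ᵥ v = 1) (m : ι → ℝ) :
    ENNReal.ofReal (2 / 3 / Skap Θ v m) ≤
      ∫⁻ a, ENNReal.ofReal (rowphi Θ v m a) ∂(Measure.pi fun _ : ι => μ) := by
  have := h.prob
  have hT := tflat_nonneg hΘ
  set Ψ : Matrix ι ι ℝ := (tflat Θ / 2) • vecMulVec v v + mflat Θ with hΨ
  have hΨp : Ψ.PosSemidef :=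
    ((vecMulVec_psd v).smul (by positivity)).add (mflat_psd hΘ)
  have hquad : ∀ x : ι → ℝ, x ⬝ᵥ (Ψ *ᵥ x) = (x ⬝ᵥ v) ^ 2 * tflat Θ / 2 +
      x ⬝ᵥ (mflat Θ *ᵥ x) := by
    intro x
    rw [hΨ, Matrix.add_mulVec, dotProduct_add, Matrix.smul_mulVec, dotProduct_smul,
      dot_vecMulVec, smul_eq_mul]
    ring
  have htr : Ψ.trace = 3 / 2 * tflat Θ := by
    rw [hΨ, Matrix.trace_add, Matrix.trace_smul, trace_vecMulVec, hv, trace_mflat, smul_eq_mul]
    ring
  set Y : (ι → ℝ) → ℝ := fun a => 1 + (m + a) ⬝ᵥ (Ψ *ᵥ (m + a)) with hY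
  have hYm : Measurable Y := measurable_const.add (measurable_quad Ψ m)
  have hYpos : ∀ a, 0 < Y a := fun a => by
    have := psd_nonneg hΨp (m + a)
    simp only [hY]
    linarith
  have hrow : ∀ a, rowphi Θ v m a = 1 / Y a := by
    intro a
    simp only [rowphi, hY, hquad]
    congr 1
    ring
  simp_rw [hrow]
  have hS : 1 + (m ⬝ᵥ (Ψ *ᵥ m) + Ψ.trace) ≤ 3 / 2 * Skap Θ v m := by
    rw [hquad, htr]
    unfold Skap
    have h1 : 0 ≤ m ⬝ᵥ (mflat Θ *ᵥ m) := psd_nonneg (mflat_psd hΘ) m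
    have h2 : 0 ≤ tflat Θ * (m ⬝ᵥ v) ^ 2 := by positivity
    nlinarith
  have hS0 : 0 < 1 + (m ⬝ᵥ (Ψ *ᵥ m) + Ψ.trace) := by
    have := psd_nonneg hΨp m
    have := trace_nonneg' hΨp
    linarith
  have hSp : 0 < Skap Θ v m := by linarith
  refine le_trans (ENNReal.ofReal_le_ofReal ?_)
    (jensen_inv _ Y hYm hYpos _ hS0 (le_of_eq (lintegral_one_add_quad h hΨp m)))
  rw [div_div, div_le_div_iff₀ (by positivity) hS0]
  linarith

theorem one_div_sqrt_le (S n : ℝ) (hS : 0 < S) (hn : 0 < n) :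
    1 / Real.sqrt S ≤ 1 / Real.sqrt n + Real.sqrt n * (1 / S) := by
  have h1 : 0 < Real.sqrt S := Real.sqrt_pos.2 hS
  have h2 : 0 < Real.sqrt n := Real.sqrt_pos.2 hn
  have h3 : Real.sqrt S * Real.sqrt S = S := Real.mul_self_sqrt hS.le
  rcases le_total (Real.sqrt n) (Real.sqrt S) with hle | hle
  · have : 1 / Real.sqrt S ≤ 1 / Real.sqrt n := one_div_le_one_div_of_le h2 hle
    have : 0 ≤ Real.sqrt n * (1 / S) := by positivity
    linarith
  · have : 1 / Real.sqrt S ≤ Real.sqrt n * (1 / S) := by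
      have h4 : 1 / Real.sqrt S = Real.sqrt S * (1 / S) := by
        rw [mul_one_div, div_eq_div_iff h1.ne' hS.ne', one_mul, h3]
      rw [h4]
      exact mul_le_mul_of_nonneg_right hle (by positivity)
    have : 0 ≤ 1 / Real.sqrt n := by positivity
    linarith

/-- The row lemma. -/
theorem row_lemma [DecidableEq ι] (h : Law μ K) {C₁ C₃ : ℝ≥0} (hD : DB μ 1 C₁) (hQ : QSB μ C₃)
    {A : ℝ} (hA1 : 1 ≤ A) (hAC1 : C₁ * Real.sqrt Real.pi ≤ A) (hAC3 : (C₃ : ℝ) ≤ A)
    (hC₁ : 0 < C₁) (hC₃ : 0 < C₃)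
    {Θ : Matrix ι ι ℝ} (hΘ : Θ.PosSemidef) {v : ι → ℝ} (hv : v ⬝ᵥ v = 1)
    (hloc : ∀ j, v j ^ 2 ≤ 3 / 4) (hΘv : Θ *ᵥ v = 0) (m : ι → ℝ) {ε : ℝ} (hε : 0 < ε)
    (n : ℝ) (hn : 0 < n) :
    ∫⁻ a, ENNReal.ofReal (rowf Θ v m ε a) ∂(Measure.pi fun _ : ι => μ) ≤
      ENNReal.ofReal (180 * A * ε) * (ENNReal.ofReal (1 / Real.sqrt n) + ENNReal.ofReal (Real.sqrt n) *
        ∫⁻ a, ENNReal.ofReal (rowphi Θ v m a) ∂(Measure.pi fun _ : ι => μ)) := by
  have h1 := row_analytic h hD hQ hA1 hAC1 hAC3 hC₁ hC₃ hΘ hv hloc hΘv m hε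
  have h2 := rowphi_lower h hΘ hv m
  have hT := tflat_nonneg hΘ
  have hSp : 0 < Skap Θ v m := by
    unfold Skap
    have h1 : 0 ≤ m ⬝ᵥ (mflat Θ *ᵥ m) := psd_nonneg (mflat_psd hΘ) m
    have h2 : 0 ≤ tflat Θ * (m ⬝ᵥ v) ^ 2 := by positivity
    linarith
  have h3 := one_div_sqrt_le _ n hSp hn
  have hsn : 0 < Real.sqrt n := Real.sqrt_pos.2 hn
  have hA0 : 0 < A := by linarith
  refine h1.trans ?_
  calc ENNReal.ofReal (120 * A * ε / Real.sqrt (Skap Θ v m))
      ≤ ENNReal.ofReal (180 * A * ε * (1 / Real.sqrt n + Real.sqrt n * (2 / 3 / Skap Θ v m))) := by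
        refine ENNReal.ofReal_le_ofReal ?_
        have h4 : 0 ≤ 1 / Real.sqrt n := by positivity
        have h5 : 120 * A * ε / Real.sqrt (Skap Θ v m) = 120 * A * ε *
          (1 / Real.sqrt (Skap Θ v m)) := by ring
        rw [h5]
        have h6 : 120 * A * ε * (1 / Real.sqrt (Skap Θ v m)) ≤
            120 * A * ε * (1 / Real.sqrt n + Real.sqrt n * (1 / Skap Θ v m)) := by gcongr
        refine h6.trans (le_of_sub_nonneg ?_)
        have h7 : 180 * A * ε * (1 / Real.sqrt n + Real.sqrt n * (2 / 3 / Skap Θ v m)) -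
            120 * A * ε * (1 / Real.sqrt n + Real.sqrt n * (1 / Skap Θ v m)) =
            60 * A * ε * (1 / Real.sqrt n) := by
          field_simp
          ring
        rw [h7]
        positivity
    _ = ENNReal.ofReal (180 * A * ε) * (ENNReal.ofReal (1 / Real.sqrt n) +
          ENNReal.ofReal (Real.sqrt n) * ENNReal.ofReal (2 / 3 / Skap Θ v m)) := by
        rw [ENNReal.ofReal_mul (p := 180 * A * ε) (by positivity),
          ENNReal.ofReal_add (by positivity) (by positivity),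
          ENNReal.ofReal_mul (p := Real.sqrt n) (by positivity)]
    _ ≤ _ := by gcongr

end Row3

end Pool.Agent.SMin

end

section

/-!
Ingredients of the pair lemma.
-/

open MeasureTheory Matrix ProbabilityTheory
open scoped ENNReal NNReal

namespace Pool.Agent.SMin

/-- The truncated square of an entry of the inverse. -/
noncomputable def gker (ε u : ℝ) : ℝ := min 1 (ε ^ 2 / u ^ 2)

theorem measurable_gker (ε : ℝ) : Measurable (gker ε) := by
  unfold gker
  exact measurable_const.min (measurable_const.div (measurable_id.pow_const 2))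

theorem gker_le_one (ε u : ℝ) : gker ε u ≤ 1 := min_le_left _ _

theorem gker_nonneg (ε u : ℝ) : 0 ≤ gker ε u := by
  unfold gker
  positivity

theorem lintegral_gker (ε : ℝ) (hε : 0 < ε) :
    ∫⁻ u : ℝ, ENNReal.ofReal (gker ε u) ≤ ENNReal.ofReal (2 * Real.pi * ε) := by
  have h1 : ∀ u : ℝ, gker ε u ≤ 2 * (1 + (ε⁻¹ * u) ^ 2)⁻¹ := by
    intro u
    unfold gker
    have hpos : 0 < 1 + (ε⁻¹ * u) ^ 2 := by positivity
    rw [← div_eq_mul_inv]
    rcases le_total (ε⁻¹ * u) 1 with hle | hle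
    · rcases le_total (-1) (ε⁻¹ * u) with hge | hge
      · refine (min_le_left _ _).trans ?_
        rw [le_div_iff₀ hpos]
        nlinarith
      · refine (min_le_right _ _).trans ?_
        have hu : u ≠ 0 := by
          intro h0
          rw [h0] at hge
          norm_num at hge
        have hu2 : 0 < u ^ 2 := by positivity
        rw [div_le_div_iff₀ hu2 hpos]
        have h2 : (ε⁻¹ * u) ^ 2 * ε ^ 2 = u ^ 2 := by field_simp
        nlinarith [sq_nonneg (ε⁻¹ * u + 1)]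
    · refine (min_le_right _ _).trans ?_
      have hu : u ≠ 0 := by
        intro h0
        rw [h0] at hle
        norm_num at hle
      have hu2 : 0 < u ^ 2 := by positivity
      rw [div_le_div_iff₀ hu2 hpos]
      have h2 : (ε⁻¹ * u) ^ 2 * ε ^ 2 = u ^ 2 := by field_simp
      nlinarith [sq_nonneg (ε⁻¹ * u - 1)]
  have hm : Measurable (fun x : ℝ => ENNReal.ofReal (2 * (1 + x ^ 2)⁻¹)) := by fun_prop
  calc ∫⁻ u : ℝ, ENNReal.ofReal (gker ε u)
      ≤ ∫⁻ u : ℝ, ENNReal.ofReal (2 * (1 + (ε⁻¹ * u + 0) ^ 2)⁻¹) := by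
        refine lintegral_mono fun u => ENNReal.ofReal_le_ofReal ?_
        rw [add_zero]
        exact h1 u
    _ = ENNReal.ofReal (ε⁻¹)⁻¹ * ∫⁻ x : ℝ, ENNReal.ofReal (2 * (1 + x ^ 2)⁻¹) :=
        lintegral_affine ε⁻¹ 0 (inv_pos.2 hε) (fun x => ENNReal.ofReal (2 * (1 + x ^ 2)⁻¹)) hm
    _ = ENNReal.ofReal ε * ENNReal.ofReal (2 * Real.pi) := by
        rw [inv_inv]
        congr 1
        rw [← ofReal_integral_eq_lintegral_ofReal (integrable_inv_one_add_sq.const_mul 2)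
          (Filter.Eventually.of_forall fun x => by positivity), integral_const_mul,
          integral_univ_inv_one_add_sq]
    _ = ENNReal.ofReal (2 * Real.pi * ε) := by
        rw [← ENNReal.ofReal_mul hε.le]
        congr 1
        ring

theorem lintegral_gker_mu {μ : Measure ℝ} {K : ℝ≥0} (hμ : μ ≤ (K : ℝ≥0∞) • volume) (ε : ℝ)
    (hε : 0 < ε) (r : ℝ) :
    ∫⁻ ξ, ENNReal.ofReal (gker ε (r + ξ)) ∂μ ≤ ENNReal.ofReal (2 * Real.pi * K * ε) := by
  calc ∫⁻ ξ, ENNReal.ofReal (gker ε (r + ξ)) ∂μ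
      ≤ ∫⁻ ξ, ENNReal.ofReal (gker ε (r + ξ)) ∂((K : ℝ≥0∞) • volume) :=
        lintegral_mono' hμ le_rfl
    _ = K * ∫⁻ ξ, ENNReal.ofReal (gker ε ξ) := by
        rw [lintegral_smul_measure,
          lintegral_add_left_eq_self (fun x => ENNReal.ofReal (gker ε x)) r, smul_eq_mul]
    _ ≤ K * ENNReal.ofReal (2 * Real.pi * ε) := by
        gcongr
        exact lintegral_gker ε hε
    _ = ENNReal.ofReal (2 * Real.pi * K * ε) := by
        rw [← ENNReal.ofReal_coe_nnreal, ← ENNReal.ofReal_mul K.coe_nonneg]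
        congr 1
        ring

section

variable {μ : Measure ℝ} {K : ℝ≥0} {ι : Type} [Fintype ι]

theorem integral_shift_sq (h : Law μ K) (r : ℝ) :
    Integrable (fun x : ℝ => (r + x) ^ 2) μ ∧ ∫ x, (r + x) ^ 2 ∂μ = r ^ 2 + 1 := by
  have := h.prob
  have e : (fun x : ℝ => (r + x) ^ 2) = fun x => r ^ 2 + 2 * r * x + x ^ 2 := by
    funext x
    ring
  have i1 : Integrable (fun x : ℝ => r ^ 2 + 2 * r * x) μ :=
    (integrable_const _).add ((int_id h).const_mul _)
  rw [e]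
  refine ⟨i1.add h.int2, ?_⟩
  rw [integral_add i1 h.int2, integral_add (integrable_const _) ((int_id h).const_mul _),
    integral_const_mul, h.mean, h.var]
  simp

theorem lintegral_shift_sq (h : Law μ K) (r : ℝ) :
    ∫⁻ x, ENNReal.ofReal ((r + x) ^ 2) ∂μ = ENNReal.ofReal (r ^ 2 + 1) := by
  obtain ⟨h1, h2⟩ := integral_shift_sq h r
  rw [← h2, ofReal_integral_eq_lintegral_ofReal h1
    (Filter.Eventually.of_forall fun x => sq_nonneg _)]

theorem integral_dot_sq (h : Law μ K) (w : ι → ℝ) (r : ℝ) :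
    Integrable (fun a : ι → ℝ => (r - a ⬝ᵥ w) ^ 2) (Measure.pi fun _ : ι => μ) ∧
      ∫ a, (r - a ⬝ᵥ w) ^ 2 ∂(Measure.pi fun _ : ι => μ) = r ^ 2 + w ⬝ᵥ w := by
  have := h.prob
  have e : (fun a : ι → ℝ => (r - a ⬝ᵥ w) ^ 2) = fun a =>
      (r ^ 2 - 2 * r * (a ⬝ᵥ w)) + ((0 : ι → ℝ) + a) ⬝ᵥ (vecMulVec w w *ᵥ ((0 : ι → ℝ) + a)) := by
    funext a
    rw [zero_add, dot_vecMulVec]
    ring
  have i0 : Integrable (fun a : ι → ℝ => a ⬝ᵥ w) (Measure.pi fun _ : ι => μ) := by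
    unfold dotProduct
    exact integrable_finsetSum _ fun i _ => (int_eval h i).mul_const _
  have i00 : ∫ a : ι → ℝ, a ⬝ᵥ w ∂(Measure.pi fun _ : ι => μ) = 0 := by
    unfold dotProduct
    rw [integral_finsetSum _ fun i _ => (int_eval h i).mul_const _]
    refine Finset.sum_eq_zero fun i _ => ?_
    rw [integral_mul_const, integral_eval_zero h i, zero_mul]
  have i1 : Integrable (fun a : ι → ℝ => r ^ 2 - 2 * r * (a ⬝ᵥ w))
      (Measure.pi fun _ : ι => μ) := (integrable_const _).sub (i0.const_mul _)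
  rw [e]
  refine ⟨i1.add (int_quad h _ _), ?_⟩
  rw [integral_add i1 (int_quad h _ _), integral_sub (integrable_const _) (i0.const_mul _),
    integral_const_mul, i00, integral_quad h, trace_vecMulVec]
  simp

theorem lintegral_dot_sq (h : Law μ K) (w : ι → ℝ) (r : ℝ) :
    ∫⁻ a, ENNReal.ofReal ((r - a ⬝ᵥ w) ^ 2) ∂(Measure.pi fun _ : ι => μ) =
      ENNReal.ofReal (r ^ 2 + w ⬝ᵥ w) := by
  obtain ⟨h1, h2⟩ := integral_dot_sq h w r
  rw [← h2, ofReal_integral_eq_lintegral_ofReal h1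
    (Filter.Eventually.of_forall fun x => sq_nonneg _)]

/-- Reciprocal of the lower bound for `φ` in the pair lemma. -/
noncomputable def Ypair (Θ : Matrix ι ι ℝ) (p w : ι → ℝ) (b0 : ℝ) (a : ι → ℝ) (ξ : ℝ) : ℝ :=
  1 + tflat Θ * (b0 + ξ - (p + a) ⬝ᵥ w) ^ 2 + 8 / 3 * ((p + a) ⬝ᵥ (mflat Θ *ᵥ (p + a)))

theorem Ypair_pos {Θ : Matrix ι ι ℝ} (hΘ : Θ.PosSemidef) (p w : ι → ℝ) (b0 : ℝ) (a : ι → ℝ)
    (ξ : ℝ) : 0 < Ypair Θ p w b0 a ξ := by
  unfold Ypair
  have h1 := tflat_nonneg hΘ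
  have h2 := psd_nonneg (mflat_psd hΘ) (p + a)
  positivity

theorem measurable_Ypair (Θ : Matrix ι ι ℝ) (p w : ι → ℝ) (b0 : ℝ) :
    Measurable (fun x : (ι → ℝ) × ℝ => Ypair Θ p w b0 x.1 x.2) := by
  unfold Ypair
  have : Continuous (fun x : (ι → ℝ) × ℝ => 1 + tflat Θ * (b0 + x.2 - (p + x.1) ⬝ᵥ w) ^ 2 +
    8 / 3 * ((p + x.1) ⬝ᵥ (mflat Θ *ᵥ (p + x.1)))) := by fun_prop
  exact this.measurable


theorem Ypair_inner (h : Law μ K) {Θ : Matrix ι ι ℝ} (hΘ : Θ.PosSemidef) (p w : ι → ℝ) (b0 : ℝ)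
    (a : ι → ℝ) : ∫⁻ ξ, ENNReal.ofReal (Ypair Θ p w b0 a ξ) ∂μ =
      ENNReal.ofReal (1 + 8 / 3 * ((p + a) ⬝ᵥ (mflat Θ *ᵥ (p + a)))) +
        ENNReal.ofReal (tflat Θ) * ENNReal.ofReal ((b0 - p ⬝ᵥ w - a ⬝ᵥ w) ^ 2 + 1) := by
  have := h.prob
  have hT := tflat_nonneg hΘ
  have hq := psd_nonneg (mflat_psd hΘ) (p + a)
  generalize hqe : (p + a) ⬝ᵥ (mflat Θ *ᵥ (p + a)) = q at *
  generalize hTe : tflat Θ = T at *
  have e : ∀ ξ : ℝ, ENNReal.ofReal (Ypair Θ p w b0 a ξ) =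
      ENNReal.ofReal (1 + 8 / 3 * q) +
      ENNReal.ofReal T * ENNReal.ofReal (((b0 - p ⬝ᵥ w - a ⬝ᵥ w) + ξ) ^ 2) := by
    intro ξ
    rw [← ENNReal.ofReal_mul hT, ← ENNReal.ofReal_add (by positivity) (by positivity)]
    congr 1
    unfold Ypair
    rw [hqe, hTe, add_dotProduct]
    ring
  calc ∫⁻ ξ, ENNReal.ofReal (Ypair Θ p w b0 a ξ) ∂μ
      = ∫⁻ ξ, (ENNReal.ofReal (1 + 8 / 3 * q) +
          ENNReal.ofReal T * ENNReal.ofReal (((b0 - p ⬝ᵥ w - a ⬝ᵥ w) + ξ) ^ 2)) ∂μ :=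
        lintegral_congr e
    _ = ENNReal.ofReal (1 + 8 / 3 * q) +
          ENNReal.ofReal T * ∫⁻ ξ, ENNReal.ofReal (((b0 - p ⬝ᵥ w - a ⬝ᵥ w) + ξ) ^ 2) ∂μ := by
        rw [lintegral_add_left measurable_const, lintegral_const_mul _ (by fun_prop)]
        simp
    _ = _ := by rw [lintegral_shift_sq h]


theorem Ypair_total (h : Law μ K) {Θ : Matrix ι ι ℝ} (hΘ : Θ.PosSemidef) (p w : ι → ℝ) (b0 : ℝ) :
    ∫⁻ x, ENNReal.ofReal (Ypair Θ p w b0 x.1 x.2) ∂((Measure.pi fun _ : ι => μ).prod μ) =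
      ENNReal.ofReal (1 + 8 / 3 * (p ⬝ᵥ (mflat Θ *ᵥ p) + tflat Θ)) +
        ENNReal.ofReal (tflat Θ) * ENNReal.ofReal ((b0 - p ⬝ᵥ w) ^ 2 + w ⬝ᵥ w + 1) := by
  have := h.prob
  have hT := tflat_nonneg hΘ
  rw [lintegral_prod _ (measurable_Ypair Θ p w b0).ennreal_ofReal.aemeasurable]
  have e1 : ∫⁻ a, ∫⁻ ξ, ENNReal.ofReal (Ypair Θ p w b0 a ξ) ∂μ ∂(Measure.pi fun _ : ι => μ) =
      ∫⁻ a, (ENNReal.ofReal (1 + 8 / 3 * ((p + a) ⬝ᵥ (mflat Θ *ᵥ (p + a)))) +
        ENNReal.ofReal (tflat Θ) * ENNReal.ofReal ((b0 - p ⬝ᵥ w - a ⬝ᵥ w) ^ 2 + 1))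
        ∂(Measure.pi fun _ : ι => μ) := lintegral_congr fun a => Ypair_inner h hΘ p w b0 a
  refine e1.trans ?_
  have hm1 : Measurable (fun a : ι → ℝ => ENNReal.ofReal ((b0 - p ⬝ᵥ w - a ⬝ᵥ w) ^ 2)) := by
    have : Continuous (fun a : ι → ℝ => (b0 - p ⬝ᵥ w - a ⬝ᵥ w) ^ 2) := by fun_prop
    exact this.measurable.ennreal_ofReal
  have hm2 : Measurable (fun a : ι → ℝ =>
      ENNReal.ofReal ((p + a) ⬝ᵥ (mflat Θ *ᵥ (p + a)))) := (measurable_quad _ _).ennreal_ofReal
  have hm3 : Measurable (fun a : ι → ℝ =>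
      ENNReal.ofReal (1 + 8 / 3 * ((p + a) ⬝ᵥ (mflat Θ *ᵥ (p + a))))) :=
    (measurable_const.add (measurable_const.mul (measurable_quad _ _))).ennreal_ofReal
  have hm4 : Measurable (fun a : ι → ℝ =>
      ENNReal.ofReal ((b0 - p ⬝ᵥ w - a ⬝ᵥ w) ^ 2 + 1)) := by
    have : Continuous (fun a : ι → ℝ => (b0 - p ⬝ᵥ w - a ⬝ᵥ w) ^ 2 + 1) := by fun_prop
    exact this.measurable.ennreal_ofReal
  rw [lintegral_add_left hm3, lintegral_const_mul _ hm4]
  have e2 : ∫⁻ a, ENNReal.ofReal (1 + 8 / 3 * ((p + a) ⬝ᵥ (mflat Θ *ᵥ (p + a))))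
      ∂(Measure.pi fun _ : ι => μ) =
      ENNReal.ofReal (1 + 8 / 3 * (p ⬝ᵥ (mflat Θ *ᵥ p) + tflat Θ)) := by
    have e3 : ∀ a : ι → ℝ, ENNReal.ofReal (1 + 8 / 3 * ((p + a) ⬝ᵥ (mflat Θ *ᵥ (p + a)))) =
        1 + ENNReal.ofReal (8 / 3) * ENNReal.ofReal ((p + a) ⬝ᵥ (mflat Θ *ᵥ (p + a))) := by
      intro a
      have hq := psd_nonneg (mflat_psd hΘ) (p + a)
      rw [ENNReal.ofReal_add one_pos.le (mul_nonneg (by norm_num) hq), ENNReal.ofReal_one,
        ENNReal.ofReal_mul (p := 8 / 3) (by norm_num)]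
    rw [lintegral_congr e3, lintegral_add_left measurable_const, lintegral_const_mul _ hm2,
      lintegral_quad h (mflat_psd hΘ), trace_mflat]
    have hz0 := psd_nonneg (mflat_psd hΘ) p
    rw [ENNReal.ofReal_add one_pos.le (mul_nonneg (by norm_num) (add_nonneg hz0 hT)),
      ENNReal.ofReal_one, ENNReal.ofReal_mul (p := 8 / 3) (by norm_num)]
    simp
  have e4 : ∫⁻ a, ENNReal.ofReal ((b0 - p ⬝ᵥ w - a ⬝ᵥ w) ^ 2 + 1)
      ∂(Measure.pi fun _ : ι => μ) = ENNReal.ofReal ((b0 - p ⬝ᵥ w) ^ 2 + w ⬝ᵥ w + 1) := by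
    have e3 : ∀ a : ι → ℝ, ENNReal.ofReal ((b0 - p ⬝ᵥ w - a ⬝ᵥ w) ^ 2 + 1) =
        ENNReal.ofReal ((b0 - p ⬝ᵥ w - a ⬝ᵥ w) ^ 2) + 1 := by
      intro a
      rw [ENNReal.ofReal_add (sq_nonneg _) one_pos.le, ENNReal.ofReal_one]
    rw [lintegral_congr e3, lintegral_add_left hm1, lintegral_dot_sq h,
      ENNReal.ofReal_add (add_nonneg (sq_nonneg _) (dot_self_nonneg w)) one_pos.le,
      ENNReal.ofReal_one]
    simp
  rw [e2, e4]

/-- Jensen for the pair lemma. -/
theorem Ypair_lower (h : Law μ K) {Θ : Matrix ι ι ℝ} (hΘ : Θ.PosSemidef) (p w : ι → ℝ) (b0 : ℝ)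
    (hw : w ⬝ᵥ w ≤ 1 / 3) :
    ENNReal.ofReal (1 / (4 * (1 + tflat Θ + p ⬝ᵥ (mflat Θ *ᵥ p) +
      tflat Θ * (b0 - p ⬝ᵥ w) ^ 2))) ≤
      ∫⁻ x, ENNReal.ofReal (1 / Ypair Θ p w b0 x.1 x.2)
        ∂((Measure.pi fun _ : ι => μ).prod μ) := by
  have := h.prob
  have hT := tflat_nonneg hΘ
  have hz0 : 0 ≤ p ⬝ᵥ (mflat Θ *ᵥ p) := psd_nonneg (mflat_psd hΘ) p
  have hww : 0 ≤ w ⬝ᵥ w := dot_self_nonneg w
  have htot := Ypair_total h hΘ p w b0
  have hle : ∫⁻ x, ENNReal.ofReal (Ypair Θ p w b0 x.1 x.2)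
      ∂((Measure.pi fun _ : ι => μ).prod μ) ≤
      ENNReal.ofReal (4 * (1 + tflat Θ + p ⬝ᵥ (mflat Θ *ᵥ p) +
      tflat Θ * (b0 - p ⬝ᵥ w) ^ 2)) := by
    rw [htot]
    generalize p ⬝ᵥ (mflat Θ *ᵥ p) = z0 at *
    generalize tflat Θ = T at *
    generalize b0 - p ⬝ᵥ w = r at *
    generalize w ⬝ᵥ w = u at *
    rw [← ENNReal.ofReal_mul hT, ← ENNReal.ofReal_add (by positivity) (by positivity)]
    refine ENNReal.ofReal_le_ofReal ?_
    nlinarith [mul_nonneg hT (sq_nonneg r), mul_le_mul_of_nonneg_left hw hT]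
  refine jensen_inv _ (fun x : (ι → ℝ) × ℝ => Ypair Θ p w b0 x.1 x.2)
    (measurable_Ypair Θ p w b0) (fun x => Ypair_pos hΘ p w b0 x.1 x.2) _ ?_ hle
  generalize p ⬝ᵥ (mflat Θ *ᵥ p) = z0 at *
  generalize tflat Θ = T at *
  positivity



/-- The form `a ↦ (p+a)·Θ(p+a)`. -/
noncomputable def qf (Θ : Matrix ι ι ℝ) (p a : ι → ℝ) : ℝ := (p + a) ⬝ᵥ (Θ *ᵥ (p + a))

theorem qf_nonneg {Θ : Matrix ι ι ℝ} (hΘ : Θ.PosSemidef) (p a : ι → ℝ) : 0 ≤ qf Θ p a :=
  psd_nonneg hΘ _

theorem measurable_qf (Θ : Matrix ι ι ℝ) (p : ι → ℝ) : Measurable (qf Θ p) :=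
  measurable_quad Θ p

theorem lintegral_gker_col [IsProbabilityMeasure μ] {C₁ : ℝ≥0} (hD : DB μ 1 C₁) {ε : ℝ}
    (hε : 0 < ε) (u q : ι → ℝ) (hu : 0 < u ⬝ᵥ u) (r : ℝ) :
    ∫⁻ c, ENNReal.ofReal (gker ε (r - u ⬝ᵥ (q + c))) ∂(Measure.pi fun _ : ι => μ) ≤
      ENNReal.ofReal (2 * Real.pi * C₁ * ε) * ENNReal.ofReal (1 / Real.sqrt (u ⬝ᵥ u)) := by
  have hneg : (-u) ⬝ᵥ (-u) = u ⬝ᵥ u := by rw [neg_dotProduct_neg]
  have h1 := lintegral_dot_le hD (-u) (by rw [hneg]; exact hu) (r - u ⬝ᵥ q)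
    (fun x => ENNReal.ofReal (gker ε x)) (measurable_gker ε).ennreal_ofReal
  rw [hneg] at h1
  calc ∫⁻ c, ENNReal.ofReal (gker ε (r - u ⬝ᵥ (q + c))) ∂(Measure.pi fun _ : ι => μ)
      = ∫⁻ c, ENNReal.ofReal (gker ε (r - u ⬝ᵥ q + (-u) ⬝ᵥ c))
          ∂(Measure.pi fun _ : ι => μ) := by
        refine lintegral_congr fun c => ?_
        congr 2
        rw [dotProduct_add, neg_dotProduct]
        ring
    _ ≤ ENNReal.ofReal (C₁ / Real.sqrt (u ⬝ᵥ u)) * ∫⁻ x, ENNReal.ofReal (gker ε x) := h1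
    _ ≤ ENNReal.ofReal (C₁ / Real.sqrt (u ⬝ᵥ u)) * ENNReal.ofReal (2 * Real.pi * ε) := by
        gcongr
        exact lintegral_gker ε hε
    _ = _ := by
        have hpos : 0 < Real.sqrt (u ⬝ᵥ u) := Real.sqrt_pos.2 hu
        rw [← ENNReal.ofReal_mul (by positivity), ← ENNReal.ofReal_mul (by positivity)]
        congr 1
        ring

theorem exp_small (C₂ : ℝ≥0) (hQ2 : QSB2 μ C₂) [DecidableEq ι] {Θ : Matrix ι ι ℝ}
    (hΘ : Θ.PosSemidef) (p : ι → ℝ) (s : ℝ) (hs : 0 < s) :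
    ENNReal.ofReal (tflat Θ) * ∫⁻ a, ENNReal.ofReal (Real.exp (1 - s * qf Θ p a))
      ∂(Measure.pi fun _ : ι => μ) ≤ ENNReal.ofReal (3 * C₂) * ENNReal.ofReal (1 / s) := by
  have h1 := hQ2 ι Θ p (1 / s) hΘ (by positivity)
  have e : ∀ a : ι → ℝ, ENNReal.ofReal (Real.exp (1 - s * qf Θ p a)) =
      ENNReal.ofReal (Real.exp 1) * ENNReal.ofReal
        (Real.exp (-((p + a) ⬝ᵥ (Θ *ᵥ (p + a))) / (1 / s))) := by
    intro a
    rw [← ENNReal.ofReal_mul (Real.exp_pos _).le, ← Real.exp_add]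
    congr 2
    unfold qf
    field_simp
    ring
  have hm : Measurable (fun a : ι → ℝ => ENNReal.ofReal
        (Real.exp (-((p + a) ⬝ᵥ (Θ *ᵥ (p + a))) / (1 / s)))) :=
    (((measurable_quad Θ p).neg.div_const _).exp).ennreal_ofReal
  rw [lintegral_congr e, lintegral_const_mul _ hm, mul_left_comm]
  calc ENNReal.ofReal (Real.exp 1) * (ENNReal.ofReal (tflat Θ) * ∫⁻ a, ENNReal.ofReal
        (Real.exp (-((p + a) ⬝ᵥ (Θ *ᵥ (p + a))) / (1 / s))) ∂(Measure.pi fun _ : ι => μ))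
      ≤ ENNReal.ofReal 3 * (C₂ * ENNReal.ofReal (1 / s)) := by
        gcongr
        have := Real.exp_one_lt_d9
        linarith
    _ = _ := by
        rw [← mul_assoc, ENNReal.ofReal_mul (p := 3) (by norm_num), ENNReal.ofReal_coe_nnreal]

theorem prob_small (C₂ : ℝ≥0) (hQ2 : QSB2 μ C₂) [DecidableEq ι] {Θ : Matrix ι ι ℝ}
    (hΘ : Θ.PosSemidef) (p : ι → ℝ) :
    ENNReal.ofReal (tflat Θ) * (Measure.pi fun _ : ι => μ) {a | qf Θ p a < 1 / 3} ≤
      ENNReal.ofReal (3 * C₂) := by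
  have h1 := exp_small C₂ hQ2 hΘ p 1 one_pos
  rw [div_one, ENNReal.ofReal_one, mul_one] at h1
  refine le_trans ?_ h1
  gcongr
  have hm : MeasurableSet {a | qf Θ p a < 1 / 3} :=
    measurableSet_lt (measurable_qf Θ p) measurable_const
  rw [← lintegral_indicator_one hm]
  refine lintegral_mono fun a => ?_
  by_cases ha : a ∈ {a | qf Θ p a < 1 / 3}
  · rw [Set.indicator_of_mem ha, Pi.one_apply, ENNReal.one_le_ofReal]
    have : qf Θ p a < 1 / 3 := ha
    refine Real.one_le_exp ?_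
    linarith
  · rw [Set.indicator_of_notMem ha]
    exact zero_le

/-- The majorant of `1/|z|`. -/
noncomputable def Wf (q : ℝ) : ℝ≥0∞ := ∫⁻ s in Set.Ioi (1 : ℝ), ENNReal.ofReal (Real.exp (1 - s ^ 2 * q))

theorem Wf_zero : Wf 0 = ⊤ := by
  unfold Wf
  simp only [mul_zero, sub_zero]
  rw [lintegral_const, Measure.restrict_apply_univ, Real.volume_Ioi]
  exact ENNReal.mul_top (by simp [Real.exp_pos])

theorem le_Wf (q : ℝ) (hq : 0 < q) (hq3 : q < 1 / 3) :
    ENNReal.ofReal (1 / Real.sqrt q) ≤ 3 * Wf q := by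
  have hs : 0 < Real.sqrt q := Real.sqrt_pos.2 hq
  have hs2 : Real.sqrt q * Real.sqrt q = q := Real.mul_self_sqrt hq.le
  set U := 1 / Real.sqrt q with hU
  have hU1 : 3 / 2 ≤ U := by
    rw [hU, le_div_iff₀ hs]
    have : Real.sqrt q ≤ 2 / 3 := by
      rw [show (2 / 3 : ℝ) = Real.sqrt ((2 / 3) ^ 2) by rw [Real.sqrt_sq (by norm_num)]]
      exact Real.sqrt_le_sqrt (by linarith)
    linarith
  have hUq : U ^ 2 * q = 1 := by
    rw [hU, div_pow, one_pow, sq, hs2]
    field_simp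
  have h1 : ENNReal.ofReal (U - 1) ≤ Wf q := by
    calc ENNReal.ofReal (U - 1) = ∫⁻ _ in Set.Ioc 1 U, 1 := by
          rw [lintegral_const, Measure.restrict_apply_univ, Real.volume_Ioc, one_mul]
      _ ≤ ∫⁻ s in Set.Ioc 1 U, ENNReal.ofReal (Real.exp (1 - s ^ 2 * q)) := by
          refine setLIntegral_mono' measurableSet_Ioc fun s hs => ?_
          rw [ENNReal.one_le_ofReal]
          refine Real.one_le_exp ?_
          have h2 : s ^ 2 ≤ U ^ 2 := by
            have := hs.1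
            exact pow_le_pow_left₀ (by linarith) hs.2 2
          nlinarith
      _ ≤ Wf q := lintegral_mono_set Set.Ioc_subset_Ioi_self
  calc ENNReal.ofReal U ≤ ENNReal.ofReal (3 * (U - 1)) :=
        ENNReal.ofReal_le_ofReal (by linarith)
    _ = 3 * ENNReal.ofReal (U - 1) := by
        rw [ENNReal.ofReal_mul (by norm_num)]
        simp
    _ ≤ 3 * Wf q := by gcongr

theorem lintegral_inv_sq_Ioi : ∫⁻ s in Set.Ioi (1 : ℝ), ENNReal.ofReal (1 / s ^ 2) = 1 := by
  have h1 : ∀ s ∈ Set.Ioi (1 : ℝ), ENNReal.ofReal (1 / s ^ 2) =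
      ENNReal.ofReal (s ^ (-2 : ℝ)) := by
    intro s hs
    have hs0 : 0 < s := lt_trans one_pos hs
    congr 1
    rw [Real.rpow_neg hs0.le, one_div]
    norm_cast
  rw [setLIntegral_congr_fun measurableSet_Ioi h1,
    ← ofReal_integral_eq_lintegral_ofReal (integrableOn_Ioi_rpow_of_lt (by norm_num) one_pos)
    ((ae_restrict_iff' measurableSet_Ioi).2 (Filter.Eventually.of_forall fun x hx =>
      Real.rpow_nonneg (lt_trans one_pos hx).le _)), integral_Ioi_rpow_of_lt (by norm_num) one_pos]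
  norm_num

theorem measurable_Wf_qf [IsProbabilityMeasure μ] (Θ : Matrix ι ι ℝ) (p : ι → ℝ) :
    Measurable (fun a : ι → ℝ => Wf (qf Θ p a)) := by
  unfold Wf
  refine Measurable.lintegral_prod_right' (f := fun x : (ι → ℝ) × ℝ =>
    ENNReal.ofReal (Real.exp (1 - x.2 ^ 2 * qf Θ p x.1))) ?_
  exact (measurable_const.sub ((measurable_snd.pow_const 2).mul
    ((measurable_qf Θ p).comp measurable_fst))).exp.ennreal_ofReal

theorem lintegral_Wf (C₂ : ℝ≥0) (hQ2 : QSB2 μ C₂) [IsProbabilityMeasure μ] [DecidableEq ι]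
    {Θ : Matrix ι ι ℝ} (hΘ : Θ.PosSemidef) (p : ι → ℝ) :
    ENNReal.ofReal (tflat Θ) * ∫⁻ a, Wf (qf Θ p a) ∂(Measure.pi fun _ : ι => μ) ≤
      ENNReal.ofReal (3 * C₂) := by
  have hm : Measurable (fun x : (ι → ℝ) × ℝ =>
      ENNReal.ofReal (Real.exp (1 - x.2 ^ 2 * qf Θ p x.1))) :=
    (measurable_const.sub ((measurable_snd.pow_const 2).mul
    ((measurable_qf Θ p).comp measurable_fst))).exp.ennreal_ofReal
  have hsw : ∫⁻ a, Wf (qf Θ p a) ∂(Measure.pi fun _ : ι => μ) =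
      ∫⁻ s in Set.Ioi (1 : ℝ), (∫⁻ a, ENNReal.ofReal (Real.exp (1 - s ^ 2 * qf Θ p a))
        ∂(Measure.pi fun _ : ι => μ)) := by
    unfold Wf
    rw [lintegral_lintegral_swap]
    exact hm.aemeasurable
  rw [hsw, ← lintegral_const_mul' _ _ ENNReal.ofReal_ne_top]
  calc ∫⁻ s in Set.Ioi (1 : ℝ), (ENNReal.ofReal (tflat Θ) *
        ∫⁻ a, ENNReal.ofReal (Real.exp (1 - s ^ 2 * qf Θ p a)) ∂(Measure.pi fun _ : ι => μ))
      ≤ ∫⁻ s in Set.Ioi (1 : ℝ), ENNReal.ofReal (3 * C₂) * ENNReal.ofReal (1 / s ^ 2) := by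
        refine setLIntegral_mono' measurableSet_Ioi fun s hs => ?_
        have hs0 : 0 < s := lt_trans one_pos hs
        exact exp_small C₂ hQ2 hΘ p (s ^ 2) (by positivity)
    _ = ENNReal.ofReal (3 * C₂) := by
        rw [lintegral_const_mul' _ _ ENNReal.ofReal_ne_top, lintegral_inv_sq_Ioi, mul_one]

theorem prob_mul_z0 (h : Law μ K) {Θ : Matrix ι ι ℝ} (hΘ : Θ.PosSemidef) (p : ι → ℝ) :
    (Measure.pi fun _ : ι => μ) {a | qf Θ p a < 1 / 3} * ENNReal.ofReal (p ⬝ᵥ (mflat Θ *ᵥ p)) ≤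
      (Measure.pi fun _ : ι => μ) {a | qf Θ p a < 1 / 3} + ENNReal.ofReal (2 * tflat Θ) := by
  have := h.prob
  have hm : MeasurableSet {a | qf Θ p a < 1 / 3} :=
    measurableSet_lt (measurable_qf Θ p) measurable_const
  have hm2 : Measurable (fun a : ι → ℝ => 2 * ENNReal.ofReal (a ⬝ᵥ (mflat Θ *ᵥ a))) :=
    measurable_const.mul (measurable_quad' _).ennreal_ofReal
  calc (Measure.pi fun _ : ι => μ) {a | qf Θ p a < 1 / 3} * ENNReal.ofReal (p ⬝ᵥ (mflat Θ *ᵥ p))
      = ∫⁻ a, ({a | qf Θ p a < 1 / 3} : Set (ι → ℝ)).indicator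
          (fun _ => ENNReal.ofReal (p ⬝ᵥ (mflat Θ *ᵥ p))) a ∂(Measure.pi fun _ : ι => μ) := by
        rw [lintegral_indicator_const hm, mul_comm]
    _ ≤ ∫⁻ a, (({a | qf Θ p a < 1 / 3} : Set (ι → ℝ)).indicator 1 a +
          2 * ENNReal.ofReal (a ⬝ᵥ (mflat Θ *ᵥ a))) ∂(Measure.pi fun _ : ι => μ) := by
        refine lintegral_mono fun a => ?_
        by_cases ha : a ∈ {a | qf Θ p a < 1 / 3}
        · rw [Set.indicator_of_mem ha, Set.indicator_of_mem ha, Pi.one_apply]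
          have h1 : qf Θ p a < 1 / 3 := ha
          have h4 : p ⬝ᵥ (mflat Θ *ᵥ p) ≤ 2 * ((p + a) ⬝ᵥ (mflat Θ *ᵥ (p + a))) +
              2 * (a ⬝ᵥ (mflat Θ *ᵥ a)) := by
            have h5 := psd_add_le (mflat_psd hΘ) (p + a) (-a)
            have h6 : p + a + -a = p := by abel
            rw [h6] at h5
            have h7 : (-a) ⬝ᵥ (mflat Θ *ᵥ (-a)) = a ⬝ᵥ (mflat Θ *ᵥ a) := by
              rw [Matrix.mulVec_neg, neg_dotProduct_neg]
            rw [h7] at h5
            exact h5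
          have h8 : (p + a) ⬝ᵥ (mflat Θ *ᵥ (p + a)) ≤ qf Θ p a := dot_mflat_le hΘ (p + a)
          have h9 : p ⬝ᵥ (mflat Θ *ᵥ p) ≤ 1 + 2 * (a ⬝ᵥ (mflat Θ *ᵥ a)) := by linarith
          refine (ENNReal.ofReal_le_ofReal h9).trans ?_
          refine ENNReal.ofReal_add_le.trans (le_of_eq ?_)
          rw [ENNReal.ofReal_one, ENNReal.ofReal_mul (by norm_num)]
          simp
        · rw [Set.indicator_of_notMem ha]
          exact zero_le
    _ = _ := by
        rw [lintegral_add_right _ hm2, lintegral_indicator_one hm,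
          lintegral_const_mul _ (measurable_quad' _).ennreal_ofReal,
          lintegral_quad' h (mflat_psd hΘ), trace_mflat,
          ENNReal.ofReal_mul (p := 2) (by norm_num)]
        simp

end

end Pool.Agent.SMin

end

section

/-!
The analytic pair lemma.
-/

open MeasureTheory Matrix ProbabilityTheory
open scoped ENNReal NNReal

namespace Pool.Agent.SMin

section Pair

variable {μ : Measure ℝ} {K : ℝ≥0} {ι : Type} [Fintype ι]

/-- The kernel of the pair lemma. -/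
noncomputable def Gk (G : Matrix ι ι ℝ) (p q : ι → ℝ) (b0 ε : ℝ) (c a : ι → ℝ) (ξ : ℝ) : ℝ≥0∞ :=
  ENNReal.ofReal (gker ε (b0 + ξ - (p + a) ⬝ᵥ (G *ᵥ (q + c))))

theorem measurable_Gk (G : Matrix ι ι ℝ) (p q : ι → ℝ) (b0 ε : ℝ) :
    Measurable (fun x : (ι → ℝ) × ((ι → ℝ) × ℝ) => Gk G p q b0 ε x.1 x.2.1 x.2.2) := by
  unfold Gk
  have : Continuous (fun x : (ι → ℝ) × ((ι → ℝ) × ℝ) =>
    b0 + x.2.2 - (p + x.2.1) ⬝ᵥ (G *ᵥ (q + x.1))) := by fun_prop
  exact ((measurable_gker ε).comp this.measurable).ennreal_ofReal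

theorem measurable_Gk' (G : Matrix ι ι ℝ) (p q : ι → ℝ) (b0 ε : ℝ) (c : ι → ℝ) :
    Measurable (fun x : (ι → ℝ) × ℝ => Gk G p q b0 ε c x.1 x.2) := by
  unfold Gk
  have : Continuous (fun x : (ι → ℝ) × ℝ =>
    b0 + x.2 - (p + x.1) ⬝ᵥ (G *ᵥ (q + c))) := by fun_prop
  exact ((measurable_gker ε).comp this.measurable).ennreal_ofReal

theorem measurable_Gk'' (G : Matrix ι ι ℝ) (p q : ι → ℝ) (b0 ε : ℝ) (c a : ι → ℝ) :
    Measurable (fun ξ : ℝ => Gk G p q b0 ε c a ξ) := by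
  unfold Gk
  have : Continuous (fun ξ : ℝ =>
    b0 + ξ - (p + a) ⬝ᵥ (G *ᵥ (q + c))) := by fun_prop
  exact ((measurable_gker ε).comp this.measurable).ennreal_ofReal

theorem measurable_Gk_col (G : Matrix ι ι ℝ) (p q : ι → ℝ) (b0 ε : ℝ) (a : ι → ℝ) (ξ : ℝ) :
    Measurable (fun c : ι → ℝ => Gk G p q b0 ε c a ξ) := by
  unfold Gk
  have : Continuous (fun c : ι → ℝ =>
    b0 + ξ - (p + a) ⬝ᵥ (G *ᵥ (q + c))) := by fun_prop
  exact ((measurable_gker ε).comp this.measurable).ennreal_ofReal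

theorem Gk_le_one (G : Matrix ι ι ℝ) (p q : ι → ℝ) (b0 ε : ℝ) (c a : ι → ℝ) (ξ : ℝ) :
    Gk G p q b0 ε c a ξ ≤ 1 := by
  unfold Gk
  rw [ENNReal.ofReal_le_one]
  exact gker_le_one _ _

theorem int_mul_G (h : Law μ K) (G : Matrix ι ι ℝ) (p q : ι → ℝ) (b0 : ℝ) {ε : ℝ} (hε : 0 < ε)
    (c : ι → ℝ) (g : (ι → ℝ) → ℝ≥0∞) (hg : Measurable g) :
    ∫⁻ x, g x.1 * Gk G p q b0 ε c x.1 x.2 ∂((Measure.pi fun _ : ι => μ).prod μ) ≤
      (∫⁻ a, g a ∂(Measure.pi fun _ : ι => μ)) * ENNReal.ofReal (2 * Real.pi * K * ε) := by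
  have := h.prob
  have hmm : Measurable (fun x : (ι → ℝ) × ℝ => g x.1 * Gk G p q b0 ε c x.1 x.2) :=
    (hg.comp measurable_fst).mul (measurable_Gk' G p q b0 ε c)
  calc ∫⁻ x, g x.1 * Gk G p q b0 ε c x.1 x.2 ∂((Measure.pi fun _ : ι => μ).prod μ)
      = ∫⁻ a, ∫⁻ ξ, g a * Gk G p q b0 ε c a ξ ∂μ ∂(Measure.pi fun _ : ι => μ) :=
        lintegral_prod _ hmm.aemeasurable
    _ ≤ ∫⁻ a, g a * ENNReal.ofReal (2 * Real.pi * K * ε) ∂(Measure.pi fun _ : ι => μ) := by
        refine lintegral_mono fun a => ?_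
        simp only
        rw [lintegral_const_mul _ (measurable_Gk'' G p q b0 ε c a)]
        refine mul_le_mul' le_rfl ?_
        have h1 := lintegral_gker_mu h.dens ε hε (b0 - (p + a) ⬝ᵥ (G *ᵥ (q + c)))
        refine le_trans (le_of_eq (lintegral_congr fun ξ => ?_)) h1
        unfold Gk
        congr 2
        ring
    _ = _ := lintegral_mul_const _ hg

/-- The quantity `w` as a function of the column. -/
noncomputable def wsq (G : Matrix ι ι ℝ) (q c : ι → ℝ) : ℝ :=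
  (G *ᵥ (q + c)) ⬝ᵥ (G *ᵥ (q + c))

theorem measurable_wsq (G : Matrix ι ι ℝ) (q : ι → ℝ) : Measurable (wsq G q) := by
  unfold wsq
  have : Continuous (fun c : ι → ℝ => (G *ᵥ (q + c)) ⬝ᵥ (G *ᵥ (q + c))) := by fun_prop
  exact this.measurable

theorem gram_psd (G : Matrix ι ι ℝ) : (G * Gᵀ).PosSemidef := by
  have := Matrix.posSemidef_self_mul_conjTranspose (R := ℝ) G
  rwa [Matrix.conjTranspose_eq_transpose_of_trivial] at this

theorem dot_gram (G : Matrix ι ι ℝ) (p a : ι → ℝ) :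
    (Gᵀ *ᵥ (p + a)) ⬝ᵥ (Gᵀ *ᵥ (p + a)) = qf (G * Gᵀ) p a := by
  unfold qf
  rw [← Matrix.mulVec_mulVec, Matrix.dotProduct_mulVec (p + a), Matrix.mulVec_transpose]

theorem dot_G (G : Matrix ι ι ℝ) (p q a c : ι → ℝ) :
    (p + a) ⬝ᵥ (G *ᵥ (q + c)) = (Gᵀ *ᵥ (p + a)) ⬝ᵥ (q + c) := by
  rw [Matrix.dotProduct_mulVec, Matrix.mulVec_transpose]

/-- Integration over the column for fixed row. -/
theorem int_col [IsProbabilityMeasure μ] {C₁ : ℝ≥0} (hD : DB μ 1 C₁) (hC₁ : 0 < C₁)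
    (G : Matrix ι ι ℝ) (p q : ι → ℝ) (b0 : ℝ) {ε : ℝ} (hε : 0 < ε) (a : ι → ℝ) (ξ : ℝ)
    (ha : qf (G * Gᵀ) p a < 1 / 3) :
    ∫⁻ c, Gk G p q b0 ε c a ξ ∂(Measure.pi fun _ : ι => μ) ≤
      ENNReal.ofReal (6 * Real.pi * C₁ * ε) * Wf (qf (G * Gᵀ) p a) := by
  have hC : (0 : ℝ) < C₁ := hC₁
  rcases (qf_nonneg (gram_psd G) p a).eq_or_lt with h0 | h0
  · rw [← h0, Wf_zero, ENNReal.mul_top]
    · exact le_top
    · have : 0 < 6 * Real.pi * C₁ * ε := by positivity
      simpa using this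
  · have h1 := lintegral_gker_col hD hε (Gᵀ *ᵥ (p + a)) q (by rw [dot_gram]; exact h0) (b0 + ξ)
    rw [dot_gram] at h1
    calc ∫⁻ c, Gk G p q b0 ε c a ξ ∂(Measure.pi fun _ : ι => μ)
        = ∫⁻ c, ENNReal.ofReal (gker ε (b0 + ξ - (Gᵀ *ᵥ (p + a)) ⬝ᵥ (q + c)))
            ∂(Measure.pi fun _ : ι => μ) := by
          refine lintegral_congr fun c => ?_
          unfold Gk
          rw [dot_G]
      _ ≤ ENNReal.ofReal (2 * Real.pi * C₁ * ε) *
            ENNReal.ofReal (1 / Real.sqrt (qf (G * Gᵀ) p a)) := h1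
      _ ≤ ENNReal.ofReal (2 * Real.pi * C₁ * ε) * (3 * Wf (qf (G * Gᵀ) p a)) := by
          gcongr
          exact le_Wf _ h0 ha
      _ = _ := by
          rw [← mul_assoc]
          congr 1
          rw [show (3 : ℝ≥0∞) = ENNReal.ofReal 3 by simp, ← ENNReal.ofReal_mul (by positivity)]
          congr 1
          ring

/-- Pointwise decomposition. -/
theorem pointwise_split {ε ℓ : ℝ} (hℓ : 0 < ℓ) (G : Matrix ι ι ℝ) (p q : ι → ℝ)
    (b0 : ℝ) (c a : ι → ℝ) (ξ : ℝ) (hc : ℓ < (b0 - p ⬝ᵥ (G *ᵥ (q + c))) ^ 2) :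
    Gk G p q b0 ε c a ξ ≤
      ENNReal.ofReal (4 / ℓ * (a ⬝ᵥ (G *ᵥ (q + c))) ^ 2) * Gk G p q b0 ε c a ξ +
      (ENNReal.ofReal (16 * ε ^ 2 / ℓ) + ENNReal.ofReal (16 / ℓ * ξ ^ 2) * Gk G p q b0 ε c a ξ) := by
  set w := G *ᵥ (q + c) with hw
  set Y := (p + a) ⬝ᵥ w - b0 with hY
  have hYe : b0 - p ⬝ᵥ w = a ⬝ᵥ w - Y := by
    rw [hY, add_dotProduct]
    ring
  by_cases h1 : Y ^ 2 < ℓ / 4
  · -- the first term
    have h2 : ℓ / 4 ≤ (a ⬝ᵥ w) ^ 2 := by
      rw [hYe] at hc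
      nlinarith [sq_nonneg (a ⬝ᵥ w + Y)]
    refine le_trans ?_ (le_add_right le_rfl)
    have h3 : (1 : ℝ≥0∞) ≤ ENNReal.ofReal (4 / ℓ * (a ⬝ᵥ w) ^ 2) := by
      rw [ENNReal.one_le_ofReal, div_mul_eq_mul_div, le_div_iff₀ hℓ]
      linarith
    calc Gk G p q b0 ε c a ξ = 1 * Gk G p q b0 ε c a ξ := (one_mul _).symm
      _ ≤ _ := by gcongr
  · push Not at h1
    refine le_trans ?_ (le_add_left le_rfl)
    by_cases h2 : 4 * ξ ^ 2 ≤ Y ^ 2
    · refine le_trans ?_ (le_add_right le_rfl)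
      unfold Gk
      refine ENNReal.ofReal_le_ofReal ((min_le_right _ _).trans ?_)
      have h3 : b0 + ξ - (p + a) ⬝ᵥ w = ξ - Y := by rw [hY]; ring
      rw [← hw, h3]
      have h4 : ℓ / 16 ≤ (ξ - Y) ^ 2 := by
        have h5 : Y ^ 2 / 4 ≤ (ξ - Y) ^ 2 := by
          have h6 : |ξ| ≤ |Y| / 2 := by
            rw [← Real.sqrt_sq_eq_abs, ← Real.sqrt_sq_eq_abs,
              show Real.sqrt (Y ^ 2) / 2 = Real.sqrt (Y ^ 2 / 4) by
                rw [Real.sqrt_div (sq_nonneg Y), show (4 : ℝ) = 2 ^ 2 by norm_num,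
                  Real.sqrt_sq (by norm_num : (0 : ℝ) ≤ 2)]]
            exact Real.sqrt_le_sqrt (by linarith)
          have h7 : |Y| / 2 ≤ |ξ - Y| := by
            have h70 := abs_sub_abs_le_abs_sub Y ξ
            have h71 : |Y - ξ| = |ξ - Y| := abs_sub_comm Y ξ
            linarith
          have h8 : (|Y| / 2) ^ 2 ≤ |ξ - Y| ^ 2 := pow_le_pow_left₀ (by positivity) h7 2
          rw [sq_abs, div_pow, sq_abs] at h8
          linarith
        linarith
      have h5 : 0 < (ξ - Y) ^ 2 := by linarith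
      rw [div_le_div_iff₀ h5 hℓ]
      nlinarith [sq_nonneg ε]
    · push Not at h2
      refine le_trans ?_ (le_add_left le_rfl)
      have h3 : (1 : ℝ≥0∞) ≤ ENNReal.ofReal (16 / ℓ * ξ ^ 2) := by
        rw [ENNReal.one_le_ofReal, div_mul_eq_mul_div, le_div_iff₀ hℓ]
        linarith
      calc Gk G p q b0 ε c a ξ = 1 * Gk G p q b0 ε c a ξ := (one_mul _).symm
        _ ≤ _ := by gcongr

end Pair

end Pool.Agent.SMin

end

section

/-!
The analytic pair lemma: final estimate.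
-/

open MeasureTheory Matrix ProbabilityTheory
open scoped ENNReal NNReal

namespace Pool.Agent.SMin

section Pair2

variable {μ : Measure ℝ} {K : ℝ≥0} {ι : Type} [Fintype ι]

/-- Rows for which `|z|² < 1/3`. -/
def Zs (G : Matrix ι ι ℝ) (p : ι → ℝ) : Set (ι → ℝ) := {a | qf (G * Gᵀ) p a < 1 / 3}

/-- Columns for which `|w|² < 1/3`. -/
def Ws (G : Matrix ι ι ℝ) (q : ι → ℝ) : Set (ι → ℝ) := {c | wsq G q c < 1 / 3}

/-- Indicator of `Zs`. -/
noncomputable def iZ (G : Matrix ι ι ℝ) (p : ι → ℝ) : (ι → ℝ) → ℝ≥0∞ := (Zs G p).indicator 1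

/-- Indicator of `Ws`. -/
noncomputable def iW (G : Matrix ι ι ℝ) (q : ι → ℝ) : (ι → ℝ) → ℝ≥0∞ := (Ws G q).indicator 1

theorem measurableSet_Zs (G : Matrix ι ι ℝ) (p : ι → ℝ) : MeasurableSet (Zs G p) :=
  measurableSet_lt (measurable_qf _ p) measurable_const

theorem measurableSet_Ws (G : Matrix ι ι ℝ) (q : ι → ℝ) : MeasurableSet (Ws G q) :=
  measurableSet_lt (measurable_wsq G q) measurable_const

theorem measurable_iZ (G : Matrix ι ι ℝ) (p : ι → ℝ) : Measurable (iZ G p) :=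
  measurable_one.indicator (measurableSet_Zs G p)

theorem measurable_iW (G : Matrix ι ι ℝ) (q : ι → ℝ) : Measurable (iW G q) :=
  measurable_one.indicator (measurableSet_Ws G q)

theorem iZ_le_one (G : Matrix ι ι ℝ) (p a : ι → ℝ) : iZ G p a ≤ 1 := by
  unfold iZ
  by_cases ha : a ∈ Zs G p <;> simp [ha]

theorem lintegral_iZ (G : Matrix ι ι ℝ) (p : ι → ℝ) :
    ∫⁻ a, iZ G p a ∂(Measure.pi fun _ : ι => μ) = (Measure.pi fun _ : ι => μ) (Zs G p) :=
  lintegral_indicator_one (measurableSet_Zs G p)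

theorem lintegral_iW (G : Matrix ι ι ℝ) (q : ι → ℝ) :
    ∫⁻ a, iW G q a ∂(Measure.pi fun _ : ι => μ) = (Measure.pi fun _ : ι => μ) (Ws G q) :=
  lintegral_indicator_one (measurableSet_Ws G q)

/-- The inner integral on the left. -/
noncomputable def Jc (μ : Measure ℝ) (G : Matrix ι ι ℝ) (p q : ι → ℝ) (b0 ε : ℝ) (c : ι → ℝ) :
    ℝ≥0∞ :=
  ∫⁻ x, iZ G p x.1 * Gk G p q b0 ε c x.1 x.2 ∂((Measure.pi fun _ : ι => μ).prod μ)

/-- The inner integral on the right. -/
noncomputable def Φc (μ : Measure ℝ) (G : Matrix ι ι ℝ) (p q : ι → ℝ) (b0 : ℝ) (c : ι → ℝ) :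
    ℝ≥0∞ :=
  ∫⁻ x, ENNReal.ofReal (1 / Ypair (G * Gᵀ) p (G *ᵥ (q + c)) b0 x.1 x.2)
    ∂((Measure.pi fun _ : ι => μ).prod μ)

theorem measurable_Φc [SFinite μ] (G : Matrix ι ι ℝ) (p q : ι → ℝ) (b0 : ℝ)
    [SFinite (Measure.pi fun _ : ι => μ)] :
    Measurable (Φc μ G p q b0) := by
  unfold Φc
  refine Measurable.lintegral_prod_right' (f := fun y : (ι → ℝ) × ((ι → ℝ) × ℝ) =>
    ENNReal.ofReal (1 / Ypair (G * Gᵀ) p (G *ᵥ (q + y.1)) b0 y.2.1 y.2.2)) ?_
  unfold Ypair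
  have : Continuous (fun y : (ι → ℝ) × ((ι → ℝ) × ℝ) =>
    1 + tflat (G * Gᵀ) * (b0 + y.2.2 - (p + y.2.1) ⬝ᵥ (G *ᵥ (q + y.1))) ^ 2 +
      8 / 3 * ((p + y.2.1) ⬝ᵥ (mflat (G * Gᵀ) *ᵥ (p + y.2.1)))) := by fun_prop
  exact (measurable_const.div this.measurable).ennreal_ofReal

theorem Jc_le (h : Law μ K) (G : Matrix ι ι ℝ) (p q : ι → ℝ) (b0 : ℝ) {ε : ℝ} (hε : 0 < ε)
    (c : ι → ℝ) : Jc μ G p q b0 ε c ≤
      (Measure.pi fun _ : ι => μ) (Zs G p) * ENNReal.ofReal (2 * Real.pi * K * ε) := by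
  have h1 := int_mul_G h G p q b0 hε c (iZ G p) (measurable_iZ G p)
  rw [lintegral_iZ] at h1
  exact h1

/-- The third and fourth pieces of the inner integral. -/
noncomputable def J4 (μ : Measure ℝ) (G : Matrix ι ι ℝ) (p q : ι → ℝ) (b0 ε ℓ : ℝ) (c : ι → ℝ) :
    ℝ≥0∞ :=
  ∫⁻ x, iZ G p x.1 * (ENNReal.ofReal (16 / ℓ * x.2 ^ 2) * Gk G p q b0 ε c x.1 x.2)
    ∂((Measure.pi fun _ : ι => μ).prod μ)

theorem Jc_le_split (h : Law μ K) (G : Matrix ι ι ℝ) (p q : ι → ℝ) (b0 : ℝ) {ε ℓ : ℝ}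
    (hε : 0 < ε) (hℓ : 0 < ℓ) (c : ι → ℝ)
    (hc : ℓ < (b0 - p ⬝ᵥ (G *ᵥ (q + c))) ^ 2) :
    Jc μ G p q b0 ε c ≤ ENNReal.ofReal (4 / ℓ * wsq G q c) * ENNReal.ofReal (2 * Real.pi * K * ε) +
      (Measure.pi fun _ : ι => μ) (Zs G p) * ENNReal.ofReal (16 * ε ^ 2 / ℓ) +
      J4 μ G p q b0 ε ℓ c := by
  have := h.prob
  have hm1 : Measurable (fun a : ι → ℝ =>
      ENNReal.ofReal (4 / ℓ * (a ⬝ᵥ (G *ᵥ (q + c))) ^ 2)) := by
    have : Continuous (fun a : ι → ℝ => 4 / ℓ * (a ⬝ᵥ (G *ᵥ (q + c))) ^ 2) := by fun_prop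
    exact this.measurable.ennreal_ofReal
  have hm2 : Measurable (fun x : (ι → ℝ) × ℝ =>
      ENNReal.ofReal (4 / ℓ * (x.1 ⬝ᵥ (G *ᵥ (q + c))) ^ 2) * Gk G p q b0 ε c x.1 x.2) :=
    (hm1.comp measurable_fst).mul (measurable_Gk' G p q b0 ε c)
  have hm3 : Measurable (fun x : (ι → ℝ) × ℝ =>
      iZ G p x.1 * ENNReal.ofReal (16 * ε ^ 2 / ℓ)) :=
    ((measurable_iZ G p).comp measurable_fst).mul measurable_const
  have hpt : ∀ x : (ι → ℝ) × ℝ, iZ G p x.1 * Gk G p q b0 ε c x.1 x.2 ≤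
      ENNReal.ofReal (4 / ℓ * (x.1 ⬝ᵥ (G *ᵥ (q + c))) ^ 2) * Gk G p q b0 ε c x.1 x.2 +
      (iZ G p x.1 * ENNReal.ofReal (16 * ε ^ 2 / ℓ) +
        iZ G p x.1 * (ENNReal.ofReal (16 / ℓ * x.2 ^ 2) * Gk G p q b0 ε c x.1 x.2)) := by
    intro x
    have h1 := pointwise_split (ε := ε) hℓ G p q b0 c x.1 x.2 hc
    calc iZ G p x.1 * Gk G p q b0 ε c x.1 x.2
        ≤ iZ G p x.1 * (ENNReal.ofReal (4 / ℓ * (x.1 ⬝ᵥ (G *ᵥ (q + c))) ^ 2) *
            Gk G p q b0 ε c x.1 x.2 +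
          (ENNReal.ofReal (16 * ε ^ 2 / ℓ) +
            ENNReal.ofReal (16 / ℓ * x.2 ^ 2) * Gk G p q b0 ε c x.1 x.2)) :=
          mul_le_mul' le_rfl h1
      _ = iZ G p x.1 * (ENNReal.ofReal (4 / ℓ * (x.1 ⬝ᵥ (G *ᵥ (q + c))) ^ 2) *
            Gk G p q b0 ε c x.1 x.2) +
          (iZ G p x.1 * ENNReal.ofReal (16 * ε ^ 2 / ℓ) +
            iZ G p x.1 * (ENNReal.ofReal (16 / ℓ * x.2 ^ 2) * Gk G p q b0 ε c x.1 x.2)) := by
          rw [mul_add, mul_add]
      _ ≤ 1 * (ENNReal.ofReal (4 / ℓ * (x.1 ⬝ᵥ (G *ᵥ (q + c))) ^ 2) *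
            Gk G p q b0 ε c x.1 x.2) +
          (iZ G p x.1 * ENNReal.ofReal (16 * ε ^ 2 / ℓ) +
            iZ G p x.1 * (ENNReal.ofReal (16 / ℓ * x.2 ^ 2) * Gk G p q b0 ε c x.1 x.2)) :=
          add_le_add (mul_le_mul' (iZ_le_one G p x.1) le_rfl) le_rfl
      _ = _ := by rw [one_mul]
  calc Jc μ G p q b0 ε c
      ≤ ∫⁻ x, (ENNReal.ofReal (4 / ℓ * (x.1 ⬝ᵥ (G *ᵥ (q + c))) ^ 2) * Gk G p q b0 ε c x.1 x.2 +
      (iZ G p x.1 * ENNReal.ofReal (16 * ε ^ 2 / ℓ) +
        iZ G p x.1 * (ENNReal.ofReal (16 / ℓ * x.2 ^ 2) * Gk G p q b0 ε c x.1 x.2)))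
        ∂((Measure.pi fun _ : ι => μ).prod μ) := lintegral_mono hpt
    _ = ∫⁻ x, ENNReal.ofReal (4 / ℓ * (x.1 ⬝ᵥ (G *ᵥ (q + c))) ^ 2) * Gk G p q b0 ε c x.1 x.2
          ∂((Measure.pi fun _ : ι => μ).prod μ) +
        (∫⁻ x, iZ G p x.1 * ENNReal.ofReal (16 * ε ^ 2 / ℓ)
          ∂((Measure.pi fun _ : ι => μ).prod μ) + J4 μ G p q b0 ε ℓ c) := by
        rw [lintegral_add_left hm2, lintegral_add_left hm3]
        rfl
    _ ≤ ENNReal.ofReal (4 / ℓ * wsq G q c) * ENNReal.ofReal (2 * Real.pi * K * ε) +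
        ((Measure.pi fun _ : ι => μ) (Zs G p) * ENNReal.ofReal (16 * ε ^ 2 / ℓ) +
          J4 μ G p q b0 ε ℓ c) := by
        refine add_le_add ?_ (add_le_add ?_ le_rfl)
        · refine (int_mul_G h G p q b0 hε c _ hm1).trans (le_of_eq ?_)
          congr 1
          have h2 : ∀ a : ι → ℝ, ENNReal.ofReal (4 / ℓ * (a ⬝ᵥ (G *ᵥ (q + c))) ^ 2) =
              ENNReal.ofReal (4 / ℓ) * ENNReal.ofReal ((0 - a ⬝ᵥ (G *ᵥ (q + c))) ^ 2) := by
            intro a
            rw [← ENNReal.ofReal_mul (by positivity)]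
            congr 2
            ring
          have hm4 : Measurable (fun a : ι → ℝ =>
              ENNReal.ofReal ((0 - a ⬝ᵥ (G *ᵥ (q + c))) ^ 2)) := by
            have : Continuous (fun a : ι → ℝ => (0 - a ⬝ᵥ (G *ᵥ (q + c))) ^ 2) := by fun_prop
            exact this.measurable.ennreal_ofReal
          rw [lintegral_congr h2, lintegral_const_mul _ hm4, lintegral_dot_sq h,
            ← ENNReal.ofReal_mul (by positivity)]
          congr 2
          unfold wsq
          ring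
        · rw [lintegral_prod _ hm3.aemeasurable]
          simp only [lintegral_const, measure_univ, mul_one]
          rw [lintegral_mul_const _ (measurable_iZ G p), lintegral_iZ]
    _ = _ := by rw [add_assoc]

theorem lintegral_J4 (h : Law μ K) [DecidableEq ι] {C₁ C₂ : ℝ≥0} (hD : DB μ 1 C₁)
    (hC₁ : 0 < C₁) (hQ2 : QSB2 μ C₂) (G : Matrix ι ι ℝ) (p q : ι → ℝ) (b0 : ℝ) {ε ℓ : ℝ}
    (hε : 0 < ε) (hℓ : 0 < ℓ) (hτ : 0 < tflat (G * Gᵀ)) :
    ∫⁻ c, J4 μ G p q b0 ε ℓ c ∂(Measure.pi fun _ : ι => μ) ≤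
      ENNReal.ofReal (6 * Real.pi * C₁ * ε * (16 / ℓ) * (3 * C₂ / tflat (G * Gᵀ))) := by
  have := h.prob
  have hmsq : Measurable (fun ξ : ℝ => ENNReal.ofReal (16 / ℓ * ξ ^ 2)) := by fun_prop
  have hm : Measurable (fun y : (ι → ℝ) × ((ι → ℝ) × ℝ) => iZ G p y.2.1 *
      (ENNReal.ofReal (16 / ℓ * y.2.2 ^ 2) * Gk G p q b0 ε y.1 y.2.1 y.2.2)) :=
    ((measurable_iZ G p).comp (measurable_fst.comp measurable_snd)).mul
      ((hmsq.comp (measurable_snd.comp measurable_snd)).mul (measurable_Gk G p q b0 ε))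
  have hWf : ∫⁻ a, Wf (qf (G * Gᵀ) p a) ∂(Measure.pi fun _ : ι => μ) ≤
      ENNReal.ofReal (3 * C₂ / tflat (G * Gᵀ)) :=
    le_ofReal_div_of_mul_le hτ (lintegral_Wf C₂ hQ2 (gram_psd G) p)
  have hsq : ∫⁻ ξ, ENNReal.ofReal (16 / ℓ * ξ ^ 2) ∂μ = ENNReal.ofReal (16 / ℓ) := by
    have h1 := lintegral_shift_sq h 0
    have h2 : ∀ ξ : ℝ, ENNReal.ofReal (16 / ℓ * ξ ^ 2) =
        ENNReal.ofReal (16 / ℓ) * ENNReal.ofReal ((0 + ξ) ^ 2) := by
      intro ξ
      rw [zero_add, ← ENNReal.ofReal_mul (by positivity)]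
    rw [lintegral_congr h2, lintegral_const_mul _ (by fun_prop), h1]
    simp
  calc ∫⁻ c, J4 μ G p q b0 ε ℓ c ∂(Measure.pi fun _ : ι => μ)
      = ∫⁻ x, (∫⁻ c, iZ G p x.1 * (ENNReal.ofReal (16 / ℓ * x.2 ^ 2) *
          Gk G p q b0 ε c x.1 x.2) ∂(Measure.pi fun _ : ι => μ))
          ∂((Measure.pi fun _ : ι => μ).prod μ) := by
        unfold J4
        rw [lintegral_lintegral_swap]
        exact hm.aemeasurable
    _ ≤ ∫⁻ x, (ENNReal.ofReal (6 * Real.pi * C₁ * ε) * Wf (qf (G * Gᵀ) p x.1)) *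
          ENNReal.ofReal (16 / ℓ * x.2 ^ 2) ∂((Measure.pi fun _ : ι => μ).prod μ) := by
        refine lintegral_mono fun x => ?_
        simp only
        have hmc : Measurable (fun c : ι → ℝ => ENNReal.ofReal (16 / ℓ * x.2 ^ 2) *
            Gk G p q b0 ε c x.1 x.2) :=
          measurable_const.mul (measurable_Gk_col G p q b0 ε x.1 x.2)
        rw [lintegral_const_mul _ hmc,
          lintegral_const_mul _ (measurable_Gk_col G p q b0 ε x.1 x.2)]
        by_cases hx : x.1 ∈ Zs G p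
        · have h1 : iZ G p x.1 = 1 := by
            unfold iZ
            rw [Set.indicator_of_mem hx, Pi.one_apply]
          rw [h1, one_mul, mul_comm]
          exact mul_le_mul' (int_col hD hC₁ G p q b0 hε x.1 x.2 hx) le_rfl
        · have h1 : iZ G p x.1 = 0 := by
            unfold iZ
            rw [Set.indicator_of_notMem hx]
          rw [h1, zero_mul]
          exact zero_le
    _ = (∫⁻ a, ENNReal.ofReal (6 * Real.pi * C₁ * ε) * Wf (qf (G * Gᵀ) p a)
          ∂(Measure.pi fun _ : ι => μ)) * ∫⁻ ξ, ENNReal.ofReal (16 / ℓ * ξ ^ 2) ∂μ := by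
        rw [← lintegral_prod_mul (f := fun a : ι → ℝ =>
          ENNReal.ofReal (6 * Real.pi * C₁ * ε) * Wf (qf (G * Gᵀ) p a))
          (g := fun ξ : ℝ => ENNReal.ofReal (16 / ℓ * ξ ^ 2))
          (measurable_const.mul (measurable_Wf_qf (μ := μ) _ p)).aemeasurable hmsq.aemeasurable]
    _ ≤ (ENNReal.ofReal (6 * Real.pi * C₁ * ε) * ENNReal.ofReal (3 * C₂ / tflat (G * Gᵀ))) *
          ENNReal.ofReal (16 / ℓ) := by
        rw [lintegral_const_mul _ (measurable_Wf_qf (μ := μ) _ p), hsq]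
        gcongr
    _ = _ := by
        rw [← ENNReal.ofReal_mul (by positivity), ← ENNReal.ofReal_mul (by positivity)]
        congr 1
        ring

/-- Columns for which the averaged weight is large. -/
theorem Jc_le_Φc (h : Law μ K) (G : Matrix ι ι ℝ) (p q : ι → ℝ) (b0 : ℝ) {ε : ℝ} (hε : 0 < ε)
    (c : ι → ℝ) (hc : c ∈ Ws G q) (N : ℝ) (hN : 0 ≤ N)
    (hle : ((Measure.pi fun _ : ι => μ) (Zs G p)).toReal * (4 * (1 + tflat (G * Gᵀ) +
      p ⬝ᵥ (mflat (G * Gᵀ) *ᵥ p) + tflat (G * Gᵀ) * (b0 - p ⬝ᵥ (G *ᵥ (q + c))) ^ 2)) ≤ N) :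
    Jc μ G p q b0 ε c ≤ ENNReal.ofReal (2 * Real.pi * K * ε * N) * Φc μ G p q b0 c := by
  have := h.prob
  have hww : (G *ᵥ (q + c)) ⬝ᵥ (G *ᵥ (q + c)) ≤ 1 / 3 := le_of_lt hc
  have h1 := Ypair_lower h (gram_psd G) p (G *ᵥ (q + c)) b0 hww
  have hT := tflat_nonneg (gram_psd G)
  have hz0 : 0 ≤ p ⬝ᵥ (mflat (G * Gᵀ) *ᵥ p) := psd_nonneg (mflat_psd (gram_psd G)) p
  refine (Jc_le h G p q b0 hε c).trans ?_
  rw [← ENNReal.ofReal_toReal (measure_ne_top (Measure.pi fun _ : ι => μ) (Zs G p))]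
  generalize ((Measure.pi fun _ : ι => μ) (Zs G p)).toReal = pz at *
  generalize hYd : 4 * (1 + tflat (G * Gᵀ) + p ⬝ᵥ (mflat (G * Gᵀ) *ᵥ p) +
    tflat (G * Gᵀ) * (b0 - p ⬝ᵥ (G *ᵥ (q + c))) ^ 2) = Yd at *
  have hYd0 : 0 < Yd := by
    rw [← hYd]
    generalize p ⬝ᵥ (mflat (G * Gᵀ) *ᵥ p) = z0 at *
    generalize tflat (G * Gᵀ) = T at *
    positivity
  calc ENNReal.ofReal pz * ENNReal.ofReal (2 * Real.pi * K * ε)
      ≤ ENNReal.ofReal (N * (1 / Yd)) * ENNReal.ofReal (2 * Real.pi * K * ε) := by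
        refine mul_le_mul' (ENNReal.ofReal_le_ofReal ?_) le_rfl
        rw [mul_one_div, le_div_iff₀ hYd0]
        exact hle
    _ = ENNReal.ofReal (2 * Real.pi * K * ε * N) * ENNReal.ofReal (1 / Yd) := by
        rw [ENNReal.ofReal_mul (p := 2 * Real.pi * K * ε) (by positivity),
          ENNReal.ofReal_mul (p := N) hN]
        ring
    _ ≤ _ := mul_le_mul' le_rfl h1

end Pair2

end Pool.Agent.SMin

end
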