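import Pool.Agent.Work.MP_b26df8_pr.Bd.B03

/-! Bundle of small proof modules (one section per former module). -/

section

/-!
The contribution of the nonlocalised columns of the inverse.
-/

open MeasureTheory Matrix
open scoped ENNReal NNReal

namespace Pool.Agent.SMin

section AsmRow

variable {μ : Measure ℝ} {K : ℝ≥0} {ι : Type} [Fintype ι] [DecidableEq ι]

/-- The shifted matrix. -/
noncomputable def Bm (M : Matrix ι ι ℝ) (ω : ι × ι → ℝ) : Matrix ι ι ℝ :=
  Matrix.of (fun k l => ω (k, l)) + M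

/-- The inverse of the shifted matrix. -/
noncomputable def Nm (M : Matrix ι ι ℝ) (ω : ι × ι → ℝ) : Matrix ι ι ℝ := (Bm M ω)⁻¹

theorem measurable_Nm (M : Matrix ι ι ℝ) (i j : ι) : Measurable (fun ω => Nm M ω i j) :=
  measurable_inv_entry M i j

theorem measurable_colsq_Nm (M : Matrix ι ι ℝ) (i : ι) :
    Measurable (fun ω => colsq (Nm M ω) i) := by
  unfold colsq
  exact Finset.measurable_fun_sum _ fun j _ => (measurable_Nm M j i).pow_const 2

theorem measurable_colsq_NmT (M : Matrix ι ι ℝ) (i : ι) :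
    Measurable (fun ω => colsq (Nm M ω)ᵀ i) := by
  unfold colsq
  exact Finset.measurable_fun_sum _ fun j _ => (measurable_Nm M i j).pow_const 2

theorem measurable_hs_Nm (M : Matrix ι ι ℝ) : Measurable (fun ω => hs (Nm M ω)) := by
  unfold hs
  exact Finset.measurable_fun_sum _ fun i _ => measurable_colsq_Nm M i

theorem measurable_coldot_Nm (M : Matrix ι ι ℝ) (k l : ι) :
    Measurable (fun ω => coldot (Nm M ω) k l) := by
  unfold coldot
  exact Finset.measurable_fun_sum _ fun j _ => (measurable_Nm M j k).mul (measurable_Nm M j l)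

theorem measurable_wnum_Nm (M : Matrix ι ι ℝ) (i : ι) :
    Measurable (fun ω => wnum (Nm M ω) i) := by
  unfold wnum
  exact Finset.measurable_fun_sum _ fun l _ =>
    ((measurable_colsq_Nm M i).mul (measurable_colsq_Nm M l)).sub
      ((measurable_coldot_Nm M i l).pow_const 2)

theorem measurable_phi_Nm (M : Matrix ι ι ℝ) (i : ι) :
    Measurable (fun ω => phi (Nm M ω) i) := by
  unfold phi wtot
  exact (measurable_wnum_Nm M i).div
    ((Finset.measurable_fun_sum _ fun k _ => measurable_wnum_Nm M k).div_const 2)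

theorem measurableSet_Nonloc (M : Matrix ι ι ℝ) (i : ι) :
    MeasurableSet {ω | Nonloc (Nm M ω) i} := by
  have : {ω | Nonloc (Nm M ω) i} =
      ⋂ j, {ω | Nm M ω j i ^ 2 ≤ 3 / 4 * colsq (Nm M ω) i} := by
    ext ω
    simp [Nonloc]
  rw [this]
  exact MeasurableSet.iInter fun j => measurableSet_le ((measurable_Nm M j i).pow_const 2)
    (measurable_const.mul (measurable_colsq_Nm M i))

theorem measurable_Fr_Nm (ε : ℝ) (M : Matrix ι ι ℝ) (i : ι) :
    Measurable (fun ω => Fr ε (Nm M ω) i) := by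
  unfold Fr
  exact Measurable.ite (measurableSet_Nonloc M i)
    (((measurable_colsq_Nm M i).div (measurable_hs_Nm M)).min
      (measurable_const.mul (measurable_colsq_Nm M i))) measurable_const

omit [DecidableEq ι] in
theorem Fr_zero (ε : ℝ) (i : ι) : Fr ε (0 : Matrix ι ι ℝ) i = 0 := by
  unfold Fr
  have : colsq (0 : Matrix ι ι ℝ) i = 0 := by simp [colsq]
  split_ifs
  · rw [this]
    simp
  · rfl

theorem Nm_of_det_zero (M : Matrix ι ι ℝ) (ω : ι × ι → ℝ) (h : (Bm M ω).det = 0) :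
    Nm M ω = 0 := by
  unfold Nm
  refine Matrix.nonsing_inv_apply_not_isUnit _ ?_
  rw [h]
  simp

omit [Fintype ι] in
theorem Bm_rowUpd_row (M : Matrix ι ι ℝ) (ω : ι × ι → ℝ) (i : ι) (a : ι → ℝ) :
    Bm M (rowUpd ω i a) i = M i + a := by
  funext l
  simp [Bm, rowUpd, add_comm]

omit [Fintype ι] in
theorem Bm_rowUpd_ne (M : Matrix ι ι ℝ) (ω : ι × ι → ℝ) (i : ι) (a a' : ι → ℝ) (k : ι)
    (hk : k ≠ i) (l : ι) : Bm M (rowUpd ω i a) k l = Bm M (rowUpd ω i a') k l := by
  simp [Bm, rowUpd, hk]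

omit [DecidableEq ι] in
theorem rowf_nonneg {Θ : Matrix ι ι ℝ} (hΘ : Θ.PosSemidef) (v m : ι → ℝ) (ε : ℝ) (a : ι → ℝ) :
    0 ≤ rowf Θ v m ε a := by
  unfold rowf
  have h1 := psd_nonneg hΘ (m + a)
  have h2 := trace_nonneg' hΘ
  refine le_min ?_ ?_
  · exact div_nonneg one_pos.le (add_nonneg (add_nonneg one_pos.le h1)
      (mul_nonneg h2 (sq_nonneg _)))
  · exact div_nonneg (sq_nonneg _) (sq_nonneg _)

omit [DecidableEq ι] in
/-- The linear form does not vanish almost surely. -/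
theorem ae_lin_ne_zero (h : Law μ K) {C₁ : ℝ≥0} (hD : DB μ 1 C₁) {v : ι → ℝ}
    (hv : v ⬝ᵥ v = 1) (m : ι → ℝ) :
    ∀ᵐ a ∂(Measure.pi fun _ : ι => μ), (m + a) ⬝ᵥ v ≠ 0 := by
  have := h.prob
  have h1 := linDens_one hD hv m (({0} : Set ℝ).indicator 1)
    (measurable_one.indicator (measurableSet_singleton 0))
  rw [lintegral_indicator_one (measurableSet_singleton 0), Real.volume_singleton, mul_zero] at h1
  have h2 : ∫⁻ a, (1 : ℝ≥0∞) * ({0} : Set ℝ).indicator 1 ((m + a) ⬝ᵥ v)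
      ∂(Measure.pi fun _ : ι => μ) = 0 := le_antisymm h1 zero_le
  rw [lintegral_eq_zero_iff] at h2
  · filter_upwards [h2] with a ha hcon
    simp [hcon] at ha
  · exact measurable_const.mul ((measurable_one.indicator (measurableSet_singleton 0)).comp
      (measurable_lin m v))

theorem row_fixed (h : Law μ K) {C₁ C₃ : ℝ≥0} (hD : DB μ 1 C₁) (hQ : QSB μ C₃)
    {A : ℝ} (hA1 : 1 ≤ A) (hAC1 : C₁ * Real.sqrt Real.pi ≤ A) (hAC3 : (C₃ : ℝ) ≤ A)
    (hC₁ : 0 < C₁) (hC₃ : 0 < C₃) (hcard : 2 ≤ Fintype.card ι)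
    (M : Matrix ι ι ℝ) (ω : ι × ι → ℝ) (i : ι) {ε : ℝ} (hε : 0 < ε) (n : ℝ) (hn : 0 < n) :
    ∫⁻ a, ENNReal.ofReal (Fr ε (Nm M (rowUpd ω i a)) i) ∂(Measure.pi fun _ : ι => μ) ≤
      ENNReal.ofReal (180 * A * ε) * (ENNReal.ofReal (1 / Real.sqrt n) +
        ENNReal.ofReal (Real.sqrt n) *
        ∫⁻ a, ENNReal.ofReal (phi (Nm M (rowUpd ω i a)) i) ∂(Measure.pi fun _ : ι => μ)) := by
  have := h.prob
  by_cases hsing : ∃ a₀, (Bm M (rowUpd ω i a₀)).det ≠ 0
  · obtain ⟨a₀, ha₀⟩ := hsing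
    obtain ⟨v, Θ, hv, hΘ, hΘv, hB⟩ := row_formula (Bm M (rowUpd ω i a₀)) i ha₀
    have hB' : ∀ a, ((M i + a) ⬝ᵥ v = 0 → Nm M (rowUpd ω i a) = 0) ∧
        ((M i + a) ⬝ᵥ v ≠ 0 →
          (∀ j, Nm M (rowUpd ω i a) j i = v j / ((M i + a) ⬝ᵥ v)) ∧
          hs (Nm M (rowUpd ω i a)) = Θ.trace + (1 + (M i + a) ⬝ᵥ (Θ *ᵥ (M i + a))) /
            ((M i + a) ⬝ᵥ v) ^ 2 ∧
          phi (Nm M (rowUpd ω i a)) i = rowphi Θ v (M i) a) := by
      intro a
      obtain ⟨h1, h2⟩ := hB (Bm M (rowUpd ω i a))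
        (fun k hk l => Bm_rowUpd_ne M ω i a a₀ k hk l)
      rw [Bm_rowUpd_row] at h1 h2
      refine ⟨fun h0 => Nm_of_det_zero M _ (h1 h0), fun h0 => ?_⟩
      obtain ⟨-, h3, h4, h5⟩ := h2 h0
      exact ⟨h3, h4, h5 hcard⟩
    have hcol : ∀ a, (M i + a) ⬝ᵥ v ≠ 0 →
        colsq (Nm M (rowUpd ω i a)) i = 1 / ((M i + a) ⬝ᵥ v) ^ 2 := by
      intro a ha
      obtain ⟨h3, -, -⟩ := (hB' a).2 ha
      unfold colsq
      simp_rw [h3, div_pow]
      rw [← Finset.sum_div]
      congr 1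
      rw [← hv]
      unfold dotProduct
      exact Finset.sum_congr rfl fun j _ => sq _
    by_cases hloc : ∀ j, v j ^ 2 ≤ 3 / 4
    · have hrow := row_lemma h hD hQ hA1 hAC1 hAC3 hC₁ hC₃ hΘ hv hloc hΘv (M i) hε n hn
      have hle1 : ∀ a, Fr ε (Nm M (rowUpd ω i a)) i ≤ rowf Θ v (M i) ε a := by
        intro a
        by_cases ha : (M i + a) ⬝ᵥ v = 0
        · rw [(hB' a).1 ha, Fr_zero]
          exact rowf_nonneg hΘ v (M i) ε a
        · obtain ⟨h3, h4, -⟩ := (hB' a).2 ha
          have hX2 : 0 < ((M i + a) ⬝ᵥ v) ^ 2 := by positivity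
          unfold Fr
          split_ifs
          · unfold rowf
            refine le_of_eq ?_
            rw [h4, hcol a ha]
            congr 1
            · rw [div_div]
              congr 1
              field_simp
              ring
            · ring
          · exact rowf_nonneg hΘ v (M i) ε a
      have hle2 : ∫⁻ a, ENNReal.ofReal (rowphi Θ v (M i) a) ∂(Measure.pi fun _ : ι => μ) ≤
          ∫⁻ a, ENNReal.ofReal (phi (Nm M (rowUpd ω i a)) i) ∂(Measure.pi fun _ : ι => μ) := by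
        refine lintegral_mono_ae ?_
        filter_upwards [ae_lin_ne_zero h hD hv (M i)] with a ha
        rw [((hB' a).2 ha).2.2]
      refine (lintegral_mono fun a => ENNReal.ofReal_le_ofReal (hle1 a)).trans (hrow.trans ?_)
      gcongr
    · have hz : ∀ a, Fr ε (Nm M (rowUpd ω i a)) i = 0 := by
        intro a
        by_cases ha : (M i + a) ⬝ᵥ v = 0
        · rw [(hB' a).1 ha, Fr_zero]
        · push Not at hloc
          obtain ⟨j, hj⟩ := hloc
          obtain ⟨h3, -, -⟩ := (hB' a).2 ha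
          have hX2 : 0 < ((M i + a) ⬝ᵥ v) ^ 2 := by positivity
          unfold Fr
          rw [if_neg]
          intro hcon
          have := hcon j
          rw [hcol a ha, h3 j, div_pow, mul_one_div, div_le_div_iff_of_pos_right hX2] at this
          linarith
      simp [hz]
  · push Not at hsing
    have hz : ∀ a, Fr ε (Nm M (rowUpd ω i a)) i = 0 := by
      intro a
      rw [Nm_of_det_zero M _ (hsing a), Fr_zero]
    simp [hz]

/-- The row part. -/
theorem row_part (h : Law μ K) {C₁ C₃ : ℝ≥0} (hD : DB μ 1 C₁) (hQ : QSB μ C₃)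
    {A : ℝ} (hA1 : 1 ≤ A) (hAC1 : C₁ * Real.sqrt Real.pi ≤ A) (hAC3 : (C₃ : ℝ) ≤ A)
    (hC₁ : 0 < C₁) (hC₃ : 0 < C₃) (hcard : 2 ≤ Fintype.card ι)
    (M : Matrix ι ι ℝ) {ε : ℝ} (hε : 0 < ε) :
    ∑ i, ∫⁻ ω, ENNReal.ofReal (Fr ε (Nm M ω) i) ∂(Measure.pi fun _ : ι × ι => μ) ≤
      ENNReal.ofReal (540 * A * ε * Real.sqrt (Fintype.card ι)) := by
  have := h.prob
  set n : ℝ := (Fintype.card ι : ℝ) with hn
  have hn0 : 0 < n := by
    rw [hn]
    exact_mod_cast (by omega : 0 < Fintype.card ι)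
  have hsn : 0 < Real.sqrt n := Real.sqrt_pos.2 hn0
  have hA0 : 0 < A := by linarith
  have hone : ∀ i, ∫⁻ ω, ENNReal.ofReal (Fr ε (Nm M ω) i) ∂(Measure.pi fun _ : ι × ι => μ) ≤
      ENNReal.ofReal (180 * A * ε) * (ENNReal.ofReal (1 / Real.sqrt n) +
        ENNReal.ofReal (Real.sqrt n) *
        ∫⁻ ω, ENNReal.ofReal (phi (Nm M ω) i) ∂(Measure.pi fun _ : ι × ι => μ)) := by
    intro i
    have hm1 : Measurable (fun ω => ENNReal.ofReal (phi (Nm M ω) i)) :=
      (measurable_phi_Nm M i).ennreal_ofReal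
    have hm2 : Measurable (fun ω : ι × ι → ℝ => ∫⁻ a, ENNReal.ofReal
        (phi (Nm M (rowUpd ω i a)) i) ∂(Measure.pi fun _ : ι => μ)) :=
      Measurable.lintegral_prod_right' (f := fun x : (ι × ι → ℝ) × (ι → ℝ) =>
        ENNReal.ofReal (phi (Nm M (rowUpd x.1 i x.2)) i)) (hm1.comp (measurable_rowUpd i))
    rw [lintegral_rowUpd μ i _ (measurable_Fr_Nm ε M i).ennreal_ofReal, lintegral_rowUpd μ i _ hm1]
    calc ∫⁻ ω, ∫⁻ a, ENNReal.ofReal (Fr ε (Nm M (rowUpd ω i a)) i)
          ∂(Measure.pi fun _ : ι => μ) ∂(Measure.pi fun _ : ι × ι => μ)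
        ≤ ∫⁻ ω, (ENNReal.ofReal (180 * A * ε) * (ENNReal.ofReal (1 / Real.sqrt n) +
        ENNReal.ofReal (Real.sqrt n) *
        ∫⁻ a, ENNReal.ofReal (phi (Nm M (rowUpd ω i a)) i) ∂(Measure.pi fun _ : ι => μ)))
          ∂(Measure.pi fun _ : ι × ι => μ) :=
          lintegral_mono fun ω =>
            row_fixed h hD hQ hA1 hAC1 hAC3 hC₁ hC₃ hcard M ω i hε n hn0
      _ = _ := by
          rw [lintegral_const_mul' _ _ ENNReal.ofReal_ne_top,
            lintegral_add_left measurable_const, lintegral_const_mul _ hm2]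
          simp
  calc ∑ i, ∫⁻ ω, ENNReal.ofReal (Fr ε (Nm M ω) i) ∂(Measure.pi fun _ : ι × ι => μ)
      ≤ ∑ i, ENNReal.ofReal (180 * A * ε) * (ENNReal.ofReal (1 / Real.sqrt n) +
        ENNReal.ofReal (Real.sqrt n) *
        ∫⁻ ω, ENNReal.ofReal (phi (Nm M ω) i) ∂(Measure.pi fun _ : ι × ι => μ)) :=
        Finset.sum_le_sum fun i _ => hone i
    _ = ENNReal.ofReal (180 * A * ε) * (ENNReal.ofReal n * ENNReal.ofReal (1 / Real.sqrt n) +
        ENNReal.ofReal (Real.sqrt n) *
        ∫⁻ ω, ∑ i, ENNReal.ofReal (phi (Nm M ω) i) ∂(Measure.pi fun _ : ι × ι => μ)) := by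
        rw [← Finset.mul_sum, Finset.sum_add_distrib, ← Finset.mul_sum,
          lintegral_finsetSum _ fun i _ => (measurable_phi_Nm M i).ennreal_ofReal]
        simp [hn]
    _ ≤ ENNReal.ofReal (180 * A * ε) * (ENNReal.ofReal n * ENNReal.ofReal (1 / Real.sqrt n) +
        ENNReal.ofReal (Real.sqrt n) * 2) := by
        gcongr
        calc ∫⁻ ω, ∑ i, ENNReal.ofReal (phi (Nm M ω) i) ∂(Measure.pi fun _ : ι × ι => μ)
            ≤ ∫⁻ _, 2 ∂(Measure.pi fun _ : ι × ι => μ) :=
              lintegral_mono fun ω => sum_phi_le_enn (Nm M ω)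
          _ = 2 := by simp
    _ = ENNReal.ofReal (540 * A * ε * Real.sqrt n) := by
        rw [← ENNReal.ofReal_mul hn0.le, show (2 : ℝ≥0∞) = ENNReal.ofReal 2 by simp,
          ← ENNReal.ofReal_mul hsn.le, ← ENNReal.ofReal_add (by positivity) (by positivity),
          ← ENNReal.ofReal_mul (by positivity)]
        congr 1
        have : n * (1 / Real.sqrt n) = Real.sqrt n := by
          rw [mul_one_div, div_eq_iff hsn.ne', Real.mul_self_sqrt hn0.le]
        rw [this]
        ring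

end AsmRow

end Pool.Agent.SMin

end

section

/-!
The pair lemma.
-/

open MeasureTheory Matrix ProbabilityTheory
open scoped ENNReal NNReal

namespace Pool.Agent.SMin

section Pair3

variable {μ : Measure ℝ} {K : ℝ≥0} {ι : Type} [Fintype ι]

/-- The constant of the pair lemma. -/
noncomputable def Bpair (K C₁ C₂ : ℝ) : ℝ :=
  2 * Real.pi * K * (1 + 12 * (1 + 3 * C₂) + 2 * (3 * C₂)) + 16 * (3 * C₂) +
    96 * Real.pi * C₁ * (3 * C₂)

theorem pair_lemma (h : Law μ K) [DecidableEq ι] {C₁ C₂ : ℝ≥0} (hD : DB μ 1 C₁)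
    (hC₁ : 0 < C₁) (hQ2 : QSB2 μ C₂) (G : Matrix ι ι ℝ) (p q : ι → ℝ) (b0 : ℝ) {ε : ℝ}
    (hε : 0 < ε) (hε1 : ε ≤ 1) {n : ℝ} (hn : 1 ≤ n) :
    ∫⁻ c, iW G q c * Jc μ G p q b0 ε c ∂(Measure.pi fun _ : ι => μ) ≤
      ENNReal.ofReal (Bpair K C₁ C₂ * ε) *
        (ENNReal.ofReal (1 / Real.sqrt n) * ((Measure.pi fun _ : ι => μ) (Zs G p) +
          (Measure.pi fun _ : ι => μ) (Ws G q)) +
        ENNReal.ofReal (Real.sqrt n) *
          ∫⁻ c, iW G q c * Φc μ G p q b0 c ∂(Measure.pi fun _ : ι => μ)) := by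
  have := h.prob
  have hT := tflat_nonneg (gram_psd G)
  have hz0 : 0 ≤ p ⬝ᵥ (mflat (G * Gᵀ) *ᵥ p) := psd_nonneg (mflat_psd (gram_psd G)) p
  have hn0 : 0 < n := by linarith
  have hsn : 0 < Real.sqrt n := Real.sqrt_pos.2 hn0
  have hsn1 : 1 ≤ Real.sqrt n := Real.one_le_sqrt.2 hn
  have hC₂ : (0 : ℝ) ≤ C₂ := C₂.coe_nonneg
  have hK : (0 : ℝ) ≤ K := K.coe_nonneg
  have hC₁' : (0 : ℝ) ≤ C₁ := C₁.coe_nonneg
  have hpi := Real.pi_pos
  -- real versions of the probabilities
  have hPZ := ENNReal.ofReal_toReal (measure_ne_top (Measure.pi fun _ : ι => μ) (Zs G p))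
  have hPW := ENNReal.ofReal_toReal (measure_ne_top (Measure.pi fun _ : ι => μ) (Ws G q))
  have hps := prob_small C₂ hQ2 (gram_psd G) p
  have hpz := prob_mul_z0 h (gram_psd G) p
  change ENNReal.ofReal (tflat (G * Gᵀ)) * (Measure.pi fun _ : ι => μ) (Zs G p) ≤ _ at hps
  change (Measure.pi fun _ : ι => μ) (Zs G p) * _ ≤
    (Measure.pi fun _ : ι => μ) (Zs G p) + _ at hpz
  have hJ1 : ∀ c, Jc μ G p q b0 ε c ≤
      (Measure.pi fun _ : ι => μ) (Zs G p) * ENNReal.ofReal (2 * Real.pi * K * ε) :=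
    fun c => Jc_le h G p q b0 hε c
  have hJ2 := fun (c : ι → ℝ) (hc : c ∈ Ws G q) (N : ℝ) (hN : 0 ≤ N) =>
    Jc_le_Φc h G p q b0 hε c hc N hN
  set pz := ((Measure.pi fun _ : ι => μ) (Zs G p)).toReal with hpzd
  have hpz0 : 0 ≤ pz := ENNReal.toReal_nonneg
  have hpz1 : pz ≤ 1 := by
    have h1 : (Measure.pi fun _ : ι => μ) (Zs G p) ≤ 1 := prob_le_one
    rw [hpzd]
    exact ENNReal.toReal_le_of_le_ofReal one_pos.le (by simpa using h1)
  rw [← hPZ] at hps hpz hJ1 ⊢
  have hτpz : tflat (G * Gᵀ) * pz ≤ 3 * C₂ := by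
    rw [← ENNReal.ofReal_mul hT] at hps
    exact (ENNReal.ofReal_le_ofReal_iff (by positivity)).1 hps
  have hzpz : pz * (p ⬝ᵥ (mflat (G * Gᵀ) *ᵥ p)) ≤ pz + 2 * tflat (G * Gᵀ) := by
    rw [← ENNReal.ofReal_mul hpz0, ← ENNReal.ofReal_add hpz0 (by positivity)] at hpz
    exact (ENNReal.ofReal_le_ofReal_iff (by positivity)).1 hpz
  -- abbreviations
  have hmW := measurable_iW G q
  have hmΦ : Measurable (Φc μ G p q b0) := measurable_Φc G p q b0
  have hmWΦ : Measurable (fun c => iW G q c * Φc μ G p q b0 c) := hmW.mul hmΦ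
  by_cases hA : pz ≤ 1 / Real.sqrt n
  · -- small probability
    calc ∫⁻ c, iW G q c * Jc μ G p q b0 ε c ∂(Measure.pi fun _ : ι => μ)
        ≤ ∫⁻ c, iW G q c * (ENNReal.ofReal pz * ENNReal.ofReal (2 * Real.pi * K * ε))
            ∂(Measure.pi fun _ : ι => μ) :=
          lintegral_mono fun c => mul_le_mul' le_rfl (hJ1 c)
      _ = (Measure.pi fun _ : ι => μ) (Ws G q) *
            (ENNReal.ofReal pz * ENNReal.ofReal (2 * Real.pi * K * ε)) := by
          rw [lintegral_mul_const _ hmW, lintegral_iW]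
      _ ≤ (Measure.pi fun _ : ι => μ) (Ws G q) *
            (ENNReal.ofReal (1 / Real.sqrt n) * ENNReal.ofReal (Bpair K C₁ C₂ * ε)) := by
          refine mul_le_mul' le_rfl (mul_le_mul' (ENNReal.ofReal_le_ofReal hA)
            (ENNReal.ofReal_le_ofReal (mul_le_mul_of_nonneg_right ?_ hε.le)))
          unfold Bpair
          have e1 : 0 ≤ 2 * Real.pi * K * (12 * (1 + 3 * C₂) + 2 * (3 * C₂)) := by positivity
          have e2 : 0 ≤ 16 * (3 * (C₂ : ℝ)) := by positivity
          have e3 : 0 ≤ 96 * Real.pi * C₁ * (3 * C₂) := by positivity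
          linarith
      _ = ENNReal.ofReal (Bpair K C₁ C₂ * ε) * (ENNReal.ofReal (1 / Real.sqrt n) *
            (Measure.pi fun _ : ι => μ) (Ws G q)) := by ring
      _ ≤ _ := by
          refine mul_le_mul' le_rfl (le_trans ?_ (le_add_right le_rfl))
          exact mul_le_mul' le_rfl (le_add_left le_rfl)
  · push Not at hA
    have hsp : 1 < Real.sqrt n * pz := by
      rw [div_lt_iff₀ hsn] at hA
      linarith
    have hpzp : 0 < pz := by
      rcases hpz0.eq_or_lt with h0 | h0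
      · rw [← h0, mul_zero] at hsp
        linarith
      · exact h0
    set T := tflat (G * Gᵀ) with hTd
    set z0 := p ⬝ᵥ (mflat (G * Gᵀ) *ᵥ p) with hz0d
    set sn := Real.sqrt n with hsnd
    have hTn : T ≤ 3 * C₂ * sn := by
      have h1 : T * 1 ≤ T * (sn * pz) := mul_le_mul_of_nonneg_left hsp.le hT
      have h2 : T * (sn * pz) = sn * (T * pz) := by ring
      have h3 : sn * (T * pz) ≤ sn * (3 * C₂) := mul_le_mul_of_nonneg_left hτpz hsn.le
      linarith
    have hsum : pz * (1 + T + z0) ≤ (2 + 9 * C₂) * sn := by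
      have h1 : pz * (1 + T + z0) = pz + T * pz + pz * z0 := by ring
      have h2 : 3 * (C₂ : ℝ) ≤ 3 * C₂ * sn := by nlinarith
      have h3 : (2 : ℝ) ≤ 2 * sn := by linarith
      rw [h1]
      nlinarith
    -- the first class of columns
    have hclass1 : ∀ c ∈ Ws G q, pz * T * (b0 - p ⬝ᵥ (G *ᵥ (q + c))) ^ 2 ≤ sn →
        Jc μ G p q b0 ε c ≤
          ENNReal.ofReal (2 * Real.pi * K * ε * (12 * (1 + 3 * C₂) * sn)) * Φc μ G p q b0 c := by
      intro c hc hle
      refine hJ2 c hc _ (by positivity) ?_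
      have h1 : pz * (4 * (1 + T + z0 + T * (b0 - p ⬝ᵥ (G *ᵥ (q + c))) ^ 2)) =
          4 * (pz * (1 + T + z0)) + 4 * (pz * T * (b0 - p ⬝ᵥ (G *ᵥ (q + c))) ^ 2) := by ring
      rw [h1]
      nlinarith
    have hB1 : 2 * Real.pi * K * ε * (12 * (1 + 3 * C₂) * sn) ≤ Bpair K C₁ C₂ * ε * sn := by
      have e1 : 0 ≤ 2 * Real.pi * K * (1 + 2 * (3 * C₂)) := by positivity
      have e2 : 0 ≤ 16 * (3 * (C₂ : ℝ)) := by positivity
      have e3 : 0 ≤ 96 * Real.pi * C₁ * (3 * C₂) := by positivity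
      have e4 : 2 * Real.pi * K * (12 * (1 + 3 * C₂)) ≤ Bpair K C₁ C₂ := by
        unfold Bpair
        linarith
      have e5 : 0 ≤ ε * sn := by positivity
      calc 2 * Real.pi * K * ε * (12 * (1 + 3 * C₂) * sn) =
            2 * Real.pi * K * (12 * (1 + 3 * C₂)) * (ε * sn) := by ring
        _ ≤ Bpair K C₁ C₂ * (ε * sn) := mul_le_mul_of_nonneg_right e4 e5
        _ = _ := by ring
    rcases hT.eq_or_lt with hT0 | hTpos
    · -- degenerate case
      have hall : ∀ c, iW G q c * Jc μ G p q b0 ε c ≤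
          ENNReal.ofReal (Bpair K C₁ C₂ * ε * sn) * (iW G q c * Φc μ G p q b0 c) := by
        intro c
        by_cases hc : c ∈ Ws G q
        · have h1 := hclass1 c hc (by rw [← hT0]; simpa using hsn.le)
          calc iW G q c * Jc μ G p q b0 ε c
              ≤ iW G q c * (ENNReal.ofReal (Bpair K C₁ C₂ * ε * sn) * Φc μ G p q b0 c) := by
                refine mul_le_mul' le_rfl (h1.trans (mul_le_mul'
                  (ENNReal.ofReal_le_ofReal hB1) le_rfl))
            _ = _ := by ring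
        · have h1 : iW G q c = 0 := by
            unfold iW
            rw [Set.indicator_of_notMem hc]
          rw [h1, zero_mul]
          exact zero_le
      calc ∫⁻ c, iW G q c * Jc μ G p q b0 ε c ∂(Measure.pi fun _ : ι => μ)
          ≤ ∫⁻ c, ENNReal.ofReal (Bpair K C₁ C₂ * ε * sn) * (iW G q c * Φc μ G p q b0 c)
              ∂(Measure.pi fun _ : ι => μ) := lintegral_mono hall
        _ = ENNReal.ofReal (Bpair K C₁ C₂ * ε) * (ENNReal.ofReal sn *
              ∫⁻ c, iW G q c * Φc μ G p q b0 c ∂(Measure.pi fun _ : ι => μ)) := by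
            rw [lintegral_const_mul _ hmWΦ,
              ENNReal.ofReal_mul' (p := Bpair K C₁ C₂ * ε) hsn.le, mul_assoc]
        _ ≤ _ := mul_le_mul' le_rfl (le_add_left le_rfl)
    · -- main case
      set ℓ := sn / (pz * T) with hℓ
      have hpT : 0 < pz * T := mul_pos hpzp hTpos
      have hℓ0 : 0 < ℓ := div_pos hsn hpT
      have hinv : 1 / ℓ = pz * T / sn := by
        rw [hℓ, one_div_div]
      have hinvle : 1 / ℓ ≤ 3 * C₂ * (1 / sn) := by
        rw [hinv, mul_one_div]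
        exact div_le_div_of_nonneg_right (by linarith) hsn.le
      have hall : ∀ c, iW G q c * Jc μ G p q b0 ε c ≤
          ENNReal.ofReal (2 * Real.pi * K * ε * (12 * (1 + 3 * C₂) * sn)) *
            (iW G q c * Φc μ G p q b0 c) +
          (iW G q c * ENNReal.ofReal (4 / ℓ * (1 / 3) * (2 * Real.pi * K * ε)) +
            (ENNReal.ofReal (pz * (16 * ε ^ 2 / ℓ)) + J4 μ G p q b0 ε ℓ c)) := by
        intro c
        by_cases hc : c ∈ Ws G q
        · have hi1 : iW G q c = 1 := by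
            unfold iW
            rw [Set.indicator_of_mem hc, Pi.one_apply]
          rw [hi1, one_mul, one_mul, one_mul]
          by_cases hcl : pz * T * (b0 - p ⬝ᵥ (G *ᵥ (q + c))) ^ 2 ≤ sn
          · exact (hclass1 c hc hcl).trans (le_add_right le_rfl)
          · push Not at hcl
            have h1 : ℓ < (b0 - p ⬝ᵥ (G *ᵥ (q + c))) ^ 2 := by
              rw [hℓ, div_lt_iff₀ hpT]
              linarith
            refine (Jc_le_split h G p q b0 hε hℓ0 c h1).trans ?_
            refine le_trans (le_of_eq ?_) (add_le_add (zero_le (a := _)) (add_le_add ?_ le_rfl))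
              (b := 0 + (ENNReal.ofReal (4 / ℓ * wsq G q c) *
                ENNReal.ofReal (2 * Real.pi * K * ε) +
                (ENNReal.ofReal (pz * (16 * ε ^ 2 / ℓ)) + J4 μ G p q b0 ε ℓ c)))
            · rw [zero_add, ← add_assoc, ENNReal.ofReal_mul hpz0, hPZ]
            · have hw : wsq G q c ≤ 1 / 3 := le_of_lt hc
              rw [ENNReal.ofReal_mul (p := 4 / ℓ * (1 / 3)) (by positivity)]
              refine mul_le_mul' (ENNReal.ofReal_le_ofReal ?_) le_rfl
              gcongr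
        · have h1 : iW G q c = 0 := by
            unfold iW
            rw [Set.indicator_of_notMem hc]
          rw [h1, zero_mul]
          exact zero_le
      have hmA : Measurable (fun c => ENNReal.ofReal (2 * Real.pi * K * ε *
          (12 * (1 + 3 * C₂) * sn)) * (iW G q c * Φc μ G p q b0 c)) :=
        measurable_const.mul (hmW.mul hmΦ)
      have hmB : Measurable (fun c => iW G q c *
          ENNReal.ofReal (4 / ℓ * (1 / 3) * (2 * Real.pi * K * ε))) := hmW.mul measurable_const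
      have hJ4 := lintegral_J4 h hD hC₁ hQ2 G p q b0 hε hℓ0 (by rw [← hTd]; exact hTpos)
      rw [← hTd] at hJ4
      calc ∫⁻ c, iW G q c * Jc μ G p q b0 ε c ∂(Measure.pi fun _ : ι => μ)
          ≤ ∫⁻ c, (ENNReal.ofReal (2 * Real.pi * K * ε * (12 * (1 + 3 * C₂) * sn)) *
            (iW G q c * Φc μ G p q b0 c) +
          (iW G q c * ENNReal.ofReal (4 / ℓ * (1 / 3) * (2 * Real.pi * K * ε)) +
            (ENNReal.ofReal (pz * (16 * ε ^ 2 / ℓ)) + J4 μ G p q b0 ε ℓ c)))
            ∂(Measure.pi fun _ : ι => μ) := lintegral_mono hall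
        _ = ENNReal.ofReal (2 * Real.pi * K * ε * (12 * (1 + 3 * C₂) * sn)) *
            ∫⁻ c, iW G q c * Φc μ G p q b0 c ∂(Measure.pi fun _ : ι => μ) +
          ((Measure.pi fun _ : ι => μ) (Ws G q) *
            ENNReal.ofReal (4 / ℓ * (1 / 3) * (2 * Real.pi * K * ε)) +
            (ENNReal.ofReal (pz * (16 * ε ^ 2 / ℓ)) +
              ∫⁻ c, J4 μ G p q b0 ε ℓ c ∂(Measure.pi fun _ : ι => μ))) := by
            rw [lintegral_add_left hmA, lintegral_add_left hmB, lintegral_add_left measurable_const,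
              lintegral_const_mul _ hmWΦ, lintegral_mul_const _ hmW, lintegral_iW]
            simp
        _ ≤ ENNReal.ofReal (Bpair K C₁ C₂ * ε) * ENNReal.ofReal sn *
            ∫⁻ c, iW G q c * Φc μ G p q b0 c ∂(Measure.pi fun _ : ι => μ) +
          ((Measure.pi fun _ : ι => μ) (Ws G q) *
            (ENNReal.ofReal (Bpair K C₁ C₂ * ε) * ENNReal.ofReal (1 / sn)) +
            ENNReal.ofReal (Bpair K C₁ C₂ * ε) * ENNReal.ofReal (1 / sn) * ENNReal.ofReal pz) := by
            refine add_le_add (mul_le_mul' ?_ le_rfl) (add_le_add (mul_le_mul' le_rfl ?_) ?_)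
            · rw [← ENNReal.ofReal_mul' hsn.le]
              exact ENNReal.ofReal_le_ofReal hB1
            · rw [← ENNReal.ofReal_mul' (by positivity)]
              refine ENNReal.ofReal_le_ofReal ?_
              have e0 : 4 / ℓ * (1 / 3) * (2 * Real.pi * K * ε) =
                  (4 / 3 * (2 * Real.pi * K) * ε) * (1 / ℓ) := by ring
              rw [e0]
              have e1 : (4 / 3 * (2 * Real.pi * K) * ε) * (1 / ℓ) ≤
                  (4 / 3 * (2 * Real.pi * K) * ε) * (3 * C₂ * (1 / sn)) :=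
                mul_le_mul_of_nonneg_left hinvle (by positivity)
              refine e1.trans ?_
              have e2 : 4 / 3 * (2 * Real.pi * K) * (3 * C₂) ≤ Bpair K C₁ C₂ := by
                unfold Bpair
                have e3 : 0 ≤ 2 * Real.pi * K * (1 + 12 * (1 + 3 * C₂) + 2 / 3 * (3 * C₂)) := by
                  positivity
                have e4 : 0 ≤ 16 * (3 * (C₂ : ℝ)) := by positivity
                have e5 : 0 ≤ 96 * Real.pi * C₁ * (3 * C₂) := by positivity
                linarith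
              have e6 : 0 ≤ ε * (1 / sn) := by positivity
              calc (4 / 3 * (2 * Real.pi * K) * ε) * (3 * C₂ * (1 / sn)) =
                    (4 / 3 * (2 * Real.pi * K) * (3 * C₂)) * (ε * (1 / sn)) := by ring
                _ ≤ Bpair K C₁ C₂ * (ε * (1 / sn)) := mul_le_mul_of_nonneg_right e2 e6
                _ = _ := by ring
            · refine (add_le_add le_rfl hJ4).trans ?_
              rw [← ENNReal.ofReal_add (by positivity) (by positivity),
                ← ENNReal.ofReal_mul' (by positivity), ← ENNReal.ofReal_mul' hpz0]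
              refine ENNReal.ofReal_le_ofReal ?_
              have e1 : pz * (16 * ε ^ 2 / ℓ) ≤ 16 * (3 * C₂) * ε * (1 / sn) * pz := by
                have e2 : pz * (16 * ε ^ 2 / ℓ) = (16 * pz * ε ^ 2) * (1 / ℓ) := by ring
                rw [e2]
                have e3 : (16 * pz * ε ^ 2) * (1 / ℓ) ≤
                    (16 * pz * ε ^ 2) * (3 * C₂ * (1 / sn)) :=
                  mul_le_mul_of_nonneg_left hinvle (by positivity)
                have e4 : ε ^ 2 ≤ ε := by nlinarith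
                have e5 : (16 * pz * ε ^ 2) * (3 * C₂ * (1 / sn)) ≤
                    (16 * pz * ε) * (3 * C₂ * (1 / sn)) := by gcongr
                calc (16 * pz * ε ^ 2) * (1 / ℓ) ≤ (16 * pz * ε) * (3 * C₂ * (1 / sn)) :=
                      e3.trans e5
                  _ = _ := by ring
              have e6 : 6 * Real.pi * C₁ * ε * (16 / ℓ) * (3 * C₂ / T) =
                  96 * Real.pi * C₁ * (3 * C₂) * ε * (1 / sn) * pz := by
                have e7 : (16 : ℝ) / ℓ = 16 * (1 / ℓ) := by ring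
                rw [e7, hinv]
                field_simp
                ring
              have e8 : 16 * (3 * C₂) + 96 * Real.pi * C₁ * (3 * C₂) ≤ Bpair K C₁ C₂ := by
                unfold Bpair
                have e9 : 0 ≤ 2 * Real.pi * K * (1 + 12 * (1 + 3 * C₂) + 2 * (3 * C₂)) := by
                  positivity
                linarith
              have e10 : 0 ≤ ε * (1 / sn) * pz := by positivity
              rw [e6]
              calc pz * (16 * ε ^ 2 / ℓ) + 96 * Real.pi * C₁ * (3 * C₂) * ε * (1 / sn) * pz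
                  ≤ 16 * (3 * C₂) * ε * (1 / sn) * pz +
                    96 * Real.pi * C₁ * (3 * C₂) * ε * (1 / sn) * pz := by linarith
                _ = (16 * (3 * C₂) + 96 * Real.pi * C₁ * (3 * C₂)) * (ε * (1 / sn) * pz) := by
                    ring
                _ ≤ Bpair K C₁ C₂ * (ε * (1 / sn) * pz) := mul_le_mul_of_nonneg_right e8 e10
                _ = _ := by ring
        _ = _ := by ring

end Pair3

end Pool.Agent.SMin

end

section

/-!
The contribution of the doubly dominating entries of the inverse.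
-/

open MeasureTheory Matrix
open scoped ENNReal NNReal

namespace Pool.Agent.SMin

section AsmPair

variable {μ : Measure ℝ} {K : ℝ≥0} {ι : Type} [Fintype ι] [DecidableEq ι]

open Classical in
/-- Indicator that entry `(j,i)` dominates column `i`. -/
noncomputable def IC (N : Matrix ι ι ℝ) (i j : ι) : ℝ≥0∞ :=
  if 3 / 4 * colsq N i < N j i ^ 2 then 1 else 0

open Classical in
/-- Indicator that entry `(j,i)` dominates row `j`. -/
noncomputable def IR (N : Matrix ι ι ℝ) (i j : ι) : ℝ≥0∞ :=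
  if 3 / 4 * colsq Nᵀ j < N j i ^ 2 then 1 else 0

theorem measurable_IC (M : Matrix ι ι ℝ) (i j : ι) : Measurable (fun ω => IC (Nm M ω) i j) := by
  unfold IC
  exact Measurable.ite (measurableSet_lt (measurable_const.mul (measurable_colsq_Nm M i))
    ((measurable_Nm M j i).pow_const 2)) measurable_const measurable_const

theorem measurable_IR (M : Matrix ι ι ℝ) (i j : ι) : Measurable (fun ω => IR (Nm M ω) i j) := by
  unfold IR
  exact Measurable.ite (measurableSet_lt (measurable_const.mul (measurable_colsq_NmT M j))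
    ((measurable_Nm M j i).pow_const 2)) measurable_const measurable_const

theorem measurable_Fd_Nm (ε : ℝ) (M : Matrix ι ι ℝ) (i j : ι) :
    Measurable (fun ω => Fd ε (Nm M ω) i j) := by
  unfold Fd Dbl
  exact Measurable.ite
    ((measurableSet_lt (measurable_const.mul (measurable_colsq_Nm M i))
      ((measurable_Nm M j i).pow_const 2)).inter
    (measurableSet_lt (measurable_const.mul (measurable_colsq_NmT M j))
      ((measurable_Nm M j i).pow_const 2)))
    (measurable_const.min (measurable_const.mul ((measurable_Nm M j i).pow_const 2)))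
    measurable_const

omit [DecidableEq ι] in
theorem Fd_of_zero (ε : ℝ) (N : Matrix ι ι ℝ) (i j : ι) (h : N j i = 0) : Fd ε N i j = 0 := by
  unfold Fd
  rw [if_neg]
  intro hcon
  have h1 := hcon.1
  rw [h] at h1
  have := colsq_nonneg N i
  linarith

omit [DecidableEq ι] in
theorem dot_mflat_congr (G : Matrix ι ι ℝ) (x y : ι → ℝ) (h : Gᵀ *ᵥ x = Gᵀ *ᵥ y) :
    x ⬝ᵥ (mflat (G * Gᵀ) *ᵥ x) = y ⬝ᵥ (mflat (G * Gᵀ) *ᵥ y) := by
  have hs : (G * Gᵀ)ᵀ = G * Gᵀ := psd_transpose (gram_psd G)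
  have e : ∀ u : ι → ℝ, u ⬝ᵥ ((G * Gᵀ) *ᵥ u) = (Gᵀ *ᵥ u) ⬝ᵥ (Gᵀ *ᵥ u) := by
    intro u
    rw [← Matrix.mulVec_mulVec, Matrix.dotProduct_mulVec u, Matrix.mulVec_transpose]
  have e2 : ∀ u : ι → ℝ, (G * Gᵀ) *ᵥ u = G *ᵥ (Gᵀ *ᵥ u) := by
    intro u
    rw [Matrix.mulVec_mulVec]
  rw [dot_mflat hs, dot_mflat hs, e, e, e2, e2, h]

omit [Fintype ι] in
theorem crossUpd_off (ω : ι × ι → ℝ) (i j : ι) (c a : ι → ℝ) (ξ : ℝ) (k l : ι) (hk : k ≠ i)
    (hl : l ≠ j) : crossUpd ω i j c a ξ (k, l) = ω (k, l) := by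
  have h : (k, l) ≠ (i, j) := fun h => hk (Prod.mk.inj h).1
  simp [crossUpd, rowUpd, colUpd, hk, hl]

omit [Fintype ι] in
theorem crossUpd_row (ω : ι × ι → ℝ) (i j : ι) (c a : ι → ℝ) (ξ : ℝ) (l : ι)
    (hl : l ≠ j) : crossUpd ω i j c a ξ (i, l) = a l := by
  have h : (i, l) ≠ (i, j) := fun h => hl (Prod.mk.inj h).2
  simp [crossUpd, rowUpd, Function.update_of_ne h]

omit [Fintype ι] in
theorem crossUpd_col (ω : ι × ι → ℝ) (i j : ι) (c a : ι → ℝ) (ξ : ℝ) (k : ι)
    (hk : k ≠ i) : crossUpd ω i j c a ξ (k, j) = c k := by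
  have h : (k, j) ≠ (i, j) := fun h => hk (Prod.mk.inj h).1
  simp [crossUpd, rowUpd, colUpd, hk]

omit [Fintype ι] in
theorem crossUpd_entry (ω : ι × ι → ℝ) (i j : ι) (c a : ι → ℝ) (ξ : ℝ) :
    crossUpd ω i j c a ξ (i, j) = ξ := by
  simp [crossUpd]

/-- Structure of the inverse as a function of a row and a column. -/
theorem cross_data (hcard : 2 ≤ Fintype.card ι) (M : Matrix ι ι ℝ) (ω : ι × ι → ℝ) (i j : ι)
    (hB : (((Bm M ω).updateRow i (Pi.single j 1)).updateCol j (Pi.single i 1)).det ≠ 0) :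
    ∃ G : Matrix ι ι ℝ, ∀ (c a : ι → ℝ) (ξ : ℝ),
      (M i j + ξ - (M i + a) ⬝ᵥ (G *ᵥ ((fun k => M k j) + c)) = 0 →
        Nm M (crossUpd ω i j c a ξ) = 0) ∧
      (M i j + ξ - (M i + a) ⬝ᵥ (G *ᵥ ((fun k => M k j) + c)) ≠ 0 →
        (∀ ε : ℝ, ENNReal.ofReal (Fd ε (Nm M (crossUpd ω i j c a ξ)) i j) =
          iW G (fun k => M k j) c * (iZ G (M i) a * Gk G (M i) (fun k => M k j) (M i j) ε c a ξ)) ∧
        IC (Nm M (crossUpd ω i j c a ξ)) i j = iW G (fun k => M k j) c ∧
        IR (Nm M (crossUpd ω i j c a ξ)) i j = iZ G (M i) a ∧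
        iW G (fun k => M k j) c * ENNReal.ofReal (1 / Ypair (G * Gᵀ) (M i)
          (G *ᵥ ((fun k => M k j) + c)) (M i j) a ξ) ≤
          IC (Nm M (crossUpd ω i j c a ξ)) i j *
            ENNReal.ofReal (phi (Nm M (crossUpd ω i j c a ξ)) i)) := by
  obtain ⟨G, hGj, hGi, hG⟩ := pair_formula (Bm M ω) i j hcard hB
  refine ⟨G, fun c a ξ => ?_⟩
  set q : ι → ℝ := fun k => M k j with hq
  set p : ι → ℝ := M i with hp
  set B := Bm M (crossUpd ω i j c a ξ) with hBd
  have hoff : ∀ k l, k ≠ i → l ≠ j → B k l = Bm M ω k l := by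
    intro k l hk hl
    simp [hBd, Bm, crossUpd_off ω i j c a ξ k l hk hl]
  have hrow : ∀ l, l ≠ j → B i l = (p + a) l := by
    intro l hl
    simp [hBd, Bm, crossUpd_row ω i j c a ξ l hl, hp, add_comm]
  have hcol : ∀ k, k ≠ i → B k j = (q + c) k := by
    intro k hk
    simp [hBd, Bm, crossUpd_col ω i j c a ξ k hk, hq, add_comm]
  have hent : B i j = M i j + ξ := by
    simp [hBd, Bm, crossUpd_entry ω i j c a ξ, add_comm]
  have h1 := hG B hoff
  have hw : G *ᵥ (fun k => B k j) = G *ᵥ (q + c) := by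
    funext k'
    simp only [Matrix.mulVec, dotProduct]
    refine Finset.sum_congr rfl fun k _ => ?_
    by_cases hk : k = i
    · rw [hk, hGi]
      simp
    · rw [hcol k hk]
  have hz : Gᵀ *ᵥ (fun l => B i l) = Gᵀ *ᵥ (p + a) := by
    funext l'
    simp only [Matrix.mulVec, dotProduct, Matrix.transpose_apply]
    refine Finset.sum_congr rfl fun k _ => ?_
    by_cases hk : k = j
    · rw [hk, hGj]
      simp
    · rw [hrow k hk]
  have hwj : (G *ᵥ (q + c)) j = 0 := by
    simp only [Matrix.mulVec, dotProduct]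
    exact Finset.sum_eq_zero fun l _ => by rw [hGj]; simp
  have hzi : (Gᵀ *ᵥ (p + a)) i = 0 := by
    simp only [Matrix.mulVec, dotProduct, Matrix.transpose_apply]
    exact Finset.sum_eq_zero fun l _ => by rw [hGi]; simp
  have hbs : (fun l => B i l) ⬝ᵥ (G *ᵥ (q + c)) = (p + a) ⬝ᵥ (G *ᵥ (q + c)) := by
    simp only [dotProduct]
    refine Finset.sum_congr rfl fun l _ => ?_
    by_cases hl : l = j
    · rw [hl, hwj]
      simp
    · rw [hrow l hl]
  have hmf := dot_mflat_congr G _ _ hz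
  simp only at h1
  rw [hw, hz, hbs, hent, hmf] at h1
  obtain ⟨h2, h3⟩ := h1
  set w := G *ᵥ (q + c) with hwd
  set z := Gᵀ *ᵥ (p + a) with hzd
  refine ⟨fun h0 => Nm_of_det_zero M _ (h2 (by linarith)), fun h0 => ?_⟩
  obtain ⟨-, h4, h5, h6⟩ := h3 (fun hcon => h0 (by linarith))
  have hNe : Nm M (crossUpd ω i j c a ξ) = B⁻¹ := rfl
  rw [hNe]
  set d := M i j + ξ - (p + a) ⬝ᵥ w with hd
  have hd2 : 0 < d ^ 2 := by positivity
  have hji : B⁻¹ j i = 1 / d := by
    rw [h4 j, Pi.single_eq_same, hwj, sub_zero]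
  have hji2 : B⁻¹ j i ^ 2 = 1 / d ^ 2 := by rw [hji, div_pow, one_pow]
  have hcolsq : colsq B⁻¹ i = (1 + w ⬝ᵥ w) / d ^ 2 := by
    unfold colsq
    simp_rw [h4, div_pow]
    rw [← Finset.sum_div]
    congr 1
    have e : ∀ k, ((Pi.single j 1 : ι → ℝ) k - w k) ^ 2 =
        (Pi.single j 1 : ι → ℝ) k * (1 - 2 * w j) + w k * w k := by
      intro k
      by_cases hk : k = j
      · rw [hk, Pi.single_eq_same]
        ring
      · rw [Pi.single_eq_of_ne hk]
        ring
    simp_rw [e]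
    rw [Finset.sum_add_distrib, ← Finset.sum_mul, Finset.sum_pi_single' j (1 : ℝ) Finset.univ,
      hwj]
    simp [dotProduct]
  have hcolsqT : colsq (B⁻¹)ᵀ j = (1 + z ⬝ᵥ z) / d ^ 2 := by
    unfold colsq
    simp_rw [Matrix.transpose_apply, h5, div_pow]
    rw [← Finset.sum_div]
    congr 1
    have e : ∀ k, ((Pi.single i 1 : ι → ℝ) k - z k) ^ 2 =
        (Pi.single i 1 : ι → ℝ) k * (1 - 2 * z i) + z k * z k := by
      intro k
      by_cases hk : k = i
      · rw [hk, Pi.single_eq_same]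
        ring
      · rw [Pi.single_eq_of_ne hk]
        ring
    simp_rw [e]
    rw [Finset.sum_add_distrib, ← Finset.sum_mul, Finset.sum_pi_single' i (1 : ℝ) Finset.univ,
      hzi]
    simp [dotProduct]
  have hcW : 3 / 4 * colsq B⁻¹ i < B⁻¹ j i ^ 2 ↔ c ∈ Ws G q := by
    rw [hcolsq, hji2, mul_div_assoc', div_lt_div_iff_of_pos_right hd2]
    change _ ↔ w ⬝ᵥ w < 1 / 3
    constructor <;> intro h <;> linarith
  have haZ : 3 / 4 * colsq (B⁻¹)ᵀ j < B⁻¹ j i ^ 2 ↔ a ∈ Zs G p := by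
    rw [hcolsqT, hji2, mul_div_assoc', div_lt_div_iff_of_pos_right hd2]
    change _ ↔ qf (G * Gᵀ) p a < 1 / 3
    rw [← dot_gram, ← hzd]
    constructor <;> intro h <;> linarith
  have hIC : IC B⁻¹ i j = iW G q c := by
    unfold IC iW
    by_cases hc : c ∈ Ws G q
    · rw [if_pos (hcW.2 hc), Set.indicator_of_mem hc, Pi.one_apply]
    · rw [if_neg (fun h => hc (hcW.1 h)), Set.indicator_of_notMem hc]
  have hIR : IR B⁻¹ i j = iZ G p a := by
    unfold IR iZ
    by_cases ha : a ∈ Zs G p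
    · rw [if_pos (haZ.2 ha), Set.indicator_of_mem ha, Pi.one_apply]
    · rw [if_neg (fun h => ha (haZ.1 h)), Set.indicator_of_notMem ha]
  refine ⟨fun ε => ?_, hIC, hIR, ?_⟩
  · unfold Fd
    by_cases hc : c ∈ Ws G q
    · by_cases ha : a ∈ Zs G p
      · have hD : Dbl B⁻¹ i j := ⟨hcW.2 hc, haZ.2 ha⟩
        have e1 : iW G q c = 1 := by
          unfold iW
          rw [Set.indicator_of_mem hc, Pi.one_apply]
        have e2 : iZ G p a = 1 := by
          unfold iZ
          rw [Set.indicator_of_mem ha, Pi.one_apply]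
        rw [if_pos hD, e1, e2, one_mul, one_mul]
        unfold Gk gker
        rw [hji2, mul_one_div]
      · have hD : ¬ Dbl B⁻¹ i j := fun h => ha (haZ.1 h.2)
        have e2 : iZ G p a = 0 := by
          unfold iZ
          rw [Set.indicator_of_notMem ha]
        rw [if_neg hD, e2]
        simp
    · have hD : ¬ Dbl B⁻¹ i j := fun h => hc (hcW.1 h.1)
      have e1 : iW G q c = 0 := by
        unfold iW
        rw [Set.indicator_of_notMem hc]
      rw [if_neg hD, e1]
      simp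
  · rw [hIC]
    by_cases hc : c ∈ Ws G q
    · refine mul_le_mul' le_rfl (ENNReal.ofReal_le_ofReal ?_)
      have hww : w ⬝ᵥ w ≤ 1 / 3 := le_of_lt hc
      have := h6 hww
      unfold Ypair
      exact this
    · have e1 : iW G q c = 0 := by
        unfold iW
        rw [Set.indicator_of_notMem hc]
      rw [e1]
      simp

end AsmPair

end Pool.Agent.SMin

end

section

/-!
The contribution of the doubly dominating entries: summation.
-/

open MeasureTheory Matrix
open scoped ENNReal NNReal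

namespace Pool.Agent.SMin

theorem lintegral_combo {Ω : Type*} [MeasurableSpace Ω] (P : Measure Ω) (f g k : Ω → ℝ≥0∞)
    (hf : Measurable f) (hk : Measurable k) (A B C : ℝ) :
    ∫⁻ ω, ENNReal.ofReal A * (ENNReal.ofReal B * (f ω + g ω) + ENNReal.ofReal C * k ω) ∂P =
      ENNReal.ofReal A * (ENNReal.ofReal B * (∫⁻ ω, f ω ∂P + ∫⁻ ω, g ω ∂P) +
        ENNReal.ofReal C * ∫⁻ ω, k ω ∂P) := by
  have hCk : Measurable (fun ω => ENNReal.ofReal C * k ω) := measurable_const.mul hk
  rw [lintegral_const_mul' _ _ ENNReal.ofReal_ne_top, lintegral_add_right _ hCk,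
    lintegral_const_mul' _ _ ENNReal.ofReal_ne_top,
    lintegral_const_mul' _ _ ENNReal.ofReal_ne_top, lintegral_add_left hf]

section AsmPair2

variable {μ : Measure ℝ} {K : ℝ≥0} {ι : Type} [Fintype ι]

/-- For a fixed column the denominator vanishes with probability zero. -/
theorem ae_den (h : Law μ K) (p w : ι → ℝ) (b0 : ℝ) :
    ∀ᵐ x ∂((Measure.pi fun _ : ι => μ).prod μ), b0 + x.2 - (p + x.1) ⬝ᵥ w ≠ 0 := by
  have := h.prob
  have hc : Continuous (fun x : (ι → ℝ) × ℝ => b0 + x.2 - (p + x.1) ⬝ᵥ w) := by fun_prop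
  have hm : MeasurableSet {x : (ι → ℝ) × ℝ | b0 + x.2 - (p + x.1) ⬝ᵥ w = 0} :=
    hc.measurable (measurableSet_singleton 0)
  have h0 : ((Measure.pi fun _ : ι => μ).prod μ)
      {x : (ι → ℝ) × ℝ | b0 + x.2 - (p + x.1) ⬝ᵥ w = 0} = 0 := by
    rw [Measure.measure_prod_null hm]
    refine Filter.Eventually.of_forall fun a => ?_
    have hs : (Prod.mk a ⁻¹' {x : (ι → ℝ) × ℝ | b0 + x.2 - (p + x.1) ⬝ᵥ w = 0}) ⊆
        {(p + a) ⬝ᵥ w - b0} := by
      intro ξ hξ
      have : b0 + ξ - (p + a) ⬝ᵥ w = 0 := hξ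
      simp only [Set.mem_singleton_iff]
      linarith
    refine le_antisymm ((measure_mono hs).trans ((h.dens _).trans ?_)) zero_le
    simp
  rw [ae_iff]
  simpa using h0

variable [DecidableEq ι]

theorem pair_fixed (h : Law μ K) {C₁ C₂ : ℝ≥0} (hD : DB μ 1 C₁)
    (hC₁ : 0 < C₁) (hQ2 : QSB2 μ C₂) (hcard : 2 ≤ Fintype.card ι) (M : Matrix ι ι ℝ)
    (ω : ι × ι → ℝ) (i j : ι) {ε : ℝ} (hε : 0 < ε) (hε1 : ε ≤ 1) {n : ℝ} (hn : 1 ≤ n) :
    ∫⁻ c, ∫⁻ x, ENNReal.ofReal (Fd ε (Nm M (crossUpd ω i j c x.1 x.2)) i j)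
        ∂((Measure.pi fun _ : ι => μ).prod μ) ∂(Measure.pi fun _ : ι => μ) ≤
      ENNReal.ofReal (Bpair K C₁ C₂ * ε) *
        (ENNReal.ofReal (1 / Real.sqrt n) *
          (∫⁻ c, ∫⁻ x, IR (Nm M (crossUpd ω i j c x.1 x.2)) i j
            ∂((Measure.pi fun _ : ι => μ).prod μ) ∂(Measure.pi fun _ : ι => μ) +
          ∫⁻ c, ∫⁻ x, IC (Nm M (crossUpd ω i j c x.1 x.2)) i j
            ∂((Measure.pi fun _ : ι => μ).prod μ) ∂(Measure.pi fun _ : ι => μ)) +
        ENNReal.ofReal (Real.sqrt n) *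
          ∫⁻ c, ∫⁻ x, IC (Nm M (crossUpd ω i j c x.1 x.2)) i j *
            ENNReal.ofReal (phi (Nm M (crossUpd ω i j c x.1 x.2)) i)
            ∂((Measure.pi fun _ : ι => μ).prod μ) ∂(Measure.pi fun _ : ι => μ)) := by
  have := h.prob
  by_cases hB : (((Bm M ω).updateRow i (Pi.single j 1)).updateCol j (Pi.single i 1)).det = 0
  · have hz : ∀ c a ξ, Fd ε (Nm M (crossUpd ω i j c a ξ)) i j = 0 := by
      intro c a ξ
      refine Fd_of_zero _ _ _ _ (pair_zero (Bm M (crossUpd ω i j c a ξ)) i j ?_)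
      rw [← hB]
      congr 1
      ext k l
      rw [Matrix.updateCol_apply, Matrix.updateCol_apply, Matrix.updateRow_apply,
        Matrix.updateRow_apply]
      by_cases hl : l = j
      · simp [hl]
      · by_cases hk : k = i
        · simp [hk, hl]
        · simp only [hl, if_false, hk]
          simp [Bm, crossUpd_off ω i j c a ξ k l hk hl]
    simp [hz]
  · obtain ⟨G, hG⟩ := cross_data hcard M ω i j hB
    have hae := fun c : ι → ℝ => ae_den h (M i) (G *ᵥ ((fun k => M k j) + c)) (M i j)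
    have hpl := pair_lemma h hD hC₁ hQ2 G (M i) (fun k => M k j) (M i j) hε hε1 hn
    have hWne : ∀ c, iW G (fun k => M k j) c ≠ ⊤ := by
      intro c
      unfold iW
      by_cases hc : c ∈ Ws G (fun k => M k j) <;> simp [hc]
    have hL : ∫⁻ c, ∫⁻ x, ENNReal.ofReal (Fd ε (Nm M (crossUpd ω i j c x.1 x.2)) i j)
        ∂((Measure.pi fun _ : ι => μ).prod μ) ∂(Measure.pi fun _ : ι => μ) ≤
        ∫⁻ c, iW G (fun k => M k j) c * Jc μ G (M i) (fun k => M k j) (M i j) ε c
          ∂(Measure.pi fun _ : ι => μ) := by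
      refine lintegral_mono fun c => ?_
      unfold Jc
      rw [← lintegral_const_mul' _ _ (hWne c)]
      refine lintegral_mono_ae ?_
      filter_upwards [hae c] with x hx
      rw [((hG c x.1 x.2).2 hx).1 ε]
    have hR1 : (Measure.pi fun _ : ι => μ) (Zs G (M i)) ≤
        ∫⁻ c, ∫⁻ x, IR (Nm M (crossUpd ω i j c x.1 x.2)) i j
            ∂((Measure.pi fun _ : ι => μ).prod μ) ∂(Measure.pi fun _ : ι => μ) := by
      calc (Measure.pi fun _ : ι => μ) (Zs G (M i))
          = ∫⁻ _, ∫⁻ x, iZ G (M i) x.1 ∂((Measure.pi fun _ : ι => μ).prod μ)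
              ∂(Measure.pi fun _ : ι => μ) := by
            have hm : Measurable (fun x : (ι → ℝ) × ℝ => iZ G (M i) x.1) :=
              (measurable_iZ G (M i)).comp measurable_fst
            rw [lintegral_prod _ hm.aemeasurable]
            simp only [lintegral_const, measure_univ, mul_one]
            rw [lintegral_iZ]
        _ ≤ _ := by
            refine lintegral_mono fun c => lintegral_mono_ae ?_
            filter_upwards [hae c] with x hx
            rw [((hG c x.1 x.2).2 hx).2.2.1]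
    have hR2 : (Measure.pi fun _ : ι => μ) (Ws G (fun k => M k j)) ≤
        ∫⁻ c, ∫⁻ x, IC (Nm M (crossUpd ω i j c x.1 x.2)) i j
            ∂((Measure.pi fun _ : ι => μ).prod μ) ∂(Measure.pi fun _ : ι => μ) := by
      calc (Measure.pi fun _ : ι => μ) (Ws G (fun k => M k j))
          = ∫⁻ c, ∫⁻ _, iW G (fun k => M k j) c ∂((Measure.pi fun _ : ι => μ).prod μ)
              ∂(Measure.pi fun _ : ι => μ) := by
            simp only [lintegral_const, measure_univ, mul_one]
            rw [lintegral_iW]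
        _ ≤ _ := by
            refine lintegral_mono fun c => lintegral_mono_ae ?_
            filter_upwards [hae c] with x hx
            rw [((hG c x.1 x.2).2 hx).2.1]
    have hR3 : ∫⁻ c, iW G (fun k => M k j) c * Φc μ G (M i) (fun k => M k j) (M i j) c
          ∂(Measure.pi fun _ : ι => μ) ≤
        ∫⁻ c, ∫⁻ x, IC (Nm M (crossUpd ω i j c x.1 x.2)) i j *
            ENNReal.ofReal (phi (Nm M (crossUpd ω i j c x.1 x.2)) i)
            ∂((Measure.pi fun _ : ι => μ).prod μ) ∂(Measure.pi fun _ : ι => μ) := by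
      refine lintegral_mono fun c => ?_
      unfold Φc
      rw [← lintegral_const_mul' _ _ (hWne c)]
      refine lintegral_mono_ae ?_
      filter_upwards [hae c] with x hx
      exact ((hG c x.1 x.2).2 hx).2.2.2
    refine hL.trans (hpl.trans ?_)
    gcongr

omit [DecidableEq ι] in
theorem sum_IC_le (N : Matrix ι ι ℝ) (i : ι) : ∑ j, IC N i j ≤ 1 := by
  classical
  unfold IC
  exact budget N i

omit [DecidableEq ι] in
theorem sum_IR_le (N : Matrix ι ι ℝ) (j : ι) : ∑ i, IR N i j ≤ 1 := by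
  classical
  unfold IR
  exact budget Nᵀ j

/-- The pair part. -/
theorem pair_part (h : Law μ K) {C₁ C₂ : ℝ≥0} (hD : DB μ 1 C₁)
    (hC₁ : 0 < C₁) (hQ2 : QSB2 μ C₂) (hcard : 2 ≤ Fintype.card ι) (M : Matrix ι ι ℝ)
    {ε : ℝ} (hε : 0 < ε) (hε1 : ε ≤ 1) :
    ∑ i, ∑ j, ∫⁻ ω, ENNReal.ofReal (Fd ε (Nm M ω) i j) ∂(Measure.pi fun _ : ι × ι => μ) ≤
      ENNReal.ofReal (4 * Bpair K C₁ C₂ * ε * Real.sqrt (Fintype.card ι)) := by
  have := h.prob
  set n : ℝ := (Fintype.card ι : ℝ) with hn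
  have hn1 : 1 ≤ n := by
    rw [hn]
    exact_mod_cast (by omega : 1 ≤ Fintype.card ι)
  have hn0 : 0 < n := by linarith
  have hsn : 0 < Real.sqrt n := Real.sqrt_pos.2 hn0
  have hB0 : 0 ≤ Bpair K C₁ C₂ := by
    unfold Bpair
    have := Real.pi_pos
    have := K.coe_nonneg
    have := C₁.coe_nonneg
    have := C₂.coe_nonneg
    positivity
  have hone : ∀ i j, ∫⁻ ω, ENNReal.ofReal (Fd ε (Nm M ω) i j)
        ∂(Measure.pi fun _ : ι × ι => μ) ≤
      ENNReal.ofReal (Bpair K C₁ C₂ * ε) *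
        (ENNReal.ofReal (1 / Real.sqrt n) *
          (∫⁻ ω, IR (Nm M ω) i j ∂(Measure.pi fun _ : ι × ι => μ) +
          ∫⁻ ω, IC (Nm M ω) i j ∂(Measure.pi fun _ : ι × ι => μ)) +
        ENNReal.ofReal (Real.sqrt n) *
          ∫⁻ ω, IC (Nm M ω) i j * ENNReal.ofReal (phi (Nm M ω) i)
            ∂(Measure.pi fun _ : ι × ι => μ)) := by
    intro i j
    have hmR := measurable_IR M i j
    have hmC := measurable_IC M i j
    have hmP : Measurable (fun ω => IC (Nm M ω) i j * ENNReal.ofReal (phi (Nm M ω) i)) :=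
      hmC.mul (measurable_phi_Nm M i).ennreal_ofReal
    rw [lintegral_crossUpd μ i j _ (measurable_Fd_Nm ε M i j).ennreal_ofReal,
      lintegral_crossUpd μ i j _ hmR, lintegral_crossUpd μ i j _ hmC,
      lintegral_crossUpd μ i j _ hmP]
    have hjm : Measurable (fun y : ((ι × ι → ℝ) × (ι → ℝ)) × ((ι → ℝ) × ℝ) =>
        crossUpd y.1.1 i j y.1.2 y.2.1 y.2.2) := by
      refine measurable_pi_lambda _ fun k => ?_
      unfold crossUpd rowUpd colUpd
      by_cases hk : k = (i, j)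
      · subst hk
        simp only [Function.update_self]
        exact measurable_snd.comp measurable_snd
      · simp only [Function.update_of_ne hk]
        by_cases h1 : k.1 = i
        · simp only [h1, if_true]
          exact (measurable_pi_apply k.2).comp (measurable_fst.comp measurable_snd)
        · simp only [h1, if_false]
          by_cases h2 : k.2 = j
          · simp only [h2, if_true]
            exact (measurable_pi_apply k.1).comp (measurable_snd.comp measurable_fst)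
          · simp only [h2, if_false]
            exact (measurable_pi_apply k).comp (measurable_fst.comp measurable_fst)
    have hmeas : ∀ F : (ι × ι → ℝ) → ℝ≥0∞, Measurable F →
        Measurable (fun ω : ι × ι → ℝ => ∫⁻ c, ∫⁻ x, F (crossUpd ω i j c x.1 x.2)
          ∂((Measure.pi fun _ : ι => μ).prod μ) ∂(Measure.pi fun _ : ι => μ)) := by
      intro F hF
      have h1 : Measurable (fun y : (ι × ι → ℝ) × (ι → ℝ) =>
          ∫⁻ x, F (crossUpd y.1 i j y.2 x.1 x.2) ∂((Measure.pi fun _ : ι => μ).prod μ)) :=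
        Measurable.lintegral_prod_right' (f := fun y : ((ι × ι → ℝ) × (ι → ℝ)) ×
          ((ι → ℝ) × ℝ) => F (crossUpd y.1.1 i j y.1.2 y.2.1 y.2.2)) (hF.comp hjm)
      exact Measurable.lintegral_prod_right' (f := fun y : (ι × ι → ℝ) × (ι → ℝ) =>
          ∫⁻ x, F (crossUpd y.1 i j y.2 x.1 x.2) ∂((Measure.pi fun _ : ι => μ).prod μ)) h1
    have hR := hmeas _ hmR
    have hP := hmeas _ hmP
    refine (lintegral_mono fun ω => pair_fixed h hD hC₁ hQ2 hcard M ω i j hε hε1 hn1).trans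
      (le_of_eq ?_)
    exact lintegral_combo _ _ _ _ hR hP _ _ _
  -- budgets
  have hbR : ∑ i, ∑ j, ∫⁻ ω, IR (Nm M ω) i j ∂(Measure.pi fun _ : ι × ι => μ) ≤
      ENNReal.ofReal n := by
    rw [Finset.sum_comm]
    calc ∑ j, ∑ i, ∫⁻ ω, IR (Nm M ω) i j ∂(Measure.pi fun _ : ι × ι => μ)
        = ∑ j : ι, ∫⁻ ω, ∑ i, IR (Nm M ω) i j ∂(Measure.pi fun _ : ι × ι => μ) := by
          refine Finset.sum_congr rfl fun j _ => ?_
          rw [lintegral_finsetSum _ fun i _ => measurable_IR M i j]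
      _ ≤ ∑ _j : ι, 1 := by
          refine Finset.sum_le_sum fun j _ => ?_
          refine (lintegral_mono fun ω => sum_IR_le (Nm M ω) j).trans ?_
          simp
      _ = ENNReal.ofReal n := by simp [hn]
  have hbC : ∑ i, ∑ j, ∫⁻ ω, IC (Nm M ω) i j ∂(Measure.pi fun _ : ι × ι => μ) ≤
      ENNReal.ofReal n := by
    calc ∑ i, ∑ j, ∫⁻ ω, IC (Nm M ω) i j ∂(Measure.pi fun _ : ι × ι => μ)
        = ∑ i : ι, ∫⁻ ω, ∑ j, IC (Nm M ω) i j ∂(Measure.pi fun _ : ι × ι => μ) := by
          refine Finset.sum_congr rfl fun i _ => ?_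
          rw [lintegral_finsetSum _ fun j _ => measurable_IC M i j]
      _ ≤ ∑ _i : ι, 1 := by
          refine Finset.sum_le_sum fun i _ => ?_
          refine (lintegral_mono fun ω => sum_IC_le (Nm M ω) i).trans ?_
          simp
      _ = ENNReal.ofReal n := by simp [hn]
  have hbP : ∑ i, ∑ j, ∫⁻ ω, IC (Nm M ω) i j * ENNReal.ofReal (phi (Nm M ω) i)
      ∂(Measure.pi fun _ : ι × ι => μ) ≤ 2 := by
    calc ∑ i, ∑ j, ∫⁻ ω, IC (Nm M ω) i j * ENNReal.ofReal (phi (Nm M ω) i)
          ∂(Measure.pi fun _ : ι × ι => μ)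
        = ∫⁻ ω, ∑ i, ∑ j, IC (Nm M ω) i j * ENNReal.ofReal (phi (Nm M ω) i)
            ∂(Measure.pi fun _ : ι × ι => μ) := by
          have hm : ∀ i j, Measurable (fun ω => IC (Nm M ω) i j *
              ENNReal.ofReal (phi (Nm M ω) i)) := fun i j =>
            (measurable_IC M i j).mul (measurable_phi_Nm M i).ennreal_ofReal
          have hm2 : ∀ i, Measurable (fun ω => ∑ j, IC (Nm M ω) i j *
              ENNReal.ofReal (phi (Nm M ω) i)) := fun i =>
            Finset.measurable_fun_sum _ fun j _ => hm i j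
          rw [lintegral_finsetSum _ fun i _ => hm2 i]
          refine Finset.sum_congr rfl fun i _ => ?_
          rw [lintegral_finsetSum _ fun j _ => hm i j]
      _ ≤ ∫⁻ _, 2 ∂(Measure.pi fun _ : ι × ι => μ) := by
          refine lintegral_mono fun ω => ?_
          simp only
          simp_rw [← Finset.sum_mul]
          calc ∑ i, (∑ j, IC (Nm M ω) i j) * ENNReal.ofReal (phi (Nm M ω) i)
              ≤ ∑ i, 1 * ENNReal.ofReal (phi (Nm M ω) i) :=
                Finset.sum_le_sum fun i _ => mul_le_mul' (sum_IC_le (Nm M ω) i) le_rfl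
            _ ≤ 2 := by
                simp_rw [one_mul]
                exact sum_phi_le_enn (Nm M ω)
      _ = 2 := by simp
  calc ∑ i, ∑ j, ∫⁻ ω, ENNReal.ofReal (Fd ε (Nm M ω) i j) ∂(Measure.pi fun _ : ι × ι => μ)
      ≤ ∑ i, ∑ j, ENNReal.ofReal (Bpair K C₁ C₂ * ε) *
        (ENNReal.ofReal (1 / Real.sqrt n) *
          (∫⁻ ω, IR (Nm M ω) i j ∂(Measure.pi fun _ : ι × ι => μ) +
          ∫⁻ ω, IC (Nm M ω) i j ∂(Measure.pi fun _ : ι × ι => μ)) +
        ENNReal.ofReal (Real.sqrt n) *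
          ∫⁻ ω, IC (Nm M ω) i j * ENNReal.ofReal (phi (Nm M ω) i)
            ∂(Measure.pi fun _ : ι × ι => μ)) :=
        Finset.sum_le_sum fun i _ => Finset.sum_le_sum fun j _ => hone i j
    _ = ENNReal.ofReal (Bpair K C₁ C₂ * ε) *
        (ENNReal.ofReal (1 / Real.sqrt n) *
          (∑ i, ∑ j, ∫⁻ ω, IR (Nm M ω) i j ∂(Measure.pi fun _ : ι × ι => μ) +
          ∑ i, ∑ j, ∫⁻ ω, IC (Nm M ω) i j ∂(Measure.pi fun _ : ι × ι => μ)) +
        ENNReal.ofReal (Real.sqrt n) *
          ∑ i, ∑ j, ∫⁻ ω, IC (Nm M ω) i j * ENNReal.ofReal (phi (Nm M ω) i)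
            ∂(Measure.pi fun _ : ι × ι => μ)) := by
        simp only [← Finset.mul_sum, Finset.sum_add_distrib]
    _ ≤ ENNReal.ofReal (Bpair K C₁ C₂ * ε) *
        (ENNReal.ofReal (1 / Real.sqrt n) * (ENNReal.ofReal n + ENNReal.ofReal n) +
        ENNReal.ofReal (Real.sqrt n) * 2) := by gcongr
    _ = ENNReal.ofReal (4 * Bpair K C₁ C₂ * ε * Real.sqrt n) := by
        rw [show (2 : ℝ≥0∞) = ENNReal.ofReal 2 by simp, ← ENNReal.ofReal_add hn0.le hn0.le,
          ← ENNReal.ofReal_mul (by positivity), ← ENNReal.ofReal_mul hsn.le,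
          ← ENNReal.ofReal_add (by positivity) (by positivity),
          ← ENNReal.ofReal_mul (by positivity)]
        congr 1
        have : 1 / Real.sqrt n * (n + n) = 2 * Real.sqrt n := by
          have h1 : Real.sqrt n * Real.sqrt n = n := Real.mul_self_sqrt hn0.le
          rw [div_mul_eq_mul_div, one_mul, div_eq_iff hsn.ne']
          linarith
        rw [this]
        ring

end AsmPair2

end Pool.Agent.SMin

end
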